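import Mathlib

set_option autoImplicit false

open Filter Topology Metric Set
open scoped ENNReal

noncomputable section

namespace Pool.Agent.MP_984ac2_an

theorem hasSum_clm_apply {X Y ι : Type*} [NormedAddCommGroup X] [NormedSpace ℂ X]
    [NormedAddCommGroup Y] [NormedSpace ℂ Y] {A : ι → X →L[ℂ] Y} {S : X →L[ℂ] Y}
    (h : HasSum A S) (f : X) : HasSum (fun k => A k f) (S f) :=
  (ContinuousLinearMap.apply ℂ Y f).hasSum h

section Abstract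

variable {X : Type*} [NormedAddCommGroup X] [NormedSpace ℂ X]

/-- Terms of the abstract dilation operator. -/
def aTerm (φ : ℕ → X →L[ℂ] ℂ) (e : ℕ → X) (r : ℝ) (k : ℕ) : X →L[ℂ] X :=
  ((r ^ k : ℝ) : ℂ) • (φ k).smulRight (e k)

/-- Abstract dilation operator `∑ r^k φ_k ⊗ e_k`. -/
def aDil (φ : ℕ → X →L[ℂ] ℂ) (e : ℕ → X) (r : ℝ) : X →L[ℂ] X := ∑' k : ℕ, aTerm φ e r k

variable {φ : ℕ → X →L[ℂ] ℂ} {e : ℕ → X}

theorem norm_aTerm_le (hφ : ∀ k, ‖φ k‖ ≤ 1) (he : ∀ k, ‖e k‖ ≤ 1) {r : ℝ} (hr0 : 0 ≤ r) (k : ℕ) :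
    ‖aTerm φ e r k‖ ≤ r ^ k := by
  unfold aTerm
  rw [norm_smul, ContinuousLinearMap.norm_smulRight_apply, Complex.norm_real,
    Real.norm_of_nonneg (pow_nonneg hr0 _)]
  have h1 := hφ k
  have h2 := he k
  calc r ^ k * (‖φ k‖ * ‖e k‖) ≤ r ^ k * (1 * 1) := by gcongr
    _ = r ^ k := by ring

theorem hasSum_aDil [CompleteSpace X] (hφ : ∀ k, ‖φ k‖ ≤ 1) (he : ∀ k, ‖e k‖ ≤ 1)
    {r : ℝ} (hr0 : 0 ≤ r) (hr1 : r < 1) : HasSum (aTerm φ e r) (aDil φ e r) :=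
  (Summable.of_norm_bounded (summable_geometric_of_lt_one hr0 hr1)
    (fun k => norm_aTerm_le hφ he hr0 k)).hasSum

theorem isCompact_aTerm (r : ℝ) (k : ℕ) : IsCompactOperator (aTerm φ e r k) := by
  have h1 : IsCompactOperator (φ k) := isCompactOperator_of_locallyCompactSpace_dom _
  have h2 := h1.clm_comp (ContinuousLinearMap.toSpanSingleton ℂ (e k))
  have h3 : IsCompactOperator ((φ k).smulRight (e k)) := by
    convert! h2 using 1
  exact h3.smul _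

theorem isCompact_aDil [CompleteSpace X] (hφ : ∀ k, ‖φ k‖ ≤ 1) (he : ∀ k, ‖e k‖ ≤ 1)
    {r : ℝ} (hr0 : 0 ≤ r) (hr1 : r < 1) : IsCompactOperator (aDil φ e r) := by
  have h := hasSum_aDil hφ he hr0 hr1
  refine isCompactOperator_of_tendsto h (Eventually.of_forall fun s => ?_)
  have hmem : ∑ k ∈ s, aTerm φ e r k ∈ compactOperator (RingHom.id ℂ) X X := by
    refine Submodule.sum_mem _ fun k _ => ?_
    exact isCompact_aTerm r k
  exact hmem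

theorem aDil_e [CompleteSpace X] (hφ : ∀ k, ‖φ k‖ ≤ 1) (he : ∀ k, ‖e k‖ ≤ 1)
    (hφe : ∀ k m, φ k (e m) = if k = m then 1 else 0)
    {r : ℝ} (hr0 : 0 ≤ r) (hr1 : r < 1) (m : ℕ) :
    aDil φ e r (e m) = ((r ^ m : ℝ) : ℂ) • e m := by
  have h : HasSum (fun k => aTerm φ e r k (e m)) (aDil φ e r (e m)) :=
    hasSum_clm_apply (hasSum_aDil hφ he hr0 hr1) (e m)
  refine h.unique ?_
  have h2 : ∀ k, k ≠ m → aTerm φ e r k (e m) = 0 := by
    intro k hk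
    unfold aTerm
    rw [smul_apply, ContinuousLinearMap.smulRight_apply, hφe, if_neg hk, zero_smul, smul_zero]
  have h3 := hasSum_single m h2
  have h4 : aTerm φ e r m (e m) = ((r ^ m : ℝ) : ℂ) • e m := by
    unfold aTerm
    rw [smul_apply, ContinuousLinearMap.smulRight_apply, hφe, if_pos rfl, one_smul]
  rwa [h4] at h3

/-- A compact operator maps `e_N` to a null sequence as soon as the Cesaro means of subsequences
of `(e_N)` tend to zero. -/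
theorem tendsto_compact_of_cesaro (he : ∀ k, ‖e k‖ ≤ 1)
    (hces : ∀ φ : ℕ → ℕ, StrictMono φ →
      Tendsto (fun n : ℕ => (((n : ℝ)⁻¹ : ℝ) : ℂ) • ∑ i ∈ Finset.range n, e (φ i)) atTop (𝓝 0))
    (T : X →L[ℂ] X) (hT : IsCompactOperator T) : Tendsto (fun N => T (e N)) atTop (𝓝 0) := by
  refine tendsto_of_subseq_tendsto fun ns hns => ?_
  obtain ⟨φ, hφ, hφ2⟩ := strictMono_subseq_of_tendsto_atTop hns
  obtain ⟨K, hK, hKs⟩ := hT.image_closedBall_subset_compact (f := (T : X →ₗ[ℂ] X)) 1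
  have hmem : ∀ n, T (e (ns (φ n))) ∈ K := fun n =>
    hKs ⟨e (ns (φ n)), by simpa using he _, rfl⟩
  obtain ⟨h, _, θ, hθ, hlim⟩ := hK.tendsto_subseq hmem
  refine ⟨φ ∘ θ, ?_⟩
  have hces2 := hces (ns ∘ φ ∘ θ) (hφ2.comp hθ)
  have h1 := hlim.cesaro_smul
  have h2 : Tendsto (fun n : ℕ => T ((((n : ℝ)⁻¹ : ℝ) : ℂ) •
      ∑ i ∈ Finset.range n, e ((ns ∘ φ ∘ θ) i))) atTop
      (𝓝 (T 0)) := (T.continuous.tendsto 0).comp hces2
  have h3 : ∀ n : ℕ, T ((((n : ℝ)⁻¹ : ℝ) : ℂ) • ∑ i ∈ Finset.range n, e ((ns ∘ φ ∘ θ) i))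
      = ((n : ℝ)⁻¹) • ∑ i ∈ Finset.range n, T (e ((ns ∘ φ ∘ θ) i)) := by
    intro n
    rw [map_smul, Complex.coe_smul, map_sum]
  simp only [h3, map_zero] at h2
  have h5 : h = 0 := tendsto_nhds_unique h1 h2
  rw [h5] at hlim
  exact hlim

end Abstract

end Pool.Agent.MP_984ac2_an
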