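import Pool.Agent.MP_984ac2_an.Statement

set_option autoImplicit false

/-!
# Internal working definitions (not used by the final statements)
-/

open MeasureTheory AddCircle Filter Topology
open scoped ENNReal

noncomputable section

namespace Pool.Agent.MP_984ac2_an

/-- The Lebesgue space `L^p` of the circle with normalised Lebesgue measure. -/
abbrev LpCirc (p : ℝ≥0∞) : Type := Lp ℂ p sigma

/-- The Hardy space `H^p`, as a subspace of `LpCirc p`. -/
def Hp (p : ℝ≥0∞) [Fact (1 ≤ p)] : Submodule ℂ (LpCirc p) where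
  carrier := {f | ∀ k : ℤ, k < 0 → fourierCoeff (f : Circ → ℂ) k = 0}
  add_mem' := fun {f g} hf hg k hk => by
    rw [fourierCoeff_Lp_add, hf k hk, hg k hk, add_zero]
  zero_mem' := fun k _ => by
    have h : fourierCoeff ((0 : LpCirc p) : Circ → ℂ) k
        = fourierCoeff (0 : Circ → ℂ) k :=
      congrFun (fourierCoeff_congr_ae (Lp.coeFn_zero ℂ p sigma)) k
    rw [h]
    simp [fourierCoeff]
  smul_mem' := fun c f hf k hk => by
    rw [fourierCoeff_Lp_smul, hf k hk, smul_zero]

theorem const_mem_Hp {p : ℝ≥0∞} [Fact (1 ≤ p)] (c : ℂ) : Lp.const p sigma c ∈ Hp p :=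
  fun _ hk => fourierCoeff_Lp_const (p := p) c hk

/-- The operator `K₀`, on `Hp p`. -/
def K0H (p : ℝ≥0∞) [Fact (1 ≤ p)] : Hp p →L[ℂ] Hp p :=
  LinearMap.mkContinuous
    { toFun := fun f =>
        ⟨Lp.const p sigma (fourierCoeff ((f : LpCirc p) : Circ → ℂ) 0), const_mem_Hp _⟩
      map_add' := by
        intro f g
        apply Subtype.ext
        simp only [Submodule.coe_add, fourierCoeff_Lp_add, map_add]
      map_smul' := by
        intro c f
        apply Subtype.ext
        simp only [Submodule.coe_smul, fourierCoeff_Lp_smul, RingHom.id_apply]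
        exact (Lp.constL p sigma ℂ).map_smul c _ }
    1 (by
      intro f
      rw [one_mul]
      refine le_trans ?_ (norm_fourierCoeff_le (f : LpCirc p) 0)
      change ‖(Lp.const p sigma (fourierCoeff ((f : LpCirc p) : Circ → ℂ) 0) : LpCirc p)‖ ≤ _
      refine (Lp.norm_const_le p sigma _).trans (le_of_eq ?_)
      simp)

theorem K0_eq (p : ℝ≥0∞) [Fact (1 ≤ p)] (f : Hp p) : K0 p f = K0H p f := by
  apply Subtype.ext
  have h1 : ((K0H p f : Hp p) : LpCirc p)
      = Lp.const p sigma (fourierCoeff (f : LpCirc p) 0) := rfl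
  have h2 : Lp.const p sigma (fourierCoeff (f : LpCirc p) 0)
      = (fourierCoeff (f : LpCirc p) 0) • (Lp.const p sigma (1 : ℂ) : LpCirc p) := by
    have := (Lp.constL p sigma ℂ).map_smul (fourierCoeff (f : LpCirc p) 0) (1 : ℂ)
    rw [smul_eq_mul, mul_one] at this
    exact this
  exact (h1.trans h2).symm

/-- Working form of `bcapConst`. -/
def bcapConstant (X : Type*) [NormedAddCommGroup X] [NormedSpace ℂ X] : ℝ≥0∞ :=
  ⨅ (T : ℕ → X →L[ℂ] X) (_ : ∀ n, IsCompactOperator (T n))
    (_ : ∀ x : X, Tendsto (fun n => T n x) atTop (𝓝 x)),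
    ⨆ n, ‖ContinuousLinearMap.id ℂ X - T n‖ₑ

end Pool.Agent.MP_984ac2_an
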