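import Pool.Agent.MP_984ac2_an.MainIneq
import Pool.Agent.MP_984ac2_an.Abstract

set_option autoImplicit false

open MeasureTheory AddCircle Filter Topology Metric Set
open scoped ENNReal ComplexConjugate

noncomputable section

namespace Pool.Agent.MP_984ac2_an

variable {p : ℝ≥0∞} [Fact (1 ≤ p)]

/-- Uniformly bounded operators converging on a set with dense span converge strongly. -/
theorem tendsto_of_dense {X : Type*} [NormedAddCommGroup X] [NormedSpace ℂ X]
    (A : ℕ → X →L[ℂ] X) (B : ℝ) (hB : ∀ n, ‖A n‖ ≤ B) (S : Set X)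
    (hS : ∀ x ∈ S, Tendsto (fun n => A n x) atTop (𝓝 x))
    (hd : (Submodule.span ℂ S).topologicalClosure = ⊤) (x : X) :
    Tendsto (fun n => A n x) atTop (𝓝 x) := by
  have hspan : ∀ y ∈ Submodule.span ℂ S, Tendsto (fun n => A n y) atTop (𝓝 y) := by
    intro y hy
    induction hy using Submodule.span_induction with
    | mem y hy => exact hS y hy
    | zero => simp
    | add u v _ _ hu hv => simpa using hu.add hv
    | smul c u _ hu => simpa using hu.const_smul c
  have hx : x ∈ closure ((Submodule.span ℂ S : Submodule ℂ X) : Set X) := by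
    rw [← Submodule.topologicalClosure_coe, hd]
    trivial
  have hB0 : 0 ≤ B := (norm_nonneg _).trans (hB 0)
  rw [Metric.tendsto_atTop]
  intro ε hε
  have hδ : 0 < ε / (2 * (B + 2)) := by positivity
  obtain ⟨y, hy, hxy⟩ := Metric.mem_closure_iff.mp hx _ hδ
  obtain ⟨N, hN⟩ := Metric.tendsto_atTop.mp (hspan y hy) (ε / 2) (by positivity)
  refine ⟨N, fun n hn => ?_⟩
  have h1 := hN n hn
  rw [dist_eq_norm] at h1 hxy ⊢
  have h2 : A n x - x = A n (x - y) + (A n y - y) - (x - y) := by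
    rw [map_sub]; abel
  have h3 : ‖A n (x - y)‖ ≤ B * ‖x - y‖ :=
    (A n).le_of_opNorm_le (hB n) _
  calc ‖A n x - x‖ ≤ ‖A n (x - y)‖ + ‖A n y - y‖ + ‖x - y‖ := by
        rw [h2]
        exact (norm_sub_le _ _).trans (add_le_add (norm_add_le _ _) le_rfl)
    _ ≤ B * ‖x - y‖ + ‖A n y - y‖ + ‖x - y‖ := by gcongr
    _ = (B + 1) * ‖x - y‖ + ‖A n y - y‖ := by ring
    _ ≤ (B + 2) * (ε / (2 * (B + 2))) + ‖A n y - y‖ := by
        gcongr
        linarith
    _ = ε / 2 + ‖A n y - y‖ := by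
        field_simp
    _ < ε := by linarith

/-- The `k`-th Fourier coefficient as a continuous functional on `L^p`. -/
def coefL (p : ℝ≥0∞) [Fact (1 ≤ p)] (k : ℤ) : LpCirc p →L[ℂ] ℂ :=
  LinearMap.mkContinuous
    { toFun := fun f => fourierCoeff (f : Circ → ℂ) k
      map_add' := fun f g => fourierCoeff_Lp_add f g k
      map_smul' := fun c f => fourierCoeff_Lp_smul c f k } 1
    (fun f => by rw [one_mul]; exact norm_fourierCoeff_le f k)

theorem coefL_apply (k : ℤ) (f : LpCirc p) : coefL p k f = fourierCoeff (f : Circ → ℂ) k := rfl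

theorem norm_coefL_le (k : ℤ) : ‖coefL p k‖ ≤ 1 :=
  LinearMap.mkContinuous_norm_le _ zero_le_one _

/-- The monomial `e^{ikθ}` as an element of `L^p`. -/
abbrev eL (p : ℝ≥0∞) [Fact (1 ≤ p)] (k : ℤ) : LpCirc p := fourierLp p k

theorem coefL_eL (k m : ℤ) : coefL p k (eL p m) = if k = m then 1 else 0 := by
  rw [coefL_apply, eL, fourierLp, fourierCoeff_toLpC, fourierCoeff_fourier]
  simp [Pi.single_apply]

theorem norm_eL_le (k : ℤ) : ‖eL p k‖ ≤ 1 := by
  have h1 : (eL p k : Circ → ℂ) =ᵐ[sigma] fourier k := coeFn_fourierLp p k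
  rw [Lp.norm_def, eLpNorm_congr_ae h1]
  have h2 : eLpNorm (fourier k : Circ → ℂ) p sigma ≤ 1 := by
    refine (eLpNorm_le_of_ae_bound (C := 1) (Eventually.of_forall fun x => ?_)).trans ?_
    · rw [fourier_eq_zpow, norm_zpow, norm_z, one_zpow]
    · simp
  exact (ENNReal.toReal_mono ENNReal.one_ne_top h2).trans (by simp)

theorem isClosed_Hp : IsClosed ((Hp p : Submodule ℂ (LpCirc p)) : Set (LpCirc p)) := by
  have h : ((Hp p : Submodule ℂ (LpCirc p)) : Set (LpCirc p))
      = ⋂ (k : ℤ) (_ : k < 0), {f | coefL p k f = 0} := by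
    ext f
    simp only [SetLike.mem_coe, Set.mem_iInter, Set.mem_ofPred_eq]
    rfl
  rw [h]
  exact isClosed_iInter fun k => isClosed_iInter fun _ =>
    isClosed_eq (coefL p k).continuous continuous_const

instance completeSpace_Hp : CompleteSpace (Hp p) :=
  (isClosed_Hp (p := p)).completeSpace_coe

theorem eL_mem_Hp (k : ℕ) : eL p (k : ℤ) ∈ Hp p := by
  intro m hm
  have h := coefL_eL (p := p) m (k : ℤ)
  rw [coefL_apply] at h
  rw [h, if_neg (by omega)]

/-- The monomial `e^{ikθ}`, `k ≥ 0`, as an element of `H^p`. -/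
def E (p : ℝ≥0∞) [Fact (1 ≤ p)] (k : ℕ) : Hp p := ⟨eL p (k : ℤ), eL_mem_Hp k⟩

theorem norm_E_le (k : ℕ) : ‖E p k‖ ≤ 1 := norm_eL_le (p := p) (k : ℤ)

/-! ### Abel means on `L^p` -/

/-- The terms of the Abel mean. -/
def abelTerm (p : ℝ≥0∞) [Fact (1 ≤ p)] (r : ℝ) (k : ℤ) : LpCirc p →L[ℂ] LpCirc p :=
  ((r ^ k.natAbs : ℝ) : ℂ) • (coefL p k).smulRight (eL p k)

theorem norm_abelTerm_le {r : ℝ} (hr0 : 0 ≤ r) (k : ℤ) : ‖abelTerm p r k‖ ≤ r ^ k.natAbs := by
  unfold abelTerm
  rw [norm_smul, ContinuousLinearMap.norm_smulRight_apply, Complex.norm_real,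
    Real.norm_of_nonneg (pow_nonneg hr0 _)]
  have h1 := norm_coefL_le (p := p) k
  have h2 := norm_eL_le (p := p) k
  calc r ^ k.natAbs * (‖coefL p k‖ * ‖eL p k‖) ≤ r ^ k.natAbs * (1 * 1) := by gcongr
    _ = r ^ k.natAbs := by ring

theorem summable_abs_pow {r : ℝ} (hr0 : 0 ≤ r) (hr1 : r < 1) :
    Summable (fun k : ℤ => r ^ k.natAbs) := by
  rw [summable_int_iff_summable_nat_and_neg]
  constructor <;> simpa using summable_geometric_of_lt_one hr0 hr1

theorem summable_abelTerm {r : ℝ} (hr0 : 0 ≤ r) (hr1 : r < 1) :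
    Summable (abelTerm p r) :=
  Summable.of_norm_bounded (summable_abs_pow hr0 hr1) (fun k => norm_abelTerm_le hr0 k)

/-- The Abel mean (Poisson integral) operator on `L^p`. -/
def abelOp (p : ℝ≥0∞) [Fact (1 ≤ p)] (r : ℝ) : LpCirc p →L[ℂ] LpCirc p := ∑' k : ℤ, abelTerm p r k

theorem hasSum_abelOp {r : ℝ} (hr0 : 0 ≤ r) (hr1 : r < 1) (f : LpCirc p) :
    HasSum (fun k => abelTerm p r k f) (abelOp p r f) :=
  hasSum_clm_apply (summable_abelTerm (p := p) hr0 hr1).hasSum f

theorem abelOp_eL {r : ℝ} (hr0 : 0 ≤ r) (hr1 : r < 1) (m : ℤ) :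
    abelOp p r (eL p m) = ((r ^ m.natAbs : ℝ) : ℂ) • eL p m := by
  have h := hasSum_abelOp (p := p) hr0 hr1 (eL p m)
  refine h.unique ?_
  have h2 : ∀ k, k ≠ m → abelTerm p r k (eL p m) = 0 := by
    intro k hk
    unfold abelTerm
    simp only [smul_apply, ContinuousLinearMap.smulRight_apply, coefL_eL,
      if_neg hk, zero_smul, smul_zero]
  have h3 := hasSum_single m h2
  have h4 : abelTerm p r m (eL p m) = ((r ^ m.natAbs : ℝ) : ℂ) • eL p m := by
    unfold abelTerm
    simp only [smul_apply, ContinuousLinearMap.smulRight_apply, coefL_eL,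
      if_true, one_smul]
  rwa [h4] at h3

/-- The Poisson integral of a continuous function. -/
def poissonC {r : ℝ} (hr0 : 0 ≤ r) (hr1 : r < 1) (G : C(Circ, ℂ)) : C(Circ, ℂ) where
  toFun x := ∫ y, (P (r * z x) y : ℂ) * G y ∂sigma
  continuous_toFun := by
    have h : Continuous (Function.uncurry fun x y : Circ => (P (r * z x) y : ℂ) * G y) :=
      (Complex.continuous_ofReal.comp (continuous_K hr0 hr1)).mul
        (G.continuous.comp continuous_snd)
    have := continuous_parametric_integral_of_continuous (μ := sigma) h isCompact_univ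
    simpa using this

theorem norm_poissonC_le (hp : p ≠ ∞) {r : ℝ} (hr0 : 0 ≤ r) (hr1 : r < 1) (G : C(Circ, ℂ)) :
    ‖toLpC p (poissonC hr0 hr1 G)‖ ≤ ‖toLpC p G‖ := by
  have hpr := one_le_toReal hp
  have hp0 : 0 < p.toReal := by linarith
  have hcont : Continuous (fun x => ‖G x‖ ^ p.toReal) :=
    G.continuous.norm.rpow_const fun _ => Or.inr hp0.le
  have h : ‖toLpC p (poissonC hr0 hr1 G)‖ ^ p.toReal ≤ ‖toLpC p G‖ ^ p.toReal := by
    rw [norm_toLpC_rpow hp, norm_toLpC_rpow hp, ← average_weight hr0 hr1 hcont]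
    refine integral_mono ?_ ?_ ?_
    · exact integrable_of_continuous
        ((poissonC hr0 hr1 G).continuous.norm.rpow_const fun _ => Or.inr hp0.le)
    · have hΨ : Continuous (fun q : Circ × Circ => P (r * z q.1) q.2 * ‖G q.2‖ ^ p.toReal) :=
        (continuous_K hr0 hr1).mul (hcont.comp continuous_snd)
      exact (integrable_prod hΨ).integral_prod_left
    · intro x
      have ha := norm_rz_lt hr0 hr1 x
      exact jensen_density (continuous_P ha) (fun y => (P_pos ha y).le) (integral_P ha) hpr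
        G.continuous
  exact (Real.rpow_le_rpow_iff (norm_nonneg _) (norm_nonneg _) hp0).mp h

theorem poissonC_fourier {r : ℝ} (hr0 : 0 ≤ r) (hr1 : r < 1) (m : ℤ) :
    poissonC hr0 hr1 (fourier m) = ((r ^ m.natAbs : ℝ) : ℂ) • (fourier m : C(Circ, ℂ)) := by
  ext x
  have ha := norm_rz_lt hr0 hr1 x
  have hnat : ∀ k : ℕ, ∫ y, (P (r * z x) y : ℂ) * (z y) ^ k ∂sigma = (r * z x) ^ k := by
    intro k
    have h1 : DiffContOnCl ℂ (fun w : ℂ => w ^ k) (ball 0 1) :=
      (differentiable_id.pow k).diffContOnCl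
    exact poisson_formula h1 ha
  have hconj : ∀ x : Circ, ∀ k : ℕ, (z x) ^ (-(k : ℤ)) = conj ((z x) ^ k) := by
    intro x k
    have h1 : (z x)⁻¹ = conj (z x) := by
      rw [Complex.inv_def, Complex.normSq_eq_norm_sq, norm_z]
      simp
    rw [zpow_neg, zpow_natCast, ← inv_pow, h1, map_pow]
  change ∫ y, (P (r * z x) y : ℂ) * fourier m y ∂sigma = ((r ^ m.natAbs : ℝ) : ℂ) * fourier m x
  simp only [fourier_eq_zpow]
  obtain ⟨k, rfl | rfl⟩ := m.eq_nat_or_neg
  · simp only [zpow_natCast, Int.natAbs_natCast]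
    rw [hnat k]
    push_cast
    ring
  · simp only [hconj, Int.natAbs_neg, Int.natAbs_natCast]
    have h2 : ∫ y, (P (r * z x) y : ℂ) * conj ((z y) ^ k) ∂sigma
        = conj (∫ y, (P (r * z x) y : ℂ) * (z y) ^ k ∂sigma) := by
      rw [← integral_conj]
      refine integral_congr_ae (Eventually.of_forall fun y => ?_)
      simp
    rw [h2, hnat k]
    push_cast
    simp only [map_pow, map_mul, Complex.conj_ofReal]
    ring

theorem poissonC_add {r : ℝ} (hr0 : 0 ≤ r) (hr1 : r < 1) (G H : C(Circ, ℂ)) :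
    poissonC hr0 hr1 (G + H) = poissonC hr0 hr1 G + poissonC hr0 hr1 H := by
  ext x
  have ha := norm_rz_lt hr0 hr1 x
  have hP : Continuous (fun y => (P (r * z x) y : ℂ)) :=
    Complex.continuous_ofReal.comp (continuous_P ha)
  change ∫ y, (P (r * z x) y : ℂ) * (G + H) y ∂sigma
    = ∫ y, (P (r * z x) y : ℂ) * G y ∂sigma + ∫ y, (P (r * z x) y : ℂ) * H y ∂sigma
  have h := integral_add (μ := sigma) (f := fun y => (P (r * z x) y : ℂ) * G y)
    (g := fun y => (P (r * z x) y : ℂ) * H y)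
    (integrable_of_continuous (hP.mul G.continuous))
    (integrable_of_continuous (hP.mul H.continuous))
  rw [← h]
  refine integral_congr_ae (Eventually.of_forall fun y => ?_)
  simp [mul_add]

theorem poissonC_smul {r : ℝ} (hr0 : 0 ≤ r) (hr1 : r < 1) (c : ℂ) (G : C(Circ, ℂ)) :
    poissonC hr0 hr1 (c • G) = c • poissonC hr0 hr1 G := by
  ext x
  change ∫ y, (P (r * z x) y : ℂ) * (c • G) y ∂sigma
    = c * ∫ y, (P (r * z x) y : ℂ) * G y ∂sigma
  rw [← integral_const_mul]
  refine integral_congr_ae (Eventually.of_forall fun y => ?_)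
  simp only [ContinuousMap.smul_apply, smul_eq_mul]
  ring

theorem abelOp_toLpC {r : ℝ} (hr0 : 0 ≤ r) (hr1 : r < 1) (G : C(Circ, ℂ))
    (hG : G ∈ Submodule.span ℂ (range (@fourier (2 * Real.pi)))) :
    abelOp p r (toLpC p G) = toLpC p (poissonC hr0 hr1 G) := by
  induction hG using Submodule.span_induction with
  | mem G hG =>
    obtain ⟨m, rfl⟩ := hG
    have h := abelOp_eL (p := p) hr0 hr1 m
    have h2 : toLpC p (((r ^ m.natAbs : ℝ) : ℂ) • (fourier m : C(Circ, ℂ)))
        = ((r ^ m.natAbs : ℝ) : ℂ) • eL p m := map_smul _ _ _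
    rw [poissonC_fourier, h2]
    exact h
  | zero =>
    have h0 : poissonC hr0 hr1 (0 : C(Circ, ℂ)) = 0 := by
      ext x
      change ∫ y, (P (r * z x) y : ℂ) * (0 : C(Circ, ℂ)) y ∂sigma = 0
      simp
    rw [h0, toLpC, map_zero, map_zero]
  | add G H _ _ hG hH =>
    have h1 : ∀ G H : C(Circ, ℂ), toLpC p (G + H) = toLpC p G + toLpC p H :=
      fun G H => map_add _ _ _
    rw [poissonC_add, h1, h1, map_add, hG, hH]
  | smul c G _ hG =>
    have h1 : ∀ G : C(Circ, ℂ), toLpC p (c • G) = c • toLpC p G := fun G => map_smul _ _ _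
    rw [poissonC_smul, h1, h1, map_smul, hG]

theorem norm_abelOp_le (hp : p ≠ ∞) {r : ℝ} (hr0 : 0 ≤ r) (hr1 : r < 1) : ‖abelOp p r‖ ≤ 1 := by
  refine ContinuousLinearMap.opNorm_le_bound _ zero_le_one fun f => ?_
  rw [one_mul]
  have hclosed : IsClosed {f : LpCirc p | ‖abelOp p r f‖ ≤ ‖f‖} :=
    isClosed_le (abelOp p r).continuous.norm continuous_norm
  have hsub : ((Submodule.span ℂ (range (@fourierLp (2 * Real.pi) _ p _)) :
      Submodule ℂ (LpCirc p)) : Set (LpCirc p)) ⊆ {f : LpCirc p | ‖abelOp p r f‖ ≤ ‖f‖} := by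
    intro f hf
    have h1 : range (@fourierLp (2 * Real.pi) _ p _)
        = (ContinuousMap.toLp (E := ℂ) p sigma ℂ : C(Circ, ℂ) →L[ℂ] LpCirc p) ''
          range (@fourier (2 * Real.pi)) := by
      rw [← range_comp]
      rfl
    rw [h1] at hf
    have h2 := (Submodule.map_span
      ((ContinuousMap.toLp (E := ℂ) p sigma ℂ : C(Circ, ℂ) →L[ℂ] LpCirc p) :
        C(Circ, ℂ) →ₗ[ℂ] LpCirc p) (range (@fourier (2 * Real.pi))))
    have h3 : f ∈ Submodule.map ((ContinuousMap.toLp (E := ℂ) p sigma ℂ :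
        C(Circ, ℂ) →L[ℂ] LpCirc p) : C(Circ, ℂ) →ₗ[ℂ] LpCirc p)
        (Submodule.span ℂ (range (@fourier (2 * Real.pi)))) := by
      rw [h2]
      exact hf
    obtain ⟨G, hG, rfl⟩ := h3
    change ‖abelOp p r (toLpC p G)‖ ≤ ‖toLpC p G‖
    rw [abelOp_toLpC hr0 hr1 G hG]
    exact norm_poissonC_le hp hr0 hr1 G
  have h2 : f ∈ closure ((Submodule.span ℂ (range (@fourierLp (2 * Real.pi) _ p _)) :
      Submodule ℂ (LpCirc p)) : Set (LpCirc p)) := by
    rw [← Submodule.topologicalClosure_coe, span_fourierLp_closure_eq_top hp]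
    trivial
  exact (closure_minimal hsub hclosed) h2

/-- A sequence increasing to `1`. -/
def rs (n : ℕ) : ℝ := 1 - 1 / ((n : ℝ) + 2)

theorem rs_nonneg (n : ℕ) : 0 ≤ rs n := by
  unfold rs
  have : (0 : ℝ) ≤ n := Nat.cast_nonneg n
  rw [sub_nonneg, div_le_one (by linarith)]
  linarith

theorem rs_lt_one (n : ℕ) : rs n < 1 := by
  unfold rs
  have : (0 : ℝ) ≤ n := Nat.cast_nonneg n
  have : (0 : ℝ) < 1 / ((n : ℝ) + 2) := by positivity
  linarith

theorem tendsto_rs : Tendsto rs atTop (𝓝 1) := by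
  unfold rs
  have h : Tendsto (fun n : ℕ => 1 / ((n : ℝ) + 2)) atTop (𝓝 0) := by
    refine tendsto_const_nhds.div_atTop ?_
    exact tendsto_atTop_add_const_right _ _ tendsto_natCast_atTop_atTop
  simpa using (tendsto_const_nhds (x := (1 : ℝ))).sub h

theorem tendsto_abelOp (hp : p ≠ ∞) (f : LpCirc p) :
    Tendsto (fun n => abelOp p (rs n) f) atTop (𝓝 f) := by
  refine tendsto_of_dense (fun n => abelOp p (rs n)) 1
    (fun n => norm_abelOp_le hp (rs_nonneg n) (rs_lt_one n))
    (range (@fourierLp (2 * Real.pi) _ p _)) ?_ (span_fourierLp_closure_eq_top hp) f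
  rintro _ ⟨m, rfl⟩
  have h1 : Tendsto (fun n => ((rs n ^ m.natAbs : ℝ) : ℂ) • eL p m) atTop
      (𝓝 (((1 ^ m.natAbs : ℝ) : ℂ) • eL p m)) := by
    refine Tendsto.smul_const ?_ _
    exact (Complex.continuous_ofReal.tendsto _).comp (tendsto_rs.pow _)
  simp only [one_pow, Complex.ofReal_one, one_smul] at h1
  refine h1.congr fun n => ?_
  exact (abelOp_eL (rs_nonneg n) (rs_lt_one n) m).symm

/-- Analytic polynomials are dense in `H^p`. -/
theorem dense_E (hp : p ≠ ∞) : (Submodule.span ℂ (range (E p))).topologicalClosure = ⊤ := by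
  rw [Submodule.eq_top_iff']
  intro f
  rw [← SetLike.mem_coe, Submodule.topologicalClosure_coe]
  let V : Submodule ℂ (LpCirc p) := (Submodule.span ℂ (range (E p))).map (Hp p).subtype
  -- Abel means of `f` are in the closure of `V`
  have h1 : ∀ n, abelOp p (rs n) (f : LpCirc p) ∈ V.topologicalClosure := by
    intro n
    have hs := hasSum_abelOp (p := p) (rs_nonneg n) (rs_lt_one n) (f : LpCirc p)
    refine V.isClosed_topologicalClosure.mem_of_tendsto hs (Eventually.of_forall fun s => ?_)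
    refine V.topologicalClosure.sum_mem fun k _ => V.le_topologicalClosure ?_
    unfold abelTerm
    simp only [smul_apply, ContinuousLinearMap.smulRight_apply]
    refine V.smul_mem _ ?_
    rcases lt_or_ge k 0 with hk | hk
    · have : coefL p k (f : LpCirc p) = 0 := f.2 k hk
      rw [this, zero_smul]
      exact V.zero_mem
    · refine V.smul_mem _ ?_
      obtain ⟨m, rfl⟩ := Int.eq_ofNat_of_zero_le hk
      exact ⟨E p m, Submodule.subset_span ⟨m, rfl⟩, rfl⟩
  have h2 : (f : LpCirc p) ∈ V.topologicalClosure :=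
    V.isClosed_topologicalClosure.mem_of_tendsto (tendsto_abelOp hp (f : LpCirc p))
      (Eventually.of_forall h1)
  rw [← SetLike.mem_coe, Submodule.topologicalClosure_coe] at h2
  rw [Metric.mem_closure_iff] at h2 ⊢
  intro ε hε
  obtain ⟨_, ⟨g, hg, rfl⟩, hd⟩ := h2 ε hε
  exact ⟨g, hg, hd⟩

end Pool.Agent.MP_984ac2_an
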