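import Pool.Agent.MP_984ac2_an.Upper

set_option autoImplicit false

open MeasureTheory AddCircle Filter Topology Metric Set
open scoped ENNReal ComplexConjugate

noncomputable section

namespace Pool.Agent.MP_984ac2_an

variable {p : ℝ≥0∞} [Fact (1 ≤ p)]

/-! ### Cesaro means of lacunary-free subsequences of monomials tend to zero -/

/-- Cesaro mean of `fourier (φ i)`. -/
def cesC (φ : ℕ → ℕ) (n : ℕ) : C(Circ, ℂ) :=
  ((n : ℝ)⁻¹ : ℂ) • ∑ i ∈ Finset.range n, fourier ((φ i : ℕ) : ℤ)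

theorem norm_cesC_le (φ : ℕ → ℕ) (n : ℕ) (x : Circ) : ‖cesC φ n x‖ ≤ 1 := by
  unfold cesC
  rw [ContinuousMap.smul_apply, ContinuousMap.sum_apply, norm_smul]
  have h1 : ‖∑ i ∈ Finset.range n, (fourier ((φ i : ℕ) : ℤ) : C(Circ, ℂ)) x‖ ≤ n := by
    refine (norm_sum_le _ _).trans ?_
    have : ∀ i ∈ Finset.range n, ‖(fourier ((φ i : ℕ) : ℤ) : C(Circ, ℂ)) x‖ = 1 := by
      intro i _
      rw [fourier_eq_zpow, norm_zpow, norm_z, one_zpow]
    rw [Finset.sum_congr rfl this]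
    simp
  have h2 : ‖((n : ℝ)⁻¹ : ℂ)‖ = (n : ℝ)⁻¹ := by
    simp
  rw [h2]
  rcases Nat.eq_zero_or_pos n with rfl | hn
  · simp
  · have hn' : (0 : ℝ) < n := by exact_mod_cast hn
    calc (n : ℝ)⁻¹ * _ ≤ (n : ℝ)⁻¹ * n := by gcongr
      _ = 1 := inv_mul_cancel₀ hn'.ne'

theorem integral_sq_cesC {φ : ℕ → ℕ} (hφ : StrictMono φ) (n : ℕ) :
    ∫ x, ‖cesC φ n x‖ ^ (2 : ℝ) ∂sigma = (n : ℝ)⁻¹ := by
  have h2 : (2 : ℝ≥0∞).toReal = 2 := by simp
  have h := norm_toLpC_rpow (p := 2) (by simp) (cesC φ n)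
  rw [h2] at h
  rw [← h]
  have horth : Orthonormal ℂ (fun i : ℕ => (fourierLp 2 ((φ i : ℕ) : ℤ) : LpCirc 2)) := by
    have hinj : Function.Injective (fun i : ℕ => ((φ i : ℕ) : ℤ)) := by
      intro i j hij
      have hij' : ((φ i : ℕ) : ℤ) = ((φ j : ℕ) : ℤ) := hij
      exact hφ.injective (by exact_mod_cast hij')
    exact orthonormal_fourier.comp _ hinj
  have h3 : toLpC 2 (cesC φ n)
      = ∑ i ∈ Finset.range n, ((n : ℝ)⁻¹ : ℂ) • (fourierLp 2 ((φ i : ℕ) : ℤ) : LpCirc 2) := by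
    rw [← Finset.smul_sum]
    unfold cesC toLpC
    rw [map_smul, map_sum]
  have h4 := horth.inner_sum (fun _ => ((n : ℝ)⁻¹ : ℂ)) (fun _ => ((n : ℝ)⁻¹ : ℂ))
    (Finset.range n)
  rw [← h3] at h4
  rw [inner_self_eq_norm_sq_to_K] at h4
  have h5 : ((‖toLpC 2 (cesC φ n)‖ ^ 2 : ℝ) : ℂ) = ((n : ℝ)⁻¹ : ℂ) := by
    have h6 : (∑ i ∈ Finset.range n, conj ((n : ℝ)⁻¹ : ℂ) * ((n : ℝ)⁻¹ : ℂ))
        = ((n : ℝ)⁻¹ : ℂ) := by
      rw [Finset.sum_const, Finset.card_range, nsmul_eq_mul]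
      rcases Nat.eq_zero_or_pos n with rfl | hn
      · simp
      · have hn' : (n : ℂ) ≠ 0 := by exact_mod_cast hn.ne'
        simp only [map_inv₀, Complex.conj_ofReal]
        push_cast
        field_simp
    rw [h6] at h4
    rw [← h4]
    push_cast
    rfl
  have h7 : ‖toLpC 2 (cesC φ n)‖ ^ 2 = (n : ℝ)⁻¹ := by
    have : ((‖toLpC 2 (cesC φ n)‖ ^ 2 : ℝ) : ℂ) = (((n : ℝ)⁻¹ : ℝ) : ℂ) := by
      rw [h5]; push_cast; rfl
    exact_mod_cast this
  rw [← h7]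
  norm_cast

theorem norm_cesC_rpow_le (hp : p ≠ ∞) {φ : ℕ → ℕ} (hφ : StrictMono φ) (n : ℕ) :
    ‖toLpC p (cesC φ n)‖ ^ p.toReal ≤ ((n : ℝ)⁻¹) ^ (1 / 2 : ℝ) := by
  have hpr := one_le_toReal hp
  rw [norm_toLpC_rpow hp]
  have h1 : ∫ x, ‖cesC φ n x‖ ^ p.toReal ∂sigma ≤ ∫ x, ‖cesC φ n x‖ ∂sigma := by
    refine integral_mono ?_ ?_ fun x => ?_
    · exact integrable_of_continuous
        ((cesC φ n).continuous.norm.rpow_const fun _ => Or.inr (by linarith))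
    · exact integrable_of_continuous (cesC φ n).continuous.norm
    · calc ‖cesC φ n x‖ ^ p.toReal ≤ ‖cesC φ n x‖ ^ (1 : ℝ) :=
            Real.rpow_le_rpow_of_exponent_ge' (norm_nonneg _) (norm_cesC_le φ n x) zero_le_one hpr
        _ = ‖cesC φ n x‖ := Real.rpow_one _
  refine h1.trans ?_
  have h2 := jensen_density (k := fun _ => 1) continuous_const (fun _ => zero_le_one)
    (by simp) (q := 2) (by norm_num) (F := fun x => ((‖cesC φ n x‖ : ℝ) : ℂ))
    (Complex.continuous_ofReal.comp (cesC φ n).continuous.norm)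
  have h3 : ∫ x, (((1 : ℝ)) : ℂ) * ((‖cesC φ n x‖ : ℝ) : ℂ) ∂sigma
      = ((∫ x, ‖cesC φ n x‖ ∂sigma : ℝ) : ℂ) := by
    rw [← integral_complex_ofReal]
    refine integral_congr_ae (Eventually.of_forall fun x => ?_)
    simp
  have hnn : 0 ≤ ∫ x, ‖cesC φ n x‖ ∂sigma := integral_nonneg fun x => norm_nonneg _
  rw [h3, Complex.norm_real, Real.norm_of_nonneg hnn] at h2
  have h4 : ∫ x, (1 : ℝ) * ‖((‖cesC φ n x‖ : ℝ) : ℂ)‖ ^ (2 : ℝ) ∂sigma = (n : ℝ)⁻¹ := by
    rw [← integral_sq_cesC hφ n]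
    refine integral_congr_ae (Eventually.of_forall fun x => ?_)
    simp
  rw [h4] at h2
  have h5 := Real.rpow_le_rpow (Real.rpow_nonneg hnn _) h2 (by norm_num : (0 : ℝ) ≤ 1 / 2)
  rw [← Real.rpow_mul hnn] at h5
  norm_num at h5
  simpa using h5

theorem tendsto_cesC (hp : p ≠ ∞) {φ : ℕ → ℕ} (hφ : StrictMono φ) :
    Tendsto (fun n => toLpC p (cesC φ n)) atTop (𝓝 0) := by
  have hpr := one_le_toReal hp
  have hp0 : 0 < p.toReal := by linarith
  rw [tendsto_zero_iff_norm_tendsto_zero]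
  have h1 : Tendsto (fun n : ℕ => (((n : ℝ)⁻¹) ^ (1 / 2 : ℝ)) ^ (p.toReal)⁻¹) atTop (𝓝 0) := by
    have h2 : Tendsto (fun n : ℕ => (n : ℝ)⁻¹) atTop (𝓝 0) := tendsto_inv_atTop_nhds_zero_nat
    have h3 := (h2.rpow_const (p := 1 / 2) (Or.inr (by norm_num)))
    have h4 := h3.rpow_const (p := (p.toReal)⁻¹) (Or.inr (by positivity))
    have h5 : ((0 : ℝ) ^ (1 / 2 : ℝ)) ^ (p.toReal)⁻¹ = 0 := by
      rw [Real.zero_rpow (by norm_num), Real.zero_rpow (by positivity)]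
    rwa [h5] at h4
  refine squeeze_zero (fun n => norm_nonneg _) (fun n => ?_) h1
  have h2 := Real.rpow_le_rpow (Real.rpow_nonneg (norm_nonneg _) _)
    (norm_cesC_rpow_le hp hφ n) (by positivity : (0 : ℝ) ≤ (p.toReal)⁻¹)
  rwa [← Real.rpow_mul (norm_nonneg _), mul_inv_cancel₀ hp0.ne', Real.rpow_one] at h2

theorem tendsto_cesaro_E (hp : p ≠ ∞) {φ : ℕ → ℕ} (hφ : StrictMono φ) :
    Tendsto (fun n : ℕ => (((n : ℝ)⁻¹ : ℝ) : ℂ) • ∑ i ∈ Finset.range n, E p (φ i)) atTop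
      (𝓝 0) := by
  have h1 := tendsto_cesC (p := p) hp hφ
  rw [tendsto_zero_iff_norm_tendsto_zero] at h1 ⊢
  refine h1.congr fun n => ?_
  have h2 : ((((((n : ℝ)⁻¹ : ℝ) : ℂ) • ∑ i ∈ Finset.range n, E p (φ i) : Hp p)) : LpCirc p)
      = toLpC p (cesC φ n) := by
    unfold cesC toLpC
    rw [map_smul, map_sum, Submodule.coe_smul]
    congr 1
    · push_cast; rfl
    · rw [AddSubmonoidClass.coe_finsetSum]
      rfl
  rw [← h2]
  rfl

/-- A compact operator on `H^p` maps the monomials to a null sequence. -/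
theorem tendsto_compact_E (hp : p ≠ ∞) (T : Hp p →L[ℂ] Hp p) (hT : IsCompactOperator T) :
    Tendsto (fun N => T (E p N)) atTop (𝓝 0) :=
  tendsto_compact_of_cesaro (X := Hp p) (e := E p) (fun k => norm_E_le k)
    (fun _ hφ => tendsto_cesaro_E hp hφ) T hT

/-! ### The substitution `f ↦ f(z^N)` -/

theorem integral_zsmul {N : ℕ} (hN : N ≠ 0) {G : Circ → ℝ} (hG : Continuous G) :
    ∫ x, G ((N : ℤ) • x) ∂sigma = ∫ x, G x ∂sigma := by
  have h := Measure.measurePreserving_zsmul (G := Circ) sigma (n := (N : ℤ)) (by exact_mod_cast hN)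
  have h2 : ∫ y, G y ∂(Measure.map (fun g : Circ => (N : ℤ) • g) sigma)
      = ∫ x, G ((N : ℤ) • x) ∂sigma :=
    integral_map h.measurable.aemeasurable hG.aestronglyMeasurable
  rw [← h2, h.map_eq]

theorem z_zsmul (N : ℕ) (x : Circ) : z ((N : ℤ) • x) = z x ^ N := by
  unfold z
  rw [toCircle_zsmul]
  simp

theorem norm_ofPoly_expand (hp : p ≠ ∞) {N : ℕ} (hN : N ≠ 0) (Q : Polynomial ℂ) :
    ‖ofPoly p (Polynomial.expand ℂ N Q)‖ = ‖ofPoly p Q‖ := by
  have hpr := one_le_toReal hp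
  have hp0 : 0 < p.toReal := by linarith
  have h : ‖toLpC p (polyC (Polynomial.expand ℂ N Q))‖ ^ p.toReal
      = ‖toLpC p (polyC Q)‖ ^ p.toReal := by
    rw [norm_toLpC_rpow hp, norm_toLpC_rpow hp]
    have hc : Continuous (fun x => ‖polyC Q x‖ ^ p.toReal) :=
      (polyC Q).continuous.norm.rpow_const fun _ => Or.inr hp0.le
    rw [← integral_zsmul hN hc]
    refine integral_congr_ae (Eventually.of_forall fun x => ?_)
    simp only [polyC_apply, Polynomial.expand_eval, z_zsmul]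
  have h2 := (Real.rpow_left_inj (norm_nonneg _) (norm_nonneg _) hp0.ne').mp h
  exact h2

theorem tendsto_compact_expand (hp : p ≠ ∞) (T : Hp p →L[ℂ] Hp p) (hT : IsCompactOperator T)
    (Q : Polynomial ℂ) :
    Tendsto (fun N : ℕ => T (ofPoly p (Polynomial.expand ℂ N Q) - Q.coeff 0 • E p 0)) atTop
      (𝓝 0) := by
  induction Q using Polynomial.induction_on' with
  | add Q R hQ hR =>
    have h := hQ.add hR
    rw [add_zero] at h
    refine h.congr fun N => ?_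
    rw [← map_add]
    congr 1
    rw [map_add, ofPoly_add, Polynomial.coeff_add, add_smul]
    abel
  | monomial k c =>
    rcases Nat.eq_zero_or_pos k with rfl | hk
    · refine tendsto_const_nhds.congr fun N => ?_
      rw [Polynomial.expand_monomial, Nat.zero_mul, ofPoly_monomial, Polynomial.coeff_monomial,
        if_pos rfl, sub_self, map_zero]
    · have h1 : Tendsto (fun N : ℕ => k * N) atTop atTop :=
        tendsto_id.const_mul_atTop' hk
      have h2 := ((tendsto_compact_E hp T hT).comp h1).const_smul c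
      rw [smul_zero] at h2
      refine h2.congr fun N => ?_
      rw [Polynomial.expand_monomial, ofPoly_monomial, Polynomial.coeff_monomial,
        if_neg hk.ne', zero_smul, sub_zero, map_smul]
      rfl

theorem K0H_ofPoly (Q : Polynomial ℂ) : K0H p (ofPoly p Q) = Q.coeff 0 • E p 0 := by
  apply Subtype.ext
  rw [K0H_apply_coe, coe_ofPoly, fourierCoeff_toLpC,
    fourierCoeff_zero_of_diffContOnCl (F := fun w => Q.eval w) Q.differentiable.diffContOnCl
      (polyC Q) (fun _ => rfl), ← Polynomial.coeff_zero_eq_eval_zero]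
  have h : ((Q.coeff 0 • E p 0 : Hp p) : LpCirc p) = toLpC p (Q.coeff 0 • fourier 0) := by
    rw [toLpC, map_smul]
    rfl
  rw [h]
  have h2 : (Q.coeff 0 • fourier 0 : C(Circ, ℂ)) = ContinuousMap.const Circ (Q.coeff 0) := by
    ext x
    simp
  rw [h2]
  rfl

theorem lower_poly (hp : p ≠ ∞) (T : ℕ → Hp p →L[ℂ] Hp p) (hT : ∀ n, IsCompactOperator (T n))
    (hconv : ∀ x, Tendsto (fun n => T n x) atTop (𝓝 x)) {s : ℝ}
    (hs : ∀ n, ‖ContinuousLinearMap.id ℂ (Hp p) - T n‖ ≤ s) (Q : Polynomial ℂ) :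
    ‖ofPoly p Q - K0H p (ofPoly p Q)‖ ≤ s * ‖ofPoly p Q‖ := by
  set c : ℂ := Q.coeff 0 with hc
  have hQ0 : Q.coeff 0 • E p 0 = ofPoly p (Polynomial.C (Q.coeff 0)) := by
    rw [← Polynomial.monomial_zero_left, ofPoly_monomial]
  -- for fixed `n` and all large `N`
  have h1 : ∀ n, ∀ N : ℕ, N ≠ 0 → ‖ofPoly p Q - K0H p (ofPoly p Q)‖
      ≤ s * ‖ofPoly p Q‖ + ‖T n (c • E p 0) - c • E p 0‖
        + ‖T n (ofPoly p (Polynomial.expand ℂ N Q) - c • E p 0)‖ := by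
    intro n N hN
    set g : Hp p := ofPoly p (Polynomial.expand ℂ N Q) with hg
    have e1 : ‖ofPoly p Q - K0H p (ofPoly p Q)‖ = ‖g - c • E p 0‖ := by
      have e2 : g - c • E p 0
          = ofPoly p (Polynomial.expand ℂ N (Q - Polynomial.C (Q.coeff 0))) := by
        rw [map_sub, ofPoly_sub, Polynomial.expand_C, ← hQ0]
      rw [e2, norm_ofPoly_expand hp hN, ofPoly_sub, K0H_ofPoly, ← hQ0]
    have e3 : g - c • E p 0 = (g - T n g) + ((T n (c • E p 0) - c • E p 0)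
        + T n (g - c • E p 0)) := by
      rw [map_sub]
      abel
    have e4 : ‖g - T n g‖ ≤ s * ‖g‖ :=
      (ContinuousLinearMap.id ℂ (Hp p) - T n).le_of_opNorm_le (hs n) g
    have e5 : ‖g‖ = ‖ofPoly p Q‖ := norm_ofPoly_expand hp hN Q
    rw [e1]
    calc ‖g - c • E p 0‖ ≤ ‖g - T n g‖ + ‖(T n (c • E p 0) - c • E p 0)
          + T n (g - c • E p 0)‖ := by
          conv_lhs => rw [e3]
          exact norm_add_le _ _
      _ ≤ s * ‖g‖ + (‖T n (c • E p 0) - c • E p 0‖ + ‖T n (g - c • E p 0)‖) :=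
          add_le_add e4 (norm_add_le _ _)
      _ = s * ‖ofPoly p Q‖ + ‖T n (c • E p 0) - c • E p 0‖ + ‖T n (g - c • E p 0)‖ := by
          rw [e5]; ring
  have h2 : ∀ n, ‖ofPoly p Q - K0H p (ofPoly p Q)‖
      ≤ s * ‖ofPoly p Q‖ + ‖T n (c • E p 0) - c • E p 0‖ := by
    intro n
    have h3 := (tendsto_compact_expand hp (T n) (hT n) Q).norm
    rw [norm_zero] at h3
    have h4 := h3.const_add (s * ‖ofPoly p Q‖ + ‖T n (c • E p 0) - c • E p 0‖)
    rw [add_zero] at h4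
    exact ge_of_tendsto h4 (eventually_atTop.mpr ⟨1, fun N hN => h1 n N (by omega)⟩)
  have h5 : Tendsto (fun n => ‖T n (c • E p 0) - c • E p 0‖) atTop (𝓝 0) := by
    have := ((hconv (c • E p 0)).sub_const (c • E p 0)).norm
    rwa [sub_self, norm_zero] at this
  have h6 := h5.const_add (s * ‖ofPoly p Q‖)
  rw [add_zero] at h6
  exact ge_of_tendsto' h6 h2

/-- **Lower bound.** -/
theorem le_bcapConstant (hp : p ≠ ∞) :
    ‖ContinuousLinearMap.id ℂ (Hp p) - K0H p‖ₑ ≤ bcapConstant (Hp p) := by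
  unfold bcapConstant
  refine le_iInf fun T => le_iInf fun hT => le_iInf fun hconv => ?_
  by_cases hS : (⨆ n, ‖ContinuousLinearMap.id ℂ (Hp p) - T n‖ₑ) = ∞
  · rw [hS]; exact le_top
  set S : ℝ≥0∞ := ⨆ n, ‖ContinuousLinearMap.id ℂ (Hp p) - T n‖ₑ with hSdef
  have hs : ∀ n, ‖ContinuousLinearMap.id ℂ (Hp p) - T n‖ ≤ S.toReal := by
    intro n
    have h1 : ‖ContinuousLinearMap.id ℂ (Hp p) - T n‖ₑ ≤ S :=
      le_iSup (fun n => ‖ContinuousLinearMap.id ℂ (Hp p) - T n‖ₑ) n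
    have h2 := ENNReal.toReal_mono hS h1
    rwa [toReal_enorm] at h2
  have hclosed : IsClosed {f : Hp p | ‖f - K0H p f‖ ≤ S.toReal * ‖f‖} :=
    isClosed_le (continuous_id.sub (K0H p).continuous).norm
      (continuous_const.mul continuous_norm)
  have hall : ∀ f : Hp p, ‖f - K0H p f‖ ≤ S.toReal * ‖f‖ := by
    intro f
    refine (closure_minimal ?_ hclosed) (dense_range_ofPoly hp f)
    rintro _ ⟨Q, rfl⟩
    exact lower_poly hp T hT hconv hs Q
  have hfin : ‖ContinuousLinearMap.id ℂ (Hp p) - K0H p‖ ≤ S.toReal :=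
    ContinuousLinearMap.opNorm_le_bound _ ENNReal.toReal_nonneg hall
  rw [← ENNReal.ofReal_toReal hS, ← ofReal_norm]
  exact ENNReal.ofReal_le_ofReal hfin

/-- **Main theorem.** -/
theorem bcapConstant_Hp (hp : p ≠ ∞) :
    bcapConstant (Hp p) = ‖ContinuousLinearMap.id ℂ (Hp p) - K0H p‖ₑ :=
  le_antisymm (bcapConstant_le hp) (le_bcapConstant hp)

end Pool.Agent.MP_984ac2_an
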