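import Pool.Agent.MP_984ac2_an.Poisson

set_option autoImplicit false

open MeasureTheory AddCircle Filter Topology Metric Set
open scoped ENNReal ComplexConjugate

noncomputable section

namespace Pool.Agent.MP_984ac2_an

/-- Weighted Jensen inequality for a continuous probability density. -/
theorem jensen_density {k : Circ → ℝ} (hk : Continuous k) (hk0 : ∀ y, 0 ≤ k y)
    (hk1 : ∫ y, k y ∂sigma = 1) {q : ℝ} (hq : 1 ≤ q) {F : Circ → ℂ} (hF : Continuous F) :
    ‖∫ y, (k y : ℂ) * F y ∂sigma‖ ^ q ≤ ∫ y, k y * ‖F y‖ ^ q ∂sigma := by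
  have h1 : ‖∫ y, (k y : ℂ) * F y ∂sigma‖ ≤ ∫ y, k y * ‖F y‖ ∂sigma := by
    refine (norm_integral_le_integral_norm _).trans (le_of_eq ?_)
    refine integral_congr_ae (Eventually.of_forall fun y => ?_)
    simp [abs_of_nonneg (hk0 y)]
  let μ : Measure Circ := sigma.withDensity (fun y => ENNReal.ofReal (k y))
  have hmeas : Measurable (fun y => ENNReal.ofReal (k y)) := hk.measurable.ennreal_ofReal
  have hμ : ∀ G : Circ → ℝ, ∫ y, G y ∂μ = ∫ y, k y * G y ∂sigma := by
    intro G
    rw [integral_withDensity_eq_integral_toReal_smul hmeas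
      (Eventually.of_forall fun y => ENNReal.ofReal_lt_top)]
    refine integral_congr_ae (Eventually.of_forall fun y => ?_)
    simp [ENNReal.toReal_ofReal (hk0 y)]
  have : IsProbabilityMeasure μ := ⟨by
    rw [withDensity_apply _ MeasurableSet.univ, Measure.restrict_univ,
      ← ofReal_integral_eq_lintegral_ofReal (integrable_of_continuous hk)
        (Eventually.of_forall hk0), hk1, ENNReal.ofReal_one]⟩
  have hint : ∀ G : Circ → ℝ, Continuous G → Integrable G μ := by
    intro G hG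
    exact hG.integrable_of_hasCompactSupport (HasCompactSupport.of_compactSpace G)
  have hq0 : 0 ≤ q := by linarith
  have hc : Continuous (fun y => ‖F y‖ ^ q) := hF.norm.rpow_const fun _ => Or.inr hq0
  have hJ := (convexOn_rpow hq).map_integral_le (μ := μ) (f := fun y => ‖F y‖)
    (continuousOn_id.rpow_const fun _ _ => Or.inr hq0) isClosed_Ici
    (Eventually.of_forall fun y => norm_nonneg _) (hint _ hF.norm) (hint _ hc)
  rw [hμ, hμ] at hJ
  exact (Real.rpow_le_rpow (norm_nonneg _) h1 hq0).trans hJ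

variable {p : ℝ≥0∞} [Fact (1 ≤ p)]

/-- The element of `L^p` given by a continuous function. -/
abbrev toLpC (p : ℝ≥0∞) [Fact (1 ≤ p)] (G : C(Circ, ℂ)) : LpCirc p :=
  ContinuousMap.toLp (E := ℂ) p sigma ℂ G

theorem one_le_toReal (hp : p ≠ ∞) : 1 ≤ p.toReal := by
  have h : (1 : ℝ≥0∞) ≤ p := Fact.out
  rw [← ENNReal.toReal_one]
  exact ENNReal.toReal_mono hp h

theorem norm_toLpC_rpow (hp : p ≠ ∞) (G : C(Circ, ℂ)) :
    ‖toLpC p G‖ ^ p.toReal = ∫ x, ‖G x‖ ^ p.toReal ∂sigma := by
  have h1 : (1 : ℝ≥0∞) ≤ p := Fact.out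
  have hp0 : p ≠ 0 := (zero_lt_one.trans_le h1).ne'
  have hae : (toLpC p G : Circ → ℂ) =ᵐ[sigma] G := ContinuousMap.coeFn_toLp sigma G
  have hmem : MemLp (G : Circ → ℂ) p sigma := (memLp_congr_ae hae).mp (Lp.memLp _)
  have hnn : 0 ≤ ∫ x, ‖G x‖ ^ p.toReal ∂sigma :=
    integral_nonneg fun x => Real.rpow_nonneg (norm_nonneg _) _
  have hpr := one_le_toReal hp
  rw [Lp.norm_def, eLpNorm_congr_ae hae, hmem.eLpNorm_eq_integral_rpow_norm hp0 hp,
    ENNReal.toReal_ofReal (Real.rpow_nonneg hnn _), ← Real.rpow_mul hnn,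
    inv_mul_cancel₀ (by linarith), Real.rpow_one]

theorem fourierCoeff_toLpC (G : C(Circ, ℂ)) (k : ℤ) :
    fourierCoeff (toLpC p G : Circ → ℂ) k = fourierCoeff G k :=
  congrFun (fourierCoeff_congr_ae (ContinuousMap.coeFn_toLp sigma G)) k

theorem fourierCoeff_eq_integral (G : Circ → ℂ) (k : ℤ) :
    fourierCoeff G k = ∫ x, (z x) ^ (-k) * G x ∂sigma := by
  unfold fourierCoeff
  refine integral_congr_ae (Eventually.of_forall fun x => ?_)
  simp only [fourier_eq_zpow, smul_eq_mul]

/-- A function in the disc algebra belongs to `H^p`. -/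
theorem mem_Hp_of_diffContOnCl {F : ℂ → ℂ} (hF : DiffContOnCl ℂ F (ball 0 1)) (G : C(Circ, ℂ))
    (hG : ∀ x, G x = F (z x)) : toLpC p G ∈ Hp p := by
  intro k hk
  rw [fourierCoeff_toLpC, fourierCoeff_eq_integral]
  obtain ⟨n, hn⟩ := Int.eq_ofNat_of_zero_le (neg_nonneg.mpr hk.le)
  have hn0 : n ≠ 0 := by
    rintro rfl
    simp at hn
    omega
  have h1 : DiffContOnCl ℂ (fun w => w ^ n * F w) (ball 0 1) :=
    ((differentiable_id.pow n).diffContOnCl).smul hF
  have h2 := poisson_formula (a := 0) h1 (by simp)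
  have h3 : ∫ x, (P 0 x : ℂ) * (z x ^ n * F (z x)) ∂sigma = 0 := h2.trans (by simp [hn0])
  rw [← h3]
  refine integral_congr_ae (Eventually.of_forall fun x => ?_)
  simp only [hG, hn, P]
  simp

/-- The zeroth Fourier coefficient is the value at the origin. -/
theorem fourierCoeff_zero_of_diffContOnCl {F : ℂ → ℂ} (hF : DiffContOnCl ℂ F (ball 0 1))
    (G : Circ → ℂ) (hG : ∀ x, G x = F (z x)) : fourierCoeff G 0 = F 0 := by
  rw [fourierCoeff_eq_integral]
  have h2 := poisson_formula (a := 0) hF (by simp)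
  rw [← h2]
  refine integral_congr_ae (Eventually.of_forall fun x => ?_)
  simp [hG, P]

theorem K0H_apply_coe (f : Hp p) :
    ((K0H p f : Hp p) : LpCirc p) = Lp.const p sigma (fourierCoeff ((f : LpCirc p) : Circ → ℂ) 0) :=
  rfl

/-- The inequality `‖h - h(0)‖ ≤ C ‖h‖` for a function in the disc algebra, written with
integrals. -/
theorem discAlgebra_ineq (hp : p ≠ ∞) {C : ℝ} (hC0 : 0 ≤ C)
    (hC : ∀ f : Hp p, ‖f - K0H p f‖ ≤ C * ‖f‖) {F : ℂ → ℂ}
    (hF : DiffContOnCl ℂ F (ball 0 1)) (G : C(Circ, ℂ)) (hG : ∀ x, G x = F (z x)) :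
    ∫ x, ‖G x - F 0‖ ^ p.toReal ∂sigma ≤ C ^ p.toReal * ∫ x, ‖G x‖ ^ p.toReal ∂sigma := by
  have hpr := one_le_toReal hp
  let f : Hp p := ⟨toLpC p G, mem_Hp_of_diffContOnCl hF G hG⟩
  have h1 := hC f
  have h2 : ((f - K0H p f : Hp p) : LpCirc p) = toLpC p (G - ContinuousMap.const Circ (F 0)) := by
    rw [Submodule.coe_sub, K0H_apply_coe, fourierCoeff_toLpC,
      fourierCoeff_zero_of_diffContOnCl hF _ hG, toLpC, map_sub]
    congr 1
  have h3 : ‖f - K0H p f‖ = ‖toLpC p (G - ContinuousMap.const Circ (F 0))‖ := by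
    rw [← h2]; rfl
  have h4 : ‖f‖ = ‖toLpC p G‖ := rfl
  rw [h3, h4] at h1
  have h5 := Real.rpow_le_rpow (norm_nonneg _) h1 (by linarith : 0 ≤ p.toReal)
  rw [Real.mul_rpow hC0 (norm_nonneg _), norm_toLpC_rpow hp, norm_toLpC_rpow hp] at h5
  exact h5

/-- Moebius-invariant form of the inequality. -/
theorem mobius_ineq (hp : p ≠ ∞) {C : ℝ} (hC0 : 0 ≤ C)
    (hC : ∀ f : Hp p, ‖f - K0H p f‖ ≤ C * ‖f‖) {F : ℂ → ℂ} (hF : Differentiable ℂ F)
    {a : ℂ} (ha : ‖a‖ < 1) :
    ∫ x, P a x * ‖F (z x) - F a‖ ^ p.toReal ∂sigma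
      ≤ C ^ p.toReal * ∫ x, P a x * ‖F (z x)‖ ^ p.toReal ∂sigma := by
  have hpr := one_le_toReal hp
  have hp0 : 0 ≤ p.toReal := by linarith
  have hF1 : DiffContOnCl ℂ (fun w => F (mob a w)) (ball 0 1) := by
    refine DifferentiableOn.diffContOnCl ?_
    intro w hw
    have hw' : w ∈ closedBall (0 : ℂ) 1 := closure_ball_subset_closedBall hw
    exact ((hF.differentiableAt).comp w
      (differentiableAt_mob ha (by simpa using hw'))).differentiableWithinAt
  let G : C(Circ, ℂ) := ⟨fun x => F (z (psi a ha x)),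
    hF.continuous.comp (continuous_z.comp (psi a ha).continuous)⟩
  have hG : ∀ x, G x = F (mob a (z x)) := by
    intro x
    change F (z (psi a ha x)) = _
    rw [z_psi]
  have h := discAlgebra_ineq hp hC0 hC hF1 G hG
  simp only [mob_zero] at h
  have e1 := change_var_real ha (fun x => ‖F (z x) - F a‖ ^ p.toReal)
    (((hF.continuous.comp continuous_z).sub continuous_const).norm.rpow_const
      fun _ => Or.inr hp0)
  have e2 := change_var_real ha (fun x => ‖F (z x)‖ ^ p.toReal)
    ((hF.continuous.comp continuous_z).norm.rpow_const fun _ => Or.inr hp0)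
  rw [← e1, ← e2]
  exact h

theorem continuous_K {r : ℝ} (hr0 : 0 ≤ r) (hr1 : r < 1) :
    Continuous (fun q : Circ × Circ => P (r * z q.1) q.2) := by
  unfold P
  have h1 : Continuous (fun q : Circ × Circ => z q.2 - r * z q.1) :=
    (continuous_z.comp continuous_snd).sub
      (continuous_const.mul (continuous_z.comp continuous_fst))
  refine Continuous.div ?_ (h1.norm.pow 2) ?_
  · exact continuous_const.sub
      ((continuous_const.mul (continuous_z.comp continuous_fst)).norm.pow 2)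
  · intro q
    have ha : ‖(r : ℂ) * z q.1‖ < 1 := by
      rw [norm_mul, norm_z, mul_one, Complex.norm_real, Real.norm_of_nonneg hr0]
      exact hr1
    have := norm_pos_iff.mpr (z_sub_ne ha q.2)
    positivity

theorem norm_rz_lt {r : ℝ} (hr0 : 0 ≤ r) (hr1 : r < 1) (x : Circ) : ‖(r : ℂ) * z x‖ < 1 := by
  rw [norm_mul, norm_z, mul_one, Complex.norm_real, Real.norm_of_nonneg hr0]
  exact hr1

theorem integrable_prod {f : Circ × Circ → ℝ} (hf : Continuous f) :
    Integrable f (sigma.prod sigma) :=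
  hf.integrable_of_hasCompactSupport (HasCompactSupport.of_compactSpace f)

/-- Averaging the weights `P (r z y)` over `y` gives the constant weight. -/
theorem average_weight {r : ℝ} (hr0 : 0 ≤ r) (hr1 : r < 1) {G : Circ → ℝ} (hG : Continuous G) :
    ∫ y, ∫ x, P (r * z y) x * G x ∂sigma ∂sigma = ∫ x, G x ∂sigma := by
  have hcont : Continuous (fun q : Circ × Circ => P (r * z q.1) q.2 * G q.2) :=
    (continuous_K hr0 hr1).mul (hG.comp continuous_snd)
  rw [integral_integral_swap (f := fun y x => P (r * z y) x * G x) (integrable_prod hcont)]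
  refine integral_congr_ae (Eventually.of_forall fun x => ?_)
  simp only
  rw [integral_mul_const]
  have h1 : ∫ y, P (r * z y) x ∂sigma = 1 := by
    simp_rw [P_symm r _ x]
    exact integral_P (norm_rz_lt hr0 hr1 x)
  rw [h1, one_mul]

/-- The key inequality: `‖f - f(r² ·)‖_p ≤ C ‖f‖_p` for entire functions `f`. -/
theorem dilation_ineq (hp : p ≠ ∞) {C : ℝ} (hC0 : 0 ≤ C)
    (hC : ∀ f : Hp p, ‖f - K0H p f‖ ≤ C * ‖f‖) {F : ℂ → ℂ} (hF : Differentiable ℂ F)
    {r : ℝ} (hr0 : 0 ≤ r) (hr1 : r < 1) :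
    ∫ x, ‖F (z x) - F (r ^ 2 * z x)‖ ^ p.toReal ∂sigma
      ≤ C ^ p.toReal * ∫ x, ‖F (z x)‖ ^ p.toReal ∂sigma := by
  have hpr := one_le_toReal hp
  have hp0 : 0 ≤ p.toReal := by linarith
  have hFz : Continuous (fun x => F (z x)) := hF.continuous.comp continuous_z
  have hFr : Continuous (fun y => F (r * z y)) :=
    hF.continuous.comp (continuous_const.mul continuous_z)
  have hΦ : Continuous (fun q : Circ × Circ =>
      P (r * z q.1) q.2 * ‖F (z q.1) - F (r * z q.2)‖ ^ p.toReal) :=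
    (continuous_K hr0 hr1).mul
      (((hFz.comp continuous_fst).sub (hFr.comp continuous_snd)).norm.rpow_const
        fun _ => Or.inr hp0)
  -- pointwise Jensen
  have step1 : ∀ x, ‖F (z x) - F (r ^ 2 * z x)‖ ^ p.toReal
      ≤ ∫ y, P (r * z x) y * ‖F (z x) - F (r * z y)‖ ^ p.toReal ∂sigma := by
    intro x
    have ha := norm_rz_lt hr0 hr1 x
    have hFd : DiffContOnCl ℂ (fun w => F (z x) - F (r * w)) (ball 0 1) := by
      refine Differentiable.diffContOnCl ?_
      fun_prop
    have h1 := poisson_formula hFd ha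
    have h2 : ∫ y, (P (r * z x) y : ℂ) * (F (z x) - F (r * z y)) ∂sigma
        = F (z x) - F (r ^ 2 * z x) := by
      rw [h1]
      ring_nf
    rw [← h2]
    exact jensen_density (continuous_P ha) (fun y => (P_pos ha y).le) (integral_P ha) hpr
      (continuous_const.sub hFr)
  have hl : Continuous (fun x => ‖F (z x) - F (r ^ 2 * z x)‖ ^ p.toReal) :=
    ((hFz.sub (hF.continuous.comp (continuous_const.mul continuous_z))).norm.rpow_const
      fun _ => Or.inr hp0)
  have hint := integrable_prod hΦ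
  calc ∫ x, ‖F (z x) - F (r ^ 2 * z x)‖ ^ p.toReal ∂sigma
      ≤ ∫ x, ∫ y, P (r * z x) y * ‖F (z x) - F (r * z y)‖ ^ p.toReal ∂sigma ∂sigma :=
        integral_mono (integrable_of_continuous hl) hint.integral_prod_left step1
    _ = ∫ y, ∫ x, P (r * z x) y * ‖F (z x) - F (r * z y)‖ ^ p.toReal ∂sigma ∂sigma :=
        integral_integral_swap hint
    _ = ∫ y, ∫ x, P (r * z y) x * ‖F (z x) - F (r * z y)‖ ^ p.toReal ∂sigma ∂sigma := by
        refine integral_congr_ae (Eventually.of_forall fun y => ?_)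
        refine integral_congr_ae (Eventually.of_forall fun x => ?_)
        simp only
        rw [P_symm r x y]
    _ ≤ ∫ y, C ^ p.toReal * ∫ x, P (r * z y) x * ‖F (z x)‖ ^ p.toReal ∂sigma ∂sigma := by
        refine integral_mono ?_ ?_ fun y => mobius_ineq hp hC0 hC hF (norm_rz_lt hr0 hr1 y)
        · have hΨ : Continuous (fun q : Circ × Circ =>
              P (r * z q.1) q.2 * ‖F (z q.2) - F (r * z q.1)‖ ^ p.toReal) :=
            (continuous_K hr0 hr1).mul
              (((hFz.comp continuous_snd).sub (hFr.comp continuous_fst)).norm.rpow_const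
                fun _ => Or.inr hp0)
          exact (integrable_prod hΨ).integral_prod_left
        · have hΨ : Continuous (fun q : Circ × Circ =>
              P (r * z q.1) q.2 * ‖F (z q.2)‖ ^ p.toReal) :=
            (continuous_K hr0 hr1).mul
              ((hFz.comp continuous_snd).norm.rpow_const fun _ => Or.inr hp0)
          exact (integrable_prod hΨ).integral_prod_left.const_mul _
    _ = C ^ p.toReal * ∫ x, ‖F (z x)‖ ^ p.toReal ∂sigma := by
        rw [integral_const_mul,
          average_weight hr0 hr1 (hFz.norm.rpow_const fun _ => Or.inr hp0)]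

end Pool.Agent.MP_984ac2_an
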