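import Pool.Agent.MP_984ac2_an.Defs

set_option autoImplicit false

open MeasureTheory AddCircle Filter Topology Metric Set
open scoped ENNReal ComplexConjugate

noncomputable section

namespace Pool.Agent.MP_984ac2_an

/-- The coordinate `e^{iθ}` on the circle. -/
def z (x : Circ) : ℂ := (toCircle x : ℂ)

theorem continuous_z : Continuous z := continuous_subtype_val.comp continuous_toCircle

@[simp] theorem norm_z (x : Circ) : ‖z x‖ = 1 := Circle.norm_coe _

theorem z_ne_zero (x : Circ) : z x ≠ 0 := by
  intro h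
  have := norm_z x
  rw [h] at this
  simp at this

theorem fourier_eq_zpow (n : ℤ) (x : Circ) : fourier n x = z x ^ n := by
  rw [fourier_apply, toCircle_zsmul]
  simp [z]

theorem z_coe (θ : ℝ) : z (θ : Circ) = Complex.exp (θ * Complex.I) := by
  unfold z
  rw [toCircle_apply_mk]
  rw [Circle.coe_exp]
  congr 2
  have : (2 * Real.pi) ≠ 0 := by positivity
  push_cast
  field_simp

/-- Integration over `Circ` is the circle average. -/
theorem integral_circ {E : Type*} [NormedAddCommGroup E] [NormedSpace ℝ E] (F : ℂ → E) :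
    ∫ x, F (z x) ∂sigma = Real.circleAverage F 0 1 := by
  rw [integral_haarAddCircle, Real.circleAverage_def]
  congr 1
  have h := AddCircle.intervalIntegral_preimage (2 * Real.pi) 0 (fun x : Circ => F (z x))
  rw [← h, zero_add]
  refine intervalIntegral.integral_congr fun θ _ => ?_
  simp only [z_coe, circleMap, zero_add, Complex.ofReal_one, one_mul]

/-- Continuous functions on the circle are integrable. -/
theorem integrable_of_continuous {E : Type*} [NormedAddCommGroup E]
    {f : Circ → E} (hf : Continuous f) : Integrable f sigma :=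
  (hf.integrable_of_hasCompactSupport (HasCompactSupport.of_compactSpace f))

/-! ### The Poisson kernel -/

/-- The Poisson kernel of the unit disc. -/
def P (a : ℂ) (x : Circ) : ℝ := (1 - ‖a‖ ^ 2) / ‖z x - a‖ ^ 2

variable {a : ℂ}

theorem z_sub_ne (ha : ‖a‖ < 1) (x : Circ) : z x - a ≠ 0 := by
  intro h
  have h1 : z x = a := sub_eq_zero.mp h
  have := norm_z x
  rw [h1] at this
  linarith

theorem P_pos (ha : ‖a‖ < 1) (x : Circ) : 0 < P a x := by
  have h1 := norm_pos_iff.mpr (z_sub_ne ha x)
  have h2 : 0 < 1 - ‖a‖ ^ 2 := by nlinarith [norm_nonneg a]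
  unfold P
  positivity

theorem continuous_P (ha : ‖a‖ < 1) : Continuous (P a) := by
  unfold P
  refine Continuous.div (by fun_prop) ?_ ?_
  · exact ((continuous_z.sub continuous_const).norm).pow 2
  · intro x
    have h1 := norm_pos_iff.mpr (z_sub_ne ha x)
    positivity

theorem P_eq_poissonKernel (x : Circ) : P a x = poissonKernel 0 a (z x) := by
  rw [poissonKernel_def, P]
  simp

theorem poisson_formula {F : ℂ → ℂ} (hF : DiffContOnCl ℂ F (ball 0 1)) (ha : ‖a‖ < 1) :
    ∫ x, (P a x : ℂ) * F (z x) ∂sigma = F a := by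
  have h := hF.circleAverage_poissonKernel_smul (w := a) (by simpa using ha)
  rw [← h, ← integral_circ]
  refine integral_congr_ae (Eventually.of_forall fun x => ?_)
  simp [P_eq_poissonKernel]

theorem integral_P (ha : ‖a‖ < 1) : ∫ x, P a x ∂sigma = 1 := by
  have h := poisson_formula (F := fun _ => (1 : ℂ)) diffContOnCl_const ha
  simp only [mul_one] at h
  rw [integral_complex_ofReal] at h
  exact_mod_cast h

/-- symmetry of the Poisson kernel -/
theorem P_symm (r : ℝ) (x y : Circ) : P (r * z x) y = P (r * z y) x := by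
  unfold P
  simp only [norm_mul, norm_z, mul_one]
  congr 2
  -- `|z y - r z x| = |z x - r z y|`
  have key : ∀ u v : ℂ, ‖u‖ = 1 → ‖v‖ = 1 → ‖u - r * v‖ ^ 2 = 1 + r ^ 2 - 2 * r * (u * conj v).re := by
    intro u v hu hv
    rw [← Complex.normSq_eq_norm_sq, Complex.normSq_sub]
    have h1 : Complex.normSq u = 1 := by rw [Complex.normSq_eq_norm_sq, hu]; norm_num
    have h2 : Complex.normSq v = 1 := by rw [Complex.normSq_eq_norm_sq, hv]; norm_num
    rw [Complex.normSq_mul, h1, h2]
    simp [Complex.normSq_ofReal]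
    ring
  have h1 := key (z y) (z x) (norm_z y) (norm_z x)
  have h2 := key (z x) (z y) (norm_z x) (norm_z y)
  have h3 : (z y * conj (z x)).re = (z x * conj (z y)).re := by
    simp [Complex.mul_re]; ring
  rw [h3] at h1
  have h4 : ‖z y - r * z x‖ ^ 2 = ‖z x - r * z y‖ ^ 2 := by rw [h1, h2]
  rwa [sq_eq_sq₀ (norm_nonneg _) (norm_nonneg _)] at h4

/-! ### Moebius maps -/

/-- The disc automorphism `w ↦ (a + w) / (1 + conj a w)`. -/
def mob (a w : ℂ) : ℂ := (a + w) / (1 + conj a * w)

theorem mob_zero : mob a 0 = a := by simp [mob]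

theorem mob_denom_ne (ha : ‖a‖ < 1) {w : ℂ} (hw : ‖w‖ ≤ 1) : 1 + conj a * w ≠ 0 := by
  intro h
  have h1 : conj a * w = -1 := by linear_combination h
  have h2 : ‖conj a * w‖ = 1 := by rw [h1]; simp
  rw [norm_mul, RCLike.norm_conj] at h2
  nlinarith [norm_nonneg a, norm_nonneg w]

theorem normSq_mob_aux (w : ℂ) :
    ‖1 + conj a * w‖ ^ 2 - ‖a + w‖ ^ 2 = (1 - ‖a‖ ^ 2) * (1 - ‖w‖ ^ 2) := by
  simp only [← Complex.normSq_eq_norm_sq, Complex.normSq_apply, Complex.add_re, Complex.add_im,
    Complex.mul_re, Complex.mul_im, Complex.conj_re, Complex.conj_im, Complex.one_re,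
    Complex.one_im]
  ring

theorem norm_mob_eq_one (ha : ‖a‖ < 1) {w : ℂ} (hw : ‖w‖ = 1) : ‖mob a w‖ = 1 := by
  have h := normSq_mob_aux (a := a) w
  rw [hw] at h
  have h1 : ‖1 + conj a * w‖ ^ 2 = ‖a + w‖ ^ 2 := by linarith
  have h2 : ‖1 + conj a * w‖ = ‖a + w‖ := by
    rwa [sq_eq_sq₀ (norm_nonneg _) (norm_nonneg _)] at h1
  rw [mob, norm_div, ← h2]
  exact div_self (norm_ne_zero_iff.mpr (mob_denom_ne ha hw.le))

theorem norm_mob_le_one (ha : ‖a‖ < 1) {w : ℂ} (hw : ‖w‖ ≤ 1) : ‖mob a w‖ ≤ 1 := by
  have h := normSq_mob_aux (a := a) w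
  have h0 : 0 ≤ (1 - ‖a‖ ^ 2) * (1 - ‖w‖ ^ 2) := by
    have := norm_nonneg a
    have := norm_nonneg w
    apply mul_nonneg <;> nlinarith
  have h1 : ‖a + w‖ ^ 2 ≤ ‖1 + conj a * w‖ ^ 2 := by linarith
  have h2 : ‖a + w‖ ≤ ‖1 + conj a * w‖ := by
    rwa [sq_le_sq₀ (norm_nonneg _) (norm_nonneg _)] at h1
  rw [mob, norm_div]
  exact div_le_one_of_le₀ h2 (norm_nonneg _)

theorem differentiableAt_mob (ha : ‖a‖ < 1) {w : ℂ} (hw : ‖w‖ ≤ 1) :
    DifferentiableAt ℂ (mob a) w := by
  unfold mob
  exact DifferentiableAt.div (by fun_prop) (by fun_prop) (mob_denom_ne ha hw)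

theorem diffContOnCl_mob (ha : ‖a‖ < 1) : DiffContOnCl ℂ (mob a) (ball 0 1) := by
  refine DifferentiableOn.diffContOnCl ?_
  intro w hw
  have hw' : w ∈ closedBall (0 : ℂ) 1 := closure_ball_subset_closedBall hw
  exact (differentiableAt_mob ha (by simpa using hw')).differentiableWithinAt

/-- The point `mob a (z x)` of the unit circle. -/
def mobC (a : ℂ) (ha : ‖a‖ < 1) (x : Circ) : Circle :=
  ⟨mob a (z x), by
    rw [Submonoid.unitSphere, Submonoid.mem_mk, Subsemigroup.mem_mk]
    simpa using norm_mob_eq_one ha (norm_z x)⟩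

theorem coe_mobC (ha : ‖a‖ < 1) (x : Circ) : (mobC a ha x : ℂ) = mob a (z x) := rfl

theorem continuous_mobC (ha : ‖a‖ < 1) : Continuous (mobC a ha) := by
  refine Continuous.subtype_mk ?_ _
  unfold mob
  refine Continuous.div ?_ ?_ ?_
  · exact continuous_const.add continuous_z
  · exact continuous_const.add (continuous_const.mul continuous_z)
  · intro x
    exact mob_denom_ne ha (norm_z x).le

/-- The circle homeomorphism (here: continuous self-map) induced by `mob a`. -/
def psi (a : ℂ) (ha : ‖a‖ < 1) : C(Circ, Circ) where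
  toFun x := (homeomorphCircle Real.two_pi_pos.ne').symm (mobC a ha x)
  continuous_toFun := (homeomorphCircle Real.two_pi_pos.ne').symm.continuous.comp
    (continuous_mobC ha)

theorem z_psi (ha : ‖a‖ < 1) (x : Circ) : z (psi a ha x) = mob a (z x) := by
  rw [← coe_mobC ha, z, ← homeomorphCircle_apply Real.two_pi_pos.ne']
  congr 1
  exact Homeomorph.apply_symm_apply _ _

/-- Change of variables on Fourier monomials. -/
theorem change_var_zpow (ha : ‖a‖ < 1) (n : ℤ) :
    ∫ x, (z (psi a ha x)) ^ n ∂sigma = ∫ x, (P a x : ℂ) * (z x) ^ n ∂sigma := by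
  have hnat : ∀ k : ℕ, ∫ x, (z (psi a ha x)) ^ k ∂sigma = a ^ k ∧
      ∫ x, (P a x : ℂ) * (z x) ^ k ∂sigma = a ^ k := by
    intro k
    constructor
    · have h1 : DiffContOnCl ℂ (fun w => mob a w ^ k) (ball 0 1) := by
        refine DifferentiableOn.diffContOnCl ?_
        intro w hw
        have hw' : w ∈ closedBall (0 : ℂ) 1 := closure_ball_subset_closedBall hw
        exact ((differentiableAt_mob ha (by simpa using hw')).pow k).differentiableWithinAt
      have h2 := poisson_formula (a := 0) h1 (by simp)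
      rw [mob_zero] at h2
      rw [← h2]
      refine integral_congr_ae (Eventually.of_forall fun x => ?_)
      simp [z_psi ha, P]
    · have h1 : DiffContOnCl ℂ (fun w : ℂ => w ^ k) (ball 0 1) :=
        (differentiable_id.pow k).diffContOnCl
      exact poisson_formula h1 ha
  have hconj : ∀ x : Circ, ∀ k : ℕ, (z x) ^ (-(k : ℤ)) = conj ((z x) ^ k) := by
    intro x k
    have h1 : (z x)⁻¹ = conj (z x) := by
      rw [Complex.inv_def, Complex.normSq_eq_norm_sq, norm_z]
      simp
    rw [zpow_neg, zpow_natCast, ← inv_pow, h1, map_pow]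
  obtain ⟨k, rfl | rfl⟩ := n.eq_nat_or_neg
  · simp only [zpow_natCast]
    rw [(hnat k).1, (hnat k).2]
  · simp only [hconj]
    have h1 : ∫ x, conj ((z (psi a ha x)) ^ k) ∂sigma = conj (∫ x, (z (psi a ha x)) ^ k ∂sigma) :=
      integral_conj
    have h2 : ∫ x, (P a x : ℂ) * conj ((z x) ^ k) ∂sigma
        = conj (∫ x, (P a x : ℂ) * (z x) ^ k ∂sigma) := by
      rw [← integral_conj]
      refine integral_congr_ae (Eventually.of_forall fun x => ?_)
      simp
    rw [h1, h2, (hnat k).1, (hnat k).2]

theorem norm_integral_le_norm (G : C(Circ, ℂ)) : ‖∫ x, G x ∂sigma‖ ≤ ‖G‖ := by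
  have h := norm_integral_le_of_norm_le_const (μ := sigma) (f := fun x => G x) (C := ‖G‖)
    (Eventually.of_forall fun x => G.norm_coe_le_norm x)
  simpa using h

/-- Change of variables for continuous functions. -/
theorem change_var (ha : ‖a‖ < 1) (G : C(Circ, ℂ)) :
    ∫ x, G (psi a ha x) ∂sigma = ∫ x, (P a x : ℂ) * G x ∂sigma := by
  let Pc : C(Circ, ℂ) := ⟨fun x => (P a x : ℂ), Complex.continuous_ofReal.comp (continuous_P ha)⟩
  let L1 : C(Circ, ℂ) →ₗ[ℂ] ℂ :=
    { toFun := fun G => ∫ x, G (psi a ha x) ∂sigma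
      map_add' := by
        intro G H
        simp only [ContinuousMap.add_apply]
        exact integral_add (integrable_of_continuous (by fun_prop))
          (integrable_of_continuous (by fun_prop))
      map_smul' := by
        intro c G
        simp only [ContinuousMap.smul_apply, RingHom.id_apply]
        exact integral_smul _ _ }
  let L2 : C(Circ, ℂ) →ₗ[ℂ] ℂ :=
    { toFun := fun G => ∫ x, (Pc * G) x ∂sigma
      map_add' := by
        intro G H
        simp only [ContinuousMap.mul_apply, ContinuousMap.add_apply, mul_add]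
        exact integral_add (integrable_of_continuous (by fun_prop))
          (integrable_of_continuous (by fun_prop))
      map_smul' := by
        intro c G
        simp only [ContinuousMap.mul_apply, ContinuousMap.smul_apply, RingHom.id_apply]
        rw [← integral_smul]
        refine integral_congr_ae (Eventually.of_forall fun x => ?_)
        simp only [smul_eq_mul]
        ring }
  have c1 : Continuous L1 := by
    refine (L1.mkContinuous 1 fun G => ?_).continuous
    rw [one_mul]
    refine (norm_integral_le_norm (G.comp (psi a ha))).trans ?_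
    refine (ContinuousMap.norm_le _ (norm_nonneg _)).mpr fun x => G.norm_coe_le_norm _
  have c2 : Continuous L2 := by
    refine (L2.mkContinuous ‖Pc‖ fun G => ?_).continuous
    exact (norm_integral_le_norm (Pc * G)).trans (norm_mul_le _ _)
  let S : Submodule ℂ C(Circ, ℂ) := LinearMap.eqLocus L1 L2
  have hS : IsClosed (S : Set C(Circ, ℂ)) := isClosed_eq c1 c2
  have hsub : (Submodule.span ℂ (range (@fourier (2 * Real.pi)))).topologicalClosure ≤ S := by
    refine Submodule.topologicalClosure_minimal _ ?_ hS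
    rw [Submodule.span_le]
    rintro _ ⟨n, rfl⟩
    change L1 (fourier n) = L2 (fourier n)
    have := change_var_zpow ha n
    simp only [← fourier_eq_zpow] at this
    exact this
  rw [span_fourier_closure_eq_top] at hsub
  exact hsub (Submodule.mem_top (x := G))

/-- Change of variables for real continuous functions. -/
theorem change_var_real (ha : ‖a‖ < 1) (G : Circ → ℝ) (hG : Continuous G) :
    ∫ x, G (psi a ha x) ∂sigma = ∫ x, P a x * G x ∂sigma := by
  have h := change_var ha ⟨fun x => (G x : ℂ), Complex.continuous_ofReal.comp hG⟩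
  simp only [ContinuousMap.coe_mk] at h
  have h2 : ∫ x, (P a x : ℂ) * (G x : ℂ) ∂sigma = ((∫ x, P a x * G x ∂sigma : ℝ) : ℂ) := by
    rw [← integral_complex_ofReal]
    refine integral_congr_ae (Eventually.of_forall fun x => ?_)
    simp
  rw [h2, integral_complex_ofReal] at h
  exact_mod_cast h

end Pool.Agent.MP_984ac2_an
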