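import Mathlib

set_option autoImplicit false

/-!
# The definitions used by the statements

The unit circle, `L^p` of the circle, the Hardy space `H^p`, the operator `K₀`, and the constant
`M(X)` of a Banach space `X`.
-/

open MeasureTheory AddCircle Filter Topology
open scoped ENNReal

noncomputable section

namespace Pool.Agent.MP_984ac2_an

/-! ### The circle and `L^p` -/

/-- The unit circle, realised as `ℝ / 2πℤ` (the point `θ` stands for `e^{iθ}`). -/
abbrev Circ : Type := AddCircle (2 * Real.pi)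

instance fact_two_pi_pos : Fact (0 < 2 * Real.pi) := ⟨Real.two_pi_pos⟩

/-- The exponent `4` is admissible: `1 ≤ 4` (Mathlib has such an instance only for `1` and `2`). -/
instance fact_one_le_four : Fact ((1 : ℝ≥0∞) ≤ 4) := ⟨by norm_num⟩

/-- Normalised Lebesgue measure `dθ/2π` on the unit circle (the Haar probability measure). -/
abbrev sigma : Measure Circ := haarAddCircle

/-- The Lebesgue space `L^p` of the unit circle with normalised Lebesgue measure, as a type. -/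
def LpT (p : ℝ≥0∞) : Type := Lp ℂ p sigma

/-- `L^p` carries its usual norm. -/
instance LpT.instNormedAddCommGroup (p : ℝ≥0∞) [Fact (1 ≤ p)] : NormedAddCommGroup (LpT p) :=
  Lp.instNormedAddCommGroup

/-- `L^p` is a complex normed space. -/
instance LpT.instNormedSpace (p : ℝ≥0∞) [Fact (1 ≤ p)] : NormedSpace ℂ (LpT p) :=
  Lp.instNormedSpace

/-- The function on the circle represented by an element of `L^p`. -/
def LpT.fn {p : ℝ≥0∞} (f : LpT p) : Circ → ℂ := AEEqFun.cast (Subtype.val f)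

/-- The Fourier coefficient `\hat f(k) = ∫ f(θ) e^{-ikθ} dθ/2π` of `f ∈ L^p`. -/
def LpT.coeff {p : ℝ≥0∞} (f : LpT p) (k : ℤ) : ℂ := fourierCoeff f.fn k

/-- The constant function `1`, as an element of `L^p`. -/
def LpT.one (p : ℝ≥0∞) : LpT p := MemLp.toLp (fun _ : Circ => (1 : ℂ)) (memLp_const 1)

/-! ### Auxiliary facts about Fourier coefficients -/

theorem integrable_of_Lp {p : ℝ≥0∞} [Fact (1 ≤ p)] (f : Lp ℂ p sigma) :
    Integrable (f : Circ → ℂ) sigma :=
  (Lp.memLp f).integrable (Fact.out : 1 ≤ p)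

theorem fourierCoeff_Lp_add {p : ℝ≥0∞} [Fact (1 ≤ p)] (f g : Lp ℂ p sigma) (k : ℤ) :
    fourierCoeff ((f + g : Lp ℂ p sigma) : Circ → ℂ) k
      = fourierCoeff (f : Circ → ℂ) k + fourierCoeff (g : Circ → ℂ) k := by
  have h : fourierCoeff ((f + g : Lp ℂ p sigma) : Circ → ℂ) k
      = fourierCoeff ((f : Circ → ℂ) + (g : Circ → ℂ)) k :=
    congrFun (fourierCoeff_congr_ae (Lp.coeFn_add f g)) k
  rw [h, fourierCoeff.add (integrable_of_Lp f) (integrable_of_Lp g)]
  rfl

theorem fourierCoeff_Lp_smul {p : ℝ≥0∞} [Fact (1 ≤ p)] (c : ℂ) (f : Lp ℂ p sigma) (k : ℤ) :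
    fourierCoeff ((c • f : Lp ℂ p sigma) : Circ → ℂ) k
      = c • fourierCoeff (f : Circ → ℂ) k := by
  have h : fourierCoeff ((c • f : Lp ℂ p sigma) : Circ → ℂ) k
      = fourierCoeff (c • (f : Circ → ℂ)) k :=
    congrFun (fourierCoeff_congr_ae (Lp.coeFn_smul c f)) k
  rw [h, fourierCoeff.const_smul]

theorem norm_fourierCoeff_le {p : ℝ≥0∞} [Fact (1 ≤ p)] (f : Lp ℂ p sigma) (k : ℤ) :
    ‖fourierCoeff (f : Circ → ℂ) k‖ ≤ ‖f‖ := by
  have h1 : ‖fourierCoeff (f : Circ → ℂ) k‖ ≤ ∫ x, ‖(f : Circ → ℂ) x‖ ∂sigma := by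
    unfold fourierCoeff
    refine (norm_integral_le_integral_norm _).trans (le_of_eq ?_)
    refine integral_congr_ae (Eventually.of_forall fun x => ?_)
    simp only [norm_smul, fourier_apply, Circle.norm_coe, one_mul]
  have h2 : ∫ x, ‖(f : Circ → ℂ) x‖ ∂sigma = (eLpNorm (f : Circ → ℂ) 1 sigma).toReal := by
    rw [eLpNorm_one_eq_lintegral_enorm, integral_norm_eq_lintegral_enorm
      (Lp.aestronglyMeasurable f)]
  have h3 : (eLpNorm (f : Circ → ℂ) 1 sigma).toReal ≤ ‖f‖ := by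
    rw [Lp.norm_def]
    exact ENNReal.toReal_mono (Lp.eLpNorm_ne_top f)
      (eLpNorm_le_eLpNorm_of_exponent_le (Fact.out : 1 ≤ p) (Lp.aestronglyMeasurable f))
  exact h1.trans (h2.le.trans h3)

theorem fourierCoeff_Lp_const {p : ℝ≥0∞} (c : ℂ) {k : ℤ} (hk : k < 0) :
    fourierCoeff ((Lp.const p sigma c : Lp ℂ p sigma) : Circ → ℂ) k = 0 := by
  have h : fourierCoeff ((Lp.const p sigma c : Lp ℂ p sigma) : Circ → ℂ) k
      = fourierCoeff (fun _ : Circ => c) k :=
    congrFun (fourierCoeff_congr_ae (Lp.coeFn_const p sigma c)) k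
  rw [h]
  have h2 : (fun _ : Circ => c) = c • (fourier 0 : Circ → ℂ) := by
    ext x; simp
  rw [h2, fourierCoeff.const_smul, fourierCoeff_fourier]
  simp [hk.ne]

theorem LpT.coeff_add {p : ℝ≥0∞} [Fact (1 ≤ p)] (f g : LpT p) (k : ℤ) :
    (f + g).coeff k = f.coeff k + g.coeff k := fourierCoeff_Lp_add f g k

theorem LpT.coeff_smul {p : ℝ≥0∞} [Fact (1 ≤ p)] (c : ℂ) (f : LpT p) (k : ℤ) :
    (c • f).coeff k = c * f.coeff k := fourierCoeff_Lp_smul c f k

theorem LpT.coeff_zero {p : ℝ≥0∞} [Fact (1 ≤ p)] (k : ℤ) : (0 : LpT p).coeff k = 0 := by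
  have h := LpT.coeff_smul (0 : ℂ) (0 : LpT p) k
  rwa [zero_smul, zero_mul] at h

/-! ### The Hardy space `H^p` -/

/-- The Hardy space `H^p` as a subspace of `L^p`: all `f ∈ L^p` with `\hat f(k) = 0` for every
integer `k < 0`. -/
def hardySub (p : ℝ≥0∞) [Fact (1 ≤ p)] : Submodule ℂ (LpT p) where
  carrier := {f | ∀ k : ℤ, k < 0 → f.coeff k = 0}
  add_mem' := fun {f g} hf hg k hk => by rw [LpT.coeff_add, hf k hk, hg k hk, add_zero]
  zero_mem' := fun k _ => LpT.coeff_zero k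
  smul_mem' := fun c f hf k hk => by rw [LpT.coeff_smul, hf k hk, mul_zero]

/-- The Hardy space `H^p` as a type. -/
def Hardy (p : ℝ≥0∞) [Fact (1 ≤ p)] : Type := ↥(hardySub p)

/-- `H^p` carries the norm of `L^p`. -/
instance Hardy.instNormedAddCommGroup (p : ℝ≥0∞) [Fact (1 ≤ p)] : NormedAddCommGroup (Hardy p) :=
  Submodule.normedAddCommGroup (hardySub p)

/-- `H^p` is a complex normed space, with the operations of `L^p`. -/
instance Hardy.instNormedSpace (p : ℝ≥0∞) [Fact (1 ≤ p)] : NormedSpace ℂ (Hardy p) :=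
  Submodule.normedSpace (hardySub p)

/-- The element of `L^p` given by `f ∈ H^p`. -/
def Hardy.toLpT {p : ℝ≥0∞} [Fact (1 ≤ p)] (f : Hardy p) : LpT p := Subtype.val f

theorem LpT.one_mem (p : ℝ≥0∞) [Fact (1 ≤ p)] : LpT.one p ∈ hardySub p :=
  fun _ hk => fourierCoeff_Lp_const (p := p) 1 hk

/-- The constant function `1`, as an element of `H^p`. -/
def Hardy.one (p : ℝ≥0∞) [Fact (1 ≤ p)] : Hardy p := ⟨LpT.one p, LpT.one_mem p⟩

/-! ### The operator `K₀` -/

theorem Hardy.isLinearMap_coeff (p : ℝ≥0∞) [Fact (1 ≤ p)] :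
    IsLinearMap ℂ (fun f : Hardy p => f.toLpT.coeff 0) where
  map_add f g := LpT.coeff_add f.toLpT g.toLpT 0
  map_smul c f := LpT.coeff_smul c f.toLpT 0

theorem Hardy.norm_coeff_le (p : ℝ≥0∞) [Fact (1 ≤ p)] (f : Hardy p) :
    ‖(Hardy.isLinearMap_coeff p).mk' _ f‖ ≤ 1 * ‖f‖ := by
  rw [one_mul]
  exact norm_fourierCoeff_le (f.toLpT : Lp ℂ p sigma) 0

/-- The bounded functional `f ↦ \hat f(0)` on `H^p`. -/
def Hardy.mean (p : ℝ≥0∞) [Fact (1 ≤ p)] : Hardy p →L[ℂ] ℂ :=
  ((Hardy.isLinearMap_coeff p).mk' _).mkContinuous 1 (Hardy.norm_coeff_le p)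

/-- The bounded operator `K₀` on `H^p`, `K₀ f = \hat f(0) · 1`: it sends `f` to its mean value
`\hat f(0)`, viewed as a constant function. -/
def K0 (p : ℝ≥0∞) [Fact (1 ≤ p)] : Hardy p →L[ℂ] Hardy p :=
  (Hardy.mean p).smulRight (Hardy.one p)

/-! ### The constant `M(X)` -/

/-- The operator norm `‖I - K‖` of `I - K`, for a bounded operator `K` on a complex normed space,
as an element of `[0, ∞]`. -/
def normIdSub {X : Type*} [NormedAddCommGroup X] [NormedSpace ℂ X] (K : X →L[ℂ] X) : ℝ≥0∞ :=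
  ‖ContinuousLinearMap.id ℂ X - K‖ₑ

/-- The constant `M(X)` of a Banach space `X`: the infimum of `sup_n ‖I - T_n‖` over all sequences
`(T_n)` of compact operators on `X` converging strongly to the identity.  It takes values in
`[0, ∞]`, so no boundedness convention is involved (the infimum over the empty set is `∞`). -/
def bcapConst (X : Type*) [NormedAddCommGroup X] [NormedSpace ℂ X] : ℝ≥0∞ :=
  ⨅ (T : ℕ → X →L[ℂ] X) (_ : ∀ n, IsCompactOperator (T n))
    (_ : ∀ x : X, Tendsto (fun n => T n x) atTop (𝓝 x)), ⨆ n, normIdSub (T n)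

end Pool.Agent.MP_984ac2_an
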