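import Pool.Agent.MP_984ac2_an.TsPoint

set_option autoImplicit false

open MeasureTheory AddCircle Filter Topology Metric Set
open scoped ENNReal ComplexConjugate

noncomputable section

namespace Pool.Agent.MP_984ac2_an

theorem Par.one_le {s r Γ : ℝ} {n : ℕ} (h : Par s r Γ n) : 1 ≤ Γ := by
  have h1 := h.gam_ge
  have hs := h.hs
  have h2 : 1 + r * 1 ≤ (1 + 1 : ℝ) ^ r :=
    one_add_mul_self_le_rpow_one_add (by norm_num) (by rw [h.hr]; nlinarith)
  have h3 : (1 + 1 : ℝ) = 2 := by norm_num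
  rw [h3, h.hr] at h2
  rw [h.hr] at h1
  have h4 : s ^ 2 ≤ Γ * s ^ 2 := by nlinarith [sq_nonneg s]
  have h5 : 0 < s ^ 2 := by positivity
  by_contra hcon
  push Not at hcon
  nlinarith

/-- The parameters exist for every `s ≥ 1000`. -/
theorem exists_par {s : ℝ} (hs : 1000 ≤ s) :
    ∃ n : ℕ, Par s (s ^ 2) (64 * 2 ^ (s ^ 2) / s ^ (3 / 2 : ℝ)) n := by
  have hs0 : 0 < s := by linarith
  have h32 : 0 < s ^ (3 / 2 : ℝ) := Real.rpow_pos_of_pos hs0 _
  refine ⟨⌊s ^ 2 / 2⌋₊, hs, rfl, ?_, Nat.floor_le (by positivity), (Nat.lt_floor_add_one _).le,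
    by positivity, by field_simp⟩
  have h1 := Real.pow_div_factorial_le_exp (s / 8) (by positivity) 20
  refine le_trans ?_ h1
  rw [le_div_iff₀ (by positivity), div_pow]
  rw [le_div_iff₀ (by positivity)]
  have h2 : (1000 : ℝ) ^ 16 ≤ s ^ 16 := pow_le_pow_left₀ (by norm_num) hs 16
  have h3 : (1000 * ((Nat.factorial 20 : ℕ) : ℝ) * 8 ^ 20) ≤ (1000 : ℝ) ^ 16 := by
    have : Nat.factorial 20 = 2432902008176640000 := by decide
    rw [this]
    norm_num
  have h4 : 0 ≤ s ^ 4 := by positivity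
  calc 1000 * s ^ 4 * ((Nat.factorial 20 : ℕ) : ℝ) * 8 ^ 20
      = (1000 * ((Nat.factorial 20 : ℕ) : ℝ) * 8 ^ 20) * s ^ 4 := by ring
    _ ≤ s ^ 16 * s ^ 4 := mul_le_mul_of_nonneg_right (h3.trans h2) h4
    _ = s ^ 20 := by ring

variable {p : ℝ≥0∞} [Fact (1 ≤ p)]

/-- The upper bound obtained from the pointwise inequality. -/
theorem upper_par (hp : p ≠ ∞) {s Γ : ℝ} {n : ℕ} (h : Par s p.toReal Γ n) :
    ‖ContinuousLinearMap.id ℂ (Hp p) - K0H p‖ ≤ Γ ^ (1 / p.toReal) := by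
  have hr1 := one_le_toReal hp
  have hΓ0 := h.hΓ0
  have hΓ1 := h.one_le
  obtain ⟨r, hr⟩ : ∃ r, r = p.toReal := ⟨_, rfl⟩
  have hr0 : 0 < p.toReal := by linarith
  have e : (Γ ^ (1 / p.toReal)) ^ p.toReal = Γ := by
    rw [← Real.rpow_mul hΓ0.le, one_div_mul_cancel hr0.ne', Real.rpow_one]
  refine norm_sub_K0H_le hp (Real.rpow_nonneg hΓ0.le _) fun Q => ?_
  rw [e]
  rw [← hr] at h hr1 hr0 ⊢
  have cQ := continuous_poly Q
  have c3 : Continuous fun x => ‖Q.eval (z x)‖ ^ r := continuous_norm_rpow cQ hr0.le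
  have c1 : Continuous fun x => ‖Q.eval (z x) - Q.eval 0‖ ^ r :=
    continuous_norm_rpow (cQ.sub continuous_const) hr0.le
  have hJ0 : 0 ≤ ∫ x, ‖Q.eval (z x)‖ ^ r ∂sigma :=
    integral_nonneg fun x => Real.rpow_nonneg (norm_nonneg _) _
  obtain ⟨c, hc⟩ : ∃ c, c = Q.eval 0 := ⟨_, rfl⟩
  rw [← hc] at c1 ⊢
  by_cases hc0 : c = 0
  · rw [hc0]
    simp only [sub_zero]
    nlinarith
  · have hcn : 0 < ‖c‖ := norm_pos_iff.2 hc0
    set F : ℂ → ℂ := fun w => phi n s (Q.eval w / c) with hF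
    have hFd : Differentiable ℂ F := (differentiable_phi n s).comp (Q.differentiable.div_const c)
    have hFc : Continuous fun x => F (z x) := hFd.continuous.comp continuous_z
    have hint := integral_re_eq hFd.diffContOnCl hFc
    have hF0 : F 0 = phi n s 1 := by
      rw [hF]
      simp only
      rw [← hc, div_self hc0]
    rw [hF0] at hint
    have hpt : ∀ x, ‖Q.eval (z x) - c‖ ^ r ≤ Γ * ‖Q.eval (z x)‖ ^ r
        + ‖c‖ ^ r * (r * Γ) * ((F (z x)).re - (phi n s 1).re) := by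
      intro x
      have h1 := h.point (Q.eval (z x) / c)
      have h2 : ‖Q.eval (z x) / c - 1‖ ^ r = ‖Q.eval (z x) - c‖ ^ r / ‖c‖ ^ r := by
        have : Q.eval (z x) / c - 1 = (Q.eval (z x) - c) / c := by field_simp
        rw [this, norm_div, Real.div_rpow (norm_nonneg _) (norm_nonneg _)]
      have h3 : ‖Q.eval (z x) / c‖ ^ r = ‖Q.eval (z x)‖ ^ r / ‖c‖ ^ r := by
        rw [norm_div, Real.div_rpow (norm_nonneg _) (norm_nonneg _)]
      rw [h2, h3] at h1
      have hcr : 0 < ‖c‖ ^ r := Real.rpow_pos_of_pos hcn _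
      have h4 := mul_le_mul_of_nonneg_left h1 hcr.le
      have e1 : ‖c‖ ^ r * (‖Q.eval (z x) - c‖ ^ r / ‖c‖ ^ r) = ‖Q.eval (z x) - c‖ ^ r := by
        field_simp
      have e2 : ‖c‖ ^ r * (Γ * (‖Q.eval (z x)‖ ^ r / ‖c‖ ^ r)
          + r * Γ * ((phi n s (Q.eval (z x) / c)).re - (phi n s 1).re))
          = Γ * ‖Q.eval (z x)‖ ^ r + ‖c‖ ^ r * (r * Γ) * ((F (z x)).re - (phi n s 1).re) := by
        rw [hF]
        field_simp
      rw [e1, e2] at h4
      exact h4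
    have i1 : Integrable (fun x => Γ * ‖Q.eval (z x)‖ ^ r) sigma :=
      integrable_of_continuous (continuous_const.mul c3)
    have i2 : Integrable (fun x => (F (z x)).re) sigma :=
      integrable_of_continuous (Complex.continuous_re.comp hFc)
    have i3 : Integrable (fun x => (F (z x)).re - (phi n s 1).re) sigma :=
      i2.sub (integrable_const _)
    have i4 : Integrable (fun x => ‖c‖ ^ r * (r * Γ) * ((F (z x)).re - (phi n s 1).re)) sigma :=
      i3.const_mul _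
    have h5 := integral_mono (integrable_of_continuous c1) (i1.add i4) hpt
    simp only [Pi.add_apply] at h5
    rw [integral_add i1 i4, integral_const_mul, integral_const_mul,
      integral_sub i2 (integrable_const _), hint] at h5
    simpa using h5

/-- The upper bound for large `p`, in the form `‖I - K₀‖^p ≤ 64 · 2^p · p^(-3/4)`. -/
theorem upper_large (hp : p ≠ ∞) (hp6 : 1000000 ≤ p.toReal) :
    ‖ContinuousLinearMap.id ℂ (Hp p) - K0H p‖ ^ p.toReal
      ≤ 64 * 2 ^ p.toReal * p.toReal ^ (-(3 / 4) : ℝ) := by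
  obtain ⟨r, hr⟩ : ∃ r, r = p.toReal := ⟨_, rfl⟩
  have hr0 : 0 < r := by rw [hr]; linarith
  obtain ⟨s, hs⟩ : ∃ s, s = Real.sqrt r := ⟨_, rfl⟩
  have hs2 : s ^ 2 = r := by rw [hs]; exact Real.sq_sqrt hr0.le
  have hs3 : 1000 ≤ s := by
    rw [hs]
    apply Real.le_sqrt_of_sq_le
    rw [hr]
    norm_num
    exact hp6
  have hs0 : 0 < s := by linarith
  obtain ⟨n, hn⟩ := exists_par hs3
  rw [hs2] at hn
  rw [hr] at hn
  have h1 := upper_par hp hn
  have hΓ0 := hn.hΓ0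
  have h2 := Real.rpow_le_rpow (ContinuousLinearMap.opNorm_nonneg _) h1 (by rw [← hr]; exact hr0.le : 0 ≤ p.toReal)
  rw [← Real.rpow_mul hΓ0.le, one_div_mul_cancel (by rw [← hr]; exact hr0.ne'), Real.rpow_one] at h2
  refine h2.trans (le_of_eq ?_)
  rw [← hr, div_eq_mul_inv, ← Real.rpow_neg hs0.le]
  congr 1
  rw [← hs2, ← Real.rpow_natCast s 2, ← Real.rpow_mul hs0.le]
  congr 1
  norm_num

/-- The upper bound for all `p`. -/
theorem upper_large_all (hp : p ≠ ∞) :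
    ‖ContinuousLinearMap.id ℂ (Hp p) - K0H p‖ ^ p.toReal
      ≤ 32000 * 2 ^ p.toReal * p.toReal ^ (-(3 / 4) : ℝ) := by
  have hr1 := one_le_toReal hp
  have hr0 : 0 < p.toReal := by linarith
  rcases le_total 1000000 p.toReal with h | h
  · refine (upper_large hp h).trans ?_
    have h1 : (0 : ℝ) ≤ 2 ^ p.toReal * p.toReal ^ (-(3 / 4) : ℝ) := by positivity
    nlinarith
  · have h1 : ‖ContinuousLinearMap.id ℂ (Hp p) - K0H p‖ ^ p.toReal ≤ 2 ^ p.toReal :=
      Real.rpow_le_rpow (ContinuousLinearMap.opNorm_nonneg _) upper_two hr0.le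
    refine h1.trans ?_
    have h2 : (1000000 : ℝ) ^ (-(3 / 4) : ℝ) ≤ p.toReal ^ (-(3 / 4) : ℝ) :=
      Real.rpow_le_rpow_of_nonpos hr0 h (by norm_num)
    have h3 : (1 / 32000 : ℝ) ≤ (1000000 : ℝ) ^ (-(3 / 4) : ℝ) := by
      have e : (1000000 : ℝ) = (1000 : ℝ) ^ (2 : ℝ) := by norm_num
      rw [e, ← Real.rpow_mul (by norm_num)]
      have e2 : (2 : ℝ) * (-(3 / 4)) = -(3 / 2) := by norm_num
      rw [e2, Real.rpow_neg (by norm_num), inv_eq_one_div]
      apply one_div_le_one_div_of_le (Real.rpow_pos_of_pos (by norm_num) _)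
      have h4 : (1000 : ℝ) ^ (3 / 2 : ℝ) = ((1000 : ℝ) ^ (3 : ℝ)) ^ (1 / 2 : ℝ) := by
        rw [← Real.rpow_mul (by norm_num)]
        norm_num
      rw [h4, ← Real.sqrt_eq_rpow]
      apply Real.sqrt_le_iff.2
      norm_num
    have h5 : 0 < (2 : ℝ) ^ p.toReal := by positivity
    have h6 : (1 : ℝ) ≤ 32000 * p.toReal ^ (-(3 / 4) : ℝ) := by linarith
    nlinarith

end Pool.Agent.MP_984ac2_an
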