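import Pool.Agent.MP_984ac2_an.TsLower

set_option autoImplicit false

open MeasureTheory AddCircle Filter Topology Metric Set
open scoped ENNReal ComplexConjugate

noncomputable section

namespace Pool.Agent.MP_984ac2_an

variable {p : ℝ≥0∞} [Fact (1 ≤ p)]

/-! ### The lower bound from disc automorphisms -/

/-- The test function `F(w) = (w - a) / (1 - a w)`, evaluated at `0` and at `ρ`. -/
theorem lower_mob (hp : p ≠ ∞) {a ρ : ℝ} (ha0 : 0 < a) (ha1 : a < 1) (hρ0 : 0 < ρ) (hρ1 : ρ < 1) :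
    (1 - a ^ 2) * ρ / (1 - a * ρ) * ((1 - ρ) / (1 + ρ)) ^ (1 / p.toReal)
      ≤ ‖ContinuousLinearMap.id ℂ (Hp p) - K0H p‖ := by
  have hr1 := one_le_toReal hp
  set r := p.toReal with hr
  have hr0 : 0 < r := by linarith
  have haρ : a * ρ < 1 := by nlinarith
  set D : ℝ := (1 - a ^ 2) * ρ / (1 - a * ρ) with hD
  have hD0 : 0 < D := by
    apply div_pos (mul_pos (by nlinarith) hρ0) (by linarith)
  set κ : ℝ := (1 - ρ) / (1 + ρ) with hκ
  have hκ0 : 0 < κ := by apply div_pos <;> linarith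
  have haC : ‖(-(a : ℂ))‖ < 1 := by
    rw [norm_neg, Complex.norm_real, Real.norm_of_nonneg ha0.le]; exact ha1
  have hρC : ‖(ρ : ℂ)‖ < 1 := by
    rw [Complex.norm_real, Real.norm_of_nonneg hρ0.le]; exact hρ1
  have hFd := diffContOnCl_mob haC
  have hFc : Continuous fun x => mob (-(a : ℂ)) (z x) :=
    continuous_subtype_val.comp (continuous_mobC haC)
  let G : C(Circ, ℂ) := ⟨fun x => mob (-(a : ℂ)) (z x), hFc⟩
  have hF0 : mob (-(a : ℂ)) 0 = -(a : ℂ) := mob_zero
  have hFρ : mob (-(a : ℂ)) ρ - mob (-(a : ℂ)) 0 = (D : ℂ) := by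
    rw [hF0, mob, hD]
    have h1 : (1 : ℂ) - a * ρ ≠ 0 := by
      have h2 : (1 : ℝ) - a * ρ ≠ 0 := by linarith
      exact_mod_cast h2
    have h2 : (1 : ℂ) + conj (-(a : ℂ)) * ρ = 1 - a * ρ := by
      rw [map_neg, Complex.conj_ofReal]; ring
    rw [h2]
    push_cast
    field_simp
    ring
  set h : Circ → ℝ := fun x => ‖mob (-(a : ℂ)) (z x) - mob (-(a : ℂ)) 0‖ with hh
  have ch : Continuous h := (hFc.sub continuous_const).norm
  have hh0 : ∀ x, 0 ≤ h x := fun x => norm_nonneg _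
  have cP := continuous_P hρC
  -- `D ≤ ∫ P h`
  have h1 : D ≤ ∫ x, P (ρ : ℂ) x * h x ∂sigma := by
    have h2 : DiffContOnCl ℂ (fun w => mob (-(a : ℂ)) w - mob (-(a : ℂ)) 0) (ball 0 1) :=
      hFd.sub diffContOnCl_const
    have h3 := poisson_formula h2 hρC
    rw [hFρ] at h3
    have h4 : ‖(D : ℂ)‖ = D := by rw [Complex.norm_real, Real.norm_of_nonneg hD0.le]
    rw [← h4, ← h3]
    refine (norm_integral_le_integral_norm _).trans (le_of_eq ?_)
    refine integral_congr_ae (Eventually.of_forall fun x => ?_)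
    simp only [norm_mul, Complex.norm_real, Real.norm_of_nonneg (P_pos hρC x).le, hh]
  -- the Poisson kernel is at most `1/κ`
  have hPκ : ∀ x, κ * P (ρ : ℂ) x ≤ 1 := by
    intro x
    have h2 : 1 - ρ ≤ ‖z x - ρ‖ := by
      have h3 : ‖z x‖ ≤ ‖z x - ρ‖ + ‖(ρ : ℂ)‖ := by
        have := norm_add_le (z x - ρ) (ρ : ℂ)
        rwa [sub_add_cancel] at this
      rw [norm_z, Complex.norm_real, Real.norm_of_nonneg hρ0.le] at h3
      linarith
    have h4 : (1 - ρ) ^ 2 ≤ ‖z x - ρ‖ ^ 2 := pow_le_pow_left₀ (by linarith) h2 2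
    have h5 : 0 < ‖z x - ρ‖ ^ 2 := lt_of_lt_of_le (by nlinarith) h4
    have h6 : κ * P (ρ : ℂ) x = (1 - ρ) ^ 2 / ‖z x - ρ‖ ^ 2 := by
      unfold P
      rw [Complex.norm_real, Real.norm_of_nonneg hρ0.le, hκ]
      have : (1 : ℝ) + ρ ≠ 0 := by linarith
      field_simp
      ring
    rw [h6]
    exact (div_le_one h5).2 h4
  -- tangent line
  have htan : ∀ x, D ^ r * (1 + r * (h x / D - 1)) ≤ h x ^ r := by
    intro x
    have h2 : -1 ≤ h x / D - 1 := by
      have : 0 ≤ h x / D := div_nonneg (hh0 x) hD0.le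
      linarith
    have h3 := one_add_mul_self_le_rpow_one_add h2 hr1
    rw [add_sub_cancel] at h3
    have h4 : h x ^ r = D ^ r * (h x / D) ^ r := by
      rw [Real.div_rpow (hh0 x) hD0.le]
      have : 0 < D ^ r := Real.rpow_pos_of_pos hD0 _
      field_simp
    rw [h4]
    exact mul_le_mul_of_nonneg_left h3 (Real.rpow_nonneg hD0.le _)
  have hDr : 0 < D ^ r := Real.rpow_pos_of_pos hD0 _
  have cI : Continuous fun x => h x ^ r := ch.rpow_const fun _ => Or.inr hr0.le
  have hmain : κ * D ^ r ≤ ∫ x, h x ^ r ∂sigma := by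
    have hpt : ∀ x, κ * D ^ r * (1 - r) * P (ρ : ℂ) x + κ * D ^ r * (r / D) * (P (ρ : ℂ) x * h x)
        ≤ h x ^ r := by
      intro x
      have h2 : 0 ≤ κ * P (ρ : ℂ) x := mul_nonneg hκ0.le (P_pos hρC x).le
      have h3 := mul_le_mul_of_nonneg_left (htan x) h2
      have h4 : κ * P (ρ : ℂ) x * h x ^ r ≤ 1 * h x ^ r :=
        mul_le_mul_of_nonneg_right (hPκ x) (Real.rpow_nonneg (hh0 x) _)
      have h5 : κ * D ^ r * (1 - r) * P (ρ : ℂ) x + κ * D ^ r * (r / D) * (P (ρ : ℂ) x * h x)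
          = κ * P (ρ : ℂ) x * (D ^ r * (1 + r * (h x / D - 1))) := by ring
      rw [h5]
      linarith
    have i1 : Integrable (fun x => κ * D ^ r * (1 - r) * P (ρ : ℂ) x) sigma :=
      integrable_of_continuous (continuous_const.mul cP)
    have i2 : Integrable (fun x => κ * D ^ r * (r / D) * (P (ρ : ℂ) x * h x)) sigma :=
      integrable_of_continuous (continuous_const.mul (cP.mul ch))
    have h6 := integral_mono (i1.add i2) (integrable_of_continuous cI) hpt
    simp only [Pi.add_apply] at h6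
    rw [integral_add i1 i2, integral_const_mul, integral_const_mul, integral_P hρC] at h6
    have h7 : κ * D ^ r * (r / D) * D ≤ κ * D ^ r * (r / D) * ∫ x, P (ρ : ℂ) x * h x ∂sigma :=
      mul_le_mul_of_nonneg_left h1 (by positivity)
    have h8 : κ * D ^ r * (r / D) * D = κ * D ^ r * r := by field_simp
    rw [h8] at h7
    nlinarith
  have hC0 : 0 ≤ D * κ ^ (1 / r) := mul_nonneg hD0.le (Real.rpow_nonneg hκ0.le _)
  have hG1 : ∫ x, ‖G x‖ ^ r ∂sigma = 1 := by
    have h2 : ∀ x, ‖G x‖ ^ r = 1 := fun x => by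
      change ‖mob (-(a : ℂ)) (z x)‖ ^ r = 1
      rw [norm_mob_eq_one haC (norm_z x), Real.one_rpow]
    simp_rw [h2]
    simp
  refine le_norm_sub_K0H hp hC0 hFd G (fun x => rfl) ?_ ?_
  · rw [← hr, hG1]; norm_num
  · rw [← hr, hG1, mul_one, Real.mul_rpow hD0.le (Real.rpow_nonneg hκ0.le _),
      ← Real.rpow_mul hκ0.le, one_div_mul_cancel hr0.ne', Real.rpow_one, mul_comm]
    exact hmain

/-- For `p ≥ 20` the norm is at least `1.05`. -/
theorem lower_twenty (hp : p ≠ ∞) (hp20 : 20 ≤ p.toReal) :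
    21 / 20 ≤ ‖ContinuousLinearMap.id ℂ (Hp p) - K0H p‖ := by
  have h := lower_mob hp (a := 1 / 2) (ρ := 9 / 10) (by norm_num) (by norm_num) (by norm_num)
    (by norm_num)
  set r := p.toReal with hr
  have hr0 : 0 < r := by linarith
  have e1 : (1 - (1 / 2 : ℝ) ^ 2) * (9 / 10) / (1 - 1 / 2 * (9 / 10)) = 27 / 22 := by norm_num
  have e2 : (1 - (9 / 10 : ℝ)) / (1 + 9 / 10) = 1 / 19 := by norm_num
  rw [e1, e2] at h
  have h1 : (1 / 19 : ℝ) ^ (1 / 20 : ℝ) ≤ (1 / 19 : ℝ) ^ (1 / r) := by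
    refine Real.rpow_le_rpow_of_exponent_ge (by norm_num) (by norm_num) ?_
    exact one_div_le_one_div_of_le (by norm_num) hp20
  have h2 : (2139 / 2500 : ℝ) ≤ (1 / 19 : ℝ) ^ (1 / 20 : ℝ) := by
    have h3 : ((2139 / 2500 : ℝ) ^ 20) ^ (1 / 20 : ℝ) ≤ (1 / 19 : ℝ) ^ (1 / 20 : ℝ) :=
      Real.rpow_le_rpow (by positivity) (by norm_num) (by norm_num)
    rw [← Real.rpow_natCast, ← Real.rpow_mul (by norm_num)] at h3
    norm_num at h3 ⊢
    linarith
  have h4 : (2139 / 2500 : ℝ) ≤ (1 / 19 : ℝ) ^ (1 / r) := h2.trans h1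
  nlinarith

/-- The lower bound of order `(1 - 2/p)²`, all `p`. -/
theorem lower_all (hp : p ≠ ∞) :
    1 + (1 - 2 / p.toReal) ^ 2 / 12800 ≤ ‖ContinuousLinearMap.id ℂ (Hp p) - K0H p‖ := by
  rcases le_total p.toReal 20 with h | h
  · exact lower_small hp h
  · refine le_trans ?_ (lower_twenty hp h)
    have hr0 : 0 < p.toReal := by linarith
    have h1 : 0 < 2 / p.toReal := by positivity
    have h2 : 2 / p.toReal ≤ 1 / 10 := by
      rw [div_le_div_iff₀ hr0 (by norm_num)]; linarith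
    nlinarith

/-- The lower bound for large `p`. -/
theorem lower_log (hp : p ≠ ∞) :
    2 - (5 + 4 * Real.log p.toReal) / p.toReal
      ≤ ‖ContinuousLinearMap.id ℂ (Hp p) - K0H p‖ := by
  have hr1 := one_le_toReal hp
  have hall := lower_all hp
  set r := p.toReal with hr
  have hr0 : 0 < r := by linarith
  have hlog : 0 ≤ Real.log r := Real.log_nonneg hr1
  have hone : 1 ≤ ‖ContinuousLinearMap.id ℂ (Hp p) - K0H p‖ := by
    have : 0 ≤ (1 - 2 / r) ^ 2 / 12800 := by positivity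
    linarith
  rcases le_total r 5 with h5 | h5
  · refine le_trans ?_ hone
    have : 1 ≤ (5 + 4 * Real.log r) / r := by
      rw [le_div_iff₀ hr0]; linarith
    linarith
  · set η : ℝ := 1 / r with hη
    have hη0 : 0 < η := by positivity
    have hη5 : η ≤ 1 / 5 := one_div_le_one_div_of_le (by norm_num) h5
    have hηsq : η ^ 2 < 1 := by nlinarith
    have h := lower_mob hp (a := 1 - η) (ρ := 1 - η ^ 2) (by linarith) (by linarith)
      (by linarith) (by nlinarith [sq_pos_of_pos hη0])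
    rw [← hr, ← hη] at h
    set L : ℝ := η * (2 * Real.log r + Real.log 2) with hL
    have hlog2 : Real.log 2 ≤ 1 := by
      have := Real.log_two_lt_d9
      linarith
    have hlog20 : 0 ≤ Real.log 2 := Real.log_nonneg (by norm_num)
    have hL0 : 0 ≤ L := by positivity
    have htarget : 2 - (5 + 4 * Real.log r) / r ≤ 2 - 3 * η - 2 * L := by
      have e : (5 + 4 * Real.log r) / r = η * (5 + 4 * Real.log r) := by rw [hη]; ring
      rw [e, hL]
      nlinarith
    by_cases hL1 : 1 ≤ L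
    · have := norm_nonneg (ContinuousLinearMap.id ℂ (Hp p) - K0H p)
      refine htarget.trans ?_
      linarith
    · push Not at hL1
      have hD : 2 - 3 * η ≤ (1 - (1 - η) ^ 2) * (1 - η ^ 2) / (1 - (1 - η) * (1 - η ^ 2)) := by
        have e1 : 1 - (1 - η) * (1 - η ^ 2) = η * (1 + η - η ^ 2) := by ring
        have e2 : (1 - (1 - η) ^ 2) * (1 - η ^ 2) = η * ((2 - η) * (1 - η ^ 2)) := by ring
        have h3 : 0 < 1 + η - η ^ 2 := by nlinarith
        rw [e1, e2, mul_div_mul_left _ _ hη0.ne', le_div_iff₀ h3]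
        nlinarith [sq_nonneg η, pow_pos hη0 3]
      have hκ : 1 - L ≤ ((1 - (1 - η ^ 2)) / (1 + (1 - η ^ 2))) ^ η := by
        have e1 : (1 - (1 - η ^ 2)) / (1 + (1 - η ^ 2)) = η ^ 2 / (2 - η ^ 2) := by
          congr 1 <;> ring
        rw [e1]
        have h3 : η ^ 2 / 2 ≤ η ^ 2 / (2 - η ^ 2) := by
          apply div_le_div_of_nonneg_left (sq_nonneg _) (by linarith)
          have := sq_nonneg η
          linarith
        have h4 : (η ^ 2 / 2) ^ η ≤ (η ^ 2 / (2 - η ^ 2)) ^ η :=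
          Real.rpow_le_rpow (by positivity) h3 hη0.le
        refine le_trans ?_ h4
        have h5 : (η ^ 2 / 2) ^ η = Real.exp (Real.log (η ^ 2 / 2) * η) :=
          Real.rpow_def_of_pos (by positivity) _
        have h6 : Real.log (η ^ 2 / 2) = -(2 * Real.log r + Real.log 2) := by
          rw [Real.log_div (by positivity) (by norm_num), Real.log_pow, hη, one_div, Real.log_inv]
          push_cast
          ring
        rw [h5, h6]
        have h7 := Real.add_one_le_exp (-(2 * Real.log r + Real.log 2) * η)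
        have h8 : -(2 * Real.log r + Real.log 2) * η = -L := by rw [hL]; ring
        rw [h8] at h7 ⊢
        linarith
      have h9 : (2 - 3 * η) * (1 - L) ≤ ‖ContinuousLinearMap.id ℂ (Hp p) - K0H p‖ := by
        refine le_trans ?_ h
        exact mul_le_mul hD hκ (by linarith) (le_trans (by linarith) hD)
      refine htarget.trans (le_trans ?_ h9)
      nlinarith [mul_nonneg hη0.le hL0]

end Pool.Agent.MP_984ac2_an
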