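import Pool.Agent.MP_984ac2_an.TsLargeLow
import Pool.Agent.MP_984ac2_an.TsLarge
import Pool.Agent.MP_984ac2_an.TsMoebius

set_option autoImplicit false

open MeasureTheory AddCircle Filter Topology Metric Set
open scoped ENNReal ComplexConjugate

noncomputable section

namespace Pool.Agent.MP_984ac2_an

theorem one_sub_ge_exp {t : ℝ} (h0 : 0 ≤ t) (h1 : t ≤ 1 / 2) : Real.exp (-(2 * t)) ≤ 1 - t := by
  have h := Real.add_one_le_exp (2 * t)
  rw [Real.exp_neg, inv_eq_one_div, div_le_iff₀ (Real.exp_pos _)]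
  nlinarith

variable {p : ℝ≥0∞} [Fact (1 ≤ p)]

/-- The lower bound for `p ≥ 36`, in the form `‖I - K₀‖^p ≥ (e^(-36)/864) 2^p p^(-3/4)`. -/
theorem lower_large (hp : p ≠ ∞) (hp36 : 36 ≤ p.toReal) :
    Real.exp (-36) / 864 * 2 ^ p.toReal * p.toReal ^ (-(3 / 4) : ℝ)
      ≤ ‖ContinuousLinearMap.id ℂ (Hp p) - K0H p‖ ^ p.toReal := by
  obtain ⟨r, hr⟩ : ∃ r, r = p.toReal := ⟨_, rfl⟩
  have hp0 : 0 < p.toReal := by linarith
  have hr0 : 0 < r := by rw [hr]; exact hp0
  have hr36 : 36 ≤ r := by rw [hr]; exact hp36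
  obtain ⟨s, hs⟩ : ∃ s, s = Real.sqrt r := ⟨_, rfl⟩
  have hs2 : r = s ^ 2 := by rw [hs]; exact (Real.sq_sqrt hr0.le).symm
  have hs6 : 6 ≤ s := by
    rw [hs]
    apply Real.le_sqrt_of_sq_le
    norm_num
    exact hr36
  have hs0 : 0 < s := by linarith
  obtain ⟨R, hR⟩ : ∃ R, R = 1 + 1 / s := ⟨_, rfl⟩
  have hsi : 0 < 1 / s := by positivity
  have hsi1 : 1 / s ≤ 1 := by rw [div_le_one hs0]; linarith
  have hR1 : 1 < R := by rw [hR]; linarith
  obtain ⟨a, ha⟩ : ∃ a, a = 1 - 1 / r := ⟨_, rfl⟩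
  have hri : 0 < 1 / r := by positivity
  have hri1 : 1 / r ≤ 1 / 36 := one_div_le_one_div_of_le (by norm_num) hr36
  have ha0 : 0 ≤ a := by rw [ha]; linarith
  have ha1 : a < 1 := by rw [ha]; linarith
  have haC : ‖(a : ℂ)‖ < 1 := by
    rw [Complex.norm_real, Real.norm_of_nonneg ha0]; exact ha1
  obtain ⟨e, he⟩ : ∃ e : ℝ, e = -(3 / r) := ⟨_, rfl⟩
  let F : ℂ → ℂ := fun w => Psi R e (mob (a : ℂ) w)
  have hFd : DiffContOnCl ℂ F (ball 0 1) := by
    refine DifferentiableOn.diffContOnCl ?_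
    intro w hw
    have hw' : w ∈ closedBall (0 : ℂ) 1 := closure_ball_subset_closedBall hw
    have hw1 : ‖w‖ ≤ 1 := by simpa using hw'
    exact ((differentiableAt_Psi hR1 e (norm_mob_le_one haC hw1)).comp w
      (differentiableAt_mob haC hw1)).differentiableWithinAt
  have hFz : ∀ x, F (z x) = Psi R e (z (psi (a : ℂ) haC x)) := fun x => by
    rw [z_psi haC]
  have cPsi := continuous_Psi_z hR1 e
  have hFc : Continuous fun x => F (z x) := by
    simp_rw [hFz]
    exact cPsi.comp (psi (a : ℂ) haC).continuous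
  let G : C(Circ, ℂ) := ⟨fun x => F (z x), hFc⟩
  have hF0 : F 0 = Psi R e (a : ℂ) := by
    change Psi R e (mob (a : ℂ) 0) = _
    rw [mob_zero]
  have cP := continuous_P haC
  -- the mass
  have I1e : ∫ x, ‖G x‖ ^ r ∂sigma = ∫ x, P (a : ℂ) x * ‖Psi R e (z x)‖ ^ r ∂sigma := by
    rw [← change_var_real haC (fun x => ‖Psi R e (z x)‖ ^ r) (continuous_norm_rpow cPsi hr0.le)]
    refine integral_congr_ae (Eventually.of_forall fun x => ?_)
    change ‖F (z x)‖ ^ r = _
    rw [hFz]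
  have I1 : ∫ x, ‖G x‖ ^ r ∂sigma ≤ 54 := by
    rw [I1e, he]
    exact mass_Psi (by linarith) hs2 hR ha ha0 haC
  have I1pos : 0 < ∫ x, ‖G x‖ ^ r ∂sigma := by
    rw [I1e]
    have h1 : ∫ x, P (a : ℂ) x ∂sigma ≤ ∫ x, P (a : ℂ) x * ‖Psi R e (z x)‖ ^ r ∂sigma := by
      refine integral_mono (integrable_of_continuous cP)
        (integrable_of_continuous (cP.mul (continuous_norm_rpow cPsi hr0.le))) fun x => ?_
      have h2 : 1 ≤ ‖Psi R e (z x)‖ := by
        rw [norm_Psi_z hR1]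
        have h3 : 0 < ‖(R : ℂ) + z x‖ := by
          have := norm_R_z_ge hR1 x
          linarith
        apply Real.one_le_rpow_of_pos_of_le_one_of_nonpos (by positivity)
        · rw [div_le_one (by linarith)]
          refine (norm_add_le _ _).trans ?_
          rw [norm_z, Complex.norm_real, Real.norm_of_nonneg (by linarith)]
        · rw [he]
          have : 0 < 3 / r := by positivity
          linarith
      have h4 : 1 ≤ ‖Psi R e (z x)‖ ^ r := Real.one_le_rpow h2 hr0.le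
      have h5 := mul_le_mul_of_nonneg_left h4 (P_pos haC x).le
      simpa using h5
    rw [integral_P haC] at h1
    linarith
  -- the numerator
  have cS : Continuous fun x => P (a : ℂ) x * ‖Psi R e (z x) - Psi R e (a : ℂ)‖ ^ r :=
    cP.mul (continuous_norm_rpow (cPsi.sub continuous_const) hr0.le)
  have I2e : ∫ x, ‖G x - F 0‖ ^ r ∂sigma
      = ∫ x, P (a : ℂ) x * ‖Psi R e (z x) - Psi R e (a : ℂ)‖ ^ r ∂sigma := by
    rw [← change_var_real haC (fun x => ‖Psi R e (z x) - Psi R e (a : ℂ)‖ ^ r)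
      (continuous_norm_rpow (cPsi.sub continuous_const) hr0.le)]
    refine integral_congr_ae (Eventually.of_forall fun x => ?_)
    change ‖F (z x) - F 0‖ ^ r = _
    rw [hFz, hF0]
  have hg0 : 0 < s ^ (3 / (2 * r)) := Real.rpow_pos_of_pos hs0 _
  have hgr : (s ^ (3 / (2 * r))) ^ r = s ^ (3 / 2 : ℝ) := by
    rw [← Real.rpow_mul hs0.le]
    congr 1
    field_simp
  have h18 : 18 / r ≤ 1 / 2 := by
    rw [div_le_div_iff₀ hr0 (by norm_num)]; linarith
  have h180 : 0 ≤ 18 / r := by positivity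
  have hexp : Real.exp (-36) ≤ (1 - 18 / r) ^ r := by
    have h1 := one_sub_ge_exp h180 h18
    have h2 := Real.rpow_le_rpow (Real.exp_pos _).le h1 hr0.le
    rw [← Real.exp_mul] at h2
    have h3 : -(2 * (18 / r)) * r = -36 := by field_simp; norm_num
    rwa [h3] at h2
  obtain ⟨m, hm⟩ : ∃ m, m = 1 / (4 * r) * (2 ^ r * s ^ (3 / 2 : ℝ) * Real.exp (-36)) := ⟨_, rfl⟩
  have hs32 : 0 < s ^ (3 / 2 : ℝ) := Real.rpow_pos_of_pos hs0 _
  have hm0 : 0 ≤ m := by rw [hm]; positivity
  have I2 : m * (1 / s) / 4 ≤ ∫ x, ‖G x - F 0‖ ^ r ∂sigma := by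
    rw [I2e]
    refine window cS (fun x => mul_nonneg (P_pos haC x).le (Real.rpow_nonneg (norm_nonneg _) _))
      hsi hsi1 hm0 fun x hx => ?_
    have h1 := Psi_sub_ge hs6 hs2 hR ha ha0 hx
    rw [← he] at h1
    have h0 : 0 ≤ 2 * s ^ (3 / (2 * r)) * (1 - 18 / r) := by
      apply mul_nonneg (by positivity) (by linarith)
    have h2 := Real.rpow_le_rpow h0 h1 hr0.le
    rw [Real.mul_rpow (by positivity) (by linarith), Real.mul_rpow (by norm_num) hg0.le, hgr] at h2
    have h3 : 2 ^ r * s ^ (3 / 2 : ℝ) * Real.exp (-36)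
        ≤ 2 ^ r * s ^ (3 / 2 : ℝ) * (1 - 18 / r) ^ r :=
      mul_le_mul_of_nonneg_left hexp (by positivity)
    have h4 : 1 / (4 * r) ≤ P (a : ℂ) x := by
      unfold P
      have h5 : ‖(a : ℂ)‖ = a := by rw [Complex.norm_real, Real.norm_of_nonneg ha0]
      have h6 : ‖z x - (a : ℂ)‖ ≤ 2 := by
        refine (norm_sub_le _ _).trans ?_
        rw [norm_z, h5]
        linarith
      have h7 : ‖z x - (a : ℂ)‖ ^ 2 ≤ 4 := by
        calc ‖z x - (a : ℂ)‖ ^ 2 ≤ 2 ^ 2 := pow_le_pow_left₀ (norm_nonneg _) h6 2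
          _ = 4 := by norm_num
      have h8 : 0 < ‖z x - (a : ℂ)‖ := norm_pos_iff.2 (z_sub_ne haC x)
      rw [h5]
      have h9 : 1 / r ≤ 1 - a ^ 2 := by
        have : 1 - a = 1 / r := by rw [ha]; ring
        nlinarith
      have e1 : 1 / (4 * r) = 1 / r / 4 := by field_simp
      rw [e1]
      calc 1 / r / 4 ≤ (1 - a ^ 2) / 4 := div_le_div_of_nonneg_right h9 (by norm_num)
        _ ≤ (1 - a ^ 2) / ‖z x - (a : ℂ)‖ ^ 2 :=
          div_le_div_of_nonneg_left (by linarith) (by positivity) h7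
    rw [hm]
    exact mul_le_mul h4 (h3.trans h2) (by positivity) (P_pos haC x).le
  -- powers of `s`
  have hsr : r ^ (-(3 / 4) : ℝ) = (s ^ (3 / 2 : ℝ))⁻¹ := by
    rw [hs2, ← Real.rpow_natCast s 2, ← Real.rpow_mul hs0.le, ← Real.rpow_neg hs0.le]
    congr 1
    norm_num
  have hss : s ^ (3 / 2 : ℝ) * s ^ (3 / 2 : ℝ) = s ^ 3 := by
    rw [← Real.rpow_add hs0, ← Real.rpow_natCast]
    norm_num
  have hT : (0 : ℝ) < 2 ^ r := by positivity
  have hmval : m * (1 / s) / 4 = Real.exp (-36) / 16 * 2 ^ r * (s ^ (3 / 2 : ℝ))⁻¹ := by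
    rw [hm]
    have e1 : (s ^ (3 / 2 : ℝ))⁻¹ = s ^ (3 / 2 : ℝ) / s ^ 3 := by
      rw [← hss]
      field_simp
    rw [e1, hs2]
    field_simp
    ring
  obtain ⟨A, hA⟩ : ∃ A, A = Real.exp (-36) / 864 * 2 ^ r * r ^ (-(3 / 4) : ℝ) := ⟨_, rfl⟩
  have hA0 : 0 < A := by
    rw [hA]
    have := Real.exp_pos (-36)
    positivity
  have hAe : (A ^ (1 / r)) ^ r = A := by
    rw [← Real.rpow_mul hA0.le, one_div_mul_cancel hr0.ne', Real.rpow_one]
  have hfin : A ^ (1 / r) ≤ ‖ContinuousLinearMap.id ℂ (Hp p) - K0H p‖ := by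
    refine le_norm_sub_K0H hp (Real.rpow_nonneg hA0.le _) hFd G (fun x => rfl) ?_ ?_
    · rw [← hr]; exact I1pos
    · rw [← hr, hAe]
      refine le_trans ?_ I2
      rw [hmval]
      have h1 := mul_le_mul_of_nonneg_left I1 hA0.le
      refine h1.trans (le_of_eq ?_)
      rw [hA, hsr]
      ring
  have h5 := Real.rpow_le_rpow (Real.rpow_nonneg hA0.le _) hfin hr0.le
  rw [hAe, hA] at h5
  rw [← hr]
  exact h5

/-- The lower bound for all `p`. -/
theorem lower_large_all (hp : p ≠ ∞) :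
    Real.exp (-36) / 864 * 2 ^ p.toReal * p.toReal ^ (-(3 / 4) : ℝ)
      ≤ ‖ContinuousLinearMap.id ℂ (Hp p) - K0H p‖ ^ p.toReal := by
  rcases le_total 36 p.toReal with h | h
  · exact lower_large hp h
  · have hr1 := one_le_toReal hp
    have hr0 : 0 < p.toReal := by linarith
    have hall := lower_all hp
    have hone : 1 ≤ ‖ContinuousLinearMap.id ℂ (Hp p) - K0H p‖ := by
      have : 0 ≤ (1 - 2 / p.toReal) ^ 2 / 12800 := by positivity
      linarith
    have h1 : 1 ≤ ‖ContinuousLinearMap.id ℂ (Hp p) - K0H p‖ ^ p.toReal :=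
      Real.one_le_rpow hone hr0.le
    refine le_trans ?_ h1
    have h2 : p.toReal ^ (-(3 / 4) : ℝ) ≤ 1 := Real.rpow_le_one_of_one_le_of_nonpos hr1 (by norm_num)
    have h3 : (2 : ℝ) ^ p.toReal ≤ Real.exp 36 := by
      have h4 : (2 : ℝ) ≤ Real.exp 1 := by
        have := Real.add_one_le_exp (1 : ℝ)
        linarith
      calc (2 : ℝ) ^ p.toReal ≤ Real.exp 1 ^ p.toReal := Real.rpow_le_rpow (by norm_num) h4 hr0.le
        _ = Real.exp p.toReal := by rw [← Real.exp_mul, one_mul]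
        _ ≤ Real.exp 36 := Real.exp_le_exp.2 h
    have h5 : Real.exp (-36) * Real.exp 36 = 1 := by
      rw [← Real.exp_add]; norm_num
    have h6 := Real.exp_pos (-36)
    have h7 : Real.exp (-36) * 2 ^ p.toReal ≤ 1 := by
      rw [← h5]
      exact mul_le_mul_of_nonneg_left h3 h6.le
    have h8 : 0 ≤ p.toReal ^ (-(3 / 4) : ℝ) := Real.rpow_nonneg hr0.le _
    have h9 : 0 ≤ Real.exp (-36) * 2 ^ p.toReal := by positivity
    calc Real.exp (-36) / 864 * 2 ^ p.toReal * p.toReal ^ (-(3 / 4) : ℝ)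
        = 1 / 864 * (Real.exp (-36) * 2 ^ p.toReal * p.toReal ^ (-(3 / 4) : ℝ)) := by ring
      _ ≤ 1 / 864 * (1 * 1) := by
          apply mul_le_mul_of_nonneg_left _ (by norm_num)
          exact mul_le_mul h7 h2 h8 (by norm_num)
      _ ≤ 1 := by norm_num

/-- **The asymptotic expansion**: `‖I - K₀‖ = 2 - (3/2) (log p)/p + O(1/p)`. -/
theorem expansion (hp : p ≠ ∞) :
    |‖ContinuousLinearMap.id ℂ (Hp p) - K0H p‖
      - (2 - 3 / 2 * (Real.log p.toReal / p.toReal))| ≤ 200 / p.toReal := by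
  have hup := upper_large_all hp
  have hlo := lower_large_all hp
  have hr1 := one_le_toReal hp
  have hall := lower_all hp
  have htwo := upper_two (p := p)
  obtain ⟨N, hN⟩ : ∃ N, N = ‖ContinuousLinearMap.id ℂ (Hp p) - K0H p‖ := ⟨_, rfl⟩
  obtain ⟨r, hr⟩ : ∃ r, r = p.toReal := ⟨_, rfl⟩
  rw [← hN] at hup hlo hall htwo ⊢
  rw [← hr] at hup hlo hall hr1 ⊢
  have hr0 : 0 < r := by linarith
  have hN1 : 1 ≤ N := by
    have : 0 ≤ (1 - 2 / r) ^ 2 / 12800 := by positivity
    linarith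
  have hN0 : 0 < N := by linarith
  have hlog0 : 0 ≤ Real.log r := Real.log_nonneg hr1
  rcases le_total r 100 with h100 | h100
  · -- small `r`
    have h1 : Real.log r / r ≤ 1 := by
      rw [div_le_one hr0]
      have := Real.log_le_sub_one_of_pos hr0
      linarith
    have h2 : 0 ≤ Real.log r / r := div_nonneg hlog0 hr0.le
    have h3 : 2 ≤ 200 / r := by rw [le_div_iff₀ hr0]; linarith
    rw [abs_le]
    constructor <;> linarith
  · obtain ⟨t, ht⟩ : ∃ t, t = Real.log (N / 2) := ⟨_, rfl⟩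
    have hN2 : 0 < N / 2 := by linarith
    have hNt : N = 2 * Real.exp t := by rw [ht, Real.exp_log hN2]; ring
    have hT : (0 : ℝ) < 2 ^ r := by positivity
    have hr34 : 0 < r ^ (-(3 / 4) : ℝ) := Real.rpow_pos_of_pos hr0 _
    have hlogN : Real.log (N ^ r) = r * Real.log 2 + r * t := by
      rw [Real.log_rpow hN0, ht, Real.log_div hN0.ne' (by norm_num)]
      ring
    have hNr : 0 < N ^ r := Real.rpow_pos_of_pos hN0 _
    -- logarithms of the two bounds
    have hu : r * t ≤ Real.log 32000 - 3 / 4 * Real.log r := by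
      have h1 := Real.log_le_log hNr hup
      rw [hlogN, Real.log_mul (by positivity) hr34.ne', Real.log_mul (by norm_num) hT.ne',
        Real.log_rpow hr0, Real.log_rpow (by norm_num)] at h1
      linarith
    have hl : -36 - Real.log 864 - 3 / 4 * Real.log r ≤ r * t := by
      have he := Real.exp_pos (-36)
      have h1 := Real.log_le_log (by positivity) hlo
      rw [hlogN, Real.log_mul (by positivity) hr34.ne', Real.log_mul (by positivity) hT.ne',
        Real.log_div he.ne' (by norm_num), Real.log_exp,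
        Real.log_rpow hr0, Real.log_rpow (by norm_num)] at h1
      linarith
    have hexp1 := Real.exp_one_gt_d9
    have h864 : Real.log 864 ≤ 7 := by
      rw [Real.log_le_iff_le_exp (by norm_num)]
      have e : Real.exp 7 = Real.exp 1 ^ 7 := by rw [← Real.exp_nat_mul]; norm_num
      rw [e]
      have h1 : (2.7182818283 : ℝ) ^ 7 ≤ Real.exp 1 ^ 7 :=
        pow_le_pow_left₀ (by norm_num) hexp1.le 7
      refine le_trans ?_ h1
      norm_num
    have h32 : Real.log 32000 ≤ 11 := by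
      rw [Real.log_le_iff_le_exp (by norm_num)]
      have e : Real.exp 11 = Real.exp 1 ^ 11 := by rw [← Real.exp_nat_mul]; norm_num
      rw [e]
      have h1 : (2.7182818283 : ℝ) ^ 11 ≤ Real.exp 1 ^ 11 :=
        pow_le_pow_left₀ (by norm_num) hexp1.le 11
      refine le_trans ?_ h1
      norm_num
    obtain ⟨c, hc⟩ : ∃ c, c = r * t + 3 / 4 * Real.log r := ⟨_, rfl⟩
    have hc1 : c ≤ 43 := by linarith
    have hc2 : -43 ≤ c := by linarith
    -- `t = c / r - (3/4) log r / r`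
    have htc : t = (c - 3 / 4 * Real.log r) / r := by rw [hc]; field_simp; ring
    obtain ⟨q, hq⟩ : ∃ q, q = Real.sqrt r := ⟨_, rfl⟩
    have hq2 : q ^ 2 = r := by rw [hq]; exact Real.sq_sqrt hr0.le
    have hq10 : 10 ≤ q := by
      rw [hq]
      apply Real.le_sqrt_of_sq_le
      norm_num
      exact h100
    have hq0 : 0 < q := by linarith
    have hlogq : Real.log r ≤ 2 * q := by
      rw [← hq2, Real.log_pow]
      have := Real.log_le_sub_one_of_pos hq0
      push_cast
      linarith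
    have htabs : |t| ≤ 29 / 5 / q := by
      rw [htc, abs_div, abs_of_pos hr0, div_le_div_iff₀ hr0 hq0]
      have h1 : |c - 3 / 4 * Real.log r| ≤ 29 / 5 * q := by
        rw [abs_le]
        constructor <;> nlinarith
      calc |c - 3 / 4 * Real.log r| * q ≤ 29 / 5 * q * q := mul_le_mul_of_nonneg_right h1 hq0.le
        _ = 29 / 5 * q ^ 2 := by ring
        _ = 29 / 5 * r := by rw [hq2]
    have ht1 : |t| ≤ 1 := by
      refine htabs.trans ?_
      rw [div_le_one hq0]
      linarith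
    have ht2 : t ^ 2 ≤ 34 / r := by
      have h1 : t ^ 2 ≤ (29 / 5 / q) ^ 2 := by
        rw [← sq_abs]
        exact pow_le_pow_left₀ (abs_nonneg _) htabs 2
      refine h1.trans ?_
      rw [div_pow, hq2]
      apply div_le_div_of_nonneg_right _ hr0.le
      norm_num
    have h6 := abs_le.1 (Real.abs_exp_sub_one_sub_id_le ht1)
    have h7 : N - (2 - 3 / 2 * (Real.log r / r)) = 2 * (Real.exp t - 1 - t) + 2 * (c / r) := by
      rw [hNt]
      have : t = c / r - 3 / 4 * (Real.log r / r) := by rw [htc]; ring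
      linear_combination 2 * this
    have h8 : |c / r| ≤ 43 / r := by
      rw [abs_div, abs_of_pos hr0]
      apply div_le_div_of_nonneg_right _ hr0.le
      rw [abs_le]
      constructor <;> linarith
    have h9 := abs_le.1 h8
    rw [h7]
    have e1 : 200 / r = 200 * (1 / r) := by ring
    have e2 : 34 / r = 34 * (1 / r) := by ring
    have e3 : 43 / r = 43 * (1 / r) := by ring
    rw [e2] at ht2
    rw [e3] at h9
    rw [e1, abs_le]
    have h10 : 0 < 1 / r := by positivity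
    constructor <;> linarith [h6.1, h6.2, h9.1, h9.2]

end Pool.Agent.MP_984ac2_an
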