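import Pool.Agent.MP_984ac2_an.TsWindow

set_option autoImplicit false

open MeasureTheory AddCircle Filter Topology Metric Set
open scoped ENNReal ComplexConjugate

noncomputable section

namespace Pool.Agent.MP_984ac2_an

/-! ### The test function for large `p`

`F = Ψ ∘ B`, where `B(w) = (a + w)/(1 + a w)`, `a = 1 - 1/r`, and
`Ψ(ζ) = ζ ((R + ζ)/(R + 1))^(-3/r)`, `R = 1 + r^(-1/2)`. -/

/-- the base of the power -/
def vb (R : ℝ) (ζ : ℂ) : ℂ := ((R : ℂ) + ζ) / ((R + 1 : ℝ) : ℂ)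

/-- the function `Ψ` -/
def Psi (R e : ℝ) (ζ : ℂ) : ℂ := ζ * vb R ζ ^ (e : ℂ)

theorem vb_slit {R : ℝ} (hR : 1 < R) {ζ : ℂ} (hζ : ‖ζ‖ ≤ 1) : vb R ζ ∈ Complex.slitPlane := by
  rw [Complex.mem_slitPlane_iff]
  left
  have h1 := Complex.abs_re_le_norm ζ
  have h2 := neg_abs_le ζ.re
  have h3 : (vb R ζ).re = (R + ζ.re) / (R + 1) := by
    unfold vb
    rw [Complex.div_ofReal_re]
    simp
  rw [h3]
  apply div_pos <;> linarith

theorem differentiableAt_Psi {R : ℝ} (hR : 1 < R) (e : ℝ) {ζ : ℂ} (hζ : ‖ζ‖ ≤ 1) :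
    DifferentiableAt ℂ (Psi R e) ζ := by
  have h1 : DifferentiableAt ℂ (vb R) ζ := by
    unfold vb
    fun_prop
  have h2 : DifferentiableAt ℂ (fun ζ => vb R ζ ^ (e : ℂ)) ζ :=
    (h1.hasDerivAt.cpow_const (vb_slit hR hζ)).differentiableAt
  exact differentiableAt_id.mul h2

theorem continuous_Psi_z {R : ℝ} (hR : 1 < R) (e : ℝ) : Continuous fun x => Psi R e (z x) := by
  rw [continuous_iff_continuousAt]
  intro x
  exact (differentiableAt_Psi hR e (norm_z x).le).continuousAt.comp continuous_z.continuousAt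

theorem norm_vb {R : ℝ} (hR : 1 < R) (ζ : ℂ) : ‖vb R ζ‖ = ‖(R : ℂ) + ζ‖ / (R + 1) := by
  unfold vb
  rw [norm_div, Complex.norm_real, Real.norm_of_nonneg (by linarith : (0 : ℝ) ≤ R + 1)]

theorem norm_Psi_z {R : ℝ} (hR : 1 < R) (e : ℝ) (x : Circ) :
    ‖Psi R e (z x)‖ = (‖(R : ℂ) + z x‖ / (R + 1)) ^ e := by
  unfold Psi
  rw [norm_mul, norm_z, one_mul, Complex.norm_cpow_real, norm_vb hR]

theorem norm_R_z_ge {R : ℝ} (hR : 1 < R) (x : Circ) : R - 1 ≤ ‖(R : ℂ) + z x‖ := by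
  have h3 : ‖(R : ℂ)‖ ≤ ‖(R : ℂ) + z x‖ + ‖z x‖ := by
    have := norm_sub_le ((R : ℂ) + z x) (z x)
    rwa [add_sub_cancel_right] at this
  rw [norm_z, Complex.norm_real, Real.norm_of_nonneg (by linarith)] at h3
  linarith

/-- `∫ P_a |Ψ|^r ≤ 54`. -/
theorem mass_Psi {r s R a : ℝ} (hs : 1 ≤ s) (hr : r = s ^ 2) (hR : R = 1 + 1 / s)
    (ha : a = 1 - 1 / r) (ha0 : 0 ≤ a) (haC : ‖(a : ℂ)‖ < 1) :
    ∫ x, P (a : ℂ) x * ‖Psi R (-(3 / r)) (z x)‖ ^ r ∂sigma ≤ 54 := by
  have hs0 : 0 < s := by linarith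
  have hr0 : 0 < r := by rw [hr]; positivity
  have hR1 : 1 < R := by
    rw [hR]
    have : 0 < 1 / s := by positivity
    linarith
  have hR2 : R ≤ 2 := by
    rw [hR]
    have : 1 / s ≤ 1 := by rw [div_le_one hs0]; exact hs
    linarith
  have hRm : R - 1 = 1 / s := by rw [hR]; ring
  have cP := continuous_P haC
  have hN : ∀ x, 0 < ‖(R : ℂ) + z x‖ := fun x => by
    have h1 := norm_R_z_ge hR1 x
    rw [hRm] at h1
    have : 0 < 1 / s := by positivity
    linarith
  have hpt : ∀ x, P (a : ℂ) x * ‖Psi R (-(3 / r)) (z x)‖ ^ r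
      ≤ 27 * P (a : ℂ) x + 54 / s * (1 / ‖(R : ℂ) + z x‖ ^ 2) := by
    intro x
    have hPx := (P_pos haC x).le
    have hNx := hN x
    have hNs := norm_R_z_ge hR1 x
    rw [hRm] at hNs
    set N := ‖(R : ℂ) + z x‖ with hNdef
    have e1 : ‖Psi R (-(3 / r)) (z x)‖ ^ r = (R + 1) ^ 3 / N ^ 3 := by
      rw [norm_Psi_z hR1, ← hNdef, ← Real.rpow_mul (by positivity)]
      have : -(3 / r) * r = -3 := by field_simp
      rw [this, Real.rpow_neg (by positivity)]
      have h3 : (N / (R + 1)) ^ (3 : ℝ) = (N / (R + 1)) ^ 3 := by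
        rw [← Real.rpow_natCast]; norm_num
      rw [h3, div_pow, inv_div]
    rw [e1]
    have hR3 : (R + 1) ^ 3 ≤ 27 := by
      calc (R + 1) ^ 3 ≤ 3 ^ 3 := pow_le_pow_left₀ (by linarith) (by linarith) 3
        _ = 27 := by norm_num
    have h4 : P (a : ℂ) x * ((R + 1) ^ 3 / N ^ 3) ≤ P (a : ℂ) x * (27 / N ^ 3) := by
      apply mul_le_mul_of_nonneg_left _ hPx
      exact div_le_div_of_nonneg_right hR3 (by positivity)
    refine h4.trans ?_
    rcases le_total 0 (z x).re with hre | hre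
    · -- `N ≥ 1`
      have hN1 : 1 ≤ N := by
        have h5 := Complex.re_le_norm ((R : ℂ) + z x)
        have h6 : ((R : ℂ) + z x).re = R + (z x).re := by simp
        rw [h6, ← hNdef] at h5
        linarith
      have h7 : 27 / N ^ 3 ≤ 27 := by
        apply div_le_self (by norm_num)
        exact one_le_pow₀ hN1
      have h8 : 0 ≤ 54 / s * (1 / N ^ 2) := by positivity
      have h9 := mul_le_mul_of_nonneg_left h7 hPx
      linarith
    · have h5 : P (a : ℂ) x ≤ 2 / s ^ 2 := by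
        unfold P
        have hz : (z x).re * (z x).re + (z x).im * (z x).im = 1 := by
          rw [← Complex.normSq_apply, Complex.normSq_eq_norm_sq, norm_z]
          norm_num
        have h6 : 1 ≤ ‖z x - (a : ℂ)‖ ^ 2 := by
          rw [← Complex.normSq_eq_norm_sq, Complex.normSq_apply]
          simp
          nlinarith [mul_nonneg ha0 (neg_nonneg.2 hre), sq_nonneg a]
        have h7 : ‖(a : ℂ)‖ ^ 2 = a ^ 2 := by rw [Complex.norm_real, Real.norm_eq_abs, sq_abs]
        rw [h7]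
        have h8 : 0 ≤ 1 - a ^ 2 := by
          rw [Complex.norm_real, Real.norm_of_nonneg ha0] at haC
          nlinarith
        calc (1 - a ^ 2) / ‖z x - (a : ℂ)‖ ^ 2 ≤ 1 - a ^ 2 := div_le_self h8 h6
          _ ≤ 2 * (1 - a) := by nlinarith
          _ = 2 / s ^ 2 := by rw [ha, hr]; ring
      have h6 : 1 / N ≤ s := by
        rw [div_le_iff₀ hNx]
        have h7 := mul_le_mul_of_nonneg_left hNs hs0.le
        have h8 : s * (1 / s) = 1 := by field_simp
        linarith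
      have h9 : 27 / N ^ 3 = 27 * (1 / N) * (1 / N ^ 2) := by field_simp
      have h10 : P (a : ℂ) x * (27 / N ^ 3) ≤ 2 / s ^ 2 * (27 * s * (1 / N ^ 2)) := by
        rw [h9]
        apply mul_le_mul h5 _ (by positivity) (by positivity)
        apply mul_le_mul_of_nonneg_right _ (by positivity)
        linarith
      have h11 : 2 / s ^ 2 * (27 * s * (1 / N ^ 2)) = 54 / s * (1 / N ^ 2) := by
        field_simp
        norm_num
      rw [h11] at h10
      have h12 : 0 ≤ 27 * P (a : ℂ) x := by positivity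
      linarith
  have i1 : Integrable (fun x => 27 * P (a : ℂ) x) sigma :=
    integrable_of_continuous (continuous_const.mul cP)
  have c2 : Continuous fun x => 1 / ‖(R : ℂ) + z x‖ ^ 2 := by
    refine continuous_const.div ((continuous_const.add continuous_z).norm.pow 2) fun x => ?_
    have := hN x
    positivity
  have i2 : Integrable (fun x => 54 / s * (1 / ‖(R : ℂ) + z x‖ ^ 2)) sigma :=
    integrable_of_continuous (continuous_const.mul c2)
  have c0 : Continuous fun x => P (a : ℂ) x * ‖Psi R (-(3 / r)) (z x)‖ ^ r :=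
    cP.mul (continuous_norm_rpow (continuous_Psi_z hR1 _) hr0.le)
  have h := integral_mono (integrable_of_continuous c0) (i1.add i2) hpt
  simp only [Pi.add_apply] at h
  rw [integral_add i1 i2, integral_const_mul, integral_const_mul, integral_P haC,
    integral_inv_sq hR1] at h
  have h3 : 54 / s * (1 / (R ^ 2 - 1)) ≤ 27 := by
    have h4 : 2 / s ≤ R ^ 2 - 1 := by
      have e : R ^ 2 - 1 = 2 / s + (1 / s) ^ 2 := by rw [hR]; ring
      rw [e]
      have := sq_nonneg (1 / s)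
      linarith
    have h5 : 1 / (R ^ 2 - 1) ≤ 1 / (2 / s) := one_div_le_one_div_of_le (by positivity) h4
    calc 54 / s * (1 / (R ^ 2 - 1)) ≤ 54 / s * (1 / (2 / s)) :=
          mul_le_mul_of_nonneg_left h5 (by positivity)
      _ = 27 := by field_simp; norm_num
  linarith

/-- The lower bound of `|Ψ(ζ) - Ψ(a)|` near `-1`. -/
theorem Psi_sub_ge {r s R a : ℝ} (hs : 6 ≤ s) (hr : r = s ^ 2) (hR : R = 1 + 1 / s)
    (ha : a = 1 - 1 / r) (ha0 : 0 ≤ a) {x : Circ} (hx : ‖z x + 1‖ ≤ 1 / s) :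
    2 * s ^ (3 / (2 * r)) * (1 - 18 / r) ≤ ‖Psi R (-(3 / r)) (z x) - Psi R (-(3 / r)) (a : ℂ)‖ := by
  have hs0 : 0 < s := by linarith
  have hr0 : 0 < r := by rw [hr]; positivity
  have hr36 : 36 ≤ r := by rw [hr]; nlinarith
  have hinv : 1 / r ≤ 1 / 36 := one_div_le_one_div_of_le (by norm_num) hr36
  have hinv0 : 0 < 1 / r := by positivity
  have h18 : 18 / r = 18 * (1 / r) := by ring
  have hR1 : 1 < R := by
    rw [hR]
    have : 0 < 1 / s := by positivity
    linarith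
  obtain ⟨q, hq⟩ : ∃ q, q = vb R (z x) ^ ((-(3 / r) : ℝ) : ℂ) := ⟨_, rfl⟩
  -- `Ψ(a)` is real and at least `a`
  have hPa : a ≤ (Psi R (-(3 / r)) (a : ℂ)).re := by
    unfold Psi
    have e1 : vb R (a : ℂ) = (((R + a) / (R + 1) : ℝ) : ℂ) := by
      unfold vb; push_cast; ring
    have hb0 : 0 < (R + a) / (R + 1) := by apply div_pos <;> linarith
    have hb1 : (R + a) / (R + 1) ≤ 1 := by
      rw [div_le_one (by linarith)]
      rw [ha]
      linarith
    rw [e1, ← Complex.ofReal_cpow hb0.le, Complex.re_ofReal_mul, Complex.ofReal_re]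
    have h2 : 1 ≤ ((R + a) / (R + 1)) ^ (-(3 / r)) :=
      Real.one_le_rpow_of_pos_of_le_one_of_nonpos hb0 hb1 (by
        have : 0 < 3 / r := by positivity
        linarith)
    nlinarith
  -- the modulus of `q`
  have hqn : (s ^ (3 / (2 * r))) ^ 2 ≤ ‖q‖ := by
    rw [hq, Complex.norm_cpow_real, norm_vb hR1]
    have h1 : ‖(R : ℂ) + z x‖ / (R + 1) ≤ 1 / s := by
      have h2 : ‖(R : ℂ) + z x‖ ≤ 2 * (1 / s) := by
        have e : (R : ℂ) + z x = ((1 / s : ℝ) : ℂ) + (z x + 1) := by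
          rw [hR]; push_cast; ring
        rw [e]
        refine (norm_add_le _ _).trans ?_
        rw [Complex.norm_real, Real.norm_of_nonneg (by positivity)]
        linarith
      rw [div_le_iff₀ (by linarith)]
      have : 0 < 1 / s := by positivity
      nlinarith
    have h3 : 0 < ‖(R : ℂ) + z x‖ / (R + 1) := by
      have h4 := norm_R_z_ge hR1 x
      apply div_pos <;> linarith
    have h5 := Real.rpow_le_rpow_of_nonpos h3 h1 (z := -(3 / r)) (by
      have : 0 < 3 / r := by positivity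
      linarith)
    refine le_trans (le_of_eq ?_) h5
    rw [one_div, Real.inv_rpow hs0.le, ← Real.rpow_neg hs0.le, neg_neg,
      ← Real.rpow_natCast (s ^ (3 / (2 * r))), ← Real.rpow_mul hs0.le]
    congr 1
    field_simp
    norm_num
  -- real and imaginary part of `q`
  have hqr : ‖q‖ * (1 - 2 / r) ≤ q.re := by
    rw [hq, Complex.cpow_ofReal_re, Complex.norm_cpow_real]
    apply mul_le_mul_of_nonneg_left _ (by positivity)
    have h1 := Real.one_sub_sq_div_two_le_cos (x := (vb R (z x)).arg * -(3 / r))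
    have h2 : ((vb R (z x)).arg * -(3 / r)) ^ 2 ≤ (10 / r) ^ 2 := by
      rw [← sq_abs, abs_mul, abs_neg, abs_of_nonneg (by positivity : (0 : ℝ) ≤ 3 / r)]
      apply pow_le_pow_left₀ (by positivity)
      have h3 := Complex.abs_arg_le_pi (vb R (z x))
      have h4 := Real.pi_lt_d2
      have e : 10 / r = 10 / 3 * (3 / r) := by ring
      rw [e]
      apply mul_le_mul_of_nonneg_right _ (by positivity)
      linarith
    have h5 : (10 / r) ^ 2 / 2 ≤ 2 / r := by
      have e : (10 / r) ^ 2 / 2 = 50 * (1 / r) * (1 / r) := by ring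
      have e2 : 2 / r = 2 * (1 / r) := by ring
      rw [e, e2]
      nlinarith
    linarith
  have hqi : |q.im| ≤ ‖q‖ * (10 / r) := by
    rw [hq, Complex.cpow_ofReal_im, Complex.norm_cpow_real, abs_mul,
      abs_of_nonneg (by positivity : (0 : ℝ) ≤ ‖vb R (z x)‖ ^ (-(3 / r)))]
    apply mul_le_mul_of_nonneg_left _ (by positivity)
    refine (Real.abs_sin_le_abs).trans ?_
    rw [abs_mul, abs_neg, abs_of_nonneg (by positivity : (0 : ℝ) ≤ 3 / r)]
    have h3 := Complex.abs_arg_le_pi (vb R (z x))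
    have h4 := Real.pi_lt_d2
    have e : 10 / r = 10 / 3 * (3 / r) := by ring
    rw [e]
    apply mul_le_mul_of_nonneg_right _ (by positivity)
    linarith
  -- the point `z x`
  have hzr : 1 - 1 / r / 2 ≤ -(z x).re := by
    have h1 : ‖z x + 1‖ ^ 2 ≤ (1 / s) ^ 2 := pow_le_pow_left₀ (norm_nonneg _) hx 2
    have hz : (z x).re * (z x).re + (z x).im * (z x).im = 1 := by
      rw [← Complex.normSq_apply, Complex.normSq_eq_norm_sq, norm_z]
      norm_num
    rw [← Complex.normSq_eq_norm_sq, Complex.normSq_apply] at h1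
    simp at h1
    rw [hr]
    have e : 1 / s ^ 2 = (s ^ 2)⁻¹ := by rw [one_div]
    rw [e]
    nlinarith
  have hzi : |(z x).im| ≤ 1 := by
    have := Complex.abs_im_le_norm (z x)
    rwa [norm_z] at this
  have hzi2 : |(z x).im| ≤ 1 / s := by
    have h1 := Complex.abs_im_le_norm (z x + 1)
    have h2 : (z x + 1).im = (z x).im := by simp
    rw [h2] at h1
    linarith
  have hq0 : 0 ≤ ‖q‖ := norm_nonneg q
  have hPz : ‖q‖ * (1 - 18 / r) ≤ -(Psi R (-(3 / r)) (z x)).re := by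
    unfold Psi
    rw [← hq, Complex.mul_re]
    have h1 : (z x).im * q.im ≥ -(‖q‖ * (10 / r)) := by
      have h2 : |(z x).im * q.im| ≤ 1 * (‖q‖ * (10 / r)) := by
        rw [abs_mul]
        exact mul_le_mul hzi hqi (abs_nonneg _) zero_le_one
      have := neg_abs_le ((z x).im * q.im)
      linarith
    have hqr0 : 0 ≤ q.re := by
      refine le_trans ?_ hqr
      apply mul_nonneg hq0
      have : 2 / r = 2 * (1 / r) := by ring
      linarith
    have h3 : (1 - 1 / r / 2) * q.re ≤ -(z x).re * q.re := mul_le_mul_of_nonneg_right hzr hqr0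
    have h4 : (1 - 1 / r / 2) * (‖q‖ * (1 - 2 / r)) ≤ (1 - 1 / r / 2) * q.re :=
      mul_le_mul_of_nonneg_left hqr (by linarith)
    have e1 : ‖q‖ * (10 / r) = 10 * (‖q‖ * (1 / r)) := by ring
    have e2 : (1 - 1 / r / 2) * (‖q‖ * (1 - 2 / r))
        = ‖q‖ - 5 / 2 * (‖q‖ * (1 / r)) + ‖q‖ * (1 / r) * (1 / r) := by ring
    have e3 : ‖q‖ * (1 - 18 / r) = ‖q‖ - 18 * (‖q‖ * (1 / r)) := by ring
    have h5 : 0 ≤ ‖q‖ * (1 / r) := by positivity
    have h6 : 0 ≤ ‖q‖ * (1 / r) * (1 / r) := by positivity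
    rw [e3]
    rw [e1] at h1
    rw [e2] at h4
    linarith
  have h18' : 0 ≤ 1 - 18 / r := by rw [h18]; linarith
  have hfin : (1 - 18 / r) * (1 + (s ^ (3 / (2 * r))) ^ 2)
      ≤ (Psi R (-(3 / r)) (a : ℂ)).re - (Psi R (-(3 / r)) (z x)).re := by
    have h1 : (1 - 18 / r) * (s ^ (3 / (2 * r))) ^ 2 ≤ ‖q‖ * (1 - 18 / r) := by
      rw [mul_comm]
      exact mul_le_mul_of_nonneg_right hqn h18'
    have h2 : 1 - 18 / r ≤ a := by rw [h18, ha]; linarith
    linarith
  have hre : (Psi R (-(3 / r)) (a : ℂ)).re - (Psi R (-(3 / r)) (z x)).re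
      ≤ ‖Psi R (-(3 / r)) (z x) - Psi R (-(3 / r)) (a : ℂ)‖ := by
    rw [norm_sub_rev, ← Complex.sub_re]
    exact Complex.re_le_norm _
  have ham : 2 * s ^ (3 / (2 * r)) ≤ 1 + (s ^ (3 / (2 * r))) ^ 2 := by
    nlinarith [sq_nonneg (1 - s ^ (3 / (2 * r)))]
  have h9 := mul_le_mul_of_nonneg_left ham h18'
  linarith

end Pool.Agent.MP_984ac2_an
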