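import Pool.Agent.MP_984ac2_an.TsUpper

set_option autoImplicit false

open MeasureTheory AddCircle Filter Topology Metric Set
open scoped ENNReal ComplexConjugate

noncomputable section

namespace Pool.Agent.MP_984ac2_an

/-! ### Two Taylor coefficients of `(1 + w/2)^s` -/

theorem slit {w : ℂ} (hw : ‖w‖ < 2) : 1 + w / 2 ∈ Complex.slitPlane := by
  rw [Complex.mem_slitPlane_iff]
  left
  have h1 := Complex.abs_re_le_norm w
  have h2 := neg_abs_le w.re
  have h3 : (1 + w / 2).re = 1 + w.re / 2 := by simp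
  rw [h3]
  linarith

theorem hasDerivAt_H (s : ℂ) {w : ℂ} (hw : ‖w‖ < 2) :
    HasDerivAt (fun w : ℂ => (1 + w / 2) ^ s) (s * (1 + w / 2) ^ (s - 1) * (1 / 2)) w := by
  have h : HasDerivAt (fun w : ℂ => 1 + w / 2) (1 / 2) w := by
    simpa using ((hasDerivAt_id w).div_const 2).const_add 1
  exact h.cpow_const (slit hw)

theorem taylor_two (s : ℂ) : ∃ K : ℂ → ℂ, DifferentiableOn ℂ K (ball 0 2) ∧
    K 0 = s * (s - 1) / 8 ∧ ∀ w, (1 + w / 2) ^ s = 1 + s / 2 * w + w ^ 2 * K w := by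
  set H : ℂ → ℂ := fun w => (1 + w / 2) ^ s with hH
  have hb : ball (0 : ℂ) 2 ∈ 𝓝 (0 : ℂ) := ball_mem_nhds _ (by norm_num)
  have hHd : DifferentiableOn ℂ H (ball 0 2) := fun w hw =>
    (hasDerivAt_H s (by simpa using hw)).differentiableAt.differentiableWithinAt
  have h1d : DifferentiableOn ℂ (dslope H 0) (ball 0 2) :=
    (Complex.differentiableOn_dslope hb).2 hHd
  have h2d : DifferentiableOn ℂ (dslope (dslope H 0) 0) (ball 0 2) :=
    (Complex.differentiableOn_dslope hb).2 h1d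
  set K := dslope (dslope H 0) 0 with hK
  have hH0 : H 0 = 1 := by simp [hH]
  have hd0 : deriv H 0 = s / 2 := by
    rw [(hasDerivAt_H s (w := 0) (by norm_num)).deriv]
    simp
    ring
  have hexp : ∀ w, H w = 1 + s / 2 * w + w ^ 2 * K w := by
    intro w
    have e1 := sub_smul_dslope H 0 w
    have e2 := sub_smul_dslope (dslope H 0) 0 w
    rw [dslope_same, hd0] at e2
    rw [hH0] at e1
    simp only [sub_zero, smul_eq_mul] at e1 e2
    linear_combination -e1 - w * e2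
  refine ⟨K, h2d, ?_, hexp⟩
  have hKd : ∀ w ∈ ball (0 : ℂ) 2, HasDerivAt K (deriv K w) w := fun w hw =>
    (h2d.differentiableAt (isOpen_ball.mem_nhds hw)).hasDerivAt
  have hK'd : DifferentiableAt ℂ (deriv K) 0 := (h2d.deriv isOpen_ball).differentiableAt hb
  have hev : ∀ w ∈ ball (0 : ℂ) 2,
      s * (1 + w / 2) ^ (s - 1) * (1 / 2) = s / 2 + 2 * w * K w + w ^ 2 * deriv K w := by
    intro w hw
    have d1 := hasDerivAt_H s (w := w) (by simpa using hw)
    have e : (fun w : ℂ => (1 + w / 2) ^ s) = fun w => 1 + s / 2 * w + w ^ 2 * K w := funext hexp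
    have d2 : HasDerivAt (fun w => 1 + s / 2 * w + w ^ 2 * K w)
        (s / 2 * 1 + (((2 : ℕ) : ℂ) * w ^ (2 - 1) * K w + w ^ 2 * deriv K w)) w :=
      (((hasDerivAt_id w).const_mul (s / 2)).const_add 1).add
        ((hasDerivAt_pow 2 w).mul (hKd w hw))
    rw [← e] at d2
    rw [d1.unique d2]
    push_cast
    ring
  have d3 : HasDerivAt (fun w : ℂ => s * (1 + w / 2) ^ (s - 1) * (1 / 2))
      (s * ((s - 1) * (1 + 0 / 2) ^ (s - 1 - 1) * (1 / 2)) * (1 / 2)) 0 :=
    ((hasDerivAt_H (s - 1) (w := 0) (by norm_num)).const_mul s).mul_const (1 / 2)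
  have d4 : HasDerivAt (fun w : ℂ => s / 2 + 2 * w * K w + w ^ 2 * deriv K w)
      (2 * 1 * K 0 + 2 * (0 : ℂ) * deriv K 0
        + (((2 : ℕ) : ℂ) * (0 : ℂ) ^ (2 - 1) * deriv K 0 + (0 : ℂ) ^ 2 * deriv (deriv K) 0)) 0 := by
    have a1 : HasDerivAt (fun w : ℂ => 2 * w * K w) (2 * 1 * K 0 + 2 * (0 : ℂ) * deriv K 0) 0 :=
      ((hasDerivAt_id (0 : ℂ)).const_mul 2).mul (hKd 0 (by simp))
    have a2 : HasDerivAt (fun w : ℂ => w ^ 2 * deriv K w)
        (((2 : ℕ) : ℂ) * (0 : ℂ) ^ (2 - 1) * deriv K 0 + (0 : ℂ) ^ 2 * deriv (deriv K) 0) 0 :=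
      (hasDerivAt_pow 2 (0 : ℂ)).mul hK'd.hasDerivAt
    exact (a1.const_add (s / 2)).add a2
  have d5 := d4.congr_of_eventuallyEq (Filter.eventuallyEq_of_mem hb hev)
  have h6 := d3.unique d5
  simp at h6
  linear_combination (-1 / 2 : ℂ) * h6

/-! ### The first variation -/

theorem mean_re {s : ℝ} :
    ∫ x, (conj (z x) * (1 + z x / 2) ^ (s : ℂ) * conj (1 + z x / 2)).re ∂sigma
      = s / 2 + s * (s - 1) / 16 := by
  obtain ⟨K, hKd, hK0, hexp⟩ := taylor_two (s : ℂ)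
  set Φ : ℂ → ℂ := fun w => w + s / 2 + w * K w + w ^ 2 / 2 + s / 4 * w + K w / 2 with hΦ
  have hΦd : DifferentiableOn ℂ Φ (ball 0 2) := by
    rw [hΦ]
    have h1 : DifferentiableOn ℂ (fun w : ℂ => w) (ball 0 2) := differentiableOn_id
    exact ((((h1.add_const _).add (h1.mul hKd)).add ((h1.pow 2).div_const 2)).add
      (h1.const_mul _)).add (hKd.div_const 2)
  have hsub : closedBall (0 : ℂ) 1 ⊆ ball 0 2 := closedBall_subset_ball (by norm_num)
  have hΦc : DiffContOnCl ℂ Φ (ball 0 1) :=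
    (hΦd.mono (closure_ball_subset_closedBall.trans hsub)).diffContOnCl
  have hcont : Continuous fun x => Φ (z x) := by
    refine hΦd.continuousOn.comp_continuous continuous_z fun x => ?_
    simp
  have h1 := integral_re_eq hΦc hcont
  have h2 : (Φ 0).re = s / 2 + s * (s - 1) / 16 := by
    have : Φ 0 = ((s / 2 + s * (s - 1) / 16 : ℝ) : ℂ) := by
      simp only [hΦ, hK0]
      push_cast
      ring
    rw [this, Complex.ofReal_re]
  rw [← h2, ← h1]
  refine integral_congr_ae (Eventually.of_forall fun x => ?_)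
  simp only
  have hz : z x * conj (z x) = 1 := by
    rw [Complex.mul_conj, Complex.normSq_eq_norm_sq, norm_z]
    norm_num
  have h3 : conj (z x) * (1 + z x / 2) ^ (s : ℂ) * conj (1 + z x / 2)
      = Φ (z x) + (conj (z x) - z x) + (conj (z x) ^ 2 - z x ^ 2) / 2
        + s / 4 * (conj (z x) - z x) := by
    rw [hexp, hΦ]
    simp only [map_add, map_div₀, map_one, map_ofNat]
    linear_combination ((s : ℂ) / 2 + z x * K (z x) + (s : ℂ) / 4 * conj (z x)
      + K (z x) / 2 * (z x * conj (z x) + 1)) * hz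
  rw [h3]
  have h4 : (conj (z x) - z x).re = 0 := by simp
  have h5 : (conj (z x) ^ 2 - z x ^ 2).re = 0 := by
    rw [← map_pow, Complex.sub_re, Complex.conj_re, sub_self]
  have h6 : ((conj (z x) ^ 2 - z x ^ 2) / 2).re = (conj (z x) ^ 2 - z x ^ 2).re / 2 := by
    simp
  have h7 : ((s : ℂ) / 4 * (conj (z x) - z x)).re = s / 4 * (conj (z x) - z x).re := by
    have : (s : ℂ) / 4 = ((s / 4 : ℝ) : ℂ) := by push_cast; ring
    rw [this, Complex.re_ofReal_mul]
  rw [Complex.add_re, Complex.add_re, Complex.add_re, h6, h7, h4, h5]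
  simp

/-! ### The pointwise expansion -/

theorem exp_le_two {x : ℝ} (h0 : 0 ≤ x) (h1 : x ≤ 1) : Real.exp x ≤ 1 + 2 * x := by
  have h := Real.abs_exp_sub_one_sub_id_le (x := x) (by rw [abs_of_nonneg h0]; exact h1)
  have h2 := (abs_le.1 h).2
  nlinarith

theorem key_pt {r t : ℝ} {g : ℂ} (hr : 1 ≤ r) (hG : 1 / 4 ≤ ‖g‖) (ht : |r * t| ≤ 1 / 16)
    (hW : ‖g‖ ^ (r - 2) ≤ 4) :
    ‖g - t‖ ^ r ≤ ‖g‖ ^ r - r * t * (‖g‖ ^ (r - 2) * g.re) + 8 * (r * t) ^ 2 := by
  set G := ‖g‖ with hGdef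
  have hG0 : 0 < G := by linarith
  set W := G ^ (r - 2) with hWdef
  have hW0 : 0 < W := Real.rpow_pos_of_pos hG0 _
  have hGr : G ^ r = W * G ^ 2 := by
    rw [hWdef, ← Real.rpow_two, ← Real.rpow_add hG0]
    congr 1
    ring
  set a : ℝ := -(2 * t * g.re) + t ^ 2 with ha
  have hnorm : ‖g - t‖ ^ 2 = G ^ 2 + a := by
    rw [hGdef, ← Complex.normSq_eq_norm_sq, ← Complex.normSq_eq_norm_sq, Complex.normSq_apply,
      Complex.normSq_apply, ha]
    simp
    ring
  set Y : ℝ := a / G ^ 2 with hY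
  have hY1 : G ^ 2 * (1 + Y) = ‖g - t‖ ^ 2 := by
    rw [hnorm, hY]
    field_simp
  have hY0 : 0 ≤ 1 + Y := by
    have h1 : 0 ≤ G ^ 2 * (1 + Y) := by rw [hY1]; positivity
    by_contra hcon
    push Not at hcon
    nlinarith [mul_neg_of_pos_of_neg (by positivity : (0 : ℝ) < G ^ 2) hcon]
  have hpow : ‖g - t‖ ^ r = G ^ r * (1 + Y) ^ (r / 2) := by
    rw [← sq_rpow_half (norm_nonneg _), ← hY1, Real.mul_rpow (by positivity) hY0,
      sq_rpow_half hG0.le]
  set X : ℝ := r / 2 * Y with hX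
  have hre : |g.re| ≤ G := Complex.abs_re_le_norm g
  have ht1 : |t| ≤ 1 / 16 := by
    have h1 : |r * t| = r * |t| := by rw [abs_mul, abs_of_nonneg (by linarith)]
    rw [h1] at ht
    nlinarith [abs_nonneg t]
  -- the size of `r / 2 * a`
  have hb : |r / 2 * a| ≤ |r * t| * (9 / 8 * G) := by
    have e : r / 2 * a = (r * t) * (-g.re + t / 2) := by rw [ha]; ring
    rw [e, abs_mul]
    refine mul_le_mul_of_nonneg_left ?_ (abs_nonneg _)
    have h1 : |-g.re + t / 2| ≤ |g.re| + |t| / 2 := by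
      refine (abs_add_le _ _).trans ?_
      rw [abs_neg, abs_div, abs_two]
    linarith
  have hXa : X * G ^ 2 = r / 2 * a := by
    rw [hX, hY]
    field_simp
  have hX1 : |X| ≤ 1 := by
    have h1 : |X| * G ^ 2 ≤ 1 / 16 * (9 / 8 * G) := by
      have : |X| * G ^ 2 = |X * G ^ 2| := by
        rw [abs_mul X (G ^ 2), abs_of_nonneg (by positivity : (0 : ℝ) ≤ G ^ 2)]
      rw [this, hXa]
      exact hb.trans (mul_le_mul_of_nonneg_right ht (by positivity))
    have h2 : |X| * G ≤ 9 / 128 := by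
      have h3 : (|X| * G) * G ≤ 9 / 128 * G := by nlinarith
      exact le_of_mul_le_mul_right h3 hG0
    nlinarith [abs_nonneg X]
  have hexp : (1 + Y) ^ (r / 2) ≤ 1 + X + X ^ 2 := by
    have h1 : 1 + Y ≤ Real.exp Y := by
      have := Real.add_one_le_exp Y
      linarith
    have h2 : (1 + Y) ^ (r / 2) ≤ Real.exp Y ^ (r / 2) :=
      Real.rpow_le_rpow hY0 h1 (by linarith)
    have h3 : Real.exp Y ^ (r / 2) = Real.exp X := by
      rw [← Real.exp_mul, hX]
      congr 1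
      ring
    have h4 := (abs_le.1 (Real.abs_exp_sub_one_sub_id_le hX1)).2
    rw [h3] at h2
    linarith
  have hGr0 : 0 ≤ G ^ r := Real.rpow_nonneg hG0.le _
  have h5 : ‖g - t‖ ^ r ≤ G ^ r * (1 + X + X ^ 2) := by
    rw [hpow]
    exact mul_le_mul_of_nonneg_left hexp hGr0
  have h6 : G ^ r * (1 + X + X ^ 2) = G ^ r + W * (r / 2 * a) + W * ((r / 2 * a) ^ 2 / G ^ 2) := by
    rw [← hXa, hGr]
    field_simp
  have h7 : (r / 2 * a) ^ 2 / G ^ 2 ≤ (81 / 64) * (r * t) ^ 2 := by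
    rw [div_le_iff₀ (by positivity)]
    have h8 : (r / 2 * a) ^ 2 ≤ (|r * t| * (9 / 8 * G)) ^ 2 := by
      rw [← sq_abs (r / 2 * a)]
      exact pow_le_pow_left₀ (abs_nonneg _) hb 2
    have h8b : (|r * t| * (9 / 8 * G)) ^ 2 = 81 / 64 * (r * t) ^ 2 * G ^ 2 := by
      rw [mul_pow |r * t|, sq_abs]
      ring
    linarith
  have h9 : W * ((r / 2 * a) ^ 2 / G ^ 2) ≤ 4 * ((81 / 64) * (r * t) ^ 2) :=
    mul_le_mul hW h7 (by positivity) (by norm_num)
  have h10 : W * (r / 2 * a) = -(r * t * (W * g.re)) + W * (r * t ^ 2 / 2) := by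
    rw [ha]; ring
  have h11 : W * (r * t ^ 2 / 2) ≤ 4 * ((r * t) ^ 2 / 2) := by
    refine mul_le_mul hW ?_ (by positivity) (by norm_num)
    have : r * t ^ 2 ≤ (r * t) ^ 2 := by
      have h12 : (r * t) ^ 2 - r * t ^ 2 = r * (r - 1) * t ^ 2 := by ring
      have h13 : 0 ≤ r * (r - 1) * t ^ 2 := by
        apply mul_nonneg (mul_nonneg (by linarith) (by linarith)) (sq_nonneg _)
      linarith
    linarith
  rw [h6, h10] at h5
  nlinarith [sq_nonneg (r * t)]

/-! ### The lower bound of order `(1 - 2/p)²` -/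

theorem norm_q_le (x : Circ) : ‖1 + z x / 2‖ ≤ 3 / 2 := by
  refine (norm_add_le _ _).trans ?_
  rw [norm_div, norm_z]
  norm_num

theorem le_norm_q (x : Circ) : 1 / 2 ≤ ‖1 + z x / 2‖ := by
  have h1 : ‖(1 : ℂ)‖ ≤ ‖1 + z x / 2‖ + ‖z x / 2‖ := by
    have := norm_sub_le (1 + z x / 2) (z x / 2)
    rwa [add_sub_cancel_right] at this
  rw [norm_div, norm_z] at h1
  norm_num at h1
  linarith

theorem rpow_le_four {N y : ℝ} (h1 : 1 / 2 ≤ N) (h2 : N ≤ 3 / 2) (hy1 : -2 ≤ y) (hy2 : y ≤ 2) :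
    N ^ y ≤ 4 := by
  have hN : 0 < N := by linarith
  rcases le_or_gt 1 N with h | h
  · calc N ^ y ≤ N ^ (2 : ℝ) := Real.rpow_le_rpow_of_exponent_le h hy2
      _ = N ^ 2 := Real.rpow_two _
      _ ≤ 4 := by nlinarith
  · calc N ^ y ≤ N ^ (-2 : ℝ) := Real.rpow_le_rpow_of_exponent_ge hN h.le hy1
      _ = (N ^ 2)⁻¹ := by rw [Real.rpow_neg hN.le, Real.rpow_two]
      _ ≤ (1 / 4)⁻¹ := by
          apply inv_anti₀ (by norm_num)
          nlinarith
      _ = 4 := by norm_num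

theorem quarter_le {N y : ℝ} (h1 : 1 / 2 ≤ N) (hy1 : 0 ≤ y) (hy2 : y ≤ 2) :
    1 / 4 ≤ N ^ y := by
  have h3 : (1 / 2 : ℝ) ^ y ≤ N ^ y := Real.rpow_le_rpow (by norm_num) h1 hy1
  have h4 : (1 / 2 : ℝ) ^ (2 : ℝ) ≤ (1 / 2 : ℝ) ^ y :=
    Real.rpow_le_rpow_of_exponent_ge (by norm_num) (by norm_num) hy2
  rw [Real.rpow_two] at h4
  norm_num at h4 h3 ⊢
  linarith

variable {p : ℝ≥0∞} [Fact (1 ≤ p)]

theorem lower_small (hp : p ≠ ∞) (hp20 : p.toReal ≤ 20) :
    1 + (1 - 2 / p.toReal) ^ 2 / 12800 ≤ ‖ContinuousLinearMap.id ℂ (Hp p) - K0H p‖ := by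
  have hr1 := one_le_toReal hp
  set r := p.toReal with hr
  have hr0 : 0 < r := by linarith
  set s : ℝ := 1 - 2 / r with hs
  set α : ℝ := 2 / r with hα
  have hα0 : 0 < α := by positivity
  have hα2 : α ≤ 2 := by rw [hα, div_le_iff₀ hr0]; linarith
  have hs1 : -1 ≤ s := by rw [hs]; linarith
  have hs2 : s ≤ 1 := by rw [hs]; linarith
  have hαr : α * r = 2 := by rw [hα]; field_simp
  set m : ℝ := s / 2 + s * (s - 1) / 16 with hm
  have hm1 : |m| ≤ 1 := by
    rw [abs_le, hm]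
    constructor <;> nlinarith
  set t : ℝ := m / (16 * r) with ht
  have hrt : r * t = m / 16 := by rw [ht]; field_simp
  have hrt1 : |r * t| ≤ 1 / 16 := by
    rw [hrt, abs_div]
    norm_num
    linarith
  -- the function
  let g : ℂ → ℂ := fun w => w * (1 + w / 2) ^ (α : ℂ)
  have hgd : DifferentiableOn ℂ g (ball 0 2) := by
    have h1 : DifferentiableOn ℂ (fun w : ℂ => w) (ball 0 2) := differentiableOn_id
    have h2 : DifferentiableOn ℂ (fun w : ℂ => (1 + w / 2) ^ (α : ℂ)) (ball 0 2) :=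
      fun w hw => (hasDerivAt_H (α : ℂ) (by simpa using hw)).differentiableAt.differentiableWithinAt
    exact h1.mul h2
  let F : ℂ → ℂ := fun w => g w - t
  have hFd : DifferentiableOn ℂ F (ball 0 2) := hgd.sub_const _
  have hsub : closedBall (0 : ℂ) 1 ⊆ ball 0 2 := closedBall_subset_ball (by norm_num)
  have hFc : DiffContOnCl ℂ F (ball 0 1) :=
    (hFd.mono (closure_ball_subset_closedBall.trans hsub)).diffContOnCl
  have cg : Continuous fun x => g (z x) := by
    refine hgd.continuousOn.comp_continuous continuous_z fun x => ?_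
    simp
  have cF : Continuous fun x => F (z x) := cg.sub continuous_const
  let G : C(Circ, ℂ) := ⟨fun x => F (z x), cF⟩
  have hF0 : F 0 = -(t : ℂ) := by simp [F, g]
  -- norms
  have hgn : ∀ x, ‖g (z x)‖ = ‖1 + z x / 2‖ ^ α := by
    intro x
    change ‖z x * (1 + z x / 2) ^ (α : ℂ)‖ = _
    rw [norm_mul, norm_z, one_mul, Complex.norm_cpow_real]
  have hN0 : ∀ x, 0 < ‖1 + z x / 2‖ := fun x => by linarith [le_norm_q x]
  have hgr : ∀ x, ‖g (z x)‖ ^ r = 5 / 4 + (z x).re := by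
    intro x
    rw [hgn x, ← Real.rpow_mul (norm_nonneg _), hαr, Real.rpow_two, ← Complex.normSq_eq_norm_sq,
      Complex.normSq_apply]
    have hz : (z x).re * (z x).re + (z x).im * (z x).im = 1 := by
      rw [← Complex.normSq_apply, Complex.normSq_eq_norm_sq, norm_z]
      norm_num
    simp
    linarith
  have hgW : ∀ x, ‖g (z x)‖ ^ (r - 2) = ‖1 + z x / 2‖ ^ (2 * s) := by
    intro x
    rw [hgn x, ← Real.rpow_mul (norm_nonneg _)]
    congr 1
    have : α * (r - 2) = α * r - 2 * α := by ring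
    rw [this, hαr, hs]
    ring
  have hid : ∀ x, ‖g (z x)‖ ^ (r - 2) * (g (z x)).re
      = (conj (z x) * (1 + z x / 2) ^ (s : ℂ) * conj (1 + z x / 2)).re := by
    intro x
    set q : ℂ := 1 + z x / 2 with hq
    have hq0 : q ≠ 0 := norm_pos_iff.1 (hN0 x)
    have h1 : q = q ^ (s : ℂ) * q ^ (α : ℂ) := by
      rw [← Complex.cpow_add _ _ hq0]
      have : (s : ℂ) + (α : ℂ) = 1 := by
        rw [← Complex.ofReal_add, hs]
        norm_num
      rw [this, Complex.cpow_one]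
    have h2 : conj (z x) * q ^ (s : ℂ) * conj q
        = ((‖q‖ ^ (2 * s) : ℝ) : ℂ) * conj (g (z x)) := by
      have h3 : q ^ (s : ℂ) * conj (q ^ (s : ℂ)) = ((‖q‖ ^ (2 * s) : ℝ) : ℂ) := by
        rw [Complex.mul_conj, Complex.normSq_eq_norm_sq, Complex.norm_cpow_real]
        congr 1
        rw [← Real.rpow_natCast, ← Real.rpow_mul (norm_nonneg _)]
        congr 1
        push_cast
        ring
      have h4 : conj q = conj (q ^ (s : ℂ)) * conj (q ^ (α : ℂ)) := by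
        rw [← map_mul, ← h1]
      rw [h4, ← h3]
      change _ = _ * conj (z x * q ^ (α : ℂ))
      rw [map_mul]
      ring
    rw [hgW x, h2, Complex.re_ofReal_mul, Complex.conj_re]
  have hGlow : ∀ x, 1 / 4 ≤ ‖g (z x)‖ := fun x => by
    rw [hgn x]
    exact quarter_le (le_norm_q x) hα0.le hα2
  have hW4 : ∀ x, ‖g (z x)‖ ^ (r - 2) ≤ 4 := fun x => by
    rw [hgW x]
    exact rpow_le_four (le_norm_q x) (norm_q_le x) (by linarith) (by linarith)
  -- the integrals
  have I0 : ∫ x, ‖g (z x)‖ ^ r ∂sigma = 5 / 4 := by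
    simp_rw [hgr]
    have i1 : Integrable (fun _ : Circ => (5 / 4 : ℝ)) sigma := integrable_const _
    have i2 : Integrable (fun x => (z x).re) sigma :=
      integrable_of_continuous (Complex.continuous_re.comp continuous_z)
    rw [integral_add i1 i2]
    have := integral_re_eq (F := fun w => w) (differentiable_id.diffContOnCl) continuous_z
    rw [this]
    simp
  have c1 : Continuous fun x => ‖g (z x)‖ ^ r := continuous_norm_rpow cg hr0.le
  have c2 : Continuous fun x => ‖g (z x)‖ ^ (r - 2) * (g (z x)).re := by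
    refine Continuous.mul ?_ (Complex.continuous_re.comp cg)
    refine cg.norm.rpow_const fun x => Or.inl ?_
    have := hGlow x
    linarith
  have c3 : Continuous fun x => ‖g (z x) - t‖ ^ r :=
    continuous_norm_rpow (cg.sub continuous_const) hr0.le
  have I1 : ∫ x, ‖g (z x) - t‖ ^ r ∂sigma ≤ 5 / 4 - m ^ 2 / 32 := by
    have h1 : ∫ x, ‖g (z x) - t‖ ^ r ∂sigma
        ≤ ∫ x, (‖g (z x)‖ ^ r - r * t * (‖g (z x)‖ ^ (r - 2) * (g (z x)).re)
          + 8 * (r * t) ^ 2) ∂sigma := by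
      refine integral_mono (integrable_of_continuous c3) ?_ fun x =>
        key_pt hr1 (hGlow x) hrt1 (hW4 x)
      exact integrable_of_continuous ((c1.sub (continuous_const.mul c2)).add continuous_const)
    refine h1.trans (le_of_eq ?_)
    have i1 : Integrable (fun x => ‖g (z x)‖ ^ r) sigma := integrable_of_continuous c1
    have i2 : Integrable (fun x => r * t * (‖g (z x)‖ ^ (r - 2) * (g (z x)).re)) sigma :=
      integrable_of_continuous (continuous_const.mul c2)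
    have i12 : Integrable (fun x => ‖g (z x)‖ ^ r
        - r * t * (‖g (z x)‖ ^ (r - 2) * (g (z x)).re)) sigma := i1.sub i2
    rw [integral_add i12 (integrable_const _), integral_sub i1 i2, integral_const_mul, I0]
    have hmean : ∫ x, ‖g (z x)‖ ^ (r - 2) * (g (z x)).re ∂sigma = m := by
      rw [hm, ← mean_re]
      exact integral_congr_ae (Eventually.of_forall hid)
    rw [hmean, hrt]
    simp
    ring
  have hms : 9 / 64 * s ^ 2 ≤ m ^ 2 := by
    have h1 : m = s / 2 * (1 - (1 - s) / 8) := by rw [hm]; ring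
    have h2 : (3 / 4 : ℝ) ^ 2 ≤ (1 - (1 - s) / 8) ^ 2 :=
      pow_le_pow_left₀ (by norm_num) (by linarith) 2
    rw [h1, mul_pow]
    nlinarith [sq_nonneg s]
  have I2 : ∫ x, ‖g (z x) - t‖ ^ r ∂sigma ≤ 5 / 4 - s ^ 2 / 256 := by nlinarith [sq_nonneg s]
  have hs2' : s ^ 2 ≤ 1 := by nlinarith
  refine le_norm_sub_K0H hp (by positivity) hFc G (fun x => rfl) ?_ ?_
  · -- positivity
    have h1 : ∫ _x : Circ, (3 / 16 : ℝ) ^ r ∂sigma ≤ ∫ x, ‖g (z x) - t‖ ^ r ∂sigma := by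
      refine integral_mono (integrable_const _) (integrable_of_continuous c3) fun x => ?_
      refine Real.rpow_le_rpow (by norm_num) ?_ hr0.le
      have h2 : ‖g (z x)‖ ≤ ‖g (z x) - t‖ + ‖(t : ℂ)‖ := by
        have := norm_add_le (g (z x) - t) (t : ℂ)
        rwa [sub_add_cancel] at this
      have h3 : ‖(t : ℂ)‖ ≤ 1 / 16 := by
        rw [Complex.norm_real, Real.norm_eq_abs]
        have h4 : |r * t| = r * |t| := by rw [abs_mul, abs_of_nonneg hr0.le]
        rw [h4] at hrt1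
        nlinarith [abs_nonneg t]
      have := hGlow x
      linarith
    have h5 : ∫ _x : Circ, (3 / 16 : ℝ) ^ r ∂sigma = (3 / 16 : ℝ) ^ r := by simp
    have h6 : (0 : ℝ) < (3 / 16 : ℝ) ^ r := Real.rpow_pos_of_pos (by norm_num) _
    change 0 < ∫ x, ‖g (z x) - t‖ ^ r ∂sigma
    linarith
  · have e1 : ∫ x, ‖G x - F 0‖ ^ r ∂sigma = 5 / 4 := by
      rw [← I0]
      refine integral_congr_ae (Eventually.of_forall fun x => ?_)
      change ‖g (z x) - t - F 0‖ ^ r = ‖g (z x)‖ ^ r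
      rw [hF0, sub_neg_eq_add, sub_add_cancel]
    rw [e1]
    change (1 + s ^ 2 / 12800) ^ r * ∫ x, ‖g (z x) - t‖ ^ r ∂sigma ≤ 5 / 4
    have h1 : (1 + s ^ 2 / 12800) ^ r ≤ 1 + s ^ 2 / 320 := by
      have h2 : 1 + s ^ 2 / 12800 ≤ Real.exp (s ^ 2 / 12800) := by
        have := Real.add_one_le_exp (s ^ 2 / 12800)
        linarith
      have h3 : (1 + s ^ 2 / 12800) ^ r ≤ Real.exp (s ^ 2 / 12800) ^ r :=
        Real.rpow_le_rpow (by positivity) h2 hr0.le
      rw [← Real.exp_mul] at h3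
      have h4 : s ^ 2 / 12800 * r ≤ s ^ 2 / 640 := by nlinarith [sq_nonneg s]
      have h5 := exp_le_two (x := s ^ 2 / 640) (by positivity) (by linarith)
      have h6 := Real.exp_le_exp.2 h4
      linarith
    have h7 : 0 ≤ ∫ x, ‖g (z x) - t‖ ^ r ∂sigma :=
      integral_nonneg fun x => Real.rpow_nonneg (norm_nonneg _) _
    calc (1 + s ^ 2 / 12800) ^ r * ∫ x, ‖g (z x) - t‖ ^ r ∂sigma
        ≤ (1 + s ^ 2 / 320) * ∫ x, ‖g (z x) - t‖ ^ r ∂sigma := mul_le_mul_of_nonneg_right h1 h7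
      _ ≤ (1 + s ^ 2 / 320) * (5 / 4 - s ^ 2 / 256) :=
          mul_le_mul_of_nonneg_left I2 (by positivity)
      _ ≤ 5 / 4 := by nlinarith [sq_nonneg s, sq_nonneg (s ^ 2)]

end Pool.Agent.MP_984ac2_an
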