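import Pool.Agent.MP_984ac2_an.TsLower

set_option autoImplicit false

open MeasureTheory AddCircle Filter Topology Metric Set
open scoped ENNReal ComplexConjugate

noncomputable section

namespace Pool.Agent.MP_984ac2_an

/-! ### A truncated Poisson kernel with pole at `-(1 + 1/s)` -/

/-- The partial sum `1 + 2 ∑_{k=1}^n (-w/R)^k`, `R = 1 + 1/s`. -/
def phi (n : ℕ) (s : ℝ) (w : ℂ) : ℂ :=
  1 + 2 * ∑ k ∈ Finset.range n, (-(w / ((1 + 1 / s : ℝ) : ℂ))) ^ (k + 1)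

/-- The Poisson kernel of the disc of radius `R = 1 + 1/s` with pole at `-R`. -/
def Pw (s : ℝ) (w : ℂ) : ℝ :=
  ((1 + 1 / s) ^ 2 - ‖w‖ ^ 2) / ‖((1 + 1 / s : ℝ) : ℂ) + w‖ ^ 2

theorem phi_geom (n : ℕ) (s : ℝ) (w : ℂ) (q : ℂ) (hq : q = -(w / ((1 + 1 / s : ℝ) : ℂ))) :
    (1 - q) * phi n s w = 1 + q - 2 * q ^ (n + 1) := by
  unfold phi
  rw [← hq]
  have h1 : ∑ k ∈ Finset.range n, q ^ (k + 1) = q * ∑ k ∈ Finset.range n, q ^ k := by
    rw [Finset.mul_sum]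
    exact Finset.sum_congr rfl fun k _ => by ring
  have h2 := mul_neg_geom_sum q n
  rw [h1]
  linear_combination 2 * q * h2

theorem re_cayley {q : ℂ} (hq : 1 - q ≠ 0) :
    ((1 + q) / (1 - q)).re = (1 - ‖q‖ ^ 2) / ‖1 - q‖ ^ 2 := by
  have h0 : Complex.normSq (1 - q) ≠ 0 := by
    rw [Ne, Complex.normSq_eq_zero]; exact hq
  rw [Complex.div_re, ← Complex.normSq_eq_norm_sq, ← Complex.normSq_eq_norm_sq, ← add_div]
  congr 1
  rw [Complex.normSq_apply]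
  simp
  ring

theorem phi_re_close {n : ℕ} {s : ℝ} (hs : 1 ≤ s) {w : ℂ} (hw : ‖w‖ ≤ 1 + 1 / (2 * s)) :
    |(phi n s w).re - Pw s w| ≤ 8 * s * Real.exp (-((n + 1) / (4 * s))) := by
  have hs0 : 0 < s := by linarith
  set R : ℝ := 1 + 1 / s with hR
  have hR0 : 0 < R := by positivity
  set q : ℂ := -(w / (R : ℂ)) with hq
  have hqn : ‖q‖ = ‖w‖ / R := by
    rw [hq, norm_neg, norm_div, Complex.norm_real, Real.norm_of_nonneg hR0.le]
  have hq1 : ‖q‖ ≤ 1 - 1 / (4 * s) := by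
    rw [hqn, div_le_iff₀ hR0]
    refine hw.trans ?_
    have e : (1 - 1 / (4 * s)) * R - (1 + 1 / (2 * s)) = (s - 1) / (4 * s ^ 2) := by
      rw [hR]; field_simp; ring
    have : 0 ≤ (s - 1) / (4 * s ^ 2) := div_nonneg (by linarith) (by positivity)
    linarith
  have h4 : 0 < 1 / (4 * s) := by positivity
  have hq2 : 1 / (4 * s) ≤ ‖1 - q‖ := by
    have h1 : ‖(1 : ℂ)‖ ≤ ‖1 - q‖ + ‖q‖ := by
      have := norm_add_le (1 - q) q
      rwa [sub_add_cancel] at this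
    rw [norm_one] at h1
    linarith
  have hq0 : 1 - q ≠ 0 := norm_pos_iff.1 (by linarith)
  have hphi : phi n s w = (1 + q) / (1 - q) - 2 * q ^ (n + 1) / (1 - q) := by
    rw [← sub_div, eq_div_iff hq0, mul_comm]
    exact phi_geom n s w q hq
  have hP : Pw s w = ((1 + q) / (1 - q)).re := by
    rw [re_cayley hq0]
    unfold Pw
    rw [← hR]
    have e1 : ‖1 - q‖ = ‖(R : ℂ) + w‖ / R := by
      have : 1 - q = ((R : ℂ) + w) / (R : ℂ) := by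
        rw [hq]
        have : (R : ℂ) ≠ 0 := by exact_mod_cast hR0.ne'
        field_simp
        ring
      rw [this, norm_div, Complex.norm_real, Real.norm_of_nonneg hR0.le]
    rw [e1, hqn]
    have e2 : 0 < ‖(R : ℂ) + w‖ := by
      have : 0 < ‖1 - q‖ := by linarith
      rw [e1] at this
      by_contra hcon
      have h5 : ‖(R : ℂ) + w‖ = 0 := le_antisymm (not_lt.1 hcon) (norm_nonneg _)
      rw [h5, zero_div] at this
      exact lt_irrefl _ this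
    field_simp
  rw [hP, hphi, Complex.sub_re]
  have e3 : ((1 + q) / (1 - q)).re - (2 * q ^ (n + 1) / (1 - q)).re - ((1 + q) / (1 - q)).re
      = -(2 * q ^ (n + 1) / (1 - q)).re := by ring
  rw [e3, abs_neg]
  refine (Complex.abs_re_le_norm _).trans ?_
  rw [norm_div, norm_mul, norm_pow]
  have h2 : ‖(2 : ℂ)‖ = 2 := by simp
  rw [h2, div_le_iff₀ (by linarith)]
  have h5 : ‖q‖ ^ (n + 1) ≤ Real.exp (-((n + 1) / (4 * s))) := by
    have h6 : ‖q‖ ≤ Real.exp (-(1 / (4 * s))) := by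
      have := Real.add_one_le_exp (-(1 / (4 * s)))
      linarith
    have h7 := pow_le_pow_left₀ (norm_nonneg q) h6 (n + 1)
    rw [← Real.exp_nat_mul] at h7
    refine h7.trans (le_of_eq ?_)
    congr 1
    push_cast
    field_simp
  have h8 : 0 ≤ ‖q‖ ^ (n + 1) := by positivity
  have h9 : 2 * Real.exp (-((n + 1) / (4 * s)))
      = 8 * s * Real.exp (-((n + 1) / (4 * s))) * (1 / (4 * s)) := by
    field_simp
    ring
  have h10 : 8 * s * Real.exp (-((n + 1) / (4 * s))) * (1 / (4 * s))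
      ≤ 8 * s * Real.exp (-((n + 1) / (4 * s))) * ‖1 - q‖ :=
    mul_le_mul_of_nonneg_left hq2 (by positivity)
  linarith

theorem differentiable_phi (n : ℕ) (s : ℝ) : Differentiable ℂ (phi n s) := by
  unfold phi
  fun_prop

/-- crude bound outside the unit disc -/
theorem norm_phi_le {n : ℕ} {s : ℝ} (hs : 0 < s) {w : ℂ} (hw : 1 ≤ ‖w‖) :
    ‖phi n s w‖ ≤ (1 + 2 * n) * ‖w‖ ^ n := by
  unfold phi
  have hR0 : 0 < 1 + 1 / s := by positivity
  have hR1 : 1 ≤ 1 + 1 / s := by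
    have : 0 < 1 / s := by positivity
    linarith
  have h1 : ∀ k ∈ Finset.range n, ‖(-(w / ((1 + 1 / s : ℝ) : ℂ))) ^ (k + 1)‖ ≤ ‖w‖ ^ n := by
    intro k hk
    rw [norm_pow, norm_neg, norm_div, Complex.norm_real, Real.norm_of_nonneg hR0.le]
    calc (‖w‖ / (1 + 1 / s)) ^ (k + 1) ≤ ‖w‖ ^ (k + 1) := by
          apply pow_le_pow_left₀ (by positivity)
          exact div_le_self (norm_nonneg _) hR1
      _ ≤ ‖w‖ ^ n := pow_le_pow_right₀ hw (Finset.mem_range.1 hk)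
  have h2 : ‖∑ k ∈ Finset.range n, (-(w / ((1 + 1 / s : ℝ) : ℂ))) ^ (k + 1)‖ ≤ n * ‖w‖ ^ n := by
    refine (norm_sum_le_of_le _ h1).trans ?_
    simp
  have h3 : 1 ≤ ‖w‖ ^ n := one_le_pow₀ hw
  refine (norm_add_le _ _).trans ?_
  rw [norm_mul, norm_one]
  have h4 : ‖(2 : ℂ)‖ = 2 := by simp
  rw [h4]
  nlinarith

/-! ### Elementary lower bounds for the Poisson kernel -/

theorem norm_R_add_pos {s : ℝ} (hs : 0 < s) {w : ℂ} (hw : ‖w‖ < 1 + 1 / s) :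
    0 < ‖((1 + 1 / s : ℝ) : ℂ) + w‖ := by
  have hR0 : 0 < 1 + 1 / s := by positivity
  have h1 : ‖((1 + 1 / s : ℝ) : ℂ)‖ ≤ ‖((1 + 1 / s : ℝ) : ℂ) + w‖ + ‖w‖ := by
    have := norm_sub_le (((1 + 1 / s : ℝ) : ℂ) + w) w
    rwa [add_sub_cancel_right] at this
  rw [Complex.norm_real, Real.norm_of_nonneg hR0.le] at h1
  linarith

theorem Pw_ge {s : ℝ} (hs : 0 < s) {w : ℂ} (hw : ‖w‖ < 1 + 1 / s) :
    (1 + 1 / s - ‖w‖) / (1 + 1 / s + ‖w‖) ≤ Pw s w := by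
  have hR0 : 0 < 1 + 1 / s := by positivity
  have h0 := norm_R_add_pos hs hw
  have h1 : ‖((1 + 1 / s : ℝ) : ℂ) + w‖ ≤ 1 + 1 / s + ‖w‖ := by
    refine (norm_add_le _ _).trans ?_
    rw [Complex.norm_real, Real.norm_of_nonneg hR0.le]
  unfold Pw
  rw [div_le_div_iff₀ (by positivity) (by positivity)]
  have h2 : ‖((1 + 1 / s : ℝ) : ℂ) + w‖ ^ 2 ≤ (1 + 1 / s + ‖w‖) ^ 2 :=
    pow_le_pow_left₀ (norm_nonneg _) h1 2
  have h3 : 0 < 1 + 1 / s - ‖w‖ := by linarith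
  calc (1 + 1 / s - ‖w‖) * ‖((1 + 1 / s : ℝ) : ℂ) + w‖ ^ 2
      ≤ (1 + 1 / s - ‖w‖) * (1 + 1 / s + ‖w‖) ^ 2 := mul_le_mul_of_nonneg_left h2 h3.le
    _ = _ := by ring

theorem Pw_one {s : ℝ} (hs : 0 < s) : Pw s 1 = (1 / s) / (2 + 1 / s) := by
  unfold Pw
  have h1 : ‖((1 + 1 / s : ℝ) : ℂ) + 1‖ = 2 + 1 / s := by
    have : ((1 + 1 / s : ℝ) : ℂ) + 1 = ((2 + 1 / s : ℝ) : ℂ) := by push_cast; ring
    rw [this, Complex.norm_real, Real.norm_of_nonneg (by positivity)]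
  rw [h1, norm_one]
  field_simp
  ring

/-- `P - κ₀ ≥ (2/5)(1 - x)` for `x ≤ 1`. -/
theorem Pw_sub_in {s : ℝ} (hs : 1 ≤ s) {w : ℂ} (hw : ‖w‖ ≤ 1) :
    2 / 5 * (1 - ‖w‖) ≤ Pw s w - Pw s 1 := by
  have hs0 : 0 < s := by linarith
  set δ : ℝ := 1 / s with hδ
  have hδ0 : 0 < δ := by positivity
  have hδ1 : δ ≤ 1 := by rw [hδ, div_le_one hs0]; exact hs
  have h1 := Pw_ge hs0 (w := w) (by rw [← hδ]; linarith)
  rw [← hδ] at h1
  have h2 := Pw_one hs0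
  rw [← hδ] at h2
  set x := ‖w‖ with hx
  have hx0 : 0 ≤ x := norm_nonneg w
  have e : (1 + δ - x) / (1 + δ + x) - δ / (2 + δ)
      = 2 * (1 + δ) * (1 - x) / ((1 + δ + x) * (2 + δ)) := by
    have : 1 + δ + x ≠ 0 := by positivity
    have : 2 + δ ≠ 0 := by positivity
    field_simp
    ring
  have h3 : 2 / 5 * (1 - x) ≤ 2 * (1 + δ) * (1 - x) / ((1 + δ + x) * (2 + δ)) := by
    rw [le_div_iff₀ (by positivity)]
    have h4 : (1 + δ + x) * (2 + δ) ≤ 5 * (1 + δ) := by nlinarith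
    nlinarith [mul_le_mul_of_nonneg_left h4 (by linarith : (0 : ℝ) ≤ 1 - x)]
  rw [h2]
  linarith

/-- `P - κ₀ ≥ -(x - 1)/2` for `1 ≤ x < R`. -/
theorem Pw_sub_out {s : ℝ} (hs : 1 ≤ s) {w : ℂ} (hw : 1 ≤ ‖w‖) (hw2 : ‖w‖ < 1 + 1 / s) :
    -((‖w‖ - 1) / 2) ≤ Pw s w - Pw s 1 := by
  have hs0 : 0 < s := by linarith
  have h1 := Pw_ge hs0 hw2
  have h2 := Pw_one hs0
  set δ : ℝ := 1 / s with hδ
  have hδ0 : 0 < δ := by positivity
  set x := ‖w‖ with hx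
  have e : (1 + δ - x) / (1 + δ + x) - δ / (2 + δ)
      = -(2 * (1 + δ) * (x - 1) / ((1 + δ + x) * (2 + δ))) := by
    have : 1 + δ + x ≠ 0 := by positivity
    have : 2 + δ ≠ 0 := by positivity
    field_simp
    ring
  have h3 : 2 * (1 + δ) * (x - 1) / ((1 + δ + x) * (2 + δ)) ≤ (x - 1) / 2 := by
    rw [div_le_div_iff₀ (by positivity) (by norm_num)]
    have h4 : 4 * (1 + δ) ≤ (1 + δ + x) * (2 + δ) := by nlinarith
    nlinarith [mul_le_mul_of_nonneg_left h4 (by linarith : (0 : ℝ) ≤ x - 1)]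
  rw [h2]
  linarith

end Pool.Agent.MP_984ac2_an
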