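import Pool.Agent.MP_984ac2_an.TsPhi

set_option autoImplicit false

open MeasureTheory AddCircle Filter Topology Metric Set
open scoped ENNReal ComplexConjugate

noncomputable section

namespace Pool.Agent.MP_984ac2_an

/-- The parameters of the pointwise inequality for large exponents `r = s²`. -/
structure Par (s r Γ : ℝ) (n : ℕ) : Prop where
  hs : 1000 ≤ s
  hr : r = s ^ 2
  hE : 1000 * s ^ 4 ≤ Real.exp (s / 8)
  hn1 : (n : ℝ) ≤ r / 2
  hn2 : r / 2 ≤ n + 1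
  hΓ0 : 0 < Γ
  hΓ : Γ * s ^ (3 / 2 : ℝ) = 64 * 2 ^ r

namespace Par

variable {s r Γ : ℝ} {n : ℕ}

theorem gam_ge (h : Par s r Γ n) : 64 * 2 ^ r ≤ Γ * s ^ 2 := by
  rw [← h.hΓ]
  refine mul_le_mul_of_nonneg_left ?_ h.hΓ0.le
  rw [← Real.rpow_two]
  exact Real.rpow_le_rpow_of_exponent_le (by linarith [h.hs]) (by norm_num)

theorem gam_sq (h : Par s r Γ n) : Γ ^ 2 * s ^ 3 = 4096 * 4 ^ r := by
  have hs0 : 0 < s := by linarith [h.hs]
  have h1 : (Γ * s ^ (3 / 2 : ℝ)) ^ 2 = (64 * 2 ^ r) ^ 2 := by rw [h.hΓ]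
  have h2 : (s ^ (3 / 2 : ℝ)) ^ 2 = s ^ 3 := by
    rw [← Real.rpow_natCast (s ^ (3 / 2 : ℝ)), ← Real.rpow_mul hs0.le, ← Real.rpow_natCast s 3]
    congr 1
    norm_num
  have h3 : ((2 : ℝ) ^ r) ^ 2 = 4 ^ r := by
    rw [← Real.rpow_natCast ((2 : ℝ) ^ r), ← Real.rpow_mul (by norm_num), mul_comm,
      Real.rpow_mul (by norm_num)]
    norm_num
  rw [mul_pow, mul_pow, h2, h3] at h1
  rw [h1]
  norm_num

theorem exp_neg_le (h : Par s r Γ n) : Real.exp (-(s / 8)) ≤ 1 / (1000 * s ^ 4) := by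
  have hs0 : 0 < s := by linarith [h.hs]
  rw [Real.exp_neg, inv_eq_one_div]
  exact one_div_le_one_div_of_le (by positivity) h.hE

theorem close (h : Par s r Γ n) {w : ℂ} (hw : ‖w‖ ≤ 1 + 1 / (2 * s)) :
    Pw s w - Pw s 1 - 1 / (50 * s ^ 3) ≤ (phi n s w).re - (phi n s 1).re := by
  have hs0 : 0 < s := by linarith [h.hs]
  have hs1 : 1 ≤ s := by linarith [h.hs]
  have h1 := (abs_le.1 (phi_re_close (n := n) hs1 hw)).1
  have h2 := (abs_le.1 (phi_re_close (n := n) hs1 (w := 1) (by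
    rw [norm_one]
    have : 0 < 1 / (2 * s) := by positivity
    linarith))).2
  have h3 : Real.exp (-((n + 1) / (4 * s))) ≤ 1 / (1000 * s ^ 4) := by
    refine le_trans (Real.exp_le_exp.2 ?_) h.exp_neg_le
    rw [neg_le_neg_iff, le_div_iff₀ (by positivity)]
    have := h.hn2
    rw [h.hr] at this
    nlinarith
  have h4 : 8 * s * Real.exp (-((n + 1) / (4 * s))) ≤ 8 * s * (1 / (1000 * s ^ 4)) :=
    mul_le_mul_of_nonneg_left h3 (by positivity)
  have h5 : 8 * s * (1 / (1000 * s ^ 4)) = 1 / (125 * s ^ 3) := by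
    field_simp
    norm_num
  rw [h5] at h4
  have h6 : 2 * (1 / (125 * s ^ 3)) ≤ 1 / (50 * s ^ 3) := by
    have e : 1 / (50 * s ^ 3) - 2 * (1 / (125 * s ^ 3)) = 1 / (250 * s ^ 3) := by
      field_simp
      norm_num
    have : 0 < 1 / (250 * s ^ 3) := by positivity
    linarith
  linarith

/-- the base inequality, inside and outside the unit disc -/
theorem base (h : Par s r Γ n) {w : ℂ} (hw : ‖w‖ < 1 + 1 / s) :
    2 / 5 ≤ r * (Pw s w - Pw s 1) + ‖w‖ ^ r := by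
  have hs1 : 1 ≤ s := by linarith [h.hs]
  have hr1 : 1 ≤ r := by rw [h.hr]; nlinarith
  have hb := one_add_mul_self_le_rpow_one_add (s := ‖w‖ - 1) (by linarith [norm_nonneg w]) hr1
  rw [add_sub_cancel] at hb
  have h0 : 0 ≤ ‖w‖ ^ r := Real.rpow_nonneg (norm_nonneg _) _
  rcases le_total ‖w‖ 1 with h1 | h1
  · have h2 := mul_le_mul_of_nonneg_left (Pw_sub_in hs1 h1) (by linarith : (0 : ℝ) ≤ r)
    linarith
  · have h2 := mul_le_mul_of_nonneg_left (Pw_sub_out hs1 h1 hw) (by linarith : (0 : ℝ) ≤ r)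
    linarith

theorem half_lt (h : Par s r Γ n) : 1 + 1 / (2 * s) < 1 + 1 / s := by
  have hs0 : 0 < s := by linarith [h.hs]
  have : 1 / (2 * s) < 1 / s := one_div_lt_one_div_of_lt hs0 (by linarith)
  linarith

/-- The case of points not far from `1` (distance at most `1.96`). -/
theorem caseS (h : Par s r Γ n) {w : ℂ} (hw : ‖w‖ ≤ 1 + 1 / (2 * s)) (hD : ‖w - 1‖ ≤ 49 / 25) :
    ‖w - 1‖ ^ r ≤ Γ * ‖w‖ ^ r + r * Γ * ((phi n s w).re - (phi n s 1).re) := by
  have hs := h.hs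
  have hs0 : 0 < s := by linarith
  have hr0 : 0 < r := by rw [h.hr]; positivity
  have hΓ0 := h.hΓ0
  have h1 := h.close hw
  have h2 := h.base (lt_of_le_of_lt hw h.half_lt)
  have h3 : r * Γ * (Pw s w - Pw s 1 - 1 / (50 * s ^ 3))
      ≤ r * Γ * ((phi n s w).re - (phi n s 1).re) :=
    mul_le_mul_of_nonneg_left h1 (by positivity)
  have h4 : r * (1 / (50 * s ^ 3)) ≤ 1 / 10 := by
    rw [h.hr]
    have e : s ^ 2 * (1 / (50 * s ^ 3)) = 1 / (50 * s) := by field_simp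
    rw [e]
    rw [div_le_div_iff₀ (by positivity) (by norm_num)]
    linarith
  have h5 : 3 / 10 * Γ ≤ Γ * ‖w‖ ^ r + r * Γ * (Pw s w - Pw s 1 - 1 / (50 * s ^ 3)) := by
    have e : Γ * ‖w‖ ^ r + r * Γ * (Pw s w - Pw s 1 - 1 / (50 * s ^ 3))
        = Γ * (r * (Pw s w - Pw s 1) + ‖w‖ ^ r - r * (1 / (50 * s ^ 3))) := by ring
    rw [e]
    nlinarith
  have h6 : ‖w - 1‖ ^ r ≤ 3 / 10 * Γ := by
    have h7 : ‖w - 1‖ ^ r ≤ (49 / 25 : ℝ) ^ r := Real.rpow_le_rpow (norm_nonneg _) hD hr0.le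
    have h8 : (49 / 25 : ℝ) ^ r = 2 ^ r * (49 / 50 : ℝ) ^ r := by
      rw [← Real.mul_rpow (by norm_num) (by norm_num)]
      norm_num
    have h9 : (49 / 50 : ℝ) ^ r ≤ Real.exp (-(s / 8)) := by
      have h10 : (49 / 50 : ℝ) ≤ Real.exp (-(1 / 50)) := by
        have := Real.add_one_le_exp (-(1 / 50 : ℝ))
        linarith
      have h11 : (49 / 50 : ℝ) ^ r ≤ Real.exp (-(1 / 50)) ^ r :=
        Real.rpow_le_rpow (by norm_num) h10 hr0.le
      rw [← Real.exp_mul] at h11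
      refine h11.trans (Real.exp_le_exp.2 ?_)
      rw [h.hr]
      nlinarith
    have h12 : (2 : ℝ) ^ r * (49 / 50 : ℝ) ^ r ≤ 2 ^ r * (1 / (1000 * s ^ 4)) :=
      mul_le_mul_of_nonneg_left (h9.trans h.exp_neg_le) (by positivity)
    have h13 := h.gam_ge
    have hT : (0 : ℝ) < 2 ^ r := by positivity
    have h14 : (2 : ℝ) ^ r * (1 / (1000 * s ^ 4)) ≤ 3 / 10 * Γ := by
      rw [mul_one_div, div_le_iff₀ (by positivity)]
      have h15 : (1 : ℝ) ≤ s ^ 2 := by nlinarith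
      have e : 3 / 10 * Γ * (1000 * s ^ 4) = 300 * (Γ * s ^ 2) * s ^ 2 := by ring
      rw [e]
      have h16 : (2 : ℝ) ^ r * 1 ≤ 300 * (Γ * s ^ 2) * s ^ 2 :=
        mul_le_mul (by linarith) h15 zero_le_one (by positivity)
      linarith
    linarith
  linarith

/-- common facts near `-1` -/
theorem par_id (w : ℂ) : ‖w + 1‖ ^ 2 = 2 * (1 + ‖w‖ ^ 2) - ‖w - 1‖ ^ 2 := by
  rw [← Complex.normSq_eq_norm_sq, ← Complex.normSq_eq_norm_sq, ← Complex.normSq_eq_norm_sq,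
    Complex.normSq_apply, Complex.normSq_apply, Complex.normSq_apply]
  simp
  ring

theorem norm_R_sq (hs0 : 0 < s) (w : ℂ) :
    ‖((1 + 1 / s : ℝ) : ℂ) + w‖ ^ 2 ≤ 2 * (1 / s) ^ 2 + 2 * ‖w + 1‖ ^ 2 := by
  have h1 : ‖((1 + 1 / s : ℝ) : ℂ) + w‖ ≤ 1 / s + ‖w + 1‖ := by
    have e : ((1 + 1 / s : ℝ) : ℂ) + w = ((1 / s : ℝ) : ℂ) + (w + 1) := by push_cast; ring
    rw [e]
    refine (norm_add_le _ _).trans ?_
    rw [Complex.norm_real, Real.norm_of_nonneg (by positivity)]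
  have h2 := pow_le_pow_left₀ (norm_nonneg _) h1 2
  nlinarith [sq_nonneg (1 / s - ‖w + 1‖)]

theorem Pw_one_le (hs0 : 0 < s) : Pw s 1 ≤ 1 / s / 2 := by
  rw [Pw_one hs0]
  have : 0 < 1 / s := by positivity
  exact div_le_div_of_nonneg_left this.le (by norm_num) (by linarith)

theorem small_err (h : Par s r Γ n) : 1 / (50 * s ^ 3) ≤ 1 / s / 50 := by
  have hs := h.hs
  have hs0 : 0 < s := by linarith
  have e : 1 / s / 50 = 1 / (50 * s) := by field_simp
  rw [e]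
  apply one_div_le_one_div_of_le (by positivity)
  have : s ≤ s ^ 3 := by nlinarith [sq_nonneg s]
  linarith

/-- The case near `-1`, inside the unit disc. -/
theorem caseW1 (h : Par s r Γ n) {w : ℂ} (hw : ‖w‖ ≤ 1) (hD : 49 / 25 < ‖w - 1‖) :
    ‖w - 1‖ ^ r ≤ Γ * ‖w‖ ^ r + r * Γ * ((phi n s w).re - (phi n s 1).re) := by
  have hs := h.hs
  have hs0 : 0 < s := by linarith
  have hr0 : 0 < r := by rw [h.hr]; positivity
  have hΓ0 := h.hΓ0
  have h2s : 0 < 1 / (2 * s) := by positivity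
  have h1 := h.close (w := w) (by linarith)
  have hpar := par_id w
  have hR := norm_R_sq hs0 w
  have hk := Pw_one_le hs0
  have herr := h.small_err
  have hD2 : ‖w - 1‖ ≤ 1 + ‖w‖ := by
    refine (norm_sub_le _ _).trans ?_
    rw [norm_one, add_comm]
  set D := ‖w - 1‖ with hDdef
  set x := ‖w‖ with hx
  set δ := 1 / s with hδ
  have hδ0 : 0 < δ := by positivity
  have hδ1 : δ ≤ 1 / 1000 := one_div_le_one_div_of_le (by norm_num) hs
  have hsδ : s * δ = 1 := by rw [hδ]; field_simp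
  set y := 1 - x with hy
  have hy0 : 0 ≤ y := by linarith
  have hy1 : y ≤ 1 / 25 := by linarith
  set e2 := (1 + x) ^ 2 - D ^ 2 with he2
  have hD0 : 0 ≤ D := norm_nonneg _
  have hx0 : 0 ≤ x := norm_nonneg _
  have he20 : 0 ≤ e2 := by
    have := pow_le_pow_left₀ hD0 hD2 2
    linarith
  have he21 : e2 ≤ 16 / 100 := by
    have a1 : (1 + x) ^ 2 ≤ 2 ^ 2 := pow_le_pow_left₀ (by linarith) (by linarith) 2
    have a2 : (49 / 25 : ℝ) ^ 2 ≤ D ^ 2 := pow_le_pow_left₀ (by norm_num) hD.le 2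
    norm_num at a1 a2
    linarith
  have hpar2 : ‖w + 1‖ ^ 2 = y ^ 2 + e2 := by rw [hpar, hy, he2]; ring
  rw [hpar2] at hR
  set W := δ ^ 2 + y ^ 2 + e2 with hW
  have hW0 : 0 < W := by positivity
  have hW1 : W ≤ 17 / 100 := by
    have a1 : δ ^ 2 ≤ (1 / 1000) ^ 2 := pow_le_pow_left₀ hδ0.le hδ1 2
    have a2 : y ^ 2 ≤ (1 / 25) ^ 2 := pow_le_pow_left₀ hy0 hy1 2
    norm_num at a1 a2
    linarith
  have hwlt : x < 1 + δ := by linarith
  have hRpos := norm_R_add_pos hs0 (w := w) (by rw [← hδ, ← hx]; exact hwlt)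
  rw [← hδ] at hRpos
  -- the Poisson kernel
  have hP : 95 / 100 * δ / W ≤ Pw s w := by
    unfold Pw
    rw [← hδ, ← hx, div_le_div_iff₀ hW0 (by positivity)]
    have h5 : ‖((1 + δ : ℝ) : ℂ) + w‖ ^ 2 ≤ 2 * W := by rw [hW]; linarith
    have h6 : 19 / 10 * δ ≤ (1 + δ) ^ 2 - x ^ 2 := by
      have e : (1 + δ) ^ 2 - x ^ 2 = (δ + y) * (1 + δ + x) := by rw [hy]; ring
      rw [e]
      calc 19 / 10 * δ = δ * (19 / 10) := by ring
        _ ≤ (δ + y) * (1 + δ + x) :=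
          mul_le_mul (by linarith) (by linarith) (by norm_num) (by linarith)
    calc 95 / 100 * δ * ‖((1 + δ : ℝ) : ℂ) + w‖ ^ 2 ≤ 95 / 100 * δ * (2 * W) :=
          mul_le_mul_of_nonneg_left h5 (by positivity)
      _ = 19 / 10 * δ * W := by ring
      _ ≤ ((1 + δ) ^ 2 - x ^ 2) * W := mul_le_mul_of_nonneg_right h6 hW0.le
  have hP2 : 8 / 10 * δ / W ≤ Pw s w - Pw s 1 - 1 / (50 * s ^ 3) := by
    have h7 : 8 / 10 * δ / W ≤ 95 / 100 * δ / W - δ / 2 - δ / 50 := by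
      have e : 95 / 100 * δ / W - δ / 2 - δ / 50 - 8 / 10 * δ / W
          = δ * (15 / 100 - 52 / 100 * W) / W := by
        field_simp
        ring
      have : 0 ≤ δ * (15 / 100 - 52 / 100 * W) / W := by
        apply div_nonneg (mul_nonneg hδ0.le (by linarith)) hW0.le
      linarith
    linarith
  -- the size of `D^r`
  have hDr : D ^ r ≤ 2 ^ r * Real.exp (-(r * (3 * y + e2) / 8)) := by
    have h8 : D ^ r = 2 ^ r * (D ^ 2 / 4) ^ (r / 2) := by
      rw [Real.div_rpow (by positivity) (by norm_num), sq_rpow_half hD0]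
      have : (4 : ℝ) ^ (r / 2) = 2 ^ r := by
        have h9 := sq_rpow_half (x := 2) (by norm_num) r
        norm_num at h9
        exact h9
      rw [this]
      have : (0 : ℝ) < 2 ^ r := by positivity
      field_simp
    rw [h8]
    refine mul_le_mul_of_nonneg_left ?_ (by positivity)
    have h9 : D ^ 2 / 4 ≤ Real.exp (-((3 * y + e2) / 4)) := by
      have h10 := Real.add_one_le_exp (-((3 * y + e2) / 4))
      have h11 : D ^ 2 / 4 = 1 - y + y ^ 2 / 4 - e2 / 4 := by rw [he2, hy]; ring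
      have h12 : y ^ 2 ≤ y * 1 := by
        rw [pow_two]
        exact mul_le_mul_of_nonneg_left (by linarith) hy0
      linarith
    have h12 : (D ^ 2 / 4) ^ (r / 2) ≤ Real.exp (-((3 * y + e2) / 4)) ^ (r / 2) :=
      Real.rpow_le_rpow (by positivity) h9 (by linarith)
    rw [← Real.exp_mul] at h12
    refine h12.trans (le_of_eq ?_)
    congr 1
    ring
  have hexp : s ^ 2 * W / 8 ≤ Real.exp (r * (3 * y + e2) / 8) := by
    have h13 := Real.add_one_le_exp (r * (3 * y + e2) / 8)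
    have h14 : s ^ 2 * W = 1 + s ^ 2 * (y ^ 2 + e2) := by
      rw [hW]
      have : s ^ 2 * δ ^ 2 = 1 := by rw [← mul_pow, hsδ, one_pow]
      linear_combination this
    rw [h14]
    rw [h.hr] at h13 ⊢
    have h12 : y ^ 2 ≤ y * 1 := by
      rw [pow_two]
      exact mul_le_mul_of_nonneg_left (by linarith) hy0
    have h15 : 0 ≤ s ^ 2 * (3 * y - y ^ 2) := mul_nonneg (sq_nonneg _) (by linarith)
    have h16 : 0 ≤ s ^ 2 * y ^ 2 := by positivity
    have h17 : 0 ≤ s ^ 2 * e2 := by positivity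
    linarith
  have hmain : D ^ r ≤ r * Γ * (8 / 10 * δ / W) := by
    refine hDr.trans ?_
    rw [Real.exp_neg, ← div_eq_mul_inv, div_le_iff₀ (Real.exp_pos _)]
    have h16 := h.gam_ge
    have h17 : r * Γ * (8 / 10 * δ / W) * (s ^ 2 * W / 8) = Γ * s ^ 2 * (s / 10) := by
      calc r * Γ * (8 / 10 * δ / W) * (s ^ 2 * W / 8)
          = r * Γ * (8 / 10 * δ * (s ^ 2 / 8)) * (W / W) := by ring
        _ = Γ * s ^ 2 * (s * (s * δ) / 10) := by rw [div_self hW0.ne', h.hr]; ring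
        _ = _ := by rw [hsδ, mul_one]
    have h18 : r * Γ * (8 / 10 * δ / W) * (s ^ 2 * W / 8)
        ≤ r * Γ * (8 / 10 * δ / W) * Real.exp (r * (3 * y + e2) / 8) :=
      mul_le_mul_of_nonneg_left hexp (by positivity)
    have hT : (0 : ℝ) < 2 ^ r := by positivity
    have h19 : (2 : ℝ) ^ r ≤ Γ * s ^ 2 * (s / 10) := by
      have a1 : Γ * s ^ 2 * 100 ≤ Γ * s ^ 2 * (s / 10) :=
        mul_le_mul_of_nonneg_left (by linarith) (by positivity)
      linarith
    linarith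
  have h20 : r * Γ * (8 / 10 * δ / W) ≤ r * Γ * ((phi n s w).re - (phi n s 1).re) :=
    mul_le_mul_of_nonneg_left (hP2.trans h1) (by positivity)
  have h21 : 0 ≤ Γ * x ^ r := mul_nonneg hΓ0.le (Real.rpow_nonneg (norm_nonneg _) _)
  linarith

/-- The case near `-1`, outside the unit disc. -/
theorem caseW2 (h : Par s r Γ n) {w : ℂ} (hw1 : 1 ≤ ‖w‖) (hw : ‖w‖ ≤ 1 + 1 / (2 * s))
    (hD : 49 / 25 < ‖w - 1‖) :
    ‖w - 1‖ ^ r ≤ Γ * ‖w‖ ^ r + r * Γ * ((phi n s w).re - (phi n s 1).re) := by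
  have hs := h.hs
  have hs0 : 0 < s := by linarith
  have hr0 : 0 < r := by rw [h.hr]; positivity
  have hΓ0 := h.hΓ0
  have h1 := h.close hw
  have hpar := par_id w
  have hR := norm_R_sq hs0 w
  have hk := Pw_one_le hs0
  have herr := h.small_err
  have hhalf := h.half_lt
  have hD2 : ‖w - 1‖ ≤ 1 + ‖w‖ := by
    refine (norm_sub_le _ _).trans ?_
    rw [norm_one, add_comm]
  have e2s : 1 / (2 * s) = 1 / s / 2 := by field_simp
  rw [e2s] at hw hhalf
  have hRpos := norm_R_add_pos hs0 (w := w) (by linarith)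
  have hx0 : 0 < ‖w‖ := by linarith
  obtain ⟨D, hDdef⟩ : ∃ D, D = ‖w - 1‖ := ⟨_, rfl⟩
  obtain ⟨x, hx⟩ : ∃ x, x = ‖w‖ := ⟨_, rfl⟩
  obtain ⟨δ, hδ⟩ : ∃ δ, δ = 1 / s := ⟨_, rfl⟩
  have hD0 : 0 ≤ D := by rw [hDdef]; exact norm_nonneg _
  rw [← hDdef] at hD hD2 hpar ⊢
  rw [← hx] at hw1 hw hpar hD2 hx0 ⊢
  rw [← hδ] at hw hR hk herr hhalf hRpos
  have hδ0 : 0 < δ := by rw [hδ]; positivity
  have hδ1 : δ ≤ 1 / 1000 := by rw [hδ]; exact one_div_le_one_div_of_le (by norm_num) hs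
  have hsδ : s * δ = 1 := by rw [hδ]; field_simp
  obtain ⟨y, hy⟩ : ∃ y, y = x - 1 := ⟨_, rfl⟩
  have hy0 : 0 ≤ y := by linarith
  have hy1 : y ≤ δ / 2 := by linarith
  obtain ⟨e2, he2⟩ : ∃ e2, e2 = (1 + x) ^ 2 - D ^ 2 := ⟨_, rfl⟩
  have he20 : 0 ≤ e2 := by
    have := pow_le_pow_left₀ hD0 hD2 2
    linarith
  have he21 : e2 ≤ 165 / 1000 := by
    have a1 : (1 + x) ^ 2 ≤ (2 + 1 / 2000) ^ 2 := pow_le_pow_left₀ (by linarith) (by linarith) 2
    have a2 : (49 / 25 : ℝ) ^ 2 ≤ D ^ 2 := pow_le_pow_left₀ (by norm_num) hD.le 2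
    norm_num at a1 a2
    linarith
  have hpar2 : ‖w + 1‖ ^ 2 = y ^ 2 + e2 := by rw [hpar, hy, he2]; ring
  rw [hpar2] at hR
  obtain ⟨W, hW⟩ : ∃ W, W = δ ^ 2 + e2 := ⟨_, rfl⟩
  have hW0 : 0 < W := by rw [hW]; positivity
  have hW1 : W ≤ 17 / 100 := by
    have a1 : δ ^ 2 ≤ (1 / 1000) ^ 2 := pow_le_pow_left₀ hδ0.le hδ1 2
    norm_num at a1
    linarith
  -- the Poisson kernel
  have hP : 4 / 10 * δ / W ≤ Pw s w := by
    unfold Pw
    rw [← hδ, ← hx, div_le_div_iff₀ hW0 (by positivity)]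
    have hy2 : y ^ 2 ≤ δ ^ 2 / 4 := by
      calc y ^ 2 ≤ (δ / 2) ^ 2 := pow_le_pow_left₀ hy0 hy1 2
        _ = δ ^ 2 / 4 := by ring
    have h5 : ‖((1 + δ : ℝ) : ℂ) + w‖ ^ 2 ≤ 5 / 2 * W := by rw [hW]; linarith
    have h6 : δ ≤ (1 + δ) ^ 2 - x ^ 2 := by
      have e : (1 + δ) ^ 2 - x ^ 2 = (δ - y) * (1 + δ + x) := by rw [hy]; ring
      rw [e]
      calc δ = δ / 2 * 2 := by ring
        _ ≤ (δ - y) * (1 + δ + x) :=
          mul_le_mul (by linarith) (by linarith) (by norm_num) (by linarith)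
    calc 4 / 10 * δ * ‖((1 + δ : ℝ) : ℂ) + w‖ ^ 2 ≤ 4 / 10 * δ * (5 / 2 * W) :=
          mul_le_mul_of_nonneg_left h5 (by positivity)
      _ = δ * W := by ring
      _ ≤ ((1 + δ) ^ 2 - x ^ 2) * W := mul_le_mul_of_nonneg_right h6 hW0.le
  have hP2 : 3 / 10 * δ / W ≤ Pw s w - Pw s 1 - 1 / (50 * s ^ 3) := by
    have h7 : 3 / 10 * δ / W ≤ 4 / 10 * δ / W - δ / 2 - δ / 50 := by
      have e : 4 / 10 * δ / W - δ / 2 - δ / 50 - 3 / 10 * δ / W
          = δ * (10 / 100 - 52 / 100 * W) / W := by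
        field_simp
        ring
      have : 0 ≤ δ * (10 / 100 - 52 / 100 * W) / W := by
        apply div_nonneg (mul_nonneg hδ0.le (by linarith)) hW0.le
      linarith
    linarith
  -- the right side, squared
  obtain ⟨V, hV⟩ : ∃ V, V = x ^ r := ⟨_, rfl⟩
  have hV0 : 0 < V := by rw [hV]; exact Real.rpow_pos_of_pos hx0 _
  obtain ⟨U, hU⟩ : ∃ U, U = r * (3 / 10 * δ / W) := ⟨_, rfl⟩
  have hU0 : 0 < U := by rw [hU]; positivity
  have hlow : Γ * V + Γ * U
      ≤ Γ * V + r * Γ * ((phi n s w).re - (phi n s 1).re) := by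
    have h20 : r * Γ * (3 / 10 * δ / W) ≤ r * Γ * ((phi n s w).re - (phi n s 1).re) :=
      mul_le_mul_of_nonneg_left (hP2.trans h1) (by positivity)
    have e : r * Γ * (3 / 10 * δ / W) = Γ * U := by rw [hU]; ring
    linarith
  rw [← hV]
  refine le_trans ?_ hlow
  have hUW : U * W = 3 / 10 * s := by
    rw [hU, h.hr]
    calc s ^ 2 * (3 / 10 * δ / W) * W = 3 / 10 * (s * (s * δ)) * (W / W) := by ring
      _ = _ := by rw [div_self hW0.ne', hsδ]; ring
  have hsW : s ^ 2 * W = 1 + s ^ 2 * e2 := by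
    rw [hW]
    have : s ^ 2 * δ ^ 2 = 1 := by rw [← mul_pow, hsδ, one_pow]
    linear_combination this
  have hΓ2 := h.gam_sq
  -- `(D^r)^2`
  obtain ⟨t, ht⟩ : ∃ t, t = s ^ 2 * e2 := ⟨_, rfl⟩
  have ht0 : 0 ≤ t := by rw [ht]; positivity
  have hDr : (D ^ r) ^ 2 ≤ 4 ^ r * V * (10 / (1 + t)) := by
    have e1 : (D ^ r) ^ 2 = (D ^ 2) ^ r := by
      rw [← Real.rpow_natCast (D ^ r), ← Real.rpow_mul hD0, ← Real.rpow_natCast D 2,
        ← Real.rpow_mul hD0, mul_comm]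
    have h9 : D ^ 2 ≤ 4 * x * Real.exp ((y ^ 2 - e2) / (4 * x)) := by
      have h10 := Real.add_one_le_exp ((y ^ 2 - e2) / (4 * x))
      have h11 : D ^ 2 = 4 * x * ((y ^ 2 - e2) / (4 * x) + 1) := by
        have : x ≠ 0 := hx0.ne'
        field_simp
        rw [he2, hy]
        ring
      rw [h11]
      exact mul_le_mul_of_nonneg_left h10 (by positivity)
    have h12 : (D ^ 2) ^ r ≤ (4 * x * Real.exp ((y ^ 2 - e2) / (4 * x))) ^ r :=
      Real.rpow_le_rpow (by positivity) h9 hr0.le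
    rw [Real.mul_rpow (by positivity) (Real.exp_pos _).le, Real.mul_rpow (by norm_num) hx0.le,
      ← hV, ← Real.exp_mul] at h12
    rw [e1]
    refine h12.trans ?_
    refine mul_le_mul_of_nonneg_left ?_ (by positivity)
    -- the exponential
    have h13 : (y ^ 2 - e2) / (4 * x) * r ≤ 1 / 16 - t / 5 := by
      rw [div_mul_eq_mul_div, div_le_iff₀ (by positivity)]
      have h14 : r * y ^ 2 ≤ 1 / 4 := by
        rw [h.hr]
        have h15 : (s * y) ^ 2 ≤ (1 / 2) ^ 2 := by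
          apply pow_le_pow_left₀ (by positivity)
          have a1 := mul_le_mul_of_nonneg_left hy1 hs0.le
          linarith
        rw [mul_pow] at h15
        norm_num at h15 ⊢
        linarith
      have h16 : r * e2 = t := by rw [h.hr, ht]
      have h17 : 4 * x ≤ 5 := by linarith
      have a1 : t * (4 * x) ≤ t * 5 := mul_le_mul_of_nonneg_left h17 ht0
      linarith
    have h18 : Real.exp ((y ^ 2 - e2) / (4 * x) * r) ≤ Real.exp (1 / 16) * Real.exp (-(t / 5)) := by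
      rw [← Real.exp_add]
      exact Real.exp_le_exp.2 (by linarith)
    have h19 : Real.exp (1 / 16) ≤ 2 := by
      have := exp_le_two (x := 1 / 16) (by norm_num) (by norm_num)
      linarith
    have h20 : Real.exp (-(t / 5)) ≤ 5 / (1 + t) := by
      rw [Real.exp_neg, inv_eq_one_div, div_le_div_iff₀ (Real.exp_pos _) (by positivity)]
      have := Real.add_one_le_exp (t / 5)
      linarith
    calc Real.exp ((y ^ 2 - e2) / (4 * x) * r) ≤ Real.exp (1 / 16) * Real.exp (-(t / 5)) := h18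
      _ ≤ 2 * (5 / (1 + t)) := mul_le_mul h19 h20 (Real.exp_pos _).le (by norm_num)
      _ = 10 / (1 + t) := by ring
  have hsq : (D ^ r) ^ 2 ≤ (Γ * V + Γ * U) ^ 2 := by
    refine hDr.trans ?_
    have h21 : 4 * (Γ * V) * (Γ * U) ≤ (Γ * V + Γ * U) ^ 2 := by
      linarith [sq_nonneg (Γ * V - Γ * U)]
    refine le_trans ?_ h21
    -- `4 Γ² U V ≥ 4^r V * 10 / (1 + t)`
    rw [mul_div_assoc', div_le_iff₀ (by positivity)]
    have h22 : Γ ^ 2 * U * (1 + t) = 3 / 10 * (4096 * 4 ^ r) := by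
      rw [ht, ← hsW, ← hΓ2]
      calc Γ ^ 2 * U * (s ^ 2 * W) = Γ ^ 2 * s ^ 2 * (U * W) := by ring
        _ = _ := by rw [hUW]; ring
    have h23 : (0 : ℝ) < 4 ^ r := by positivity
    calc 4 ^ r * V * 10 ≤ 4 * V * (3 / 10 * (4096 * 4 ^ r)) := by linarith [mul_pos h23 hV0]
      _ = 4 * V * (Γ ^ 2 * U * (1 + t)) := by rw [h22]
      _ = _ := by ring
  exact (pow_le_pow_iff_left₀ (Real.rpow_nonneg hD0 _) (by positivity) two_ne_zero).1 hsq

/-- The case far outside the unit disc. -/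
theorem caseX (h : Par s r Γ n) {w : ℂ} (hw : 1 + 1 / (2 * s) ≤ ‖w‖) :
    ‖w - 1‖ ^ r ≤ Γ * ‖w‖ ^ r + r * Γ * ((phi n s w).re - (phi n s 1).re) := by
  have hs := h.hs
  have hs0 : 0 < s := by linarith
  have hr0 : 0 < r := by rw [h.hr]; positivity
  have hΓ0 := h.hΓ0
  have h2s : 0 < 1 / (2 * s) := by positivity
  have hw1 : 1 ≤ ‖w‖ := by linarith
  have hn0 : (0 : ℝ) ≤ n := Nat.cast_nonneg n
  have hp1 := norm_phi_le (n := n) hs0 hw1
  have hp2 := norm_phi_le (n := n) hs0 (w := 1) (by simp)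
  rw [norm_one, one_pow, mul_one] at hp2
  have hD2 : ‖w - 1‖ ≤ 1 + ‖w‖ := by
    refine (norm_sub_le _ _).trans ?_
    rw [norm_one, add_comm]
  obtain ⟨x, hx⟩ : ∃ x, x = ‖w‖ := ⟨_, rfl⟩
  rw [← hx] at hw hw1 hp1 hD2 ⊢
  have hx0 : 0 < x := by linarith
  have hxn : 1 ≤ x ^ n := one_le_pow₀ hw1
  have hre : -((2 + 4 * n) * x ^ n) ≤ (phi n s w).re - (phi n s 1).re := by
    have a1 := neg_abs_le (phi n s w).re
    have a2 := Complex.abs_re_le_norm (phi n s w)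
    have a3 := le_abs_self (phi n s 1).re
    have a4 := Complex.abs_re_le_norm (phi n s 1)
    have a5 : (1 + 2 * (n : ℝ)) * 1 ≤ (1 + 2 * n) * x ^ n :=
      mul_le_mul_of_nonneg_left hxn (by positivity)
    linarith
  -- (i)
  have hi : ‖w - 1‖ ^ r ≤ Γ * x ^ r / 2 := by
    have h1 : ‖w - 1‖ ^ r ≤ (1 + x) ^ r := Real.rpow_le_rpow (norm_nonneg _) hD2 hr0.le
    have h2 : 1 + x = 2 * x * ((1 + x) / (2 * x)) := by field_simp
    have h3 : (1 + x) / (2 * x) ≤ Real.exp (-(1 / (5 * s))) := by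
      have h4 := Real.add_one_le_exp (-(1 / (5 * s)))
      refine le_trans ?_ h4
      rw [div_le_iff₀ (by positivity)]
      have h5 : 0 < 1 / (5 * s) := by positivity
      have h6 : 1 / (2 * s) = 5 / 2 * (1 / (5 * s)) := by field_simp
      have h7 : 1 / (5 * s) ≤ 1 / 5000 := one_div_le_one_div_of_le (by norm_num) (by linarith)
      rw [h6] at hw
      have a1 : (1 + 5 / 2 * (1 / (5 * s))) * (1 - 2 * (1 / (5 * s))) ≤ x * (1 - 2 * (1 / (5 * s))) :=
        mul_le_mul_of_nonneg_right hw (by linarith)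
      have a2 : 1 / (5 * s) * (1 / (5 * s)) ≤ 1 / (5 * s) * (1 / 5000) :=
        mul_le_mul_of_nonneg_left h7 h5.le
      linarith
    have h8 : (1 + x) ^ r ≤ (2 * x * Real.exp (-(1 / (5 * s)))) ^ r := by
      apply Real.rpow_le_rpow (by positivity) _ hr0.le
      rw [h2]
      exact mul_le_mul_of_nonneg_left h3 (by positivity)
    rw [Real.mul_rpow (by positivity) (Real.exp_pos _).le, Real.mul_rpow (by norm_num) hx0.le,
      ← Real.exp_mul] at h8
    have h9 : Real.exp (-(1 / (5 * s)) * r) ≤ 1 / (1000 * s ^ 4) := by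
      refine le_trans (Real.exp_le_exp.2 ?_) h.exp_neg_le
      rw [h.hr]
      have : -(1 / (5 * s)) * s ^ 2 = -(s / 5) := by field_simp
      rw [this]
      linarith
    have hxr : 0 < x ^ r := Real.rpow_pos_of_pos hx0 _
    have hT : (0 : ℝ) < 2 ^ r := by positivity
    have h10 : 2 ^ r * x ^ r * Real.exp (-(1 / (5 * s)) * r) ≤ 2 ^ r * x ^ r * (1 / (1000 * s ^ 4)) :=
      mul_le_mul_of_nonneg_left h9 (by positivity)
    have h11 : (2 : ℝ) ^ r * (1 / (1000 * s ^ 4)) ≤ Γ / 2 := by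
      have h13 := h.gam_ge
      rw [mul_one_div, div_le_iff₀ (by positivity)]
      have h15 : (1 : ℝ) ≤ s ^ 2 := by nlinarith
      have e : Γ / 2 * (1000 * s ^ 4) = 500 * (Γ * s ^ 2) * s ^ 2 := by ring
      rw [e]
      have h16 : (2 : ℝ) ^ r * 1 ≤ 500 * (Γ * s ^ 2) * s ^ 2 :=
        mul_le_mul (by linarith) h15 zero_le_one (by positivity)
      linarith
    have h12 : 2 ^ r * x ^ r * (1 / (1000 * s ^ 4)) ≤ Γ / 2 * x ^ r := by
      calc 2 ^ r * x ^ r * (1 / (1000 * s ^ 4)) = 2 ^ r * (1 / (1000 * s ^ 4)) * x ^ r := by ring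
        _ ≤ _ := mul_le_mul_of_nonneg_right h11 hxr.le
    linarith
  -- (ii)
  have hii : r * ((2 + 4 * n) * x ^ n) ≤ x ^ r / 2 := by
    have h1 : x ^ r = x ^ n * x ^ (r - n) := by
      rw [← Real.rpow_natCast x n, ← Real.rpow_add hx0]
      congr 1
      ring
    have h2 : Real.exp (s / 8) ≤ x ^ (r - n) := by
      have h3 : Real.exp (1 / (4 * s)) ≤ x := by
        have h4 : 1 / (4 * s) ≤ 1 := by
          rw [div_le_one (by positivity)]; linarith
        have h5 := exp_le_two (x := 1 / (4 * s)) (by positivity) h4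
        have h6 : 2 * (1 / (4 * s)) = 1 / (2 * s) := by field_simp; norm_num
        rw [h6] at h5
        linarith
      calc Real.exp (s / 8) = Real.exp (1 / (4 * s)) ^ (r / 2) := by
            rw [← Real.exp_mul, h.hr]
            congr 1
            field_simp
            norm_num
        _ ≤ x ^ (r / 2) := Real.rpow_le_rpow (Real.exp_pos _).le h3 (by linarith)
        _ ≤ x ^ (r - n) := Real.rpow_le_rpow_of_exponent_le hw1 (by linarith [h.hn1])
    have h3 : 2 * (r * (2 + 4 * n)) ≤ Real.exp (s / 8) := by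
      refine le_trans ?_ h.hE
      have h4 := h.hn1
      rw [h.hr] at h4 ⊢
      have h5 : (1 : ℝ) ≤ s ^ 2 := by nlinarith
      have h6 : 2 * (s ^ 2 * (2 + 4 * (n : ℝ))) ≤ 2 * (s ^ 2 * (2 + 2 * s ^ 2)) := by
        apply mul_le_mul_of_nonneg_left _ (by norm_num)
        apply mul_le_mul_of_nonneg_left _ (sq_nonneg _)
        linarith
      have h7 : s ^ 2 * 1 ≤ s ^ 2 * s ^ 2 := mul_le_mul_of_nonneg_left h5 (by positivity)
      have h8 : s ^ 2 * s ^ 2 = s ^ 4 := by ring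
      linarith
    rw [h1]
    have h4 : 2 * (r * (2 + 4 * n)) * x ^ n ≤ x ^ (r - n) * x ^ n :=
      mul_le_mul_of_nonneg_right (h3.trans h2) (by positivity)
    linarith
  have h3 : -(Γ * (x ^ r / 2)) ≤ r * Γ * ((phi n s w).re - (phi n s 1).re) := by
    have a1 : r * Γ * (-((2 + 4 * n) * x ^ n)) ≤ r * Γ * ((phi n s w).re - (phi n s 1).re) :=
      mul_le_mul_of_nonneg_left hre (by positivity)
    have a2 := mul_le_mul_of_nonneg_left hii hΓ0.le
    linarith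
  linarith

/-- **The pointwise inequality.** -/
theorem point (h : Par s r Γ n) (w : ℂ) :
    ‖w - 1‖ ^ r ≤ Γ * ‖w‖ ^ r + r * Γ * ((phi n s w).re - (phi n s 1).re) := by
  rcases le_total (1 + 1 / (2 * s)) ‖w‖ with h1 | h1
  · exact h.caseX h1
  · rcases le_or_gt ‖w - 1‖ (49 / 25) with h2 | h2
    · exact h.caseS h1 h2
    · rcases le_total ‖w‖ 1 with h3 | h3
      · exact h.caseW1 h3 h2
      · exact h.caseW2 h3 h1 h2

end Par

end Pool.Agent.MP_984ac2_an
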