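import Pool.Agent.MP_984ac2_an.Values

set_option autoImplicit false

open MeasureTheory AddCircle Filter Topology Metric Set
open scoped ENNReal ComplexConjugate

noncomputable section

namespace Pool.Agent.MP_984ac2_an

/-! ### A pointwise inequality for exponents slightly above two -/

theorem sq_rpow_half {x : ℝ} (hx : 0 ≤ x) (p : ℝ) : (x ^ 2) ^ (p / 2) = x ^ p := by
  rw [← Real.rpow_natCast, ← Real.rpow_mul hx]
  congr 1
  push_cast
  ring

theorem key_weight {δ R : ℝ} (hδ : 0 < δ) (hδ1 : δ ≤ 1) (hR : 0 < R) :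
    R * |R ^ δ - (1 / (2 * δ)) ^ δ| ≤ 2 * δ ^ 2 * (R ^ δ * R ^ 2) + R ^ δ / 2 := by
  set R0 : ℝ := 1 / (2 * δ) with hR0
  have hR0p : 0 < R0 := by positivity
  have hRd : 0 < R ^ δ := Real.rpow_pos_of_pos hR _
  have hB : R0 ^ δ = R ^ δ * (R0 / R) ^ δ := by
    rw [Real.div_rpow hR0p.le hR.le]
    field_simp
  have hy : 0 < (R0 / R) ^ δ := Real.rpow_pos_of_pos (by positivity) _
  rcases le_or_gt R0 R with h | h
  · have h1 : (R0 / R) ^ δ ≤ 1 := Real.rpow_le_one (by positivity) ((div_le_one hR).2 h) hδ.le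
    have h2 : 1 - δ * (R / R0) ≤ (R0 / R) ^ δ := by
      have h3 : (R0 / R) ^ δ = Real.exp (Real.log (R0 / R) * δ) := Real.rpow_def_of_pos (by positivity) _
      have h4 := Real.add_one_le_exp (Real.log (R0 / R) * δ)
      have h5 : Real.log (R0 / R) = - Real.log (R / R0) := by
        rw [← Real.log_inv, inv_div]
      have h6 : Real.log (R / R0) ≤ R / R0 := by
        have := Real.log_le_sub_one_of_pos (x := R / R0) (by positivity)
        linarith
      have h7 : Real.log (R / R0) * δ ≤ R / R0 * δ := mul_le_mul_of_nonneg_right h6 hδ.le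
      rw [h3]
      rw [h5] at h4 ⊢
      nlinarith
    have h8 : 0 ≤ R ^ δ - R0 ^ δ := by rw [hB]; nlinarith
    rw [abs_of_nonneg h8, hB]
    have h9 : R / R0 = 2 * δ * R := by rw [hR0]; field_simp
    rw [h9] at h2
    have h10 : R ^ δ - R ^ δ * (R0 / R) ^ δ ≤ R ^ δ * (δ * (2 * δ * R)) := by nlinarith
    have h11 := mul_le_mul_of_nonneg_left h10 hR.le
    nlinarith
  · have h1 : 1 ≤ (R0 / R) ^ δ := Real.one_le_rpow ((one_le_div hR).2 h.le) hδ.le
    have h8 : R ^ δ - R0 ^ δ ≤ 0 := by rw [hB]; nlinarith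
    rw [abs_of_nonpos h8, hB]
    set x := R / R0 with hx
    have hx0 : 0 < x := by positivity
    have hx1 : (R0 / R) ^ δ = x ^ (-δ) := by
      rw [Real.rpow_neg hx0.le, ← Real.inv_rpow hx0.le, hx, inv_div]
    have h2 : x ^ (1 - δ) ≤ 1 + (1 - δ) * (x - 1) := by
      have := rpow_one_add_le_one_add_mul_self (s := x - 1) (by linarith) (p := 1 - δ)
        (by linarith) (by linarith)
      simpa using this
    have h3 : x ^ (1 - δ) = x * x ^ (-δ) := by
      rw [sub_eq_add_neg, Real.rpow_add hx0, Real.rpow_one]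
    have h4 : x * (x ^ (-δ) - 1) ≤ δ := by
      rw [mul_sub, ← h3]
      nlinarith
    have h5 : R = R0 * x := by rw [hx]; field_simp
    have h6 : R * ((R0 / R) ^ δ - 1) ≤ 1 / 2 := by
      rw [hx1]
      calc R * (x ^ (-δ) - 1) = R0 * (x * (x ^ (-δ) - 1)) := by
            conv_lhs => rw [h5]
            ring
        _ ≤ R0 * δ := mul_le_mul_of_nonneg_left h4 hR0p.le
        _ = 1 / 2 := by rw [hR0]; field_simp
    have h7 := mul_le_mul_of_nonneg_left h6 hRd.le
    have h9 : 0 ≤ 2 * δ ^ 2 * (R ^ δ * R ^ 2) := by positivity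
    nlinarith

theorem pw_one {δ : ℝ} (hδ : 0 < δ) (hδ1 : δ ≤ 1) (u : ℂ) :
    (1 - 2 * (2 + δ) * δ ^ 2) * ‖u‖ ^ (2 + δ) + (2 + δ) * (1 / (2 * δ)) ^ δ * u.re
      ≤ ‖u + 1‖ ^ (2 + δ) := by
  rcases eq_or_lt_of_le (norm_nonneg u) with h0 | h0
  · have hu : u = 0 := norm_eq_zero.mp h0.symm
    subst hu
    rw [norm_zero, Real.zero_rpow (by linarith)]
    simp
  · set R := ‖u‖ with hR
    set B := (1 / (2 * δ)) ^ δ with hB
    have hre : |u.re| ≤ R := Complex.abs_re_le_norm u
    have hx : ‖u + 1‖ ^ 2 = R ^ 2 + 2 * u.re + 1 := by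
      rw [hR, ← Complex.normSq_eq_norm_sq, ← Complex.normSq_eq_norm_sq, Complex.normSq_apply,
        Complex.normSq_apply]
      simp
      ring
    set s := (2 * u.re + 1) / R ^ 2 with hs
    have hs1 : 1 + s = ‖u + 1‖ ^ 2 / R ^ 2 := by
      rw [hx, hs]
      field_simp
      ring
    have hs0 : -1 ≤ s := by
      have : 0 ≤ 1 + s := by rw [hs1]; positivity
      linarith
    have hb := one_add_mul_self_le_rpow_one_add hs0 (p := (2 + δ) / 2) (by linarith)
    have hpow : ‖u + 1‖ ^ (2 + δ) = R ^ (2 + δ) * (1 + s) ^ ((2 + δ) / 2) := by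
      rw [hs1, Real.div_rpow (by positivity) (by positivity), sq_rpow_half (norm_nonneg _),
        sq_rpow_half h0.le]
      have : 0 < R ^ (2 + δ) := Real.rpow_pos_of_pos h0 _
      field_simp
    have hRp : R ^ (2 + δ) = R ^ δ * R ^ 2 := by
      rw [add_comm, Real.rpow_add h0, Real.rpow_two]
    have hRd : 0 < R ^ δ := Real.rpow_pos_of_pos h0 _
    have h1 : R ^ (2 + δ) * (1 + (2 + δ) / 2 * s) ≤ ‖u + 1‖ ^ (2 + δ) := by
      rw [hpow]
      exact mul_le_mul_of_nonneg_left hb (Real.rpow_nonneg h0.le _)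
    have h2 : R ^ (2 + δ) * (1 + (2 + δ) / 2 * s)
        = R ^ δ * R ^ 2 + (2 + δ) / 2 * (R ^ δ * (2 * u.re + 1)) := by
      rw [hRp, hs]
      field_simp
    have h3 := key_weight hδ hδ1 h0
    rw [← hB] at h3
    have h4 : -(|R ^ δ - B| * R) ≤ (R ^ δ - B) * u.re := by
      have h5 : |(R ^ δ - B) * u.re| ≤ |R ^ δ - B| * R := by
        rw [abs_mul]
        exact mul_le_mul_of_nonneg_left hre (abs_nonneg _)
      have := neg_abs_le ((R ^ δ - B) * u.re)
      linarith
    rw [h2] at h1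
    rw [hRp]
    nlinarith [mul_nonneg (by linarith : (0 : ℝ) ≤ 2 + δ) (sub_nonneg.2 h3)]

theorem pw_scaled {δ : ℝ} (hδ : 0 < δ) (hδ1 : δ ≤ 1) (a : ℂ) : ∃ β : ℝ, ∀ u : ℂ,
    (1 - 2 * (2 + δ) * δ ^ 2) * ‖u‖ ^ (2 + δ) + β * (u * conj a).re ≤ ‖u + a‖ ^ (2 + δ) := by
  by_cases ha : a = 0
  · refine ⟨0, fun u => ?_⟩
    subst ha
    have h1 : 0 ≤ ‖u‖ ^ (2 + δ) := Real.rpow_nonneg (norm_nonneg _) _
    have h2 : 0 ≤ 2 * (2 + δ) * δ ^ 2 := by positivity
    simp only [add_zero, zero_mul]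
    nlinarith
  · have ha' : 0 < ‖a‖ := norm_pos_iff.2 ha
    have hap : 0 < ‖a‖ ^ (2 + δ) := Real.rpow_pos_of_pos ha' _
    refine ⟨(2 + δ) * (1 / (2 * δ)) ^ δ * (‖a‖ ^ (2 + δ) / ‖a‖ ^ 2), fun u => ?_⟩
    have h := pw_one hδ hδ1 (u / a)
    have h1 : ‖u / a‖ ^ (2 + δ) = ‖u‖ ^ (2 + δ) / ‖a‖ ^ (2 + δ) := by
      rw [norm_div, Real.div_rpow (norm_nonneg _) (norm_nonneg _)]
    have h2 : ‖u / a + 1‖ ^ (2 + δ) = ‖u + a‖ ^ (2 + δ) / ‖a‖ ^ (2 + δ) := by
      have : u / a + 1 = (u + a) / a := by field_simp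
      rw [this, norm_div, Real.div_rpow (norm_nonneg _) (norm_nonneg _)]
    have h3 : (u / a).re = (u * conj a).re / ‖a‖ ^ 2 := by
      rw [div_eq_mul_inv, Complex.inv_def, ← mul_assoc, Complex.re_mul_ofReal,
        Complex.normSq_eq_norm_sq, div_eq_mul_inv]
    rw [h1, h2, h3] at h
    have h4 := mul_le_mul_of_nonneg_left h hap.le
    have e1 : ‖a‖ ^ (2 + δ) * ((1 - 2 * (2 + δ) * δ ^ 2) * (‖u‖ ^ (2 + δ) / ‖a‖ ^ (2 + δ))
        + (2 + δ) * (1 / (2 * δ)) ^ δ * ((u * conj a).re / ‖a‖ ^ 2))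
        = (1 - 2 * (2 + δ) * δ ^ 2) * ‖u‖ ^ (2 + δ)
          + (2 + δ) * (1 / (2 * δ)) ^ δ * (‖a‖ ^ (2 + δ) / ‖a‖ ^ 2) * (u * conj a).re := by
      field_simp
    have e2 : ‖a‖ ^ (2 + δ) * (‖u + a‖ ^ (2 + δ) / ‖a‖ ^ (2 + δ)) = ‖u + a‖ ^ (2 + δ) := by
      field_simp
    rw [e1, e2] at h4
    exact h4

theorem continuous_norm_rpow {v : Circ → ℂ} (hv : Continuous v) {r : ℝ} (hr : 0 ≤ r) :
    Continuous fun x => ‖v x‖ ^ r :=
  hv.norm.rpow_const fun _ => Or.inr hr

/-- Subtracting the mean costs little in `L^q`, `q = 2 + δ`. -/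
theorem mean_ineq {δ : ℝ} (hδ : 0 < δ) (hδ1 : δ ≤ 1) {v : Circ → ℂ} (hv : Continuous v) {m : ℂ}
    (hm : ∫ x, v x ∂sigma = m) :
    (1 - 2 * (2 + δ) * δ ^ 2) * ∫ x, ‖v x - m‖ ^ (2 + δ) ∂sigma
      ≤ ∫ x, ‖v x‖ ^ (2 + δ) ∂sigma := by
  obtain ⟨β, hβ⟩ := pw_scaled hδ hδ1 m
  have c1 : Continuous fun x => ‖v x - m‖ ^ (2 + δ) :=
    continuous_norm_rpow (hv.sub continuous_const) (by linarith)
  have c2 : Continuous fun x => ((v x - m) * conj m).re :=
    Complex.continuous_re.comp ((hv.sub continuous_const).mul continuous_const)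
  have c3 : Continuous fun x => ‖v x‖ ^ (2 + δ) := continuous_norm_rpow hv (by linarith)
  have h0 : ∫ x, ((v x - m) * conj m).re ∂sigma = 0 := by
    have h1 : ∫ x, ((v x - m) * conj m) ∂sigma = 0 := by
      rw [integral_mul_const, integral_sub (integrable_of_continuous hv) (integrable_const _), hm]
      simp
    have h2 := integral_re (μ := sigma) (f := fun x => (v x - m) * conj m)
      (integrable_of_continuous ((hv.sub continuous_const).mul continuous_const))
    simp only [RCLike.re_to_complex] at h2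
    rw [h2, h1]
    simp
  have h2 : ∫ x, ((1 - 2 * (2 + δ) * δ ^ 2) * ‖v x - m‖ ^ (2 + δ)
      + β * ((v x - m) * conj m).re) ∂sigma ≤ ∫ x, ‖v x‖ ^ (2 + δ) ∂sigma := by
    refine integral_mono ?_ (integrable_of_continuous c3) fun x => ?_
    · exact integrable_of_continuous ((continuous_const.mul c1).add (continuous_const.mul c2))
    · have := hβ (v x - m)
      rwa [sub_add_cancel] at this
  have i1 : Integrable (fun x => (1 - 2 * (2 + δ) * δ ^ 2) * ‖v x - m‖ ^ (2 + δ)) sigma :=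
    integrable_of_continuous (continuous_const.mul c1)
  have i2 : Integrable (fun x => β * ((v x - m) * conj m).re) sigma :=
    integrable_of_continuous (continuous_const.mul c2)
  rw [integral_add i1 i2, integral_const_mul, integral_const_mul,
    h0, mul_zero, add_zero] at h2
  exact h2

/-- The case of exponent two. -/
theorem mean_sq {v : Circ → ℂ} (hv : Continuous v) {m : ℂ} (hm : ∫ x, v x ∂sigma = m) :
    ∫ x, ‖v x - m‖ ^ (2 : ℝ) ∂sigma ≤ ∫ x, ‖v x‖ ^ (2 : ℝ) ∂sigma := by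
  have c1 : Continuous fun x => ‖v x - m‖ ^ (2 : ℝ) :=
    continuous_norm_rpow (hv.sub continuous_const) (by norm_num)
  have c2 : Continuous fun x => ((v x - m) * conj m).re :=
    Complex.continuous_re.comp ((hv.sub continuous_const).mul continuous_const)
  have c3 : Continuous fun x => ‖v x‖ ^ (2 : ℝ) := continuous_norm_rpow hv (by norm_num)
  have h0 : ∫ x, ((v x - m) * conj m).re ∂sigma = 0 := by
    have h1 : ∫ x, ((v x - m) * conj m) ∂sigma = 0 := by
      rw [integral_mul_const, integral_sub (integrable_of_continuous hv) (integrable_const _), hm]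
      simp
    have h2 := integral_re (μ := sigma) (f := fun x => (v x - m) * conj m)
      (integrable_of_continuous ((hv.sub continuous_const).mul continuous_const))
    simp only [RCLike.re_to_complex] at h2
    rw [h2, h1]
    simp
  have h2 : ∫ x, (‖v x - m‖ ^ (2 : ℝ) + 2 * ((v x - m) * conj m).re) ∂sigma
      ≤ ∫ x, ‖v x‖ ^ (2 : ℝ) ∂sigma := by
    refine integral_mono ?_ (integrable_of_continuous c3) fun x => ?_
    · exact integrable_of_continuous (c1.add (continuous_const.mul c2))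
    · have h3 : ‖v x‖ ^ 2 = ‖v x - m‖ ^ 2 + 2 * ((v x - m) * conj m).re + ‖m‖ ^ 2 := by
        rw [← Complex.normSq_eq_norm_sq, ← Complex.normSq_eq_norm_sq,
          ← Complex.normSq_eq_norm_sq, Complex.normSq_apply, Complex.normSq_apply,
          Complex.normSq_apply]
        simp
        ring
      simp only [Real.rpow_two]
      rw [h3]
      nlinarith [sq_nonneg ‖m‖]
  have i1 : Integrable (fun x => ‖v x - m‖ ^ (2 : ℝ)) sigma := integrable_of_continuous c1
  have i2 : Integrable (fun x => 2 * ((v x - m) * conj m).re) sigma :=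
    integrable_of_continuous (continuous_const.mul c2)
  rw [integral_add i1 i2, integral_const_mul, h0, mul_zero, add_zero] at h2
  exact h2

theorem integral_poly (Q : Polynomial ℂ) : ∫ x, Q.eval (z x) ∂sigma = Q.eval 0 := by
  have h2 := poisson_formula (a := 0) (F := fun w => Q.eval w) Q.differentiable.diffContOnCl
    (by simp)
  rw [← h2]
  refine integral_congr_ae (Eventually.of_forall fun x => ?_)
  simp [P]

theorem continuous_poly (Q : Polynomial ℂ) : Continuous fun x => Q.eval (z x) :=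
  Q.continuous.comp continuous_z

theorem two_kappa {κ r : ℝ} (h0 : 0 ≤ κ) (h1 : κ ≤ 1 / 2) (hr : 1 ≤ r) :
    1 ≤ (1 + 2 * κ) ^ r * (1 - κ) := by
  have h2 : 1 + 2 * κ ≤ (1 + 2 * κ) ^ r := by
    have := Real.rpow_le_rpow_of_exponent_le (x := 1 + 2 * κ) (by linarith) hr
    rwa [Real.rpow_one] at this
  nlinarith

variable {p : ℝ≥0∞} [Fact (1 ≤ p)]

/-- Upper bound for exponents slightly above two. -/
theorem upper_gt (hp : p ≠ ∞) {δ : ℝ} (hδ : 0 < δ) (hδ4 : δ ≤ 1 / 4) (hpr : p.toReal = 2 + δ) :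
    ‖ContinuousLinearMap.id ℂ (Hp p) - K0H p‖ ≤ 1 + 4 * (2 + δ) * δ ^ 2 := by
  have hk : 2 * (2 + δ) * δ ^ 2 ≤ 1 / 2 := by nlinarith [sq_nonneg δ, mul_pos hδ hδ]
  have hk0 : 0 ≤ 2 * (2 + δ) * δ ^ 2 := by positivity
  refine norm_sub_K0H_le hp (by positivity) fun Q => ?_
  rw [hpr]
  have h := mean_ineq hδ (by linarith) (continuous_poly Q) (integral_poly Q)
  have h2 := two_kappa hk0 hk (r := 2 + δ) (by linarith)
  have e : 1 + 2 * (2 * (2 + δ) * δ ^ 2) = 1 + 4 * (2 + δ) * δ ^ 2 := by ring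
  rw [e] at h2
  have hI : 0 ≤ ∫ x, ‖Q.eval (z x) - Q.eval 0‖ ^ (2 + δ) ∂sigma :=
    integral_nonneg fun x => Real.rpow_nonneg (norm_nonneg _) _
  have hC : 0 ≤ (1 + 4 * (2 + δ) * δ ^ 2) ^ (2 + δ) := by positivity
  calc ∫ x, ‖Q.eval (z x) - Q.eval 0‖ ^ (2 + δ) ∂sigma
      ≤ ((1 + 4 * (2 + δ) * δ ^ 2) ^ (2 + δ) * (1 - 2 * (2 + δ) * δ ^ 2))
        * ∫ x, ‖Q.eval (z x) - Q.eval 0‖ ^ (2 + δ) ∂sigma := by
        nlinarith
    _ = (1 + 4 * (2 + δ) * δ ^ 2) ^ (2 + δ) * ((1 - 2 * (2 + δ) * δ ^ 2)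
        * ∫ x, ‖Q.eval (z x) - Q.eval 0‖ ^ (2 + δ) ∂sigma) := by ring
    _ ≤ _ := mul_le_mul_of_nonneg_left h hC

/-! ### The dual case -/

/-- The duality map of `L^p`, pointwise: `w ↦ |w|^(e-1) w`. -/
def dmap (e : ℝ) (w : ℂ) : ℂ := ((‖w‖ ^ (e - 1) : ℝ) : ℂ) * w

theorem norm_dmap {e : ℝ} (he : 0 < e) (w : ℂ) : ‖dmap e w‖ = ‖w‖ ^ e := by
  unfold dmap
  rw [norm_mul, Complex.norm_real, Real.norm_of_nonneg (Real.rpow_nonneg (norm_nonneg _) _)]
  rcases eq_or_lt_of_le (norm_nonneg w) with h | h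
  · rw [← h, mul_zero, Real.zero_rpow he.ne']
  · conv_lhs => rw [← Real.rpow_one ‖w‖, ← Real.rpow_mul h.le]
    rw [one_mul, ← Real.rpow_add h]
    congr 1
    ring

theorem continuous_dmap {e : ℝ} (he : 0 < e) : Continuous (dmap e) := by
  rw [continuous_iff_continuousAt]
  intro w
  by_cases hw : w = 0
  · subst hw
    have h0 : dmap e 0 = 0 := by simp [dmap]
    rw [ContinuousAt, h0, tendsto_zero_iff_norm_tendsto_zero]
    simp only [norm_dmap he]
    have hc : Continuous fun w : ℂ => ‖w‖ ^ e := continuous_norm.rpow_const fun _ => Or.inr he.le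
    have := hc.tendsto 0
    rwa [norm_zero, Real.zero_rpow he.ne'] at this
  · unfold dmap
    refine ContinuousAt.mul ?_ continuousAt_id
    refine Complex.continuous_ofReal.continuousAt.comp ?_
    exact continuous_norm.continuousAt.rpow_const (Or.inl (norm_ne_zero_iff.2 hw))

theorem re_mul_conj_dmap {e : ℝ} (he : 0 < e) (w : ℂ) :
    (w * conj (dmap e w)).re = ‖w‖ ^ (e + 1) := by
  unfold dmap
  have h1 : w * conj (((‖w‖ ^ (e - 1) : ℝ) : ℂ) * w) = ((‖w‖ ^ (e - 1) * ‖w‖ ^ 2 : ℝ) : ℂ) := by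
    rw [map_mul, Complex.conj_ofReal]
    have : w * conj w = ((‖w‖ ^ 2 : ℝ) : ℂ) := by
      rw [Complex.mul_conj, Complex.normSq_eq_norm_sq]
    push_cast at this ⊢
    linear_combination ((‖w‖ ^ (e - 1) : ℝ) : ℂ) * this
  rw [h1, Complex.ofReal_re]
  rcases eq_or_lt_of_le (norm_nonneg w) with h | h
  · rw [← h]
    have h0 : (0 : ℝ) ^ (e + 1) = 0 := Real.zero_rpow (by linarith)
    rw [h0]
    simp
  · rw [← Real.rpow_two, ← Real.rpow_add h]
    congr 1
    ring

/-- Upper bound for exponents slightly below two, `p = q / (q - 1)` with `q = 2 + δ`. -/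
theorem upper_lt (hp : p ≠ ∞) {δ : ℝ} (hδ : 0 < δ) (hδ4 : δ ≤ 1 / 4)
    (hpr : p.toReal = (2 + δ) / (1 + δ)) :
    ‖ContinuousLinearMap.id ℂ (Hp p) - K0H p‖ ≤ 1 + 4 * (2 + δ) * δ ^ 2 := by
  have hk : 2 * (2 + δ) * δ ^ 2 ≤ 1 / 2 := by nlinarith [sq_nonneg δ, mul_pos hδ hδ]
  have hk0 : 0 ≤ 2 * (2 + δ) * δ ^ 2 := by positivity
  set κ := 2 * (2 + δ) * δ ^ 2 with hκ
  refine norm_sub_K0H_le hp (by positivity) fun Q => ?_
  set r := p.toReal with hr
  have hr1 : 1 ≤ r := by rw [hpr]; rw [le_div_iff₀ (by linarith)]; linarith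
  have hq0 : (0 : ℝ) < 2 + δ := by linarith
  have hr0 : 0 < r := by linarith
  have hconj : r.HolderConjugate (2 + δ) := by
    rw [Real.holderConjugate_iff]
    refine ⟨?_, ?_⟩
    · rw [hpr, lt_div_iff₀ (by linarith)]; linarith
    · rw [hpr]; field_simp; ring
  have he : 0 < r - 1 := by
    rw [hpr]
    have : (2 + δ) / (1 + δ) - 1 = 1 / (1 + δ) := by field_simp; ring
    rw [this]; positivity
  have heq : (r - 1) * (2 + δ) = r := by rw [hpr]; field_simp; ring
  set g : Circ → ℂ := fun x => Q.eval (z x) - Q.eval 0 with hg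
  have cQ := continuous_poly Q
  have cg : Continuous g := cQ.sub continuous_const
  set u : Circ → ℂ := fun x => dmap (r - 1) (g x) with hu
  have cu : Continuous u := (continuous_dmap he).comp cg
  set m : ℂ := ∫ x, u x ∂sigma with hm
  have cum : Continuous fun x => u x - m := cu.sub continuous_const
  have ig : ∫ x, g x ∂sigma = 0 := by
    rw [hg, integral_sub (integrable_of_continuous cQ) (integrable_const _), integral_poly]
    simp
  have ium : ∫ x, (u x - m) ∂sigma = 0 := by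
    rw [integral_sub (integrable_of_continuous cu) (integrable_const _), ← hm]
    simp
  set I := ∫ x, ‖g x‖ ^ r ∂sigma with hI
  set J := ∫ x, ‖Q.eval (z x)‖ ^ r ∂sigma with hJ
  have hI0 : 0 ≤ I := integral_nonneg fun x => Real.rpow_nonneg (norm_nonneg _) _
  have hJ0 : 0 ≤ J := integral_nonneg fun x => Real.rpow_nonneg (norm_nonneg _) _
  -- the pairing
  have hpair : ∫ x, (Q.eval (z x) * conj (u x - m)).re ∂sigma = I := by
    have h1 : ∀ x, (Q.eval (z x) * conj (u x - m)).re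
        = ‖g x‖ ^ r - (g x * conj m).re + (Q.eval 0 * conj (u x - m)).re := by
      intro x
      have h2 := re_mul_conj_dmap he (g x)
      rw [sub_add_cancel] at h2
      have h3 : Q.eval (z x) = g x + Q.eval 0 := by rw [hg]; ring
      have h4 : (g x * conj (u x)).re = ‖g x‖ ^ r := h2
      rw [← h4, h3, add_mul, Complex.add_re, map_sub, mul_sub, Complex.sub_re]
    have c1 : Continuous fun x => ‖g x‖ ^ r := continuous_norm_rpow cg hr0.le
    have c2 : Continuous fun x => (g x * conj m).re :=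
      Complex.continuous_re.comp (cg.mul continuous_const)
    have c3 : Continuous fun x => (Q.eval 0 * conj (u x - m)).re :=
      Complex.continuous_re.comp (continuous_const.mul (Complex.continuous_conj.comp cum))
    simp_rw [h1]
    have i1 : Integrable (fun x => ‖g x‖ ^ r) sigma := integrable_of_continuous c1
    have i2 : Integrable (fun x => (g x * conj m).re) sigma := integrable_of_continuous c2
    have i3 : Integrable (fun x => (Q.eval 0 * conj (u x - m)).re) sigma :=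
      integrable_of_continuous c3
    have i12 : Integrable (fun x => ‖g x‖ ^ r - (g x * conj m).re) sigma := i1.sub i2
    rw [integral_add i12 i3, integral_sub i1 i2]
    have e2 : ∫ x, (g x * conj m).re ∂sigma = 0 := by
      have h2 := integral_re (μ := sigma) (f := fun x => g x * conj m)
        (integrable_of_continuous (cg.mul continuous_const))
      simp only [RCLike.re_to_complex] at h2
      rw [h2, integral_mul_const, ig]
      simp
    have e3 : ∫ x, (Q.eval 0 * conj (u x - m)).re ∂sigma = 0 := by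
      have h2 := integral_re (μ := sigma) (f := fun x => Q.eval 0 * conj (u x - m))
        (integrable_of_continuous (continuous_const.mul (Complex.continuous_conj.comp cum)))
      simp only [RCLike.re_to_complex] at h2
      rw [h2, integral_const_mul, integral_conj, ium]
      simp
    rw [e2, e3]
    ring
  -- the dual inequality
  have hdual := mean_ineq hδ (by linarith) cu rfl
  rw [← hm, ← hκ] at hdual
  have hnu : ∫ x, ‖u x‖ ^ (2 + δ) ∂sigma = I := by
    rw [hI]
    refine integral_congr_ae (Eventually.of_forall fun x => ?_)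
    simp only [hu]
    rw [norm_dmap he, ← Real.rpow_mul (norm_nonneg _), heq]
  rw [hnu] at hdual
  set K := ∫ x, ‖u x - m‖ ^ (2 + δ) ∂sigma with hK
  have hK0 : 0 ≤ K := integral_nonneg fun x => Real.rpow_nonneg (norm_nonneg _) _
  -- Young
  have hc0 : 0 ≤ 1 - κ := by linarith
  have hyoung : (1 - κ) * I ≤ J / r + (1 - κ) ^ (2 + δ) / (2 + δ) * K := by
    have cK : Continuous fun x => ‖u x - m‖ ^ (2 + δ) := continuous_norm_rpow cum hq0.le
    have cJ : Continuous fun x => ‖Q.eval (z x)‖ ^ r := continuous_norm_rpow cQ hr0.le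
    have cP : Continuous fun x => (Q.eval (z x) * conj (u x - m)).re :=
      Complex.continuous_re.comp (cQ.mul (Complex.continuous_conj.comp cum))
    rw [← hpair, ← integral_const_mul]
    have h1 : ∫ x, (1 - κ) * (Q.eval (z x) * conj (u x - m)).re ∂sigma
        ≤ ∫ x, (‖Q.eval (z x)‖ ^ r / r + (1 - κ) ^ (2 + δ) / (2 + δ) * ‖u x - m‖ ^ (2 + δ))
          ∂sigma := by
      refine integral_mono (integrable_of_continuous (continuous_const.mul cP))
        (integrable_of_continuous ((cJ.div_const _).add (continuous_const.mul cK))) fun x => ?_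
      have h2 := Real.young_inequality_of_nonneg (norm_nonneg (Q.eval (z x)))
        (mul_nonneg hc0 (norm_nonneg (u x - m))) hconj
      have h3 : (Q.eval (z x) * conj (u x - m)).re ≤ ‖Q.eval (z x)‖ * ‖u x - m‖ := by
        refine (Complex.re_le_norm _).trans ?_
        rw [norm_mul, RCLike.norm_conj]
      have h4 := mul_le_mul_of_nonneg_left h3 hc0
      rw [Real.mul_rpow hc0 (norm_nonneg _)] at h2
      simp only
      calc (1 - κ) * (Q.eval (z x) * conj (u x - m)).re
          ≤ (1 - κ) * (‖Q.eval (z x)‖ * ‖u x - m‖) := h4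
        _ = ‖Q.eval (z x)‖ * ((1 - κ) * ‖u x - m‖) := by ring
        _ ≤ _ := h2
        _ = _ := by ring
    refine h1.trans (le_of_eq ?_)
    have i1 : Integrable (fun x => ‖Q.eval (z x)‖ ^ r / r) sigma :=
      integrable_of_continuous (cJ.div_const _)
    have i2 : Integrable (fun x => (1 - κ) ^ (2 + δ) / (2 + δ) * ‖u x - m‖ ^ (2 + δ)) sigma :=
      integrable_of_continuous (continuous_const.mul cK)
    rw [integral_add i1 i2, integral_const_mul, integral_div]
  -- conclusion: (1 - κ) I ≤ J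
  have h5 : (1 - κ) ^ (2 + δ) * K ≤ (1 - κ) * I := by
    have h6 : (1 - κ) ^ (2 + δ) ≤ (1 - κ) ^ 2 := by
      rw [← Real.rpow_two]
      exact Real.rpow_le_rpow_of_exponent_ge (by linarith) (by linarith) (by linarith)
    calc (1 - κ) ^ (2 + δ) * K ≤ (1 - κ) ^ 2 * K := mul_le_mul_of_nonneg_right h6 hK0
      _ = (1 - κ) * ((1 - κ) * K) := by ring
      _ ≤ (1 - κ) * I := mul_le_mul_of_nonneg_left hdual hc0
  have h7 : (1 - κ) * I ≤ J := by
    have h8 : (1 - κ) ^ (2 + δ) / (2 + δ) * K ≤ (1 - κ) * I / (2 + δ) := by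
      rw [div_mul_eq_mul_div]
      exact div_le_div_of_nonneg_right h5 hq0.le
    have h9 : (1 - κ) * I ≤ J / r + (1 - κ) * I / (2 + δ) := hyoung.trans (by linarith)
    have h10 : 1 / r + 1 / (2 + δ) = 1 := by
      have := hconj.inv_add_inv_eq_one
      rwa [inv_eq_one_div, inv_eq_one_div] at this
    have h13 : 1 / (2 + δ) = 1 - 1 / r := by linarith
    have h11 : (1 - κ) * I / (2 + δ) = (1 - κ) * I * (1 - 1 / r) := by
      rw [← h13]; ring
    rw [h11] at h9
    have h12 : (1 - κ) * I * (1 / r) ≤ J / r := by linarith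
    rw [mul_one_div, div_le_div_iff_of_pos_right hr0] at h12
    exact h12
  have h2 := two_kappa hk0 hk (r := r) hr1
  have e : 1 + 2 * κ = 1 + 4 * (2 + δ) * δ ^ 2 := by rw [hκ]; ring
  rw [e] at h2
  have hC : 0 ≤ (1 + 4 * (2 + δ) * δ ^ 2) ^ r := by positivity
  change I ≤ (1 + 4 * (2 + δ) * δ ^ 2) ^ r * J
  calc I ≤ ((1 + 4 * (2 + δ) * δ ^ 2) ^ r * (1 - κ)) * I := by nlinarith
    _ = (1 + 4 * (2 + δ) * δ ^ 2) ^ r * ((1 - κ) * I) := by ring
    _ ≤ _ := mul_le_mul_of_nonneg_left h7 hC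

/-- The trivial bound. -/
theorem upper_two : ‖ContinuousLinearMap.id ℂ (Hp p) - K0H p‖ ≤ 2 := by
  have h2 : ‖K0H p‖ ≤ 1 := LinearMap.mkContinuous_norm_le _ zero_le_one _
  refine ContinuousLinearMap.opNorm_le_bound _ (by norm_num) fun f => ?_
  have h3 : ‖K0H p f‖ ≤ 1 * ‖f‖ := (K0H p).le_of_opNorm_le h2 f
  have h4 : (ContinuousLinearMap.id ℂ (Hp p) - K0H p) f = f - K0H p f := rfl
  rw [h4]
  have h5 := norm_sub_le f (K0H p f)
  linarith

/-- The upper bound for all `p`. -/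
theorem upper_all (hp : p ≠ ∞) :
    ‖ContinuousLinearMap.id ℂ (Hp p) - K0H p‖ ≤ 1 + 81 * (1 - 2 / p.toReal) ^ 2 := by
  have hpr := one_le_toReal hp
  set r := p.toReal with hr
  have hr0 : 0 < r := by linarith
  rcases lt_trichotomy r 2 with h | h | h
  · -- r < 2
    by_cases h9 : 9 / 5 ≤ r
    · set δ := (2 - r) / (r - 1) with hδ
      have hr1 : 0 < r - 1 := by linarith
      have hδ0 : 0 < δ := by rw [hδ]; apply div_pos <;> linarith
      have hδ4 : δ ≤ 1 / 4 := by rw [hδ, div_le_iff₀ hr1]; linarith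
      have h1 : 1 + δ = 1 / (r - 1) := by rw [hδ]; field_simp; ring
      have h2 : 2 + δ = r / (r - 1) := by rw [hδ]; field_simp; ring
      have h3 : r = (2 + δ) / (1 + δ) := by rw [h1, h2]; field_simp
      have h4 := upper_lt hp hδ0 hδ4 h3
      refine h4.trans ?_
      have h5 : δ = -(2 + δ) * (1 - 2 / r) := by rw [h2, hδ]; field_simp; ring
      have h6 : δ ^ 2 = (2 + δ) ^ 2 * (1 - 2 / r) ^ 2 := by
        calc δ ^ 2 = (-(2 + δ) * (1 - 2 / r)) ^ 2 := by rw [← h5]
          _ = _ := by ring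
      have h7 : (2 + δ) ^ 3 ≤ 81 / 4 := by nlinarith [sq_nonneg δ, mul_pos hδ0 hδ0]
      have h8 : 4 * (2 + δ) * δ ^ 2 = 4 * (2 + δ) ^ 3 * (1 - 2 / r) ^ 2 := by rw [h6]; ring
      rw [h8]
      nlinarith [sq_nonneg (1 - 2 / r)]
    · push Not at h9
      refine upper_two.trans ?_
      have h1 : 10 / 9 ≤ 2 / r := by rw [div_le_div_iff₀ (by norm_num) hr0]; linarith
      nlinarith
  · -- r = 2
    have h1 : (1 : ℝ) + 81 * (1 - 2 / r) ^ 2 = 1 := by rw [h]; norm_num
    rw [h1]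
    refine norm_sub_K0H_le hp zero_le_one fun Q => ?_
    rw [← hr, h, Real.one_rpow, one_mul]
    exact mean_sq (continuous_poly Q) (integral_poly Q)
  · by_cases h9 : r ≤ 9 / 4
    · have h4 := upper_gt hp (δ := r - 2) (by linarith) (by linarith) (by rw [← hr]; ring)
      refine h4.trans ?_
      have h6 : r - 2 = r * (1 - 2 / r) := by field_simp
      have h8 : 4 * (2 + (r - 2)) * (r - 2) ^ 2 = 4 * r ^ 3 * (1 - 2 / r) ^ 2 := by
        calc 4 * (2 + (r - 2)) * (r - 2) ^ 2 = 4 * r * (r - 2) ^ 2 := by ring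
          _ = 4 * r * (r * (1 - 2 / r)) ^ 2 := by rw [← h6]
          _ = _ := by ring
      rw [h8]
      have h7 : r ^ 3 ≤ 81 / 4 := by
        have : r ^ 3 ≤ (9 / 4 : ℝ) ^ 3 := pow_le_pow_left₀ hr0.le h9 3
        norm_num at this ⊢
        linarith
      nlinarith [sq_nonneg (1 - 2 / r)]
    · push Not at h9
      refine upper_two.trans ?_
      have h1 : 2 / r ≤ 8 / 9 := by rw [div_le_div_iff₀ hr0 (by norm_num)]; linarith
      nlinarith

end Pool.Agent.MP_984ac2_an
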