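import Pool.Agent.MP_984ac2_an.TsLower

set_option autoImplicit false

open MeasureTheory AddCircle Filter Topology Metric Set
open scoped ENNReal ComplexConjugate

noncomputable section

namespace Pool.Agent.MP_984ac2_an

/-! ### A short arc around `-1` -/

theorem norm_z_add_one_le (θ : ℝ) : ‖z (θ : Circ) + 1‖ ≤ |θ - Real.pi| := by
  have h1 : z (θ : Circ) + 1 = -(Complex.exp (Complex.I * ((θ - Real.pi : ℝ) : ℂ)) - 1) := by
    rw [z_coe]
    have h2 : Complex.exp (θ * Complex.I)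
        = Complex.exp (Complex.I * ((θ - Real.pi : ℝ) : ℂ)) * Complex.exp (Real.pi * Complex.I) := by
      rw [← Complex.exp_add]
      congr 1
      push_cast
      ring
    rw [h2, Complex.exp_pi_mul_I]
    ring
  rw [h1, norm_neg]
  have h3 := Real.norm_exp_I_mul_ofReal_sub_one_le (x := θ - Real.pi)
  rwa [Real.norm_eq_abs] at h3

theorem window {f : Circ → ℝ} (hf : Continuous f) (hf0 : ∀ x, 0 ≤ f x) {m δ : ℝ} (hδ0 : 0 < δ)
    (hδ1 : δ ≤ 1) (hm : 0 ≤ m) (hfm : ∀ x, ‖z x + 1‖ ≤ δ → m ≤ f x) :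
    m * δ / 4 ≤ ∫ x, f x ∂sigma := by
  have hpi := Real.pi_gt_three
  have hpi4 := Real.pi_le_four
  have e1 : ∫ x, f x ∂sigma = (2 * Real.pi)⁻¹ * ∫ θ in (0 : ℝ)..(2 * Real.pi), f (θ : Circ) := by
    rw [integral_haarAddCircle, smul_eq_mul]
    congr 1
    have h := AddCircle.intervalIntegral_preimage (2 * Real.pi) 0 f
    rw [← h, zero_add]
  have hc : Continuous fun θ : ℝ => f (θ : Circ) := hf.comp (AddCircle.continuous_mk' _)
  have h2 : ∫ θ in (Real.pi - δ)..(Real.pi + δ), f (θ : Circ)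
      ≤ ∫ θ in (0 : ℝ)..(2 * Real.pi), f (θ : Circ) := by
    refine intervalIntegral.integral_mono_interval (by linarith) (by linarith) (by linarith) ?_
      (hc.intervalIntegrable _ _)
    exact Eventually.of_forall fun θ => hf0 _
  have h3 : ∫ _θ in (Real.pi - δ)..(Real.pi + δ), m
      ≤ ∫ θ in (Real.pi - δ)..(Real.pi + δ), f (θ : Circ) := by
    refine intervalIntegral.integral_mono_on (by linarith) (by simp)
      (hc.intervalIntegrable _ _) fun θ hθ => ?_
    apply hfm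
    refine (norm_z_add_one_le θ).trans ?_
    rw [abs_le]
    constructor <;> linarith [hθ.1, hθ.2]
  have h4 : ∫ _θ in (Real.pi - δ)..(Real.pi + δ), m = 2 * δ * m := by
    rw [intervalIntegral.integral_const, smul_eq_mul]
    ring
  rw [e1]
  rw [h4] at h3
  have h5 : 2 * δ * m ≤ ∫ θ in (0 : ℝ)..(2 * Real.pi), f (θ : Circ) := h3.trans h2
  have h6 : (1 / 8 : ℝ) ≤ (2 * Real.pi)⁻¹ := by
    rw [inv_eq_one_div]
    apply one_div_le_one_div_of_le (by positivity)
    linarith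
  have h7 : 0 ≤ 2 * δ * m := by positivity
  calc m * δ / 4 = 1 / 8 * (2 * δ * m) := by ring
    _ ≤ (2 * Real.pi)⁻¹ * (2 * δ * m) := mul_le_mul_of_nonneg_right h6 h7
    _ ≤ _ := mul_le_mul_of_nonneg_left h5 (by positivity)

/-- `∫ 1/|R + z|² = 1/(R² - 1)`. -/
theorem integral_inv_sq {R : ℝ} (hR : 1 < R) :
    ∫ x, 1 / ‖(R : ℂ) + z x‖ ^ 2 ∂sigma = 1 / (R ^ 2 - 1) := by
  have hR0 : 0 < R := by linarith
  have hb : ‖((-(1 / R) : ℝ) : ℂ)‖ < 1 := by
    rw [Complex.norm_real, norm_neg, Real.norm_of_nonneg (by positivity)]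
    rw [div_lt_one hR0]
    exact hR
  have h1 : ∀ x, 1 / ‖(R : ℂ) + z x‖ ^ 2 = 1 / (R ^ 2 - 1) * P ((-(1 / R) : ℝ) : ℂ) x := by
    intro x
    unfold P
    have e0 : ‖((-(1 / R) : ℝ) : ℂ)‖ ^ 2 = 1 / R ^ 2 := by
      rw [Complex.norm_real, norm_neg, Real.norm_of_nonneg (by positivity)]
      field_simp
    have e1 : ‖z x - ((-(1 / R) : ℝ) : ℂ)‖ ^ 2 = ‖(R : ℂ) + z x‖ ^ 2 / R ^ 2 := by
      have hz : (z x).re * (z x).re + (z x).im * (z x).im = 1 := by
        rw [← Complex.normSq_apply, Complex.normSq_eq_norm_sq, norm_z]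
        norm_num
      rw [← Complex.normSq_eq_norm_sq, ← Complex.normSq_eq_norm_sq, Complex.normSq_apply,
        Complex.normSq_apply]
      simp
      field_simp
      linear_combination (R ^ 2 - 1) * hz
    rw [e0, e1]
    have e2 : 0 < ‖(R : ℂ) + z x‖ := by
      have h3 : ‖(R : ℂ)‖ ≤ ‖(R : ℂ) + z x‖ + ‖z x‖ := by
        have := norm_sub_le ((R : ℂ) + z x) (z x)
        rwa [add_sub_cancel_right] at this
      rw [norm_z, Complex.norm_real, Real.norm_of_nonneg hR0.le] at h3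
      linarith
    have e3 : R ^ 2 - 1 ≠ 0 := by nlinarith
    field_simp
  simp_rw [h1]
  rw [integral_const_mul, integral_P hb, mul_one]

end Pool.Agent.MP_984ac2_an
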