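import Pool.Agent.MP_984ac2_an.TwPar

/-!
Problem MP_984ac2_an: the sharp lower bound, by the test function `w exp((Λ/r) d/(1+d+w))`.
-/

set_option autoImplicit false

open MeasureTheory AddCircle Filter Topology Metric Set
open scoped ENNReal ComplexConjugate

noncomputable section

namespace Pool.Agent.MP_984ac2_an

/-- `Λ = (3/2) log r + log (2 √π)` -/
def Lam (r : ℝ) : ℝ := 3 / 2 * Real.log r + Real.log (2 * √Real.pi)

/-- `d = 2 √(Λ/r)` -/
def d1 (r : ℝ) : ℝ := 2 * √(Lam r / r)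

/-- the kernel with pole at `-(1+d)` -/
def Vv (d : ℝ) (w : ℂ) : ℂ := (d : ℂ) / (1 + d + w)

/-- the test function -/
def Ft (r : ℝ) (w : ℂ) : ℂ := w * Complex.exp (((Lam r / r : ℝ) : ℂ) * Vv (d1 r) w)

/-- the point of evaluation -/
def bt (r : ℝ) : ℝ := 1 - 1 / r

/-- `exp (Λ) = 2 √π r^(3/2)` -/
theorem exp_Lam {r : ℝ} (hr : 0 < r) : Real.exp (Lam r) = 2 * √Real.pi * r ^ (3 / 2 : ℝ) := by
  unfold Lam
  have h1 : 0 < 2 * √Real.pi := by positivity
  rw [Real.exp_add, Real.exp_log h1, Real.rpow_def_of_pos hr, mul_comm (Real.log r) (3 / 2 : ℝ),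
    mul_comm]

theorem tendsto_Lam : Tendsto Lam atTop atTop := by
  unfold Lam
  exact tendsto_atTop_add_const_right _ _ (Real.tendsto_log_atTop.const_mul_atTop (by norm_num))

private theorem lex_pow (k : ℕ) : Tendsto (fun r : ℝ => Lam r ^ k / r) atTop (𝓝 0) := by
  have h1 : Tendsto (fun r : ℝ => Real.log r ^ k / r) atTop (𝓝 0) := by
    have := Real.isLittleO_pow_log_id_atTop (n := k)
    exact this.tendsto_div_nhds_zero
  have h2 : Tendsto (fun r : ℝ => (3 / 2 + Real.log (2 * √Real.pi) * (Real.log r)⁻¹) ^ k) atTop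
      (𝓝 ((3 / 2 + Real.log (2 * √Real.pi) * 0) ^ k)) :=
    (tendsto_const_nhds.add (tendsto_const_nhds.mul
      (tendsto_inv_atTop_zero.comp Real.tendsto_log_atTop))).pow k
  have h3 := h2.mul h1
  rw [mul_zero] at h3
  refine h3.congr' ?_
  filter_upwards [eventually_gt_atTop (1 : ℝ)] with r hr
  have hl : Real.log r ≠ 0 := (Real.log_pos hr).ne'
  unfold Lam
  rw [← mul_div_assoc, ← mul_pow]
  congr 2
  field_simp

/-- `Λ^2 / r → 0` -/
theorem tendsto_Lam_sq : Tendsto (fun r => Lam r ^ 2 / r) atTop (𝓝 0) := lex_pow 2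

/-- `d → 0`, `Λ d → 0` -/
theorem tendsto_d1 : Tendsto d1 atTop (𝓝 0) := by
  have h1 := lex_pow 1
  simp only [pow_one] at h1
  have h2 := (Real.continuous_sqrt.tendsto 0).comp h1
  have h3 := h2.const_mul 2
  rw [Real.sqrt_zero, mul_zero] at h3
  exact h3

theorem tendsto_Lam_d1 : Tendsto (fun r => Lam r * d1 r) atTop (𝓝 0) := by
  have h1 := lex_pow 3
  have h2 := (Real.continuous_sqrt.tendsto 0).comp h1
  have h3 := h2.const_mul 2
  rw [Real.sqrt_zero, mul_zero] at h3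
  refine h3.congr' ?_
  filter_upwards [tendsto_Lam.eventually_ge_atTop 0] with r hr
  unfold d1
  simp only [Function.comp_apply]
  rw [show Lam r ^ 3 / r = Lam r ^ 2 * (Lam r / r) by ring, Real.sqrt_mul (sq_nonneg _),
    Real.sqrt_sq hr]
  ring

private theorem lve_ne {d : ℝ} (hd : 0 < d) {w : ℂ} (hw : ‖w‖ ≤ 1) : (1 + d + w : ℂ) ≠ 0 := by
  intro h
  have h1 : w = -((1 + d : ℝ) : ℂ) := by
    push_cast
    linear_combination h
  rw [h1, norm_neg, Complex.norm_real, Real.norm_eq_abs, abs_of_pos (by linarith)] at hw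
  linarith

private theorem lve_sq (x : Circ) : (z x).re ^ 2 + (z x).im ^ 2 = 1 := by
  have h : ‖z x‖ = 1 := Circle.norm_coe _
  have h2 : ‖z x‖ ^ 2 = (z x).re * (z x).re + (z x).im * (z x).im := by
    rw [← Complex.normSq_apply, Complex.normSq_eq_norm_sq]
  rw [h] at h2
  nlinarith

private theorem lve_re (d : ℝ) (x : Circ) :
    (Vv d (z x)).re = d * (d + (1 + (z x).re)) / (d ^ 2 + 2 * (1 + d) * (1 + (z x).re)) := by
  have h := lve_sq x
  have e : Complex.normSq (1 + d + z x) = d ^ 2 + 2 * (1 + d) * (1 + (z x).re) := by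
    rw [Complex.normSq_apply]
    simp only [Complex.add_re, Complex.add_im, Complex.one_re, Complex.one_im, Complex.ofReal_re,
      Complex.ofReal_im]
    nlinarith
  unfold Vv
  rw [Complex.div_re, e]
  simp only [Complex.add_re, Complex.add_im, Complex.one_re, Complex.one_im, Complex.ofReal_re,
      Complex.ofReal_im]
  ring

private theorem lve_t (x : Circ) : 0 ≤ 1 + (z x).re := by
  have h := lve_sq x
  nlinarith [sq_nonneg (z x).im, sq_nonneg ((z x).re - 1)]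

/-- with `t = 1 + Re z`, `‖1+d+z‖^2 = d^2 + 2(1+d) t`, `Re V = d (d + t)/(d^2 + 2(1+d)t)` -/
theorem re_Vv_le {d : ℝ} (hd : 0 < d) (x : Circ) :
    (Vv d (z x)).re ≤ 1 / (1 + 2 * (1 + (z x).re) / d ^ 2) + d / 2 := by
  rw [lve_re d x]
  have ht := lve_t x
  set t := 1 + (z x).re with htd
  have e1 : 1 / (1 + 2 * t / d ^ 2) = d ^ 2 / (d ^ 2 + 2 * t) := by
    have : 1 + 2 * t / d ^ 2 = (d ^ 2 + 2 * t) / d ^ 2 := by
      field_simp
    rw [this, one_div_div]
  rw [e1]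
  have p1 : 0 < d ^ 2 + 2 * (1 + d) * t := by positivity
  have p2 : 0 < d ^ 2 + 2 * t := by positivity
  have h1 : d ^ 2 / (d ^ 2 + 2 * (1 + d) * t) ≤ d ^ 2 / (d ^ 2 + 2 * t) := by
    apply div_le_div_of_nonneg_left (by positivity) p2
    nlinarith [mul_nonneg hd.le ht]
  have h2 : d * t / (d ^ 2 + 2 * (1 + d) * t) ≤ d / 2 := by
    rw [div_le_div_iff₀ p1 two_pos]
    nlinarith [mul_nonneg hd.le ht, mul_nonneg (mul_nonneg hd.le hd.le) ht, pow_pos hd 3]
  calc d * (d + t) / (d ^ 2 + 2 * (1 + d) * t)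
      = d ^ 2 / (d ^ 2 + 2 * (1 + d) * t) + d * t / (d ^ 2 + 2 * (1 + d) * t) := by
        rw [← add_div]; ring
    _ ≤ _ := add_le_add h1 h2

theorem re_Vv_ge {d : ℝ} (hd : 0 < d) (x : Circ) :
    1 - 2 * (1 + d) * (1 + (z x).re) / d ^ 2 ≤ (Vv d (z x)).re := by
  rw [lve_re d x]
  have ht := lve_t x
  set t := 1 + (z x).re with htd
  have p1 : 0 < d ^ 2 + 2 * (1 + d) * t := by positivity
  have p2 : 0 < d ^ 2 := by positivity
  have e1 : 1 - 2 * (1 + d) * t / d ^ 2 = (d ^ 2 - 2 * (1 + d) * t) / d ^ 2 := by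
    field_simp
  rw [e1, div_le_div_iff₀ p2 p1]
  have h3 : 0 ≤ (2 * (1 + d) * t) ^ 2 := sq_nonneg _
  have h4 : 0 ≤ d ^ 3 * t := by positivity
  nlinarith

/-- `‖V‖ ≤ 1` on the closed disc -/
theorem norm_Vv_le {d : ℝ} (hd : 0 < d) {w : ℂ} (hw : ‖w‖ ≤ 1) : ‖Vv d w‖ ≤ 1 := by
  unfold Vv
  have h0 := lve_ne hd hw
  have h1 : d ≤ ‖(1 + d + w : ℂ)‖ := by
    have h2 : ‖(1 + d : ℂ)‖ = 1 + d := by
      have : (1 + d : ℂ) = ((1 + d : ℝ) : ℂ) := by push_cast; ring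
      rw [this, Complex.norm_real, Real.norm_eq_abs, abs_of_pos (by linarith)]
    have h3 : ‖(1 + d : ℂ)‖ ≤ ‖(1 + d + w : ℂ)‖ + ‖w‖ := by
      have : (1 + d : ℂ) = (1 + d + w) - w := by ring
      calc ‖(1 + d : ℂ)‖ = ‖(1 + d + w) - w‖ := by rw [← this]
        _ ≤ _ := norm_sub_le _ _
    linarith
  rw [norm_div, Complex.norm_real, Real.norm_eq_abs, abs_of_pos hd]
  exact div_le_one_of_le₀ h1 (norm_nonneg _)

theorem differentiableAt_Vv {d : ℝ} (hd : 0 < d) {w : ℂ} (hw : ‖w‖ ≤ 1) :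
    DifferentiableAt ℂ (Vv d) w := by
  have h0 := lve_ne hd hw
  unfold Vv
  exact (differentiableAt_const _).div ((differentiableAt_const _).add differentiableAt_id) h0

variable {p : ℝ≥0∞} [Fact (1 ≤ p)] in
/-- as in `lower_large` (TsLargeEnd.lean): `F ∘ mob a`, `change_var_real`, `discAlgebra_ineq` or the
definition of the operator norm -/
theorem lower_gen (hp : p ≠ ∞) {F : ℂ → ℂ} (hF : ∀ w : ℂ, ‖w‖ ≤ 1 → DifferentiableAt ℂ F w) {a : ℂ}
    (ha : ‖a‖ < 1) :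
    ∫ x, P a x * ‖F (z x) - F a‖ ^ p.toReal ∂sigma
      ≤ ‖ContinuousLinearMap.id ℂ (Hp p) - K0H p‖ ^ p.toReal
        * ∫ x, P a x * ‖F (z x)‖ ^ p.toReal ∂sigma := by
  have hpr := one_le_toReal hp
  have hp0 : 0 ≤ p.toReal := by linarith
  have hD0 : 0 ≤ ‖ContinuousLinearMap.id ℂ (Hp p) - K0H p‖ :=
    ContinuousLinearMap.opNorm_nonneg _
  have hF1 : DiffContOnCl ℂ (fun w => F (mob a w)) (ball 0 1) := by
    refine DifferentiableOn.diffContOnCl ?_
    intro w hw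
    have hw' : w ∈ closedBall (0 : ℂ) 1 := closure_ball_subset_closedBall hw
    have hw1 : ‖w‖ ≤ 1 := by simpa using hw'
    exact ((hF _ (norm_mob_le_one ha hw1)).comp w
      (differentiableAt_mob ha hw1)).differentiableWithinAt
  have hFz : Continuous fun x => F (z x) := by
    rw [continuous_iff_continuousAt]
    intro x
    exact ((hF (z x) (norm_z x).le).continuousAt).comp continuous_z.continuousAt
  let G : C(Circ, ℂ) := ⟨fun x => F (z (psi a ha x)), hFz.comp (psi a ha).continuous⟩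
  have hG : ∀ x, G x = F (mob a (z x)) := by
    intro x
    change F (z (psi a ha x)) = _
    rw [z_psi]
  have h := discAlgebra_ineq hp hD0
    (fun f => (ContinuousLinearMap.id ℂ (Hp p) - K0H p).le_opNorm f) hF1 G hG
  simp only [mob_zero] at h
  have e1 := change_var_real ha (fun x => ‖F (z x) - F a‖ ^ p.toReal)
    ((hFz.sub continuous_const).norm.rpow_const fun _ => Or.inr hp0)
  have e2 := change_var_real ha (fun x => ‖F (z x)‖ ^ p.toReal)
    (hFz.norm.rpow_const fun _ => Or.inr hp0)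
  rw [← e1, ← e2]
  exact h

/-- `‖F‖^r = exp (Λ Re V)` on the circle; `F` is differentiable at each point of the closed disc if
`0 < Λ/r` -/
theorem norm_Ft {r : ℝ} (hr : 0 < r) (x : Circ) :
    ‖Ft r (z x)‖ ^ r = Real.exp (Lam r * (Vv (d1 r) (z x)).re) := by
  have hz : ‖z x‖ = 1 := norm_z x
  unfold Ft
  rw [norm_mul, hz, one_mul, Complex.norm_exp, ← Real.exp_mul, Complex.re_ofReal_mul]
  congr 1
  field_simp

theorem differentiableAt_Ft {r : ℝ} (hd : 0 < d1 r) {w : ℂ} (hw : ‖w‖ ≤ 1) :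
    DifferentiableAt ℂ (Ft r) w := by
  unfold Ft
  exact differentiableAt_id.mul ((differentiableAt_const _).mul
    (differentiableAt_Vv hd hw)).cexp

private theorem lpw_norm_sq (b : ℝ) (x : Circ) :
    ‖z x - (b : ℂ)‖ ^ 2 = (1 + b) ^ 2 - 2 * b * (1 + (z x).re) := by
  have h1 : Complex.normSq (z x) = 1 := by
    rw [Complex.normSq_eq_norm_sq, norm_z]
    norm_num
  rw [Complex.normSq_apply] at h1
  rw [← Complex.normSq_eq_norm_sq, Complex.normSq_apply, Complex.sub_re, Complex.sub_im,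
    Complex.ofReal_re, Complex.ofReal_im]
  nlinarith [h1]

private theorem lpw_P_le {r : ℝ} (hr : 1 < r) (x : Circ) (ht : 1 + (z x).re ≤ 1) :
    P ((bt r : ℝ) : ℂ) x ≤ (1 / (2 * r)) * (1 + (1 + (z x).re)) / (1 - 1 / r) := by
  have hr0 : 0 < r := by linarith
  set t : ℝ := 1 + (z x).re with htdef
  have ht0 : 0 ≤ t := by
    have h1 := Complex.abs_re_le_norm (z x)
    rw [norm_z] at h1
    have := (abs_le.1 h1).1
    linarith
  have hinv : 1 / r < 1 := by
    rw [div_lt_one hr0]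
    exact hr
  have hinv0 : 0 < 1 / r := by positivity
  set u : ℝ := 1 / r with hu
  have hb : bt r = 1 - u := rfl
  unfold P
  rw [lpw_norm_sq, hb, ← htdef]
  have hnorm : ‖((1 - u : ℝ) : ℂ)‖ ^ 2 = (1 - u) ^ 2 := by
    rw [Complex.norm_real, Real.norm_eq_abs, sq_abs]
  rw [hnorm]
  have e1 : (1 : ℝ) / (2 * r) = u / 2 := by
    rw [hu]
    field_simp
  rw [e1]
  have hden : 0 < (1 + (1 - u)) ^ 2 - 2 * (1 - u) * t := by nlinarith
  rw [div_le_div_iff₀ hden (by linarith)]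
  -- `(1 - (1-u)^2) (1-u) ≤ (u/2)(1+t) ((2-u)^2 - 2 (1-u) t)`
  have h2 : 0 ≤ (1 - t) * t := mul_nonneg (by linarith) ht0
  have e2 : u / 2 * (1 + t) * ((1 + (1 - u)) ^ 2 - 2 * (1 - u) * t) -
      (1 - (1 - u) ^ 2) * (1 - u) =
      u / 2 * ((1 + t) * ((2 - u) ^ 2 - 2 * (1 - u) * t) - 2 * (2 - u) * (1 - u)) := by ring
  have h3 : 0 ≤ (1 + t) * ((2 - u) ^ 2 - 2 * (1 - u) * t) - 2 * (2 - u) * (1 - u) := by
    nlinarith [mul_nonneg (mul_nonneg hinv0.le ht0) (by linarith : 0 ≤ 1 - u),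
      mul_nonneg h2 (by linarith : 0 ≤ 1 - u), mul_nonneg hinv0.le ht0, mul_nonneg hinv0.le hinv0.le]
  have h4 := mul_nonneg (by linarith : 0 ≤ u / 2) h3
  linarith [e2, h4]

/-- the Poisson kernel at `b = 1 - 1/r`: `‖z-b‖^2 = (1+b)^2 - 2 b t`, `t = 1 + Re z ∈ [0,2]`, so for
`t ≤ 1`: `P b = (1/r)/((1+b) - 2bt/(1+b)) ≤ (1/(2r)) (1+ε)(1+t)` for large `r`
(`1/(1-t/2) ≤ 1+t` for `t ≤ 1`). For `t ≥ 1`: `Λ Re V ≤ Λ d^2/2 + Λ d/2 → 0`. -/
theorem weight_le {ε : ℝ} (hε : 0 < ε) : ∀ᶠ r : ℝ in atTop, ∀ x : Circ,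
    P ((bt r : ℝ) : ℂ) x * Real.exp (Lam r * (Vv (d1 r) (z x)).re)
      ≤ (1 + ε) * P ((bt r : ℝ) : ℂ) x + (1 + ε) * (1 / (2 * r)) * ((1 + (1 + (z x).re))
        * Real.exp (Lam r / (1 + 2 * (1 + (z x).re) / d1 r ^ 2))) := by
  have hE3 : Tendsto (fun r : ℝ => Real.exp (Lam r * d1 r / 2) / (1 - 1 / r)) atTop (𝓝 1) := by
    have h1 : Tendsto (fun r : ℝ => Real.exp (Lam r * d1 r / 2)) atTop (𝓝 (Real.exp (0 / 2))) :=
      (Real.continuous_exp.tendsto _).comp (tendsto_Lam_d1.div_const 2)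
    have h2 : Tendsto (fun r : ℝ => 1 - 1 / r) atTop (𝓝 (1 - 0)) := by
      refine tendsto_const_nhds.sub ?_
      exact (tendsto_inv_atTop_zero (𝕜 := ℝ)).congr fun r => (one_div r).symm
    have h3 := h1.div h2 (by norm_num)
    have h4 : Real.exp (0 / 2) / (1 - 0) = 1 := by simp
    rw [h4] at h3
    exact h3
  have hE4 : Tendsto (fun r : ℝ => Real.exp (Lam r * d1 r * d1 r / 2 + Lam r * d1 r / 2)) atTop
      (𝓝 1) := by
    have h1 : Tendsto (fun r : ℝ => Lam r * d1 r * d1 r / 2 + Lam r * d1 r / 2) atTop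
        (𝓝 (0 * 0 / 2 + 0 / 2)) :=
      ((tendsto_Lam_d1.mul tendsto_d1).div_const 2).add (tendsto_Lam_d1.div_const 2)
    have h2 := (Real.continuous_exp.tendsto _).comp h1
    have h4 : Real.exp (0 * 0 / 2 + 0 / 2) = 1 := by simp
    rw [h4] at h2
    exact h2
  filter_upwards [eventually_gt_atTop (1 : ℝ), tendsto_Lam.eventually_gt_atTop 0,
    hE3.eventually_le_const (by linarith : (1 : ℝ) < 1 + ε),
    hE4.eventually_le_const (by linarith : (1 : ℝ) < 1 + ε)] with r hr hL h3 h4 x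
  have hr0 : 0 < r := by linarith
  have hd : 0 < d1 r := by
    unfold d1
    have := Real.sqrt_pos.2 (div_pos hL hr0)
    linarith
  have hb1 : ‖((bt r : ℝ) : ℂ)‖ < 1 := by
    have hinv : 1 / r < 1 := by
      rw [div_lt_one hr0]
      exact hr
    have hinv0 : 0 < 1 / r := by positivity
    rw [Complex.norm_real, Real.norm_eq_abs, abs_lt]
    unfold bt
    constructor <;> linarith
  have hP : 0 < P ((bt r : ℝ) : ℂ) x := P_pos hb1 x
  have ht0 : 0 ≤ 1 + (z x).re := by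
    have h1 := Complex.abs_re_le_norm (z x)
    rw [norm_z] at h1
    have := (abs_le.1 h1).1
    linarith
  have hV := re_Vv_le hd x
  have hd2 : 0 < d1 r ^ 2 := by positivity
  have hLV : Lam r * (Vv (d1 r) (z x)).re ≤
      Lam r / (1 + 2 * (1 + (z x).re) / d1 r ^ 2) + Lam r * d1 r / 2 := by
    have := mul_le_mul_of_nonneg_left hV hL.le
    calc Lam r * (Vv (d1 r) (z x)).re ≤ _ := this
      _ = _ := by ring
  have hinv1 : 0 < 1 - 1 / r := by
    rw [sub_pos, div_lt_one hr0]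
    exact hr
  rcases le_total (1 + (z x).re) 1 with ht | ht
  · have hPle := lpw_P_le hr x ht
    have h5 : P ((bt r : ℝ) : ℂ) x * Real.exp (Lam r * (Vv (d1 r) (z x)).re) ≤
        (1 / (2 * r)) * (1 + (1 + (z x).re)) / (1 - 1 / r) *
          (Real.exp (Lam r / (1 + 2 * (1 + (z x).re) / d1 r ^ 2)) *
            Real.exp (Lam r * d1 r / 2)) := by
      rw [← Real.exp_add]
      refine mul_le_mul hPle (Real.exp_le_exp.2 hLV) (Real.exp_pos _).le ?_
      have : 0 ≤ 1 + (1 + (z x).re) := by linarith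
      positivity
    have h6 : (1 / (2 * r)) * (1 + (1 + (z x).re)) / (1 - 1 / r) *
          (Real.exp (Lam r / (1 + 2 * (1 + (z x).re) / d1 r ^ 2)) *
            Real.exp (Lam r * d1 r / 2)) =
        (Real.exp (Lam r * d1 r / 2) / (1 - 1 / r)) * ((1 / (2 * r)) * ((1 + (1 + (z x).re))
          * Real.exp (Lam r / (1 + 2 * (1 + (z x).re) / d1 r ^ 2)))) := by
      field_simp
    have h7 : 0 ≤ (1 / (2 * r)) * ((1 + (1 + (z x).re))
          * Real.exp (Lam r / (1 + 2 * (1 + (z x).re) / d1 r ^ 2))) := by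
      have : 0 ≤ 1 + (1 + (z x).re) := by linarith
      positivity
    have h8 := mul_le_mul_of_nonneg_right h3 h7
    have h9 : 0 ≤ (1 + ε) * P ((bt r : ℝ) : ℂ) x := by positivity
    calc _ ≤ _ := h5
      _ = _ := h6
      _ ≤ _ := h8
      _ ≤ _ := by
        rw [mul_assoc (1 + ε) (1 / (2 * r))]
        linarith
  · have h5 : Lam r / (1 + 2 * (1 + (z x).re) / d1 r ^ 2) ≤ Lam r * d1 r * d1 r / 2 := by
      have h6 : 2 / d1 r ^ 2 ≤ 1 + 2 * (1 + (z x).re) / d1 r ^ 2 := by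
        have : 2 / d1 r ^ 2 ≤ 2 * (1 + (z x).re) / d1 r ^ 2 :=
          div_le_div_of_nonneg_right (by linarith) hd2.le
        linarith
      have h7 : 0 < 2 / d1 r ^ 2 := by positivity
      calc Lam r / (1 + 2 * (1 + (z x).re) / d1 r ^ 2) ≤ Lam r / (2 / d1 r ^ 2) :=
            div_le_div_of_nonneg_left hL.le h7 h6
        _ = Lam r * d1 r * d1 r / 2 := by
            field_simp
    have h8 : Real.exp (Lam r * (Vv (d1 r) (z x)).re) ≤ 1 + ε :=
      (Real.exp_le_exp.2 (hLV.trans (by linarith))).trans h4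
    have h9 := mul_le_mul_of_nonneg_left h8 hP.le
    have h10 : 0 ≤ (1 + ε) * (1 / (2 * r)) * ((1 + (1 + (z x).re))
        * Real.exp (Lam r / (1 + 2 * (1 + (z x).re) / d1 r ^ 2))) := by
      have : 0 ≤ 1 + (1 + (z x).re) := by linarith
      positivity
    linarith [mul_comm (1 + ε) (P ((bt r : ℝ) : ℂ) x)]

/-- `integral_circ` / `integral_haarAddCircle`, shift by `π` (periodic), `Re z(π+ψ) = -cos ψ` -/
theorem circ_re {g : ℝ → ℝ} (hg : Continuous g) :
    ∫ x, g (1 + (z x).re) ∂sigma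
      = (2 * Real.pi)⁻¹ * ∫ ψ in (-Real.pi)..Real.pi, g (1 - Real.cos ψ) := by
  have h1 := integral_circ (fun w : ℂ => g (1 + w.re))
  rw [h1, Real.circleAverage_def, smul_eq_mul]
  congr 1
  have h2 : ∫ ψ in (-Real.pi)..Real.pi, g (1 - Real.cos ψ) =
      ∫ ψ in (-Real.pi)..Real.pi, (fun θ : ℝ => g (1 + Real.cos θ)) (ψ + Real.pi) := by
    refine intervalIntegral.integral_congr fun ψ _ => ?_
    show g (1 - Real.cos ψ) = g (1 + Real.cos (ψ + Real.pi))
    rw [Real.cos_add_pi, sub_eq_add_neg]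
  rw [h2, intervalIntegral.integral_comp_add_right (fun θ : ℝ => g (1 + Real.cos θ)) Real.pi,
    neg_add_cancel,
    show Real.pi + Real.pi = 2 * Real.pi by ring]
  refine intervalIntegral.integral_congr fun θ _ => ?_
  show g (1 + (circleMap 0 1 θ).re) = g (1 + Real.cos θ)
  congr 2
  simp [circleMap, Complex.exp_ofReal_mul_I_re]

private theorem lla_d1 {r : ℝ} (hr : 0 < r) (hL : 0 < Lam r) : d1 r ^ 2 = 4 * (Lam r / r) := by
  unfold d1
  rw [mul_pow, Real.sq_sqrt (div_nonneg hL.le hr.le)]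
  ring

private theorem lla_exp {Λ r t : ℝ} (hΛ : 0 < Λ) (hr : 0 < r) (ht : 0 ≤ t) :
    Λ / (1 + 2 * t / (4 * (Λ / r))) - Λ = -(r * t / 2) / (1 + r * t / (2 * Λ)) := by
  have h1 : 0 < 1 + r * t / (2 * Λ) := by positivity
  have h2 : 2 * t / (4 * (Λ / r)) = r * t / (2 * Λ) := by
    field_simp
    ring
  rw [h2]
  field_simp
  ring

/-- the integrand after the substitution -/
private def lla_G (r u : ℝ) : ℝ :=
  (1 + (1 - Real.cos (u / √r))) *
    Real.exp (Lam r / (1 + 2 * (1 - Real.cos (u / √r)) / d1 r ^ 2) - Lam r)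

private theorem lla_sub {r : ℝ} (hr : 0 < r) :
    √r * ∫ ψ in (-Real.pi)..Real.pi,
      (1 + (1 - Real.cos ψ)) * Real.exp (Lam r / (1 + 2 * (1 - Real.cos ψ) / d1 r ^ 2) - Lam r) =
    ∫ u, (Ioc (-(Real.pi * √r)) (Real.pi * √r)).indicator (lla_G r) u := by
  have hs : 0 < √r := Real.sqrt_pos.2 hr
  have h1 := intervalIntegral.integral_comp_div (a := -(Real.pi * √r)) (b := Real.pi * √r)
    (fun ψ => (1 + (1 - Real.cos ψ)) *
      Real.exp (Lam r / (1 + 2 * (1 - Real.cos ψ) / d1 r ^ 2) - Lam r)) hs.ne'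
  rw [neg_div, mul_div_assoc, div_self hs.ne', mul_one, smul_eq_mul] at h1
  rw [← h1, intervalIntegral.integral_of_le (by nlinarith [Real.pi_pos, mul_pos Real.pi_pos hs]),
    integral_indicator measurableSet_Ioc]
  rfl

private theorem lla_cos (u : ℝ) :
    Tendsto (fun r : ℝ => r * (1 - Real.cos (u / √r))) atTop (𝓝 (u ^ 2 / 2)) := by
  have h0 : Tendsto (fun r : ℝ => u / √r) atTop (𝓝 0) :=
    tendsto_const_nhds.div_atTop Real.tendsto_sqrt_atTop
  have h1 : Tendsto (fun r : ℝ => u ^ 4 * (5 / 96) / r) atTop (𝓝 0) :=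
    tendsto_const_nhds.div_atTop tendsto_id
  rw [tendsto_iff_dist_tendsto_zero]
  refine squeeze_zero' (Eventually.of_forall fun r => dist_nonneg) ?_ h1
  have h2 : ∀ᶠ r : ℝ in atTop, |u / √r| ≤ 1 := by
    have := h0.abs
    rw [abs_zero] at this
    exact this.eventually_le_const zero_lt_one
  filter_upwards [h2, eventually_gt_atTop 0] with r hr hr0
  have hs : √r ^ 2 = r := Real.sq_sqrt hr0.le
  have hs0 : 0 < √r := Real.sqrt_pos.2 hr0
  have h3 := Real.cos_bound hr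
  have h4 : r * (1 - Real.cos (u / √r)) - u ^ 2 / 2 =
      -(r * (Real.cos (u / √r) - (1 - (u / √r) ^ 2 / 2))) := by
    rw [div_pow, hs]
    field_simp
    ring
  rw [Real.dist_eq, h4, abs_neg, abs_mul, abs_of_pos hr0]
  refine (mul_le_mul_of_nonneg_left h3 hr0.le).trans (le_of_eq ?_)
  have h5 : |u / √r| ^ 4 = u ^ 4 / r ^ 2 := by
    have h6 : |u / √r| ^ 4 = ((u / √r) ^ 2) ^ 2 := by
      rw [← sq_abs (u / √r)]
      ring
    rw [h6, div_pow, hs]
    ring
  rw [h5]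
  field_simp

private theorem lla_lim (u : ℝ) :
    Tendsto (fun r : ℝ => (Ioc (-(Real.pi * √r)) (Real.pi * √r)).indicator (lla_G r) u) atTop
      (𝓝 (Real.exp (-(1 / 4) * u ^ 2))) := by
  have hA := lla_cos u
  have h0 : Tendsto (fun r : ℝ => 1 - Real.cos (u / √r)) atTop (𝓝 0) := by
    have h1 : Tendsto (fun r : ℝ => u / √r) atTop (𝓝 0) :=
      tendsto_const_nhds.div_atTop Real.tendsto_sqrt_atTop
    have h2 := (Real.continuous_cos.tendsto 0).comp h1
    rw [Real.cos_zero] at h2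
    simpa using h2.const_sub 1
  have hL := tendsto_Lam
  have hq : Tendsto (fun r : ℝ => r * (1 - Real.cos (u / √r)) / (2 * Lam r)) atTop (𝓝 0) :=
    hA.div_atTop (hL.const_mul_atTop (by norm_num : (0 : ℝ) < 2))
  have hE : Tendsto (fun r : ℝ => -(r * (1 - Real.cos (u / √r)) / 2) /
      (1 + r * (1 - Real.cos (u / √r)) / (2 * Lam r))) atTop (𝓝 (-(1 / 4) * u ^ 2)) := by
    have h1 := ((hA.div_const 2).neg).div (hq.const_add 1) (by norm_num : (1 : ℝ) + 0 ≠ 0)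
    refine (Tendsto.congr (fun r => rfl) h1).trans (le_of_eq ?_)
    congr 1
    ring
  have hF : Tendsto (fun r : ℝ => (1 + (1 - Real.cos (u / √r))) *
      Real.exp (-(r * (1 - Real.cos (u / √r)) / 2) /
      (1 + r * (1 - Real.cos (u / √r)) / (2 * Lam r)))) atTop (𝓝 (Real.exp (-(1 / 4) * u ^ 2))) := by
    have h1 := (h0.const_add 1).mul ((Real.continuous_exp.tendsto _).comp hE)
    rw [add_zero, one_mul] at h1
    exact h1
  refine hF.congr' ?_
  have hbig : ∀ᶠ r : ℝ in atTop, |u| < Real.pi * √r :=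
    (Real.tendsto_sqrt_atTop.const_mul_atTop Real.pi_pos).eventually_gt_atTop |u|
  filter_upwards [hbig, eventually_gt_atTop 0, hL.eventually_gt_atTop 0] with r h1 hr hLr
  have hu := abs_lt.1 h1
  rw [indicator_of_mem (show u ∈ Ioc (-(Real.pi * √r)) (Real.pi * √r) from ⟨hu.1, hu.2.le⟩)]
  unfold lla_G
  rw [lla_d1 hr hLr, lla_exp hLr hr (by linarith [Real.cos_le_one (u / √r)])]

private theorem lla_bound {r : ℝ} (hr : 1 ≤ r) (hL : 0 < Lam r) (u : ℝ) :
    ‖(Ioc (-(Real.pi * √r)) (Real.pi * √r)).indicator (lla_G r) u‖ ≤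
      3 * (Real.exp (-(1 / (2 * Real.pi ^ 2)) * u ^ 2) +
        (1 + Real.pi) ^ (3 / 2 : ℝ) * (1 + ‖u‖) ^ (-(3 / 2) : ℝ)) := by
  have hr0 : 0 < r := by linarith
  have hs : √r ^ 2 = r := Real.sq_sqrt hr0.le
  have hs0 : 0 < √r := Real.sqrt_pos.2 hr0
  have hs1 : 1 ≤ √r := by
    rw [← Real.sqrt_one]
    exact Real.sqrt_le_sqrt hr
  have hpi := Real.pi_pos
  have hB : 0 ≤ (1 + Real.pi) ^ (3 / 2 : ℝ) * (1 + ‖u‖) ^ (-(3 / 2) : ℝ) := by
    have := norm_nonneg u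
    positivity
  have hA : 0 ≤ Real.exp (-(1 / (2 * Real.pi ^ 2)) * u ^ 2) := (Real.exp_pos _).le
  by_cases hu : u ∈ Ioc (-(Real.pi * √r)) (Real.pi * √r)
  swap
  · rw [indicator_of_notMem hu, norm_zero]
    positivity
  rw [indicator_of_mem hu]
  have hψ : |u / √r| ≤ Real.pi := by
    rw [abs_div, abs_of_pos hs0, div_le_iff₀ hs0, abs_le]
    exact ⟨hu.1.le, hu.2⟩
  have ht0 : 0 ≤ 1 - Real.cos (u / √r) := by linarith [Real.cos_le_one (u / √r)]
  have ht2 : 1 + (1 - Real.cos (u / √r)) ≤ 3 := by linarith [Real.neg_one_le_cos (u / √r)]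
  have htq := Real.cos_le_one_sub_mul_cos_sq hψ
  unfold lla_G
  rw [lla_d1 hr0 hL, lla_exp hL hr0 ht0]
  set t := 1 - Real.cos (u / √r) with ht
  have hrt : 2 / Real.pi ^ 2 * u ^ 2 ≤ r * t := by
    have h1 : 2 / Real.pi ^ 2 * (u / √r) ^ 2 ≤ t := by
      rw [ht]
      linarith
    rw [div_pow, hs] at h1
    have h2 := mul_le_mul_of_nonneg_left h1 hr0.le
    refine le_trans (le_of_eq ?_) h2
    field_simp
  have hrt0 : 0 ≤ r * t := mul_nonneg hr0.le ht0
  rw [norm_mul, Real.norm_eq_abs, Real.norm_eq_abs, abs_of_nonneg (by linarith), Real.abs_exp]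
  refine mul_le_mul ht2 ?_ (Real.exp_pos _).le (by norm_num)
  have hden : 0 < 1 + r * t / (2 * Lam r) := by positivity
  rcases le_total (r * t) (2 * Lam r) with hc | hc
  · refine le_trans (Real.exp_le_exp.2 ?_) (le_add_of_nonneg_right hB)
    have h1 : r * t / (2 * Lam r) ≤ 1 := by
      rw [div_le_one (by positivity)]
      exact hc
    have h2 : r * t / 4 ≤ (r * t / 2) / (1 + r * t / (2 * Lam r)) := by
      rw [le_div_iff₀ hden]
      nlinarith
    have h3 : 1 / (2 * Real.pi ^ 2) * u ^ 2 ≤ r * t / 4 := by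
      have : 1 / (2 * Real.pi ^ 2) * u ^ 2 = (2 / Real.pi ^ 2 * u ^ 2) / 4 := by
        field_simp
        ring
      rw [this]
      linarith
    rw [neg_div]
    linarith
  · refine le_trans ?_ (le_add_of_nonneg_left hA)
    have h1 : Lam r / 2 ≤ (r * t / 2) / (1 + r * t / (2 * Lam r)) := by
      rw [le_div_iff₀ hden]
      have : Lam r / 2 * (1 + r * t / (2 * Lam r)) = Lam r / 2 + r * t / 4 := by
        field_simp
        ring
      rw [this]
      linarith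
    have h2 : Real.exp (-(r * t / 2) / (1 + r * t / (2 * Lam r))) ≤ Real.exp (-(Lam r / 2)) := by
      rw [neg_div]
      exact Real.exp_le_exp.2 (neg_le_neg h1)
    refine h2.trans ?_
    have h3 : Real.exp (-(Lam r / 2)) ≤ √r ^ (-(3 / 2) : ℝ) := by
      have h4 : (Real.exp (Lam r)) = 2 * √Real.pi * r ^ (3 / 2 : ℝ) := exp_Lam hr0
      have h5 : 1 ≤ 2 * √Real.pi := by
        have : 1 ≤ √Real.pi := by
          rw [← Real.sqrt_one]
          exact Real.sqrt_le_sqrt (by linarith [Real.pi_gt_three])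
        linarith
      have h6 : r ^ (3 / 2 : ℝ) ≤ Real.exp (Lam r) := by
        rw [h4]
        have : 0 ≤ r ^ (3 / 2 : ℝ) := by positivity
        nlinarith
      have h7 : Real.exp (-(Lam r / 2)) = (Real.exp (Lam r)) ^ (-(1 / 2) : ℝ) := by
        rw [← Real.exp_mul]
        congr 1
        ring
      rw [h7]
      refine (Real.rpow_le_rpow_of_nonpos (by positivity) h6 (by norm_num)).trans (le_of_eq ?_)
      rw [← Real.rpow_mul hr0.le, Real.sqrt_eq_rpow, ← Real.rpow_mul hr0.le]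
      norm_num
    refine h3.trans ?_
    have h8 : (1 + ‖u‖) / (1 + Real.pi) ≤ √r := by
      rw [div_le_iff₀ (by positivity)]
      have : ‖u‖ ≤ Real.pi * √r := by
        rw [Real.norm_eq_abs, abs_le]
        exact ⟨hu.1.le, hu.2⟩
      nlinarith
    have h9 : 0 < (1 + ‖u‖) / (1 + Real.pi) := by
      have := norm_nonneg u
      positivity
    refine (Real.rpow_le_rpow_of_nonpos h9 h8 (by norm_num)).trans (le_of_eq ?_)
    have h10 : (0 : ℝ) ≤ 1 + ‖u‖ := by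
      have := norm_nonneg u
      linarith
    rw [Real.div_rpow h10 (by positivity), Real.rpow_neg (by positivity : (0 : ℝ) ≤ 1 + Real.pi),
      div_inv_eq_mul, mul_comm]

/-- Laplace: substitute `ψ = u/√r`; with `t = 1 - cos ψ` and `d1 r ^ 2 = 4 Λ/r` the exponent minus
`Λ` is `-(r t/2)/(1 + r t/(2Λ)) → -u^2/4`, `t → 0`. Dominated convergence
(`tendsto_integral_filter_of_dominated_convergence`) with the bound
`3 (exp (-u^2/(2π^2)) + (2π)^(3/2) (1+|u|)^(-3/2))`: `t ≥ 2 ψ^2/π^2` on `[-π,π]`; if `r t ≤ 2Λ` the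
exponent is at most `-r t/4 ≤ -u^2/(2π^2)`, otherwise it is at most `-Λ/2` and
`exp (-Λ/2) ≤ r^(-3/4) ≤ (π/|u|)^(3/2)`. Value: `∫ exp (-u^2/4) = 2 √π`. -/
theorem tendsto_laplace : Tendsto (fun r : ℝ => √r * ∫ ψ in (-Real.pi)..Real.pi,
    (1 + (1 - Real.cos ψ)) * Real.exp (Lam r / (1 + 2 * (1 - Real.cos ψ) / d1 r ^ 2) - Lam r))
    atTop (𝓝 (2 * √Real.pi)) := by
  have hpi := Real.pi_pos
  have hval : ∫ u : ℝ, Real.exp (-(1 / 4) * u ^ 2) = 2 * √Real.pi := by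
    rw [integral_gaussian]
    have h1 : Real.pi / (1 / 4) = 2 ^ 2 * Real.pi := by ring
    rw [h1, Real.sqrt_mul (by norm_num), Real.sqrt_sq (by norm_num)]
  rw [← hval]
  have hmain : Tendsto (fun r : ℝ =>
      ∫ u, (Ioc (-(Real.pi * √r)) (Real.pi * √r)).indicator (lla_G r) u) atTop
      (𝓝 (∫ u : ℝ, Real.exp (-(1 / 4) * u ^ 2))) := by
    refine tendsto_integral_filter_of_dominated_convergence
      (fun u => 3 * (Real.exp (-(1 / (2 * Real.pi ^ 2)) * u ^ 2) +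
        (1 + Real.pi) ^ (3 / 2 : ℝ) * (1 + ‖u‖) ^ (-(3 / 2) : ℝ))) ?_ ?_ ?_ ?_
    · refine Eventually.of_forall fun r => Measurable.aestronglyMeasurable ?_
      refine Measurable.indicator ?_ measurableSet_Ioc
      unfold lla_G
      fun_prop
    · filter_upwards [eventually_ge_atTop 1, tendsto_Lam.eventually_gt_atTop 0] with r hr hL
      exact Eventually.of_forall fun u => lla_bound hr hL u
    · refine Integrable.const_mul (Integrable.add ?_ (Integrable.const_mul ?_ _)) _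
      · exact integrable_exp_neg_mul_sq (by positivity)
      · exact integrable_one_add_norm (by simp; norm_num)
    · exact Eventually.of_forall fun u => lla_lim u
  refine hmain.congr' ?_
  filter_upwards [eventually_gt_atTop 0] with r hr
  exact (lla_sub hr).symm

/-- `weight_le`, `circ_re`, `tendsto_laplace`, `exp_Lam`:
`(1/(2r)) (2 √π r^(3/2)) (1/(2π)) (2 √π / √r) = 1`; `integral_P` -/
theorem mass_le {ε : ℝ} (hε : 0 < ε) : ∀ᶠ r : ℝ in atTop,
    ∫ x, P ((bt r : ℝ) : ℂ) x * Real.exp (Lam r * (Vv (d1 r) (z x)).re) ∂sigma ≤ 2 + ε := by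
  obtain ⟨δ, hδ0, hδ1, hδ4⟩ : ∃ δ : ℝ, 0 < δ ∧ δ ≤ 1 ∧ 4 * δ ≤ ε :=
    ⟨min 1 (ε / 4), lt_min one_pos (by positivity), min_le_left _ _, by
      have := min_le_right 1 (ε / 4)
      linarith⟩
  have hlim := tendsto_laplace.const_mul (√Real.pi / (2 * Real.pi))
  have hval : √Real.pi / (2 * Real.pi) * (2 * √Real.pi) = 1 := by
    have h1 : √Real.pi * √Real.pi = Real.pi := Real.mul_self_sqrt Real.pi_pos.le
    have h2 := Real.pi_pos
    rw [div_mul_eq_mul_div, div_eq_one_iff_eq (by positivity)]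
    linear_combination 2 * h1
  rw [hval] at hlim
  filter_upwards [weight_le hδ0, hlim.eventually_le_const (show (1 : ℝ) < 1 + δ by linarith),
    eventually_gt_atTop 1] with r hw hJ hr1
  have hr0 : 0 < r := by linarith
  have hb : ‖((bt r : ℝ) : ℂ)‖ < 1 := by
    rw [Complex.norm_real, Real.norm_eq_abs, abs_lt]
    unfold bt
    have h1 : 0 < 1 / r := by positivity
    have h2 : 1 / r < 1 := by
      rw [div_lt_one hr0]
      exact hr1
    constructor <;> linarith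
  -- the continuous version of the weight
  let g : ℝ → ℝ := fun t => (1 + t) * Real.exp (Lam r / (1 + 2 * max t 0 / d1 r ^ 2))
  have hgc : Continuous g := by
    refine (continuous_const.add continuous_id).mul (Real.continuous_exp.comp ?_)
    refine continuous_const.div ?_ fun t => ?_
    · exact continuous_const.add
        ((continuous_const.mul (continuous_id.max continuous_const)).div_const _)
    · have h1 : 0 ≤ 2 * max t 0 / d1 r ^ 2 := by positivity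
      have h2 : 0 < 1 + 2 * max t 0 / d1 r ^ 2 := by linarith
      exact h2.ne'
  have hg : ∀ t : ℝ, 0 ≤ t → g t = (1 + t) * Real.exp (Lam r / (1 + 2 * t / d1 r ^ 2)) := by
    intro t ht
    show (1 + t) * Real.exp (Lam r / (1 + 2 * max t 0 / d1 r ^ 2)) = _
    rw [max_eq_left ht]
  have hre : ∀ x : Circ, 0 ≤ 1 + (z x).re := by
    intro x
    have h1 := Complex.abs_re_le_norm (z x)
    rw [norm_z] at h1
    have h2 := neg_le_of_abs_le h1
    linarith
  have hcz : Continuous fun x : Circ => g (1 + (z x).re) :=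
    hgc.comp (continuous_const.add (Complex.continuous_re.comp continuous_z))
  have hPi : Integrable (P ((bt r : ℝ) : ℂ)) sigma :=
    (continuous_P hb).integrable_of_hasCompactSupport (HasCompactSupport.of_compactSpace _)
  have hgi : Integrable (fun x : Circ => g (1 + (z x).re)) sigma :=
    hcz.integrable_of_hasCompactSupport (HasCompactSupport.of_compactSpace _)
  have h1 : ∫ x, P ((bt r : ℝ) : ℂ) x * Real.exp (Lam r * (Vv (d1 r) (z x)).re) ∂sigma ≤
      ∫ x, ((1 + δ) * P ((bt r : ℝ) : ℂ) x + (1 + δ) * (1 / (2 * r)) * g (1 + (z x).re)) ∂sigma := by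
    refine integral_mono_of_nonneg (Eventually.of_forall fun x => ?_)
      ((hPi.const_mul _).add (hgi.const_mul _)) (Eventually.of_forall fun x => ?_)
    · exact mul_nonneg (P_pos hb x).le (Real.exp_pos _).le
    · have h2 := hw x
      rw [← hg _ (hre x)] at h2
      exact h2
  have h2 : ∫ x, ((1 + δ) * P ((bt r : ℝ) : ℂ) x + (1 + δ) * (1 / (2 * r)) * g (1 + (z x).re)) ∂sigma
      = (1 + δ) * (1 + √Real.pi / (2 * Real.pi) * (√r * ∫ ψ in (-Real.pi)..Real.pi,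
    (1 + (1 - Real.cos ψ)) * Real.exp (Lam r / (1 + 2 * (1 - Real.cos ψ) / d1 r ^ 2) - Lam r))) := by
    rw [integral_add (hPi.const_mul _) (hgi.const_mul _), integral_const_mul, integral_const_mul,
      integral_P hb, circ_re hgc]
    have h3 : ∫ ψ in (-Real.pi)..Real.pi, g (1 - Real.cos ψ) = Real.exp (Lam r) *
        ∫ ψ in (-Real.pi)..Real.pi, (1 + (1 - Real.cos ψ)) *
          Real.exp (Lam r / (1 + 2 * (1 - Real.cos ψ) / d1 r ^ 2) - Lam r) := by
      rw [← intervalIntegral.integral_const_mul]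
      refine intervalIntegral.integral_congr fun ψ _ => ?_
      show g (1 - Real.cos ψ) = _
      rw [hg _ (by linarith [Real.cos_le_one ψ]), Real.exp_sub]
      have := (Real.exp_pos (Lam r)).ne'
      field_simp
    have h4 : r ^ (3 / 2 : ℝ) = r * √r := by
      rw [show (3 / 2 : ℝ) = 1 + 1 / 2 by norm_num, Real.rpow_add hr0, Real.rpow_one,
        Real.sqrt_eq_rpow]
    rw [h3, exp_Lam hr0, h4]
    have hpi := Real.pi_pos.ne'
    field_simp
  rw [h2] at h1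
  refine h1.trans ?_
  have h5 : (1 + δ) * (1 + √Real.pi / (2 * Real.pi) * (√r * ∫ ψ in (-Real.pi)..Real.pi,
    (1 + (1 - Real.cos ψ)) * Real.exp (Lam r / (1 + 2 * (1 - Real.cos ψ) / d1 r ^ 2) - Lam r))) ≤
      (1 + δ) * (1 + (1 + δ)) :=
    mul_le_mul_of_nonneg_left (by linarith) (by linarith)
  refine h5.trans ?_
  nlinarith

/-- `F(b) = b exp((Λ/r) V(b))` is real and at least `b`; it is at most `1 + 1/r`... only the lower
bound is needed together with `F(b) ≤ ‖F(z)‖ + ...`: elementary -/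
theorem Ft_bt {r : ℝ} (hr : 1 < r) (hL : 0 < Lam r) :
    ∃ y : ℝ, Ft r ((bt r : ℝ) : ℂ) = (y : ℂ) ∧ bt r ≤ y := by
  have hr0 : 0 < r := by linarith
  have hd : 0 ≤ d1 r := by
    unfold d1
    positivity
  have hb : 0 ≤ bt r := by
    unfold bt
    rw [sub_nonneg, div_le_one hr0]
    exact hr.le
  refine ⟨bt r * Real.exp (Lam r / r * (d1 r / (1 + d1 r + bt r))), ?_, ?_⟩
  · unfold Ft Vv
    push_cast
    rfl
  · have h1 : 0 ≤ Lam r / r * (d1 r / (1 + d1 r + bt r)) := by positivity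
    have h2 : 1 ≤ Real.exp (Lam r / r * (d1 r / (1 + d1 r + bt r))) := Real.one_le_exp h1
    nlinarith

/-- for `Y, y > 0`, a real angle `θ` and `w = -Y e^(iθ)`:
`‖w - y‖^2 = (Y+y)^2 - 4 Y y sin^2(θ/2) ≥ (Y+y)^2 cos^2(θ/2)` -/
theorem norm_polar_sub {Y y θ : ℝ} (hY : 0 < Y) (hy : 0 < y) :
    (Y + y) * |Real.cos (θ / 2)| ≤ ‖-(Y : ℂ) * Complex.exp (θ * Complex.I) - y‖ := by
  have h1 : ‖-(Y : ℂ) * Complex.exp (θ * Complex.I) - y‖ ^ 2 =
      Y ^ 2 + y ^ 2 + 2 * Y * y * Real.cos θ := by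
    have hre : (-(Y : ℂ) * Complex.exp (θ * Complex.I) - y).re = -(Y * Real.cos θ) - y := by
      simp [Complex.exp_ofReal_mul_I_re]
    have him : (-(Y : ℂ) * Complex.exp (θ * Complex.I) - y).im = -(Y * Real.sin θ) := by
      simp [Complex.exp_ofReal_mul_I_im]
    rw [← Complex.normSq_eq_norm_sq, Complex.normSq_apply, hre, him]
    have := Real.sin_sq_add_cos_sq θ
    linear_combination Y ^ 2 * this
  have h2 : Real.cos θ = 2 * Real.cos (θ / 2) ^ 2 - 1 := by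
    rw [← Real.cos_two_mul]
    congr 1
    ring
  have h3 : Real.cos (θ / 2) ^ 2 ≤ 1 := Real.cos_sq_le_one _
  have h4 : ((Y + y) * |Real.cos (θ / 2)|) ^ 2 ≤
      ‖-(Y : ℂ) * Complex.exp (θ * Complex.I) - y‖ ^ 2 := by
    rw [h1, h2, mul_pow, sq_abs]
    nlinarith [mul_nonneg (sq_nonneg (Y - y)) (sub_nonneg.2 h3)]
  exact le_of_sq_le_sq h4 (norm_nonneg _)

/-- `cos(θ/2) ≥ 1 - θ^2/8`, so `cos(θ/2)^r ≥ (1-ε) exp(-r θ^2/8)` if `r θ^4` is small -/
theorem cos_rpow_ge {ε X : ℝ} (hε : 0 < ε) : ∀ᶠ r : ℝ in atTop, ∀ θ : ℝ, |θ| ≤ X / √r →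
    (1 - ε) * Real.exp (-(r * θ ^ 2 / 8)) ≤ |Real.cos (θ / 2)| ^ r := by
  filter_upwards [eventually_gt_atTop 0, eventually_ge_atTop (X ^ 2 / 4),
    eventually_ge_atTop (X ^ 4 / (32 * ε))] with r hr0 hr1 hr2 θ hθ
  have hθ2 : θ ^ 2 ≤ X ^ 2 / r := by
    have h1 : |θ| ^ 2 ≤ (X / √r) ^ 2 := pow_le_pow_left₀ (abs_nonneg _) hθ 2
    rwa [sq_abs, div_pow, Real.sq_sqrt hr0.le] at h1
  obtain ⟨v, hv⟩ : ∃ v : ℝ, v = θ ^ 2 / 8 := ⟨_, rfl⟩
  have hv0 : 0 ≤ v := by
    rw [hv]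
    positivity
  have hrv : r * v ≤ X ^ 2 / 8 := by
    rw [le_div_iff₀ hr0] at hθ2
    rw [hv]
    linarith
  have hv1 : v ≤ 1 / 2 := by
    have h1 : X ^ 2 ≤ 4 * r := by linarith
    have h2 : r * v ≤ r * (1 / 2) := by linarith
    exact le_of_mul_le_mul_left h2 hr0
  have hrv2 : 2 * (r * v ^ 2) ≤ ε := by
    have h1 : X ^ 4 ≤ r * (32 * ε) := by
      rwa [div_le_iff₀ (by positivity)] at hr2
    have h2 : (r * v) ^ 2 ≤ (X ^ 2 / 8) ^ 2 := pow_le_pow_left₀ (by positivity) hrv 2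
    have h3 : r * (2 * (r * v ^ 2)) ≤ r * ε := by nlinarith
    exact le_of_mul_le_mul_left h3 hr0
  have hcos : 1 - v ≤ |Real.cos (θ / 2)| := by
    refine le_trans ?_ (le_abs_self _)
    have h1 := Real.one_sub_sq_div_two_le_cos (x := θ / 2)
    rw [hv]
    refine le_trans (le_of_eq ?_) h1
    ring
  have hpos : 0 < 1 - v := by linarith
  have hlog : -(v + 2 * v ^ 2) ≤ Real.log (1 - v) := by
    refine le_trans ?_ (Real.one_sub_inv_le_log_of_pos hpos)
    have h1 : (1 - v)⁻¹ ≤ 1 + v + 2 * v ^ 2 := by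
      rw [inv_le_iff_one_le_mul₀ hpos]
      nlinarith [mul_nonneg (sq_nonneg v) (sub_nonneg.2 hv1)]
    linarith
  calc (1 - ε) * Real.exp (-(r * θ ^ 2 / 8))
      ≤ Real.exp (-(2 * (r * v ^ 2))) * Real.exp (-(r * θ ^ 2 / 8)) := by
        refine mul_le_mul_of_nonneg_right ?_ (Real.exp_pos _).le
        have h1 := Real.add_one_le_exp (-(2 * (r * v ^ 2)))
        linarith
    _ = Real.exp (-(v + 2 * v ^ 2) * r) := by
        rw [← Real.exp_add, hv]
        congr 1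
        ring
    _ ≤ Real.exp (Real.log (1 - v) * r) :=
        Real.exp_le_exp.2 (mul_le_mul_of_nonneg_right hlog hr0.le)
    _ = (1 - v) ^ r := (Real.rpow_def_of_pos hpos r).symm
    _ ≤ |Real.cos (θ / 2)| ^ r := Real.rpow_le_rpow hpos.le hcos hr0.le

theorem lco_log {s : ℝ} (hs : 0 ≤ s) : s - s ^ 2 ≤ Real.log (1 + s) := by
  have h1 := Real.one_sub_inv_le_log_of_pos (by linarith : 0 < 1 + s)
  refine le_trans ?_ h1
  have h2 : 1 - (1 + s)⁻¹ = s / (1 + s) := by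
    have : 1 + s ≠ 0 := by linarith
    field_simp
    ring
  rw [h2, le_div_iff₀ (by linarith)]
  nlinarith [pow_nonneg hs 3, pow_nonneg hs 2]

theorem lco_z (ψ : ℝ) : z ((Real.pi + ψ : ℝ) : Circ) = -Complex.exp (ψ * Complex.I) := by
  rw [z_coe]
  push_cast
  rw [add_mul, Complex.exp_add, Complex.exp_pi_mul_I]
  ring

theorem lco_re (ψ : ℝ) : (-Complex.exp (ψ * Complex.I)).re = -Real.cos ψ := by
  rw [Complex.neg_re, Complex.exp_ofReal_mul_I_re]

/-- the core. `z = -e^(iψ)`, `F(z) = -Y e^(iθ)` with `Y = exp((Λ/r) Re V)`,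
`θ = ψ + (Λ/r) Im V`, `|θ - ψ| ≤ Λ/r` (`norm_Vv_le`), `F(b) = y ≥ 1 - 1/r` (`Ft_bt`);
`norm_polar_sub`, `cos_rpow_ge` (with `X+1`; `r θ^2 ≤ r ψ^2 + o(1)` as `r |θ-ψ| (|θ|+|ψ|) ≤
2 (X+1) Λ/√r`), `(Y + 1 - 1/r)^r ≥ 2^r (1 + (L-1)/(2r))^r` with `L = Λ Re V`, `Y ≥ 1 + L/r`, and
`(1 + (L-1)/(2r))^r ≥ (1-ε) exp((L-1)/2)` as `L^2/r → 0`; `L ≥ Λ - (1+d) r ψ^2/4`
(`re_Vv_ge`, `t = 1 - cos ψ ≤ ψ^2/2`, `Λ/d^2 = r/4`), `exp (Λ/2) = (2√π)^(1/2) r^(3/4)`. -/
theorem core_ge {ε X : ℝ} (hε : 0 < ε) (hX : 0 < X) : ∀ᶠ r : ℝ in atTop, ∀ ψ : ℝ,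
    |ψ| ≤ X / √r → (1 - ε) * (2 ^ r * Real.exp (-(1 / 2)) * Real.exp (Lam r / 2)
      * Real.exp (-(r * ψ ^ 2 / 4)))
      ≤ ‖Ft r (-Complex.exp (ψ * Complex.I)) - Ft r ((bt r : ℝ) : ℂ)‖ ^ r := by
  obtain ⟨κ, hκ⟩ : ∃ κ, κ = min (ε / 4) (1 / 8) := ⟨_, rfl⟩
  have hκ0 : 0 < κ := by rw [hκ]; positivity
  have hκ1 : κ ≤ ε / 4 := by rw [hκ]; exact min_le_left _ _
  have hκ2 : κ ≤ 1 / 8 := by rw [hκ]; exact min_le_right _ _
  obtain ⟨c, hc⟩ : ∃ c, c = min 1 (4 * κ / (X + 1)) := ⟨_, rfl⟩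
  have hc0 : 0 < c := by rw [hc]; positivity
  have hc1 : c ≤ 1 := by rw [hc]; exact min_le_left _ _
  have hc2 : c * (X + 1) ≤ 4 * κ := by
    have h1 : c ≤ 4 * κ / (X + 1) := by rw [hc]; exact min_le_right _ _
    rwa [le_div_iff₀ (by linarith)] at h1
  have E1 := tendsto_Lam.eventually_ge_atTop (2 + X ^ 2 / 2)
  have E2 := (tendsto_d1.eventually_lt_const (show (0 : ℝ) < min 1 (8 * κ / X ^ 2) by positivity))
  have E3 := tendsto_Lam_sq.eventually_lt_const (show (0 : ℝ) < min (c ^ 2) (4 * κ) by positivity)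
  filter_upwards [E1, E2, E3, cos_rpow_ge (X := X + 1) hκ0, eventually_ge_atTop (2 : ℝ)]
    with r e1 e2 e3 e4 e5 ψ hψ
  have hr0 : 0 < r := by linarith
  have hL0 : 0 < Lam r := by nlinarith [sq_nonneg X]
  obtain ⟨Λ, hΛ⟩ : ∃ Λ, Λ = Lam r := ⟨_, rfl⟩
  have hsr : 0 < √r := Real.sqrt_pos.2 hr0
  have hsr2 : √r ^ 2 = r := Real.sq_sqrt hr0.le
  obtain ⟨d, hd⟩ : ∃ d, d = d1 r := ⟨_, rfl⟩
  have hd0 : 0 < d := by
    rw [hd]
    unfold d1
    positivity
  have hd2 : d ^ 2 = 4 * Λ / r := by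
    rw [hd, hΛ]
    unfold d1
    rw [mul_pow, Real.sq_sqrt (by positivity)]
    ring
  rw [← hd] at e2
  have hd1' : d < 1 := e2.trans_le (min_le_left _ _)
  have hdX : d * X ^ 2 ≤ 8 * κ := by
    have h1 : d < 8 * κ / X ^ 2 := e2.trans_le (min_le_right _ _)
    rw [lt_div_iff₀ (by positivity)] at h1
    exact h1.le
  rw [← hΛ] at e1 e3 hL0
  have hΛc : Λ / √r ≤ c := by
    have h1 : (Λ / √r) ^ 2 ≤ c ^ 2 := by
      rw [div_pow, hsr2]
      exact (e3.trans_le (min_le_left _ _)).le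
    exact le_of_sq_le_sq h1 hc0.le |> fun h => h
  have hΛκ : Λ ^ 2 / r ≤ 4 * κ := (e3.trans_le (min_le_right _ _)).le
  have hΛr : Λ / r = Λ / √r / √r := by
    rw [div_div, ← sq, hsr2]
  -- the point on the circle
  obtain ⟨w, hw⟩ : ∃ w : ℂ, w = -Complex.exp (ψ * Complex.I) := ⟨_, rfl⟩
  have hwz : z ((Real.pi + ψ : ℝ) : Circ) = w := by rw [hw, lco_z]
  have hwn : ‖w‖ = 1 := by rw [← hwz, norm_z]
  have hwre : w.re = -Real.cos ψ := by rw [hw, lco_re]
  obtain ⟨V, hV⟩ : ∃ V : ℂ, V = Vv d w := ⟨_, rfl⟩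
  have hVn : ‖V‖ ≤ 1 := by rw [hV]; exact norm_Vv_le hd0 hwn.le
  have hVre1 : V.re ≤ 1 := (Complex.re_le_norm V).trans hVn
  have hVim : |V.im| ≤ 1 := (Complex.abs_im_le_norm V).trans hVn
  have hVge : 1 - 2 * (1 + d) * (1 + w.re) / d ^ 2 ≤ V.re := by
    have := re_Vv_ge hd0 ((Real.pi + ψ : ℝ) : Circ)
    rwa [hwz, ← hV] at this
  obtain ⟨θ, hθ⟩ : ∃ θ, θ = ψ + Λ / r * V.im := ⟨_, rfl⟩
  obtain ⟨Y, hY⟩ : ∃ Y, Y = Real.exp (Λ / r * V.re) := ⟨_, rfl⟩
  have hY0 : 0 < Y := by rw [hY]; exact Real.exp_pos _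
  have hFw : Ft r w = -(Y : ℂ) * Complex.exp (θ * Complex.I) := by
    unfold Ft
    rw [← hd, ← hV, ← hΛ]
    have h1 : ((Λ / r : ℝ) : ℂ) * V = ((Λ / r * V.re : ℝ) : ℂ) + ((Λ / r * V.im : ℝ) : ℂ) * Complex.I := by
      conv_lhs => rw [← Complex.re_add_im V]
      push_cast
      ring
    rw [h1, Complex.exp_add, hw, hθ, hY, Complex.ofReal_add (ψ) (Λ / r * V.im), add_mul, Complex.exp_add,
      Complex.ofReal_exp]
    ring
  obtain ⟨y, hy1, hy2⟩ := Ft_bt (by linarith : 1 < r) (by rw [← hΛ]; exact hL0)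
  have hb : bt r = 1 - 1 / r := rfl
  have hri : 1 / r ≤ 1 / 2 := one_div_le_one_div_of_le (by norm_num) e5
  have hri0 : 0 < 1 / r := by positivity
  have hy0 : 0 < y := by rw [hb] at hy2; linarith
  have hpol := norm_polar_sub (θ := θ) hY0 hy0
  rw [← hw, hFw, hy1]
  -- the angle
  have hψ2 : r * ψ ^ 2 ≤ X ^ 2 := by
    have h1 : ψ ^ 2 ≤ (X / √r) ^ 2 := by
      rw [← sq_abs ψ]
      exact pow_le_pow_left₀ (abs_nonneg _) hψ 2
    rw [div_pow, hsr2, le_div_iff₀ hr0] at h1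
    linarith
  have hdiff : |θ - ψ| ≤ Λ / r := by
    rw [hθ, add_sub_cancel_left, abs_mul, abs_of_pos (by positivity)]
    exact mul_le_of_le_one_right (by positivity) hVim
  have hθb : |θ| ≤ (X + 1) / √r := by
    have h1 : |θ| ≤ |ψ| + |θ - ψ| := by
      have := abs_add_le ψ (θ - ψ)
      rwa [add_sub_cancel] at this
    have h2 : Λ / r ≤ 1 / √r := by
      rw [hΛr]
      exact div_le_div_of_nonneg_right (hΛc.trans hc1) hsr.le
    rw [add_div]
    linarith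
  have hθ2 : r * θ ^ 2 / 8 ≤ r * ψ ^ 2 / 8 + κ := by
    have h1 : θ ^ 2 - ψ ^ 2 ≤ Λ / r * ((X + 1) / √r + (X + 1) / √r) := by
      have h2 : θ ^ 2 - ψ ^ 2 = (θ - ψ) * (θ + ψ) := by ring
      rw [h2]
      refine (le_abs_self _).trans ?_
      rw [abs_mul]
      refine mul_le_mul hdiff ?_ (abs_nonneg _) (by positivity)
      refine (abs_add_le _ _).trans (add_le_add hθb (hψ.trans ?_))
      exact div_le_div_of_nonneg_right (by linarith) hsr.le
    have h3 : r * (Λ / r * ((X + 1) / √r + (X + 1) / √r)) = 2 * ((X + 1) * (Λ / √r)) := by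
      field_simp
      ring
    have h4 : r * (θ ^ 2 - ψ ^ 2) ≤ 2 * ((X + 1) * (Λ / √r)) := by
      rw [← h3]
      exact mul_le_mul_of_nonneg_left h1 hr0.le
    have h5 : (X + 1) * (Λ / √r) ≤ 4 * κ := by
      refine le_trans (mul_le_mul_of_nonneg_left hΛc (by linarith)) ?_
      linarith
    linarith
  have hcos := e4 θ hθb
  -- the modulus
  obtain ⟨L, hL⟩ : ∃ L, L = Λ * V.re := ⟨_, rfl⟩
  have hLle : L ≤ Λ := by rw [hL]; exact mul_le_of_le_one_right hL0.le hVre1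
  have hLge : Λ - r * ψ ^ 2 / 4 - 2 * κ ≤ L := by
    have h1 : 1 + w.re ≤ ψ ^ 2 / 2 := by
      rw [hwre]
      have := Real.one_sub_sq_div_two_le_cos (x := ψ)
      linarith
    have h2 := mul_le_mul_of_nonneg_left hVge hL0.le
    have h3 : Λ * (1 - 2 * (1 + d) * (1 + w.re) / d ^ 2) = Λ - r / 2 * (1 + d) * (1 + w.re) := by
      rw [hd2]
      field_simp
      ring
    rw [h3, ← hL] at h2
    have h4 : r / 2 * (1 + d) * (1 + w.re) ≤ r / 2 * (1 + d) * (ψ ^ 2 / 2) :=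
      mul_le_mul_of_nonneg_left h1 (by positivity)
    have h5 : d * (r * ψ ^ 2) ≤ d * X ^ 2 := mul_le_mul_of_nonneg_left hψ2 hd0.le
    nlinarith
  have hL1 : 1 ≤ L := by nlinarith
  obtain ⟨s, hs⟩ : ∃ s, s = (L - 1) / (2 * r) := ⟨_, rfl⟩
  have hs0 : 0 ≤ s := by rw [hs]; exact div_nonneg (by linarith) (by linarith)
  have hYy : 2 * (1 + s) ≤ Y + y := by
    have h1 := Real.add_one_le_exp (Λ / r * V.re)
    rw [← hY] at h1
    have h2 : Λ / r * V.re = L / r := by rw [hL]; ring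
    have h3 : 2 * (1 + s) = (L / r + 1) + (1 - 1 / r) := by
      rw [hs]
      field_simp
      ring
    rw [hb] at hy2
    rw [h2] at h1
    rw [h3]
    linarith
  have hs1 : Real.exp ((L - 1) / 2 - κ) ≤ (1 + s) ^ r := by
    rw [Real.rpow_def_of_pos (by linarith), Real.exp_le_exp]
    have h1 := mul_le_mul_of_nonneg_left (lco_log hs0) hr0.le
    have h2 : r * (s - s ^ 2) = (L - 1) / 2 - (L - 1) ^ 2 / r / 4 := by
      rw [hs]
      field_simp
      ring
    have h3 : (L - 1) ^ 2 / r ≤ Λ ^ 2 / r := by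
      apply div_le_div_of_nonneg_right _ hr0.le
      exact pow_le_pow_left₀ (by linarith) (by linarith) 2
    rw [h2] at h1
    linarith
  have hpow : 2 ^ r * Real.exp ((L - 1) / 2 - κ) ≤ (Y + y) ^ r := by
    refine le_trans (mul_le_mul_of_nonneg_left hs1 (by positivity)) ?_
    rw [← Real.mul_rpow (by norm_num) (by linarith)]
    exact Real.rpow_le_rpow (by linarith) hYy hr0.le
  have hfin : 2 ^ r * Real.exp ((L - 1) / 2 - κ) * ((1 - κ) * Real.exp (-(r * θ ^ 2 / 8)))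
      ≤ ‖-(Y : ℂ) * Complex.exp (θ * Complex.I) - y‖ ^ r := by
    refine le_trans (mul_le_mul hpow hcos ?_ (by positivity)) ?_
    · exact mul_nonneg (by linarith) (Real.exp_pos _).le
    · rw [← Real.mul_rpow (by linarith) (abs_nonneg _)]
      exact Real.rpow_le_rpow (by positivity) hpol hr0.le
  refine le_trans ?_ hfin
  have h2r : 0 < (2 : ℝ) ^ r := by positivity
  have hexp : Real.exp (-(1 / 2)) * Real.exp (Λ / 2) * Real.exp (-(r * ψ ^ 2 / 4)) * Real.exp (-(3 * κ))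
      ≤ Real.exp ((L - 1) / 2 - κ) * Real.exp (-(r * θ ^ 2 / 8)) := by
    rw [← Real.exp_add, ← Real.exp_add, ← Real.exp_add, ← Real.exp_add, Real.exp_le_exp]
    linarith
  have h3κ : 1 - 3 * κ ≤ Real.exp (-(3 * κ)) := by
    have := Real.add_one_le_exp (-(3 * κ))
    linarith
  have hE0 : 0 < Real.exp (-(1 / 2)) * Real.exp (Λ / 2) * Real.exp (-(r * ψ ^ 2 / 4)) := by positivity
  have h4κ : 1 - ε ≤ (1 - κ) * Real.exp (-(3 * κ)) := by
    have h1 := mul_le_mul_of_nonneg_left h3κ (by linarith : (0 : ℝ) ≤ 1 - κ)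
    nlinarith [sq_nonneg κ]
  rw [← hΛ]
  calc (1 - ε) * (2 ^ r * Real.exp (-(1 / 2)) * Real.exp (Λ / 2) * Real.exp (-(r * ψ ^ 2 / 4)))
      ≤ (1 - κ) * Real.exp (-(3 * κ))
        * (2 ^ r * Real.exp (-(1 / 2)) * Real.exp (Λ / 2) * Real.exp (-(r * ψ ^ 2 / 4))) :=
        mul_le_mul_of_nonneg_right h4κ (by positivity)
    _ = (1 - κ) * 2 ^ r * (Real.exp (-(1 / 2)) * Real.exp (Λ / 2) * Real.exp (-(r * ψ ^ 2 / 4))
        * Real.exp (-(3 * κ))) := by ring
    _ ≤ (1 - κ) * 2 ^ r * (Real.exp ((L - 1) / 2 - κ) * Real.exp (-(r * θ ^ 2 / 8))) :=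
        mul_le_mul_of_nonneg_left hexp (mul_nonneg (by linarith) h2r.le)
    _ = _ := by ring

/-- restriction to an arc around `-1`; `z (π+ψ) = -e^(iψ)` -/
theorem arc_le {g : ℂ → ℝ} (hg : ContinuousOn g (closedBall 0 1)) (hg0 : ∀ x : Circ, 0 ≤ g (z x))
    {h : ℝ} (hh0 : 0 < h) (hh : h ≤ Real.pi) :
    (2 * Real.pi)⁻¹ * ∫ ψ in (-h)..h, g (-Complex.exp (ψ * Complex.I)) ≤ ∫ x, g (z x) ∂sigma := by
  have h1 := integral_circ (fun w : ℂ => g w)
  rw [h1, Real.circleAverage_def, smul_eq_mul]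
  refine mul_le_mul_of_nonneg_left ?_ (inv_nonneg.2 Real.two_pi_pos.le)
  have hz : ∀ θ : ℝ, circleMap 0 1 θ ∈ closedBall (0 : ℂ) 1 := fun θ => by
    simp [mem_closedBall, dist_eq_norm]
  have hc : Continuous fun θ : ℝ => g (circleMap 0 1 θ) :=
    hg.comp_continuous (continuous_circleMap 0 1) hz
  have hnn : ∀ θ : ℝ, 0 ≤ g (circleMap 0 1 θ) := by
    intro θ
    have h := hg0 (θ : Circ)
    rw [z_coe] at h
    simpa [circleMap] using h
  have h2 : ∀ ψ : ℝ, g (-Complex.exp (ψ * Complex.I)) = g (circleMap 0 1 (ψ + Real.pi)) := by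
    intro ψ
    congr 1
    simp [circleMap, add_mul, Complex.exp_add, Complex.exp_pi_mul_I]
  simp only [h2]
  have h3 : ∫ θ in (0)..(2 * Real.pi), g (circleMap 0 1 θ) =
      ∫ ψ in (-Real.pi)..Real.pi, g (circleMap 0 1 (ψ + Real.pi)) := by
    rw [intervalIntegral.integral_comp_add_right (fun θ : ℝ => g (circleMap 0 1 θ)) Real.pi,
      neg_add_cancel, show Real.pi + Real.pi = 2 * Real.pi by ring]
  rw [h3]
  refine intervalIntegral.integral_mono_interval (by linarith) (by linarith) hh ?_ ?_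
  · exact Eventually.of_forall fun ψ => hnn _
  · exact (hc.comp (continuous_add_const Real.pi)).intervalIntegrable _ _

/-- `∫ exp(-u^2/4) = 2 √π` (`integral_gaussian`) -/
theorem gauss_X {ε : ℝ} (hε : 0 < ε) : ∃ X : ℝ, 0 < X ∧
    (1 - ε) * (2 * √Real.pi) ≤ ∫ u in (-X)..X, Real.exp (-(u ^ 2 / 4)) := by
  have hI : Integrable (fun u : ℝ => Real.exp (-(u ^ 2 / 4))) := by
    have := integrable_exp_neg_mul_sq (b := 1 / 4) (by norm_num)
    refine this.congr (Eventually.of_forall fun u => ?_)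
    show Real.exp (-(1 / 4) * u ^ 2) = Real.exp (-(u ^ 2 / 4))
    congr 1; ring
  have hV : ∫ u : ℝ, Real.exp (-(u ^ 2 / 4)) = 2 * √Real.pi := by
    have := integral_gaussian (1 / 4)
    rw [show Real.pi / (1 / 4) = 2 ^ 2 * Real.pi by ring, Real.sqrt_mul (by norm_num),
      Real.sqrt_sq (by norm_num)] at this
    rw [← this]
    congr 1
    ext u
    congr 1; ring
  have hT := intervalIntegral_tendsto_integral hI tendsto_neg_atTop_atBot tendsto_id
  rw [hV] at hT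
  have hpos : 0 < 2 * √Real.pi := by positivity
  have hlt : (1 - ε) * (2 * √Real.pi) < 2 * √Real.pi := by nlinarith
  obtain ⟨X, hX, hX0⟩ := ((hT.eventually (lt_mem_nhds hlt)).and (eventually_gt_atTop 0)).exists
  exact ⟨X, hX0, hX.le⟩

private theorem lnu_const {r : ℝ} (hr : 0 < r) :
    1 / (2 * r) * ((2 * Real.pi)⁻¹ * ((2 ^ r * Real.exp (-(1 / 2)) * Real.exp (Lam r / 2)) *
      ((√r)⁻¹ * (2 * √Real.pi)))) = 2 * G0 r := by
  have hG := G0_pos hr
  have hpi := Real.pi_pos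
  have h2 : (0 : ℝ) < 2 ^ r := Real.rpow_pos_of_pos (by norm_num) r
  refine (sq_eq_sq₀ (by positivity) (by positivity)).1 ?_
  have e1 : ((2 : ℝ) ^ r) ^ 2 = 4 ^ r := by
    rw [sq, ← Real.mul_rpow (by norm_num) (by norm_num)]
    norm_num
  have e2 : Real.exp (-(1 / 2)) ^ 2 = (Real.exp 1)⁻¹ := by
    rw [sq, ← Real.exp_add, ← Real.exp_neg]
    norm_num
  have e3 : Real.exp (Lam r / 2) ^ 2 = 2 * √Real.pi * r ^ (3 / 2 : ℝ) := by
    rw [sq, ← Real.exp_add, ← exp_Lam hr]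
    congr 1
    ring
  have e4 : √r ^ 2 = r := Real.sq_sqrt hr.le
  have e5 : √Real.pi ^ 2 = Real.pi := Real.sq_sqrt hpi.le
  have e6 : (r ^ (3 / 2 : ℝ)) ^ 2 = r ^ 3 := by
    rw [← Real.rpow_natCast, ← Real.rpow_mul hr.le]
    norm_num
  have hp : 0 < √Real.pi := Real.sqrt_pos.2 hpi
  have hs : 0 < r ^ (3 / 2 : ℝ) := Real.rpow_pos_of_pos hr _
  have h4 : (0 : ℝ) < 4 ^ r := Real.rpow_pos_of_pos (by norm_num) r
  have e7 : (1 / (2 * r) * ((2 * Real.pi)⁻¹ * ((2 ^ r * Real.exp (-(1 / 2)) *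
      Real.exp (Lam r / 2)) * ((√r)⁻¹ * (2 * √Real.pi))))) ^ 2 =
      (1 / (2 * r)) ^ 2 * (((2 * Real.pi)⁻¹) ^ 2 * (((2 ^ r) ^ 2 * Real.exp (-(1 / 2)) ^ 2 *
      Real.exp (Lam r / 2) ^ 2) * ((√r ^ 2)⁻¹ * (4 * √Real.pi ^ 2)))) := by
    rw [inv_pow]
    ring
  have e8 : (2 * G0 r) ^ 2 = 4 * G0 r ^ 2 := by ring
  rw [e7, e8, G0_sq hr, e1, e2, e3, e4, e5]
  set s := r ^ (3 / 2 : ℝ) with hsdef
  set q := √Real.pi with hq
  rw [← e5]
  have he : 0 < Real.exp 1 := Real.exp_pos 1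
  field_simp
  rw [e6]
  ring

private theorem lnu_P {r : ℝ} (hr : 1 < r) (x : Circ) : 1 / (2 * r) ≤ P ((bt r : ℝ) : ℂ) x := by
  have hr0 : 0 < r := by linarith
  have h1 : 0 < 1 / r := by positivity
  have h2 : 1 / r < 1 := by
    rw [div_lt_one hr0]
    exact hr
  have hb0 : 0 < bt r := by
    unfold bt
    linarith
  have hb1 : bt r < 1 := by
    unfold bt
    linarith
  have hn : ‖((bt r : ℝ) : ℂ)‖ = bt r := by
    rw [Complex.norm_real, Real.norm_eq_abs, abs_of_pos hb0]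
  have hlt : ‖((bt r : ℝ) : ℂ)‖ < 1 := by
    rw [hn]
    exact hb1
  have h3 : 0 < ‖z x - ((bt r : ℝ) : ℂ)‖ := norm_pos_iff.2 (z_sub_ne hlt x)
  have h4 : ‖z x - ((bt r : ℝ) : ℂ)‖ ≤ 1 + bt r := by
    refine (norm_sub_le _ _).trans ?_
    rw [norm_z, hn]
  unfold P
  rw [hn, div_le_div_iff₀ (by positivity) (by positivity), one_mul]
  have h5 : ‖z x - ((bt r : ℝ) : ℂ)‖ ^ 2 ≤ (1 + bt r) ^ 2 := pow_le_pow_left₀ h3.le h4 2
  have h6 : (1 - bt r) * r = 1 := by
    unfold bt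
    field_simp
    ring
  have h7 : (1 - bt r ^ 2) * (2 * r) = 2 * (1 + bt r) := by
    linear_combination 2 * (1 + bt r) * h6
  rw [h7]
  nlinarith

private theorem lnu_sub {r X : ℝ} (hr : 0 < r) :
    ∫ ψ in (-(X / √r))..(X / √r), Real.exp (-(r * ψ ^ 2 / 4)) =
      (√r)⁻¹ * ∫ u in (-X)..X, Real.exp (-(u ^ 2 / 4)) := by
  have hs : 0 < √r := Real.sqrt_pos.2 hr
  have h1 := intervalIntegral.integral_comp_mul_left (a := -(X / √r)) (b := X / √r)
    (fun u : ℝ => Real.exp (-(u ^ 2 / 4))) hs.ne'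
  have e1 : √r * -(X / √r) = -X := by
    field_simp
  have e2 : √r * (X / √r) = X := by
    field_simp
  rw [e1, e2, smul_eq_mul] at h1
  rw [← h1]
  refine intervalIntegral.integral_congr fun ψ _ => ?_
  show Real.exp (-(r * ψ ^ 2 / 4)) = Real.exp (-((√r * ψ) ^ 2 / 4))
  rw [mul_pow, Real.sq_sqrt hr.le]

/-- the numerator: `core_ge`, `arc_le` with `h = X/√r`, `P b ≥ (1-b)/(1+b) ≥ 1/(2r)`, substitution
`ψ = u/√r`, `gauss_X`, `exp_Lam`:
`(1/(2π)) (1/(2r)) 2^r e^(-1/2) (2√π)^(1/2) r^(3/4) r^(-1/2) 2√π = 2 G0 r` -/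
theorem num_ge {ε : ℝ} (hε : 0 < ε) : ∀ᶠ r : ℝ in atTop,
    (1 - ε) * (2 * G0 r) ≤ ∫ x, P ((bt r : ℝ) : ℂ) x
      * ‖Ft r (z x) - Ft r ((bt r : ℝ) : ℂ)‖ ^ r ∂sigma := by
  set δ : ℝ := min ε 1 / 2 with hδ
  have hδ0 : 0 < δ := by positivity
  have hδ1 : δ ≤ 1 / 2 := by
    have := min_le_right ε 1
    linarith
  have hδ2 : 2 * δ ≤ ε := by
    have := min_le_left ε 1
    linarith
  obtain ⟨X, hX, hgX⟩ := gauss_X hδ0
  have hbig : ∀ᶠ r : ℝ in atTop, X / Real.pi < √r :=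
    Real.tendsto_sqrt_atTop.eventually_gt_atTop _
  filter_upwards [eventually_gt_atTop 1, tendsto_Lam.eventually_gt_atTop 0, hbig, core_ge hδ0 hX]
    with r hr hL hXr hcore
  have hr0 : 0 < r := by linarith
  have hs : 0 < √r := Real.sqrt_pos.2 hr0
  have hpi := Real.pi_pos
  have hd : 0 < d1 r := by
    unfold d1
    have : 0 < Lam r / r := by positivity
    positivity
  have hb : ‖((bt r : ℝ) : ℂ)‖ < 1 := by
    rw [Complex.norm_real, Real.norm_eq_abs]
    unfold bt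
    have h5 : 0 < 1 / r := by positivity
    have h6 : 1 / r < 1 := by
      rw [div_lt_one hr0]
      exact hr
    rw [abs_lt]
    constructor <;> linarith
  set g : ℂ → ℝ := fun w => ‖Ft r w - Ft r ((bt r : ℝ) : ℂ)‖ ^ r with hg
  have hgc : ContinuousOn g (closedBall 0 1) := by
    intro w hw
    have hw1 : ‖w‖ ≤ 1 := by simpa using hw
    have h1 : ContinuousAt (Ft r) w := (differentiableAt_Ft hd hw1).continuousAt
    exact ((h1.sub continuousAt_const).norm.rpow_const (Or.inr hr0.le)).continuousWithinAt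
  have hg0 : ∀ w, 0 ≤ g w := fun w => Real.rpow_nonneg (norm_nonneg _) _
  have hh0 : 0 < X / √r := by positivity
  have hh1 : X / √r ≤ Real.pi := by
    rw [div_le_iff₀ hs]
    rw [div_lt_iff₀ hpi] at hXr
    linarith
  have harc := arc_le hgc (fun x => hg0 _) hh0 hh1
  -- the integral over the arc
  set M : ℝ := 2 ^ r * Real.exp (-(1 / 2)) * Real.exp (Lam r / 2) with hM
  have hM0 : 0 < M := by
    have h2 : (0 : ℝ) < 2 ^ r := Real.rpow_pos_of_pos (by norm_num) r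
    positivity
  have hi1 : IntervalIntegrable (fun ψ : ℝ => (1 - δ) * M * Real.exp (-(r * ψ ^ 2 / 4))) volume
      (-(X / √r)) (X / √r) := Continuous.intervalIntegrable (by fun_prop) _ _
  have hi2 : IntervalIntegrable (fun ψ : ℝ => g (-Complex.exp (ψ * Complex.I))) volume
      (-(X / √r)) (X / √r) := by
    refine Continuous.intervalIntegrable ?_ _ _
    refine hgc.comp_continuous (by fun_prop) fun ψ => ?_
    rw [mem_closedBall_zero_iff, norm_neg, Complex.norm_exp_ofReal_mul_I]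
  have hmono : ∫ ψ in (-(X / √r))..(X / √r), (1 - δ) * M * Real.exp (-(r * ψ ^ 2 / 4)) ≤
      ∫ ψ in (-(X / √r))..(X / √r), g (-Complex.exp (ψ * Complex.I)) := by
    refine intervalIntegral.integral_mono_on (by linarith) hi1 hi2 fun ψ hψ => ?_
    refine le_trans (le_of_eq ?_) (hcore ψ (abs_le.2 ⟨hψ.1, hψ.2⟩))
    rw [hM]
    ring
  rw [intervalIntegral.integral_const_mul, lnu_sub hr0] at hmono
  have h1δ : 0 ≤ 1 - δ := by linarith
  have hlow : (1 - δ) * M * ((√r)⁻¹ * ((1 - δ) * (2 * √Real.pi))) ≤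
      ∫ ψ in (-(X / √r))..(X / √r), g (-Complex.exp (ψ * Complex.I)) := by
    refine le_trans ?_ hmono
    gcongr
  have hP : ∀ x : Circ, 1 / (2 * r) * g (z x) ≤ P ((bt r : ℝ) : ℂ) x * g (z x) := fun x =>
    mul_le_mul_of_nonneg_right (lnu_P hr x) (hg0 _)
  have hgz : Continuous fun x : Circ => g (z x) :=
    hgc.comp_continuous continuous_z fun x => by simp
  have hint : 1 / (2 * r) * ∫ x, g (z x) ∂sigma ≤ ∫ x, P ((bt r : ℝ) : ℂ) x * g (z x) ∂sigma := by
    rw [← integral_const_mul]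
    exact integral_mono (integrable_of_continuous (continuous_const.mul hgz))
      (integrable_of_continuous ((continuous_P hb).mul hgz)) hP
  have hG := G0_pos hr0
  calc (1 - ε) * (2 * G0 r) ≤ ((1 - δ) * (1 - δ)) * (2 * G0 r) := by
        refine mul_le_mul_of_nonneg_right ?_ (by positivity)
        nlinarith
    _ = 1 / (2 * r) * ((2 * Real.pi)⁻¹ *
          ((1 - δ) * M * ((√r)⁻¹ * ((1 - δ) * (2 * √Real.pi))))) := by
        rw [← lnu_const hr0, ← hM]
        ring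
    _ ≤ 1 / (2 * r) * ((2 * Real.pi)⁻¹ *
          ∫ ψ in (-(X / √r))..(X / √r), g (-Complex.exp (ψ * Complex.I))) := by
        gcongr
    _ ≤ 1 / (2 * r) * ∫ x, g (z x) ∂sigma := by
        gcongr
    _ ≤ _ := hint

/-- `lower_gen` with `F = Ft r`, `a = bt r`; `mass_le`, `norm_Ft`, `num_ge` -/
theorem lower_sharp {η : ℝ} (hη : 0 < η) : ∃ r0 : ℝ, ∀ (p : ℝ≥0∞) [Fact (1 ≤ p)], p ≠ ∞ →
    r0 ≤ p.toReal → (1 - η) * G0 p.toReal ≤ ‖ContinuousLinearMap.id ℂ (Hp p) - K0H p‖ ^ p.toReal := by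
  have hε : 0 < η / 2 := by positivity
  have hev : ∀ᶠ r : ℝ in atTop, 1 < r ∧ 0 < Lam r ∧
      (∫ x, P ((bt r : ℝ) : ℂ) x * Real.exp (Lam r * (Vv (d1 r) (z x)).re) ∂sigma ≤ 2 + η / 2) ∧
      (1 - η / 2) * (2 * G0 r) ≤ ∫ x, P ((bt r : ℝ) : ℂ) x
        * ‖Ft r (z x) - Ft r ((bt r : ℝ) : ℂ)‖ ^ r ∂sigma := by
    filter_upwards [eventually_gt_atTop 1, tendsto_Lam.eventually_gt_atTop 0, mass_le hε, num_ge hε]
      with r h1 h2 h3 h4
    exact ⟨h1, h2, h3, h4⟩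
  obtain ⟨r0, hr0⟩ := eventually_atTop.1 hev
  refine ⟨r0, fun p _ hp hr => ?_⟩
  obtain ⟨h1, h2, h3, h4⟩ := hr0 p.toReal hr
  set r : ℝ := p.toReal with hrdef
  have hr0' : 0 < r := by linarith
  have hd : 0 < d1 r := by
    unfold d1
    have : 0 < Lam r / r := by positivity
    positivity
  have hb : ‖((bt r : ℝ) : ℂ)‖ < 1 := by
    rw [Complex.norm_real, Real.norm_eq_abs]
    unfold bt
    have h5 : 0 < 1 / r := by positivity
    have h6 : 1 / r < 1 := by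
      rw [div_lt_one hr0']
      exact h1
    rw [abs_lt]
    constructor <;> linarith
  have h5 := lower_gen hp (F := Ft r) (fun w hw => differentiableAt_Ft hd hw) hb
  rw [← hrdef] at h5
  have h6 : ∫ x, P ((bt r : ℝ) : ℂ) x * ‖Ft r (z x)‖ ^ r ∂sigma ≤ 2 + η / 2 := by
    refine le_trans (le_of_eq ?_) h3
    refine integral_congr_ae (Eventually.of_forall fun x => ?_)
    show P ((bt r : ℝ) : ℂ) x * ‖Ft r (z x)‖ ^ r = _
    rw [norm_Ft hr0']
  have hN : 0 ≤ ‖ContinuousLinearMap.id ℂ (Hp p) - K0H p‖ ^ r :=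
    Real.rpow_nonneg (norm_nonneg (ContinuousLinearMap.id ℂ (Hp p) - K0H p)) r
  have h7 := mul_le_mul_of_nonneg_left h6 hN
  have hG := G0_pos hr0'
  have h8 : (1 - η) * G0 r * (2 + η / 2) ≤ (1 - η / 2) * (2 * G0 r) := by
    have h9 : (1 - η / 2) * (2 * G0 r) - (1 - η) * G0 r * (2 + η / 2) =
        G0 r * (η / 2 + η ^ 2 / 2) := by ring
    have h10 : 0 ≤ G0 r * (η / 2 + η ^ 2 / 2) := by positivity
    linarith
  have h9 : (1 - η) * G0 r * (2 + η / 2) ≤
      ‖ContinuousLinearMap.id ℂ (Hp p) - K0H p‖ ^ r * (2 + η / 2) :=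
    h8.trans (h4.trans (h5.trans h7))
  exact le_of_mul_le_mul_right h9 (by positivity)

private theorem lfi_log {r : ℝ} (hr : 0 < r) : Real.log (G0 r) =
    r * Real.log 2 - (3 / 2 * Real.log r + Real.log (8 * Real.exp 1 * √Real.pi)) / 2 := by
  have hp : 0 < 8 * Real.exp 1 * √Real.pi := by positivity
  unfold G0
  rw [Real.log_div (by positivity) (by positivity), Real.log_mul (by positivity) (by positivity),
    Real.log_rpow (by norm_num), Real.log_rpow hr, Real.log_sqrt hp.le]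
  ring

private theorem lfi_lim (C : ℝ) :
    Tendsto (fun r : ℝ => 2 * ((3 / 2 * Real.log r + C) / 2 + 1) ^ 2 / r) atTop (𝓝 0) := by
  have t2 : Tendsto (fun r : ℝ => Real.log r ^ 2 / r) atTop (𝓝 0) :=
    (Real.isLittleO_pow_log_id_atTop (n := 2)).tendsto_div_nhds_zero
  have t1 : Tendsto (fun r : ℝ => Real.log r / r) atTop (𝓝 0) :=
    Real.isLittleO_log_id_atTop.tendsto_div_nhds_zero
  have t0 : Tendsto (fun r : ℝ => 1 / r) atTop (𝓝 0) := by
    simpa using tendsto_inv_atTop_zero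
  have h := ((t2.const_mul (9 / 8)).add (t1.const_mul (3 * (C / 2 + 1)))).add
    (t0.const_mul (2 * (C / 2 + 1) ^ 2))
  simp only [mul_zero, add_zero] at h
  refine h.congr fun r => ?_
  ring

/-- `m = 2 exp(-y/r)` with `y = (3/4) log r + (1/2) log(8 e √π) + O(η)` (logarithm of the two bounds),
and `2 exp(-y/r) = 2 - 2y/r + O((log r)^2/r^2)` -/
theorem expand {ε : ℝ} (hε : 0 < ε) : ∃ η : ℝ, 0 < η ∧ ∃ r1 : ℝ, ∀ r m : ℝ, r1 ≤ r → 0 < m →
    (1 - η) * G0 r ≤ m ^ r → m ^ r ≤ (1 + η) * G0 r →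
    |m - (2 - (3 / 2 * Real.log r + Real.log (8 * Real.exp 1 * √Real.pi)) / r)| ≤ ε / r := by
  set C := Real.log (8 * Real.exp 1 * √Real.pi) with hC
  have ev1 : ∀ᶠ r : ℝ in atTop, 2 * ((3 / 2 * Real.log r + C) / 2 + 1) ^ 2 / r < min (ε / 2) 1 :=
    (lfi_lim C).eventually_lt_const (by positivity)
  have ev2 : ∀ᶠ r : ℝ in atTop, |C| ≤ Real.log r := Real.tendsto_log_atTop.eventually_ge_atTop _
  obtain ⟨r1, hr1⟩ := eventually_atTop.1 ((ev1.and ev2).and (eventually_ge_atTop (1 : ℝ)))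
  refine ⟨min (1 / 2) (ε / 8), by positivity, r1, fun r m hr hm h1 h2 => ?_⟩
  obtain ⟨⟨ha, hb⟩, hr0⟩ := hr1 r hr
  have hrp : 0 < r := by linarith
  have hG := G0_pos hrp
  set η := min (1 / 2) (ε / 8) with hη
  have hη0 : 0 < η := by positivity
  have hη1 : η ≤ 1 / 2 := min_le_left _ _
  have hη2 : η ≤ ε / 8 := min_le_right _ _
  set A := 3 / 2 * Real.log r + C with hA
  have hA0 : 0 ≤ A := by
    have := neg_abs_le C
    have := abs_nonneg C
    rw [hA]
    linarith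
  have hmr : 0 < m ^ r := Real.rpow_pos_of_pos hm r
  have hL : Real.log (G0 r) = r * Real.log 2 - A / 2 := lfi_log hrp
  have hU : r * Real.log m ≤ η + (r * Real.log 2 - A / 2) := by
    have := Real.log_le_log hmr h2
    rw [Real.log_rpow hm, Real.log_mul (by positivity) hG.ne', hL] at this
    have h3 := Real.log_le_sub_one_of_pos (show 0 < 1 + η by linarith)
    linarith
  have hLo : -(2 * η) + (r * Real.log 2 - A / 2) ≤ r * Real.log m := by
    have h4 : 0 < (1 - η) * G0 r := mul_pos (by linarith) hG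
    have := Real.log_le_log h4 h1
    rw [Real.log_rpow hm, Real.log_mul (by linarith) hG.ne', hL] at this
    have h3 := Real.one_sub_inv_le_log_of_pos (show 0 < 1 - η by linarith)
    have h5 : (1 - η)⁻¹ ≤ 1 + 2 * η := by
      rw [inv_le_iff_one_le_mul₀ (by linarith)]
      nlinarith
    linarith
  set x := Real.log m - Real.log 2 with hx
  have hrx1 : r * x ≤ η - A / 2 := by rw [hx, mul_sub]; linarith
  have hrx2 : -(2 * η) - A / 2 ≤ r * x := by rw [hx, mul_sub]; linarith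
  have hm2 : m = 2 * Real.exp x := by
    rw [hx, Real.exp_sub, Real.exp_log hm, Real.exp_log (by norm_num)]
    field_simp
  have habs : |r * x| ≤ A / 2 + 1 := by
    rw [abs_le]
    constructor <;> linarith
  have hsq : 2 * (r * x) ^ 2 / r < min (ε / 2) 1 := by
    refine lt_of_le_of_lt ?_ ha
    have : (r * x) ^ 2 ≤ (A / 2 + 1) ^ 2 := by
      rw [← sq_abs]
      exact pow_le_pow_left₀ (abs_nonneg _) habs 2
    gcongr
  have hsq1 : 2 * (r * x) ^ 2 < ε / 2 * r := by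
    have := hsq.trans_le (min_le_left _ _)
    rwa [div_lt_iff₀ hrp] at this
  have hsq2 : 2 * (r * x) ^ 2 < r := by
    have := hsq.trans_le (min_le_right _ _)
    rwa [div_lt_iff₀ hrp, one_mul] at this
  have hx2 : 2 * x ^ 2 * r < ε / 2 := by
    have : 2 * x ^ 2 * r * r < ε / 2 * r := by nlinarith
    exact lt_of_mul_lt_mul_right this hrp.le
  have hx1 : |x| ≤ 1 := by
    by_contra h7
    push Not at h7
    have h8 : r ≤ |r * x| := by
      rw [abs_mul, abs_of_pos hrp]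
      nlinarith
    have h14 : r ^ 2 ≤ (r * x) ^ 2 := by
      rw [← sq_abs (r * x)]
      exact pow_le_pow_left₀ hrp.le h8 2
    nlinarith
  have h9 := Real.abs_exp_sub_one_sub_id_le hx1
  have h10 : m - (2 - A / r) = 2 * (Real.exp x - 1 - x) + (2 * (r * x) + A) / r := by
    rw [hm2]
    field_simp
    ring
  have h11 : |2 * (r * x) + A| ≤ ε / 2 := by
    rw [abs_le]
    constructor <;> linarith
  have h12 : |(2 * (r * x) + A) / r| ≤ ε / 2 / r := by
    rw [abs_div, abs_of_pos hrp]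
    gcongr
  have h13 : |2 * (Real.exp x - 1 - x)| ≤ ε / 2 / r := by
    rw [abs_mul, abs_of_pos (by norm_num : (0 : ℝ) < 2), le_div_iff₀ hrp]
    have h15 : 2 * |Real.exp x - 1 - x| * r ≤ 2 * x ^ 2 * r := by gcongr
    exact h15.trans hx2.le
  calc |m - (2 - A / r)| = |2 * (Real.exp x - 1 - x) + (2 * (r * x) + A) / r| := by rw [h10]
    _ ≤ |2 * (Real.exp x - 1 - x)| + |(2 * (r * x) + A) / r| := abs_add_le _ _
    _ ≤ ε / 2 / r + ε / 2 / r := add_le_add h13 h12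
    _ = ε / r := by ring

/-- the sharp asymptotics -/
theorem sharp_all {ε : ℝ} (hε : 0 < ε) : ∃ r0 : ℝ, ∀ (p : ℝ≥0∞) [Fact (1 ≤ p)], p ≠ ∞ →
    r0 ≤ p.toReal →
    |‖ContinuousLinearMap.id ℂ (Hp p) - K0H p‖ - (2 - (3 / 2 * Real.log p.toReal
      + Real.log (8 * Real.exp 1 * √Real.pi)) / p.toReal)| ≤ ε / p.toReal := by
  obtain ⟨η, hη, r1, hr1⟩ := expand hε
  obtain ⟨ra, hra⟩ := upper_sharp hη
  obtain ⟨rb, hrb⟩ := lower_sharp (η := min η (1 / 2)) (by positivity)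
  refine ⟨max (max r1 1) (max ra rb), fun p _ hp hr => ?_⟩
  have h1 : r1 ≤ p.toReal := ((le_max_left _ _).trans (le_max_left _ _)).trans hr
  have h1' : (1 : ℝ) ≤ p.toReal := ((le_max_right _ _).trans (le_max_left _ _)).trans hr
  have h2 := hra p hp (((le_max_left _ _).trans (le_max_right _ _)).trans hr)
  have h3 := hrb p hp (((le_max_right _ _).trans (le_max_right _ _)).trans hr)
  have hG := G0_pos (by linarith : 0 < p.toReal)
  have hm : 0 < ‖ContinuousLinearMap.id ℂ (Hp p) - K0H p‖ := by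
    rcases (norm_nonneg (ContinuousLinearMap.id ℂ (Hp p) - K0H p)).lt_or_eq with h | h
    · exact h
    · exfalso
      rw [← h, Real.zero_rpow (by linarith)] at h3
      have : 0 < 1 - min η (1 / 2) := by
        have := min_le_right η (1 / 2)
        linarith
      nlinarith [mul_pos this hG]
  refine hr1 _ _ h1 hm (le_trans ?_ h3) h2
  exact mul_le_mul_of_nonneg_right (by linarith [min_le_left η (1 / 2 : ℝ)]) hG.le

end Pool.Agent.MP_984ac2_an
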