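import Pool.Agent.MP_984ac2_an.Statement
import Pool.Agent.MP_984ac2_an.TwLow

set_option autoImplicit false

open Filter Topology
open scoped ENNReal

noncomputable section

namespace Pool.Agent.MP_984ac2_an

/-- the constant as a function of the extended real exponent -/
def Mq (q : ℝ≥0∞) : ℝ := by
  classical
  exact if h : Fact (1 ≤ q) then
    (letI := h; ‖ContinuousLinearMap.id ℂ (Hp q) - K0H q‖) else 0

theorem Mq_eq (p : ℝ≥0∞) [h : Fact (1 ≤ p)] :
    Mq p = ‖ContinuousLinearMap.id ℂ (Hp p) - K0H p‖ := by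
  unfold Mq
  exact dif_pos h

/-- the constant as a function of the real exponent -/
def Mr (r : ℝ) : ℝ := Mq (ENNReal.ofReal r)

theorem Mr_toReal (p : ℝ≥0∞) [Fact (1 ≤ p)] (hp : p ≠ ∞) :
    Mr p.toReal = ‖ContinuousLinearMap.id ℂ (Hp p) - K0H p‖ := by
  unfold Mr
  rw [ENNReal.ofReal_toReal hp, Mq_eq]

theorem tendsto_Mr : Tendsto (fun r : ℝ => r * (Mr r - 2) + 3 / 2 * Real.log r) atTop
    (𝓝 (-Real.log (8 * Real.exp 1 * √Real.pi))) := by
  rw [Metric.tendsto_atTop]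
  intro ε hε
  obtain ⟨r0, hr0⟩ := sharp_all (half_pos hε)
  refine ⟨max r0 1, fun r hr => ?_⟩
  have h1 : (1 : ℝ) ≤ r := (le_max_right _ _).trans hr
  have h0 : 0 < r := by linarith
  have hq : (1 : ℝ≥0∞) ≤ ENNReal.ofReal r := by
    rw [← ENNReal.ofReal_one]
    exact ENNReal.ofReal_le_ofReal h1
  have : Fact (1 ≤ ENNReal.ofReal r) := ⟨hq⟩
  have hr' : (ENNReal.ofReal r).toReal = r := ENNReal.toReal_ofReal h0.le
  have h2 := hr0 (ENNReal.ofReal r) ENNReal.ofReal_ne_top (by rw [hr']; exact (le_max_left _ _).trans hr)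
  rw [← Mq_eq, hr'] at h2
  change |Mr r - _| ≤ _ at h2
  obtain ⟨L, hL⟩ : ∃ L, L = Real.log (8 * Real.exp 1 * √Real.pi) := ⟨_, rfl⟩
  rw [← hL] at h2 ⊢
  rw [Real.dist_eq]
  have e : r * (Mr r - 2) + 3 / 2 * Real.log r - -L
      = r * (Mr r - (2 - (3 / 2 * Real.log r + L) / r)) := by
    field_simp
    ring
  rw [e, abs_mul, abs_of_pos h0]
  calc r * |Mr r - (2 - (3 / 2 * Real.log r + L) / r)| ≤ r * (ε / 2 / r) :=
        mul_le_mul_of_nonneg_left h2 h0.le
    _ = ε / 2 := by field_simp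
    _ < ε := half_lt_self hε

end Pool.Agent.MP_984ac2_an
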