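import Pool.Agent.MP_984ac2_an.TsLargeEnd

/-!
Problem MP_984ac2_an: the harmonic extension of `|1 - z|^(2N)` to the unit disc.
-/

set_option autoImplicit false

open MeasureTheory AddCircle Filter Topology Metric Set
open scoped ENNReal ComplexConjugate

noncomputable section

namespace Pool.Agent.MP_984ac2_an

/-- The polynomial whose real part on the unit circle is `|1 - w|^(2N)`. -/
def UN (N : ℕ) (w : ℂ) : ℂ :=
  (N.centralBinom : ℂ) + 2 * ∑ k ∈ Finset.range N, ((2 * N).choose (N + (k + 1)) : ℂ) * (-w) ^ (k + 1)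

theorem differentiable_UN (N : ℕ) : Differentiable ℂ (UN N) := by
  unfold UN
  fun_prop

/-- `|1-z|^2 = (1-z)(1-1/z) = -(1-z)^2/z`, so `|1-z|^(2N) = (-z)^(-N) (1-z)^(2N)`; binomial theorem,
the terms `N+k` and `N-k` are conjugate; real part. -/
theorem UN_re_z (N : ℕ) (x : Circ) : (UN N (z x)).re = ‖1 - z x‖ ^ (2 * N) := by
  set v : ℂ := -z x with hv
  have hn : ‖v‖ = 1 := by rw [hv, norm_neg, norm_z]
  have hvv : v * conj v = 1 := by
    rw [Complex.mul_conj, Complex.normSq_eq_norm_sq, hn]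
    norm_num
  have h1 : ((‖1 - z x‖ ^ (2 * N) : ℝ) : ℂ) = (1 + v) ^ (2 * N) * (conj v) ^ N := by
    have e1 : 1 - z x = 1 + v := by rw [hv]; ring
    have e2 : ((‖1 + v‖ ^ 2 : ℝ) : ℂ) = (1 + v) * (1 + conj v) := by
      rw [← Complex.normSq_eq_norm_sq, ← Complex.mul_conj, map_add, map_one]
    have e3 : 1 + conj v = conj v * (1 + v) := by
      rw [mul_add, mul_one, mul_comm (conj v) v, hvv, add_comm]
    rw [e1, pow_mul, Complex.ofReal_pow, e2, e3, pow_mul]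
    rw [← mul_pow]
    congr 1
    ring
  have h2 : (1 + v) ^ (2 * N) = ∑ j ∈ Finset.range (2 * N + 1), v ^ j * ((2 * N).choose j : ℂ) := by
    rw [add_comm, add_pow]
    refine Finset.sum_congr rfl fun j _ => ?_
    rw [one_pow, mul_one]
  have h3 : (1 + v) ^ (2 * N) * (conj v) ^ N =
      ∑ k ∈ Finset.range N, (((2 * N).choose (N + (k + 1)) : ℂ) * (v ^ (k + 1) +
        conj (v ^ (k + 1)))) + (N.centralBinom : ℂ) := by
    rw [h2, Finset.sum_mul, show 2 * N + 1 = N + (N + 1) by ring, Finset.sum_range_add,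
      Finset.sum_range_succ', ← Finset.sum_range_reflect, ← add_assoc, ← Finset.sum_add_distrib]
    congr 1
    · refine Finset.sum_congr rfl fun k hk => ?_
      have hk' := Finset.mem_range.1 hk
      have e1 : (2 * N).choose (N - 1 - k) = (2 * N).choose (N + (k + 1)) :=
        Nat.choose_symm_of_eq_add (by omega)
      have e2 : v ^ (N - 1 - k) * (conj v) ^ N = conj (v ^ (k + 1)) := by
        have e3 : N = (N - 1 - k) + (k + 1) := by omega
        calc v ^ (N - 1 - k) * (conj v) ^ N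
            = v ^ (N - 1 - k) * (conj v) ^ ((N - 1 - k) + (k + 1)) := by rw [← e3]
          _ = (v * conj v) ^ (N - 1 - k) * (conj v) ^ (k + 1) := by
            rw [pow_add, mul_pow]
            ring
          _ = conj (v ^ (k + 1)) := by rw [hvv, one_pow, one_mul, map_pow]
      have e4 : v ^ (N + (k + 1)) * (conj v) ^ N = v ^ (k + 1) := by
        rw [pow_add, mul_comm (v ^ N), mul_assoc, ← mul_pow, hvv, one_pow, mul_one]
      rw [e1, mul_right_comm, e2, mul_right_comm, e4]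
      ring
    · rw [add_zero, mul_right_comm, ← mul_pow, hvv, one_pow, one_mul,
        Nat.centralBinom_eq_two_mul_choose]
  have h4 := congrArg Complex.re (h1.trans h3)
  rw [Complex.ofReal_re] at h4
  rw [h4]
  unfold UN
  rw [← hv, Complex.add_re, Complex.add_re, add_comm, Finset.mul_sum, Complex.re_sum, Complex.re_sum]
  congr 1
  refine Finset.sum_congr rfl fun k _ => ?_
  rw [Complex.add_conj]
  have e5 : ∀ (c : ℕ) (a : ℂ), (2 * ((c : ℂ) * a)).re = ((c : ℂ) * ((2 * a.re : ℝ) : ℂ)).re := by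
    intro c a
    simp [Complex.mul_re]
    ring
  exact e5 _ _

/-- real part of `poisson_formula` for `UN N` (`differentiable_UN`), and `UN_re_z` -/
theorem UN_poisson (N : ℕ) {a : ℂ} (ha : ‖a‖ < 1) :
    ∫ x, P a x * ‖1 - z x‖ ^ (2 * N) ∂sigma = (UN N a).re := by
  have h := poisson_formula (F := UN N) (differentiable_UN N).diffContOnCl ha
  have hc : Continuous fun x => (P a x : ℂ) * UN N (z x) :=
    (Complex.continuous_ofReal.comp (continuous_P ha)).mul
      ((differentiable_UN N).continuous.comp continuous_z)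
  have hi : Integrable (fun x => (P a x : ℂ) * UN N (z x)) sigma :=
    hc.integrable_of_hasCompactSupport (HasCompactSupport.of_compactSpace _)
  have h1 : ∀ x, P a x * ‖1 - z x‖ ^ (2 * N) = RCLike.re ((P a x : ℂ) * UN N (z x)) := by
    intro x
    rw [← UN_re_z]
    exact (Complex.re_ofReal_mul _ _).symm
  simp_rw [h1]
  rw [integral_re hi, h]
  rfl

/-- `UN_poisson` at `a = 0`, where `P 0 = 1` -/
theorem int_pow (N : ℕ) : ∫ x, ‖1 - z x‖ ^ (2 * N) ∂sigma = (N.centralBinom : ℝ) := by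
  have h := UN_poisson N (a := 0) (by simp)
  have h1 : ∀ x, P 0 x = 1 := by
    intro x
    simp [P]
  simp only [h1, one_mul] at h
  rw [h]
  unfold UN
  have h2 : ∑ k ∈ Finset.range N, ((2 * N).choose (N + (k + 1)) : ℂ) * (-(0 : ℂ)) ^ (k + 1) = 0 := by
    apply Finset.sum_eq_zero
    intro k _
    simp
  rw [h2, mul_zero, add_zero]
  simp

/-- `‖1 - z‖^2 = 2 - 2 Re z`, so the integral is `M_N - M_(N+1)/2` by `int_pow`;
`Nat.succ_mul_centralBinom_succ` -/
theorem int_pow_re (N : ℕ) :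
    ∫ x, ‖1 - z x‖ ^ (2 * N) * (z x).re ∂sigma = -((N.centralBinom : ℝ) * (N / (N + 1))) := by
  have h0 : ∀ x : Circ, ‖1 - z x‖ ^ (2 * N) * (z x).re
      = ‖1 - z x‖ ^ (2 * N) - ‖1 - z x‖ ^ (2 * (N + 1)) / 2 := by
    intro x
    have h1 : ‖1 - z x‖ ^ 2 = 2 - 2 * (z x).re := by
      have hz : ‖z x‖ ^ 2 = 1 := by rw [norm_z]; norm_num
      rw [← Complex.normSq_eq_norm_sq, Complex.normSq_apply] at hz ⊢
      simp only [Complex.sub_re, Complex.sub_im, Complex.one_re, Complex.one_im]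
      nlinarith
    rw [mul_add, mul_one, pow_add, h1]
    ring
  have hc : ∀ m : ℕ, Integrable (fun x : Circ => ‖1 - z x‖ ^ m) sigma := by
    intro m
    exact integrable_of_continuous (((continuous_const.sub continuous_z).norm).pow m)
  have h3 : ∫ x, ‖1 - z x‖ ^ (2 * N) * (z x).re ∂sigma
      = (N.centralBinom : ℝ) - ((N + 1).centralBinom : ℝ) / 2 := by
    rw [← int_pow N, ← int_pow (N + 1), ← integral_div, ← integral_sub (hc _) ((hc _).div_const 2)]
    exact integral_congr_ae (Eventually.of_forall h0)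
  rw [h3]
  have h4 : ((N : ℝ) + 1) * ((N + 1).centralBinom : ℝ) = 2 * (2 * N + 1) * (N.centralBinom : ℝ) := by
    exact_mod_cast Nat.succ_mul_centralBinom_succ N
  have hN : (0 : ℝ) < (N : ℝ) + 1 := by positivity
  have h5 : ((N + 1).centralBinom : ℝ) = 2 * (2 * N + 1) * (N.centralBinom : ℝ) / ((N : ℝ) + 1) := by
    rw [eq_div_iff hN.ne']
    linarith
  rw [h5]
  field_simp
  ring

private theorem uim_neg (x : Circ) : z (-x) = conj (z x) := by
  unfold z
  rw [toCircle_neg, Circle.coe_inv_eq_conj]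

/-- symmetry `x ↦ -x` (`z (-x) = conj (z x)`), `integral_neg_eq_self` for the Haar measure `sigma` -/
theorem int_conj {f : ℂ → ℝ} (hf : Continuous f) :
    ∫ x, f (conj (z x)) ∂sigma = ∫ x, f (z x) ∂sigma := by
  rw [← integral_neg_eq_self (fun x => f (z x)) sigma]
  refine integral_congr_ae (Eventually.of_forall fun x => ?_)
  simp only [uim_neg]

/-- by `int_conj`, the integral equals its negative -/
theorem int_pow_im (N : ℕ) : ∫ x, ‖1 - z x‖ ^ (2 * N) * (z x).im ∂sigma = 0 := by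
  have hf : Continuous fun w : ℂ => ‖1 - w‖ ^ (2 * N) * w.im :=
    ((continuous_const.sub continuous_id).norm.pow _).mul Complex.continuous_im
  have h1 := int_conj hf
  have h2 : ∀ x : Circ, ‖1 - conj (z x)‖ ^ (2 * N) * (conj (z x)).im =
      -(‖1 - z x‖ ^ (2 * N) * (z x).im) := by
    intro x
    have h3 : ‖1 - conj (z x)‖ = ‖1 - z x‖ := by
      rw [← Complex.norm_conj, map_sub, map_one, Complex.conj_conj]
    rw [h3, Complex.conj_im]
    ring
  simp only [h2] at h1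
  rw [integral_neg] at h1
  linarith

/-- `‖z - a‖^2 = 1 + ‖a‖^2 - 2 (Re z Re a + Im z Im a)`; `int_pow`, `int_pow_re`, `int_pow_im` -/
theorem int_pow_dist (N : ℕ) (a : ℂ) :
    ∫ x, ‖1 - z x‖ ^ (2 * N) * ‖z x - a‖ ^ 2 ∂sigma
      = N.centralBinom * (1 + ‖a‖ ^ 2 + 2 * a.re * (N / (N + 1))) := by
  have hg : Continuous fun x : Circ => ‖1 - z x‖ ^ (2 * N) :=
    (continuous_const.sub continuous_z).norm.pow _
  have i1 : Integrable (fun x : Circ => ‖1 - z x‖ ^ (2 * N)) sigma := integrable_of_continuous hg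
  have i2 : Integrable (fun x : Circ => ‖1 - z x‖ ^ (2 * N) * (z x).re) sigma :=
    integrable_of_continuous (hg.mul (Complex.continuous_re.comp continuous_z))
  have i3 : Integrable (fun x : Circ => ‖1 - z x‖ ^ (2 * N) * (z x).im) sigma :=
    integrable_of_continuous (hg.mul (Complex.continuous_im.comp continuous_z))
  have h1 : ∀ x : Circ, ‖1 - z x‖ ^ (2 * N) * ‖z x - a‖ ^ 2 =
      (1 + ‖a‖ ^ 2) * ‖1 - z x‖ ^ (2 * N) - 2 * a.re * (‖1 - z x‖ ^ (2 * N) * (z x).re) -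
        2 * a.im * (‖1 - z x‖ ^ (2 * N) * (z x).im) := by
    intro x
    have h2 : ‖z x - a‖ ^ 2 = 1 + ‖a‖ ^ 2 - 2 * ((z x).re * a.re + (z x).im * a.im) := by
      have h3 : (z x).re * (z x).re + (z x).im * (z x).im = 1 := by
        have h4 := Complex.sq_norm (z x)
        rw [norm_z, Complex.normSq_apply] at h4
        linarith
      rw [Complex.sq_norm, Complex.sq_norm, Complex.normSq_apply, Complex.normSq_apply,
        Complex.sub_re, Complex.sub_im]
      linear_combination h3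
    rw [h2]
    ring
  have j : Integrable (fun x : Circ => (1 + ‖a‖ ^ 2) * ‖1 - z x‖ ^ (2 * N) -
      2 * a.re * (‖1 - z x‖ ^ (2 * N) * (z x).re)) sigma := (i1.const_mul _).sub (i2.const_mul _)
  simp only [h1]
  rw [integral_sub j (i3.const_mul _),
    integral_sub (i1.const_mul _) (i2.const_mul _), integral_const_mul, integral_const_mul,
    integral_const_mul, int_pow, int_pow_re, int_pow_im]
  ring

/-- Cauchy-Schwarz in the form `2 c g ≤ c^2 P g + g / P`, integrated, with `g = ‖1 - z‖^(2N)` and a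
constant `c` (optimised), or directly: `M^2 ≤ (∫ P g) (∫ g / P)`, `1/P = ‖z - a‖^2 / (1 - ‖a‖^2)`.
Simplest: with `D = 1 + ‖a‖^2 + 2 Re a N/(N+1) > 0` and `c = D/(1 - ‖a‖^2)` integrate
`g (2 - ‖z-a‖^2/D) ≤ g D/‖z-a‖^2`, that is `2 - y ≤ 1/y` for `y > 0`; `int_pow`, `int_pow_dist`,
`UN_poisson` (`M > 0`, `D > 0` as `|Re a| ≤ ‖a‖ < 1`). -/
theorem UN_cs (N : ℕ) {a : ℂ} (ha : ‖a‖ < 1) :
    N.centralBinom * (1 - ‖a‖ ^ 2) ≤ (UN N a).re * (1 + ‖a‖ ^ 2 + 2 * a.re * (N / (N + 1))) := by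
  obtain ⟨D, hD⟩ : ∃ D : ℝ, D = 1 + ‖a‖ ^ 2 + 2 * a.re * (N / (N + 1)) := ⟨_, rfl⟩
  have hn := norm_nonneg a
  have h1a : 0 < 1 - ‖a‖ ^ 2 := by nlinarith
  have hN0 : (0 : ℝ) ≤ N / (N + 1) := by positivity
  have hN1 : (N : ℝ) / (N + 1) ≤ 1 := by
    rw [div_le_one (by positivity)]
    linarith
  have hre : -‖a‖ ≤ a.re := (abs_le.1 (Complex.abs_re_le_norm a)).1
  have hDpos : 0 < D := by
    have h3 := mul_le_mul_of_nonneg_right hre hN0
    have h4 := mul_le_mul_of_nonneg_left hN1 hn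
    have h5 : 0 < (1 - ‖a‖) ^ 2 := by
      have : 0 < 1 - ‖a‖ := by linarith
      positivity
    rw [hD]
    nlinarith
  have hcg : Continuous (fun x : Circ => ‖1 - z x‖ ^ (2 * N)) :=
    ((continuous_const.sub continuous_z).norm).pow _
  have hcw : Continuous (fun x : Circ => ‖z x - a‖ ^ 2) :=
    ((continuous_z.sub continuous_const).norm).pow _
  have i1 : Integrable (fun x : Circ => 2 * D * ‖1 - z x‖ ^ (2 * N)) sigma :=
    integrable_of_continuous (continuous_const.mul hcg)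
  have i2 : Integrable (fun x : Circ => ‖1 - z x‖ ^ (2 * N) * ‖z x - a‖ ^ 2) sigma :=
    integrable_of_continuous (hcg.mul hcw)
  have i3 : Integrable (fun x : Circ =>
      D ^ 2 / (1 - ‖a‖ ^ 2) * (P a x * ‖1 - z x‖ ^ (2 * N))) sigma :=
    integrable_of_continuous (continuous_const.mul ((continuous_P ha).mul hcg))
  have hle : ∫ x, (2 * D * ‖1 - z x‖ ^ (2 * N) - ‖1 - z x‖ ^ (2 * N) * ‖z x - a‖ ^ 2) ∂sigma ≤
      ∫ x, D ^ 2 / (1 - ‖a‖ ^ 2) * (P a x * ‖1 - z x‖ ^ (2 * N)) ∂sigma := by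
    refine integral_mono (i1.sub i2) i3 fun x => ?_
    have hw : 0 < ‖z x - a‖ ^ 2 := by
      have := norm_pos_iff.mpr (z_sub_ne ha x)
      positivity
    have hg : 0 ≤ ‖1 - z x‖ ^ (2 * N) := by positivity
    have e : D ^ 2 / (1 - ‖a‖ ^ 2) * (P a x * ‖1 - z x‖ ^ (2 * N)) =
        ‖1 - z x‖ ^ (2 * N) * (D ^ 2 / ‖z x - a‖ ^ 2) := by
      unfold P
      field_simp
    have h6 : 2 * D - ‖z x - a‖ ^ 2 ≤ D ^ 2 / ‖z x - a‖ ^ 2 := by
      rw [le_div_iff₀ hw]
      nlinarith [sq_nonneg (D - ‖z x - a‖ ^ 2)]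
    have h7 := mul_le_mul_of_nonneg_left h6 hg
    change 2 * D * ‖1 - z x‖ ^ (2 * N) - ‖1 - z x‖ ^ (2 * N) * ‖z x - a‖ ^ 2 ≤
      D ^ 2 / (1 - ‖a‖ ^ 2) * (P a x * ‖1 - z x‖ ^ (2 * N))
    rw [e]
    linarith
  rw [integral_sub i1 i2, integral_const_mul, integral_const_mul, int_pow, int_pow_dist,
    UN_poisson N ha, ← hD] at hle
  rw [← hD]
  have h8 : D ^ 2 / (1 - ‖a‖ ^ 2) * (UN N a).re = D * ((UN N a).re * D / (1 - ‖a‖ ^ 2)) := by
    ring
  have h9 : D * (N.centralBinom : ℝ) ≤ D * ((UN N a).re * D / (1 - ‖a‖ ^ 2)) := by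
    rw [← h8]
    linarith
  have h10 := le_of_mul_le_mul_left h9 hDpos
  rwa [le_div_iff₀ h1a] at h10

private theorem uge_z {a : ℂ} (ha : ‖a‖ = 1) : ∃ x : Circ, z x = a := by
  refine ⟨((Complex.arg a : ℝ) : Circ), ?_⟩
  unfold z
  rw [AddCircle.toCircle_apply_mk, Circle.coe_exp]
  have h : (2 * Real.pi / (2 * Real.pi)) * Complex.arg a = Complex.arg a := by
    rw [div_self Real.two_pi_pos.ne', one_mul]
  rw [h]
  have h1 := Complex.norm_mul_exp_arg_mul_I a
  rw [ha, Complex.ofReal_one, one_mul] at h1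
  exact h1

/-- from `UN_cs`: `1 + ‖a‖^2 + 2 Re a N/(N+1) ≤ (1 + ‖a‖)^2`, and the case `‖a‖ = 1` from the
continuity or directly from the fact that `(UN N a).re = ‖1-a‖^(2N) ≥ 0` there (`UN_re_z`) -/
theorem UN_ge (N : ℕ) {a : ℂ} (ha : ‖a‖ ≤ 1) :
    N.centralBinom * ((1 - ‖a‖) / (1 + ‖a‖)) ≤ (UN N a).re := by
  rcases ha.lt_or_eq with h | h
  · have h0 := norm_nonneg a
    have h1 := UN_cs N h
    have h2 := abs_le.1 (Complex.abs_re_le_norm a)
    have h3 : (0 : ℝ) ≤ (N : ℝ) / (N + 1) := by positivity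
    have h4 : (N : ℝ) / (N + 1) ≤ 1 := by
      rw [div_le_one (by positivity)]
      linarith
    have hM : (0 : ℝ) < N.centralBinom := by exact_mod_cast N.centralBinom_pos
    set D : ℝ := 1 + ‖a‖ ^ 2 + 2 * a.re * (N / (N + 1)) with hD
    have h5 : a.re * (N / (N + 1)) ≤ ‖a‖ := by
      have h6 : a.re * ((N : ℝ) / (N + 1)) ≤ ‖a‖ * ((N : ℝ) / (N + 1)) :=
        mul_le_mul_of_nonneg_right h2.2 h3
      have h7 : ‖a‖ * ((N : ℝ) / (N + 1)) ≤ ‖a‖ * 1 := mul_le_mul_of_nonneg_left h4 h0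
      linarith
    have h5' : -‖a‖ ≤ a.re * (N / (N + 1)) := by
      have h6 : -‖a‖ * ((N : ℝ) / (N + 1)) ≤ a.re * ((N : ℝ) / (N + 1)) :=
        mul_le_mul_of_nonneg_right h2.1 h3
      have h7 : ‖a‖ * ((N : ℝ) / (N + 1)) ≤ ‖a‖ * 1 := mul_le_mul_of_nonneg_left h4 h0
      linarith
    have hDle : D ≤ (1 + ‖a‖) ^ 2 := by nlinarith
    have hDpos : 0 < D := by nlinarith
    have hU : 0 ≤ (UN N a).re := by
      have h8 : 0 ≤ (N.centralBinom : ℝ) * (1 - ‖a‖ ^ 2) := by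
        have h9 : 0 ≤ 1 - ‖a‖ ^ 2 := by nlinarith
        positivity
      exact nonneg_of_mul_nonneg_left (h8.trans h1) hDpos
    have h9 : (N.centralBinom : ℝ) * (1 - ‖a‖ ^ 2) ≤ (UN N a).re * (1 + ‖a‖) ^ 2 :=
      h1.trans (mul_le_mul_of_nonneg_left hDle hU)
    have h10 : (N.centralBinom : ℝ) * ((1 - ‖a‖) / (1 + ‖a‖)) =
        (N.centralBinom : ℝ) * (1 - ‖a‖ ^ 2) / (1 + ‖a‖) ^ 2 := by
      have h11 : (1 + ‖a‖) ≠ 0 := by positivity
      field_simp
      ring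
    rw [h10, div_le_iff₀ (by positivity)]
    exact h9
  · obtain ⟨x, hx⟩ := uge_z h
    have h1 := UN_re_z N x
    rw [hx] at h1
    rw [h1, h, sub_self, zero_div, mul_zero]
    positivity

private theorem url_sq (r : ℝ) (x : Circ) :
    ‖z x - (r : ℂ)‖ ^ 2 = (1 - r) ^ 2 + 2 * r * (1 - (z x).re) := by
  have h1 : (z x).re * (z x).re + (z x).im * (z x).im = 1 := by
    have h2 := Complex.sq_norm (z x)
    rw [norm_z, Complex.normSq_apply] at h2
    linarith
  rw [Complex.sq_norm, Complex.normSq_apply]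
  simp only [Complex.sub_re, Complex.sub_im, Complex.ofReal_re, Complex.ofReal_im]
  nlinarith [h1]

/-- `‖z - b‖^2 = (1-b)^2 + b ‖1-z‖^2 ≥ b ‖1-z‖^2`, so `P b ‖1-z‖^(2N) ≤ ((1-b^2)/b) ‖1-z‖^(2(N-1))`;
`UN_poisson`, `int_pow (N-1)`, and `M_(N-1) = M_N N/(2(2N-1))` (`Nat.succ_mul_centralBinom_succ`) -/
theorem UN_real_le {N : ℕ} (hN : 1 ≤ N) {b : ℝ} (hb0 : 0 < b) (hb1 : b < 1) :
    (UN N (b : ℂ)).re ≤ N.centralBinom * ((1 - b ^ 2) / (4 * b)) * (2 * N / (2 * N - 1)) := by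
  obtain ⟨n, rfl⟩ : ∃ n, N = n + 1 := ⟨N - 1, by omega⟩
  have hb : ‖(b : ℂ)‖ < 1 := by
    rw [Complex.norm_real, Real.norm_of_nonneg hb0.le]; exact hb1
  rw [← UN_poisson (n + 1) hb]
  have hb2 : 0 ≤ 1 - b ^ 2 := by nlinarith
  have h1 : ∀ x : Circ, P (b : ℂ) x * ‖1 - z x‖ ^ (2 * (n + 1)) ≤
      (1 - b ^ 2) / b * ‖1 - z x‖ ^ (2 * n) := by
    intro x
    have h2 := url_sq b x
    have h2' := url_sq 1 x
    rw [Complex.ofReal_one, norm_sub_rev] at h2'
    have h3 : 0 < ‖z x - b‖ ^ 2 := by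
      have := norm_pos_iff.mpr (z_sub_ne hb x)
      positivity
    have h4 : P (b : ℂ) x = (1 - b ^ 2) / ‖z x - b‖ ^ 2 := by
      rw [P, Complex.norm_real, Real.norm_of_nonneg hb0.le]
    have h6 : ‖1 - z x‖ ^ 2 * b ≤ ‖z x - b‖ ^ 2 := by
      rw [h2, h2']
      nlinarith [sq_nonneg (1 - b)]
    have h5 : (1 - b ^ 2) / ‖z x - b‖ ^ 2 * ‖1 - z x‖ ^ 2 ≤ (1 - b ^ 2) / b := by
      rw [div_mul_eq_mul_div, div_le_div_iff₀ h3 hb0, mul_assoc]
      exact mul_le_mul_of_nonneg_left h6 hb2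
    have h7 : ‖1 - z x‖ ^ (2 * (n + 1)) = ‖1 - z x‖ ^ 2 * ‖1 - z x‖ ^ (2 * n) := by ring
    rw [h4, h7, ← mul_assoc]
    exact mul_le_mul_of_nonneg_right h5 (by positivity)
  have hc1 : Continuous fun x : Circ => P (b : ℂ) x * ‖1 - z x‖ ^ (2 * (n + 1)) :=
    (continuous_P hb).mul ((continuous_const.sub continuous_z).norm.pow _)
  have hc2 : Continuous fun x : Circ => (1 - b ^ 2) / b * ‖1 - z x‖ ^ (2 * n) :=
    continuous_const.mul ((continuous_const.sub continuous_z).norm.pow _)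
  have h8 := integral_mono (μ := sigma)
    (hc1.integrable_of_hasCompactSupport (HasCompactSupport.of_compactSpace _))
    (hc2.integrable_of_hasCompactSupport (HasCompactSupport.of_compactSpace _)) h1
  rw [integral_const_mul, int_pow n] at h8
  refine h8.trans (le_of_eq ?_)
  have h9 : ((n : ℝ) + 1) * ((n + 1).centralBinom : ℝ) = 2 * (2 * n + 1) * (n.centralBinom : ℝ) := by
    exact_mod_cast Nat.succ_mul_centralBinom_succ n
  have h10 : (2 * ((n + 1 : ℕ) : ℝ) - 1) = 2 * n + 1 := by push_cast; ring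
  have h11 : (2 * (n : ℝ) + 1) ≠ 0 := by positivity
  rw [h10]
  field_simp
  push_cast
  linear_combination (-2 * (1 - b ^ 2)) * h9

private theorem ufi_sq (r : ℝ) (x : Circ) :
    ‖z x - (r : ℂ)‖ ^ 2 = (1 - r) ^ 2 + 2 * r * (1 - (z x).re) := by
  have h1 : (z x).re * (z x).re + (z x).im * (z x).im = 1 := by
    have h2 := Complex.sq_norm (z x)
    rw [norm_z, Complex.normSq_apply] at h2
    linarith
  rw [Complex.sq_norm, Complex.normSq_apply]
  simp only [Complex.sub_re, Complex.sub_im, Complex.ofReal_re, Complex.ofReal_im]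
  nlinarith [h1]

/-- `P q = (1-q^2)/((1-q)^2 + 2 q t)`, `t = 1 - Re z ≥ 0`, so `P q t/(τ+t) ≤ (1-q^2)/(2q (τ+t))
≤ 2 (1-q)/(τ+t)`; with `q' = 1 - √τ`, `‖z - q'‖^2 = τ + 2 q' t ≤ 2 (τ + t)`, so
`1/(τ+t) ≤ 2/‖z-q'‖^2` (if `q' = 1 - √τ ∈ [0,1)`), and `∫ P q' = 1` (`integral_P`) with
`1 - q'^2 ≥ √τ` gives `∫ 1/‖z-q'‖^2 ≤ 1/√τ` -/
theorem far_int {q τ : ℝ} (hq : 1 / 2 ≤ q) (hq1 : q < 1) (hτ0 : 0 < τ) (hτ1 : τ ≤ 1) :
    ∫ x, P (q : ℂ) x * ((1 - (z x).re) / (τ + (1 - (z x).re))) ∂sigma ≤ 4 * (1 - q) / √τ := by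
  have hq0 : 0 < q := by linarith
  have hs0 : 0 < √τ := Real.sqrt_pos.2 hτ0
  have hs1 : √τ ≤ 1 := Real.sqrt_le_one.2 hτ1
  have hss : √τ ^ 2 = τ := Real.sq_sqrt hτ0.le
  have hqn : ‖(q : ℂ)‖ < 1 := by
    rw [Complex.norm_real, Real.norm_of_nonneg hq0.le]; exact hq1
  have hrn : ‖((1 - √τ : ℝ) : ℂ)‖ < 1 := by
    rw [Complex.norm_real, Real.norm_of_nonneg (by linarith)]; linarith
  have ht : ∀ x : Circ, 0 ≤ 1 - (z x).re := by
    intro x
    have h1 := Complex.re_le_norm (z x)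
    rw [norm_z] at h1
    linarith
  have h1 : ∀ x : Circ, P (q : ℂ) x * ((1 - (z x).re) / (τ + (1 - (z x).re))) ≤
      4 * (1 - q) / √τ * P ((1 - √τ : ℝ) : ℂ) x := by
    intro x
    have h2 := ufi_sq q x
    have h3 := ufi_sq (1 - √τ) x
    have h4 : 0 < ‖z x - q‖ ^ 2 := by
      have := norm_pos_iff.mpr (z_sub_ne hqn x)
      positivity
    have h5 : 0 < ‖z x - ((1 - √τ : ℝ) : ℂ)‖ ^ 2 := by
      have := norm_pos_iff.mpr (z_sub_ne hrn x)
      positivity
    have h6 : P (q : ℂ) x = (1 - q ^ 2) / ‖z x - q‖ ^ 2 := by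
      rw [P, Complex.norm_real, Real.norm_of_nonneg hq0.le]
    have h7 : P ((1 - √τ : ℝ) : ℂ) x = (1 - (1 - √τ) ^ 2) / ‖z x - ((1 - √τ : ℝ) : ℂ)‖ ^ 2 := by
      rw [P, Complex.norm_real, Real.norm_of_nonneg (by linarith : (0 : ℝ) ≤ 1 - √τ)]
    set t : ℝ := 1 - (z x).re with htd
    have ht0 : 0 ≤ t := ht x
    have hτt : 0 < τ + t := by linarith
    have h8 : P (q : ℂ) x * (t / (τ + t)) ≤ 2 * (1 - q) / (τ + t) := by
      rw [h6, div_mul_div_comm, div_le_div_iff₀ (by positivity) hτt]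
      have h9 : (1 - q ^ 2) * t ≤ 2 * (1 - q) * ‖z x - q‖ ^ 2 := by
        rw [h2]
        have h10 : 0 ≤ (1 - q) * t := mul_nonneg (by linarith) ht0
        nlinarith [mul_nonneg (by linarith : (0 : ℝ) ≤ 1 - q) (sq_nonneg (1 - q)),
          mul_nonneg h10 (by linarith : (0 : ℝ) ≤ 2 * q - 1)]
      calc (1 - q ^ 2) * t * (τ + t) ≤ 2 * (1 - q) * ‖z x - q‖ ^ 2 * (τ + t) :=
            mul_le_mul_of_nonneg_right h9 hτt.le
        _ = 2 * (1 - q) * (‖z x - q‖ ^ 2 * (τ + t)) := by ring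
    have h11 : ‖z x - ((1 - √τ : ℝ) : ℂ)‖ ^ 2 ≤ 2 * (τ + t) := by
      rw [h3]
      nlinarith [mul_nonneg hs0.le ht0]
    have h12 : 2 * (1 - q) / (τ + t) ≤ 4 * (1 - q) / ‖z x - ((1 - √τ : ℝ) : ℂ)‖ ^ 2 := by
      rw [div_le_div_iff₀ hτt h5]
      nlinarith [mul_le_mul_of_nonneg_left h11 (by linarith : (0 : ℝ) ≤ 2 * (1 - q))]
    have h13 : 4 * (1 - q) / ‖z x - ((1 - √τ : ℝ) : ℂ)‖ ^ 2 ≤
        4 * (1 - q) / √τ * P ((1 - √τ : ℝ) : ℂ) x := by
      rw [h7, div_mul_div_comm, div_le_div_iff₀ h5 (by positivity)]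
      have h14 : √τ ≤ 1 - (1 - √τ) ^ 2 := by nlinarith
      have h15 : 0 ≤ 4 * (1 - q) * ‖z x - ((1 - √τ : ℝ) : ℂ)‖ ^ 2 :=
        mul_nonneg (by linarith) h5.le
      nlinarith [mul_le_mul_of_nonneg_left h14 h15]
    exact h8.trans (h12.trans h13)
  have hcr : Continuous fun x : Circ => 1 - (z x).re :=
    continuous_const.sub (Complex.continuous_re.comp continuous_z)
  have hc1 : Continuous fun x : Circ => P (q : ℂ) x * ((1 - (z x).re) / (τ + (1 - (z x).re))) :=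
    (continuous_P hqn).mul (hcr.div (continuous_const.add hcr) (fun x => by
      have := ht x
      positivity))
  have hc2 : Continuous fun x : Circ => 4 * (1 - q) / √τ * P ((1 - √τ : ℝ) : ℂ) x :=
    continuous_const.mul (continuous_P hrn)
  have h8 := integral_mono (μ := sigma)
    (hc1.integrable_of_hasCompactSupport (HasCompactSupport.of_compactSpace _))
    (hc2.integrable_of_hasCompactSupport (HasCompactSupport.of_compactSpace _)) h1
  rw [integral_const_mul, integral_P hrn, mul_one] at h8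
  exact h8

/-- if `t ≤ u/N`: the left side is at most `(1-u) c^N`, and `c - 2t ≥ c (1-t)` as `c ≥ 2`, so
`(c-2t)^N ≥ c^N (1-t)^N ≥ c^N (1 - N t) ≥ c^N (1-u)` (Bernoulli); if `t ≥ u/N` the left side is
nonpositive. -/
theorem elem_pow {N : ℕ} (hN : 1 ≤ N) {c t u : ℝ} (hc : 2 ≤ c) (ht : 0 ≤ t) (hu0 : 0 < u)
    (hu1 : u ≤ 1) : (1 - u) * (1 - 2 * (t / (u / N + t))) * c ^ N ≤ |c - 2 * t| ^ N := by
  have hN0 : (0 : ℝ) < N := by exact_mod_cast hN
  have hN1 : (1 : ℝ) ≤ N := by exact_mod_cast hN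
  have huN : 0 < u / N := div_pos hu0 hN0
  have hden : 0 < u / N + t := by linarith
  have hcN : 0 ≤ c ^ N := pow_nonneg (by linarith) N
  have hR : 0 ≤ |c - 2 * t| ^ N := pow_nonneg (abs_nonneg _) N
  rcases le_or_gt t (u / N) with h | h
  · have h1 : 0 ≤ t / (u / N + t) := div_nonneg ht hden.le
    have h2 : (1 - u) * (1 - 2 * (t / (u / N + t))) * c ^ N ≤ (1 - u) * c ^ N := by
      refine mul_le_mul_of_nonneg_right ?_ hcN
      nlinarith
    have hNt : (N : ℝ) * t ≤ u := by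
      have h3 := (le_div_iff₀ hN0).1 h
      linarith
    have ht1 : t ≤ 1 := by nlinarith
    have h3 : 1 - (N : ℝ) * t ≤ (1 - t) ^ N := by
      have h4 := one_add_mul_le_pow (a := -t) (by linarith) N
      have h5 : (1 : ℝ) + -t = 1 - t := by ring
      rw [h5] at h4
      linarith
    have h6 : c * (1 - t) ≤ |c - 2 * t| := by
      refine le_trans ?_ (le_abs_self _)
      nlinarith
    have h7 : (c * (1 - t)) ^ N ≤ |c - 2 * t| ^ N :=
      pow_le_pow_left₀ (mul_nonneg (by linarith) (by linarith)) h6 N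
    rw [mul_pow] at h7
    have h8 : (1 - u) * c ^ N ≤ c ^ N * (1 - t) ^ N := by
      rw [mul_comm]
      refine mul_le_mul_of_nonneg_left ?_ hcN
      linarith
    linarith
  · have h1 : 1 / 2 ≤ t / (u / N + t) := by
      rw [div_le_div_iff₀ (by norm_num) hden]
      linarith
    have h2 : (1 - u) * (1 - 2 * (t / (u / N + t))) * c ^ N ≤ 0 := by
      refine mul_nonpos_of_nonpos_of_nonneg ?_ hcN
      exact mul_nonpos_of_nonneg_of_nonpos (by linarith) (by linarith)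
    linarith

private theorem usy_key {ζ w : ℂ} (hζ : ‖ζ‖ = 1) (hw : ‖w‖ = 1) :
    ‖1 - ζ * w‖ * ‖1 - ζ * conj w‖ = |2 * w.re - 2 * ζ.re| := by
  rw [← norm_mul]
  have hzz : w * conj w = 1 := by
    rw [Complex.mul_conj, Complex.normSq_eq_norm_sq, hw]
    norm_num
  have hcc : ζ * conj ζ = 1 := by
    rw [Complex.mul_conj, Complex.normSq_eq_norm_sq, hζ]
    norm_num
  have a1 : w + conj w = ((2 * w.re : ℝ) : ℂ) := Complex.add_conj _
  have a2 : ζ + conj ζ = ((2 * ζ.re : ℝ) : ℂ) := Complex.add_conj _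
  have h : (1 - ζ * w) * (1 - ζ * conj w) = ζ * ((2 * ζ.re - 2 * w.re : ℝ) : ℂ) := by
    rw [Complex.ofReal_sub, ← a1, ← a2]
    linear_combination ζ ^ 2 * hzz - hcc
  rw [h, norm_mul, hζ, one_mul, Complex.norm_real, Real.norm_eq_abs, abs_sub_comm]

/-- `UN_poisson` at `q ζ`; rotation invariance of `sigma` (`z (x + y) = z x * z y`, write `ζ = z y`;
`P (q ζ) (x + y) = P q x`): the right side is `∫ P q x * ‖1 - ζ z‖^(2N)`, by `x ↦ -x` also
`∫ P q x * ‖1 - ζ conj z‖^(2N)`; mean of both, AM-GM `(A^2+B^2)/2 ≥ A B` with `A = ‖1-ζz‖^N`,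
`B = ‖1-ζ conj z‖^N`, and `‖1-ζz‖ ‖1-ζ conj z‖ = |2 Re ζ - 2 Re z|` -/
theorem UN_sym (N : ℕ) {q : ℝ} (hq0 : 0 ≤ q) (hq1 : q < 1) {ζ : ℂ} (hζ : ‖ζ‖ = 1) :
    ∫ x, P (q : ℂ) x * |2 * (z x).re - 2 * ζ.re| ^ N ∂sigma ≤ (UN N (q * ζ)).re := by
  have hz_add : ∀ x y : Circ, z (x + y) = z x * z y := fun x y => by
    unfold z
    rw [toCircle_add, Circle.coe_mul]
  have hz_neg : ∀ x : Circ, z (-x) = conj (z x) := fun x => by
    unfold z
    rw [toCircle_neg, Circle.coe_inv_eq_conj]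
  obtain ⟨y, hy⟩ : ∃ y : Circ, z y = ζ := by
    refine ⟨((Complex.arg ζ : ℝ) : Circ), ?_⟩
    rw [z_coe]
    have h := Complex.norm_mul_exp_arg_mul_I ζ
    rw [hζ, Complex.ofReal_one, one_mul] at h
    exact h
  have hqn : ‖(q : ℂ)‖ < 1 := by
    rw [Complex.norm_real, Real.norm_eq_abs, abs_of_nonneg hq0]
    exact hq1
  have hqz : ‖(q : ℂ) * ζ‖ < 1 := by
    rw [norm_mul, hζ, mul_one]
    exact hqn
  have h1 : ∫ x, P (q : ℂ) x * ‖1 - ζ * z x‖ ^ (2 * N) ∂sigma = (UN N (q * ζ)).re := by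
    rw [← UN_poisson N hqz,
      ← integral_add_right_eq_self (μ := sigma)
        (fun x => P ((q : ℂ) * ζ) x * ‖1 - z x‖ ^ (2 * N)) y]
    refine integral_congr_ae (Eventually.of_forall fun x => ?_)
    change P (q : ℂ) x * ‖1 - ζ * z x‖ ^ (2 * N) =
      P ((q : ℂ) * ζ) (x + y) * ‖1 - z (x + y)‖ ^ (2 * N)
    have e1 : P ((q : ℂ) * ζ) (x + y) = P (q : ℂ) x := by
      unfold P
      have e2 : z x * ζ - (q : ℂ) * ζ = (z x - q) * ζ := by ring
      rw [hz_add, hy, e2, norm_mul, norm_mul, hζ, mul_one, mul_one]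
    rw [e1, hz_add, hy, mul_comm (z x) ζ]
  have h2 : ∫ x, P (q : ℂ) x * ‖1 - ζ * conj (z x)‖ ^ (2 * N) ∂sigma = (UN N (q * ζ)).re := by
    rw [← h1, ← integral_neg_eq_self (fun x => P (q : ℂ) x * ‖1 - ζ * z x‖ ^ (2 * N)) sigma]
    refine integral_congr_ae (Eventually.of_forall fun x => ?_)
    change P (q : ℂ) x * ‖1 - ζ * conj (z x)‖ ^ (2 * N) =
      P (q : ℂ) (-x) * ‖1 - ζ * z (-x)‖ ^ (2 * N)
    have e1 : P (q : ℂ) (-x) = P (q : ℂ) x := by
      unfold P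
      have e2 : conj (z x) - (q : ℂ) = conj (z x - q) := by
        rw [map_sub, Complex.conj_ofReal]
      rw [hz_neg, e2, Complex.norm_conj]
    rw [e1, hz_neg]
  have c1 : Continuous fun x => P (q : ℂ) x * ‖1 - ζ * z x‖ ^ (2 * N) :=
    (continuous_P hqn).mul (((continuous_const.sub (continuous_const.mul continuous_z)).norm).pow _)
  have c2 : Continuous fun x => P (q : ℂ) x * ‖1 - ζ * conj (z x)‖ ^ (2 * N) :=
    (continuous_P hqn).mul (((continuous_const.sub (continuous_const.mul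
      (Complex.continuous_conj.comp continuous_z))).norm).pow _)
  have c3 : Continuous fun x => P (q : ℂ) x * |2 * (z x).re - 2 * ζ.re| ^ N :=
    (continuous_P hqn).mul ((((continuous_const.mul
      (Complex.continuous_re.comp continuous_z)).sub continuous_const).abs).pow _)
  have h3 : (UN N (q * ζ)).re = ∫ x, (P (q : ℂ) x * ‖1 - ζ * z x‖ ^ (2 * N) +
      P (q : ℂ) x * ‖1 - ζ * conj (z x)‖ ^ (2 * N)) / 2 ∂sigma := by
    rw [integral_div, integral_add (integrable_of_continuous c1) (integrable_of_continuous c2),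
      h1, h2]
    ring
  rw [h3]
  refine integral_mono (integrable_of_continuous c3)
    (integrable_of_continuous ((c1.add c2).div_const 2)) fun x => ?_
  change P (q : ℂ) x * |2 * (z x).re - 2 * ζ.re| ^ N ≤ (P (q : ℂ) x * ‖1 - ζ * z x‖ ^ (2 * N) +
      P (q : ℂ) x * ‖1 - ζ * conj (z x)‖ ^ (2 * N)) / 2
  rw [← usy_key hζ (norm_z x), mul_pow, mul_comm 2 N, pow_mul, pow_mul]
  have hp := (P_pos hqn x).le
  have hs := mul_nonneg hp (sq_nonneg (‖1 - ζ * z x‖ ^ N - ‖1 - ζ * conj (z x)‖ ^ N))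
  nlinarith

/-- `UN_sym`, `elem_pow` with `c = 2 (1 - Re ζ) ≥ 2`, `t = 1 - Re z` (`2 Re z - 2 Re ζ = c - 2t`),
`integral_P`, `far_int` with `τ = u/N` -/
theorem UN_near {N : ℕ} (hN : 1 ≤ N) {q : ℝ} (hq : 1 / 2 ≤ q) (hq1 : q < 1) {ζ : ℂ}
    (hζ : ‖ζ‖ = 1) (hre : ζ.re ≤ 0) {u : ℝ} (hu0 : 0 < u) (hu1 : u ≤ 1) :
    (1 - u) * (1 - 8 * (1 - q) / √(u / N)) * (2 * (1 - ζ.re)) ^ N ≤ (UN N (q * ζ)).re := by
  have hq0 : 0 ≤ q := by linarith
  have hqn : ‖(q : ℂ)‖ < 1 := by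
    rw [Complex.norm_real, Real.norm_of_nonneg hq0]
    exact hq1
  have hNr : (1 : ℝ) ≤ N := by exact_mod_cast hN
  have hτ0 : 0 < u / N := by positivity
  have hτ1 : u / N ≤ 1 := by
    rw [div_le_one (by positivity)]
    linarith
  obtain ⟨c, hc⟩ : ∃ c : ℝ, c = 2 * (1 - ζ.re) := ⟨_, rfl⟩
  have hc2 : 2 ≤ c := by
    rw [hc]
    linarith
  refine le_trans ?_ (UN_sym N hq0 hq1 hζ)
  have ht : ∀ x : Circ, 0 ≤ 1 - (z x).re := fun x => by
    have h := (abs_le.1 (Complex.abs_re_le_norm (z x))).2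
    rw [norm_z] at h
    linarith
  have hcre : Continuous (fun x : Circ => (z x).re) := Complex.continuous_re.comp continuous_z
  have hcP := continuous_P hqn
  have hcf : Continuous (fun x : Circ => (1 - (z x).re) / (u / N + (1 - (z x).re))) :=
    (continuous_const.sub hcre).div (continuous_const.add (continuous_const.sub hcre)) fun x => by
      have := ht x
      positivity
  have i1 : Integrable (P (q : ℂ)) sigma := integrable_of_continuous hcP
  have i2 : Integrable (fun x : Circ => P (q : ℂ) x *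
      ((1 - (z x).re) / (u / N + (1 - (z x).re)))) sigma := integrable_of_continuous (hcP.mul hcf)
  have i3 : Integrable (fun x : Circ => P (q : ℂ) x * |2 * (z x).re - 2 * ζ.re| ^ N) sigma :=
    integrable_of_continuous (hcP.mul
      ((((continuous_const.mul hcre).sub continuous_const).abs).pow N))
  have hle : ∫ x, (1 - u) * c ^ N * (P (q : ℂ) x - 2 * (P (q : ℂ) x *
      ((1 - (z x).re) / (u / N + (1 - (z x).re))))) ∂sigma ≤
      ∫ x, P (q : ℂ) x * |2 * (z x).re - 2 * ζ.re| ^ N ∂sigma := by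
    refine integral_mono ((i1.sub (i2.const_mul 2)).const_mul _) i3 fun x => ?_
    have h1 := elem_pow hN hc2 (ht x) hu0 hu1
    have h2 : c - 2 * (1 - (z x).re) = 2 * (z x).re - 2 * ζ.re := by
      rw [hc]
      ring
    rw [h2] at h1
    have h3 := mul_le_mul_of_nonneg_left h1 (P_pos hqn x).le
    refine le_trans (le_of_eq ?_) h3
    change (1 - u) * c ^ N * (P (q : ℂ) x - 2 * (P (q : ℂ) x *
      ((1 - (z x).re) / (u / N + (1 - (z x).re))))) = _
    ring
  refine le_trans ?_ hle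
  rw [integral_const_mul, integral_sub i1 (i2.const_mul 2), integral_const_mul, integral_P hqn,
    ← hc]
  have hfar := far_int hq hq1 hτ0 hτ1
  have hpos : 0 ≤ (1 - u) * c ^ N := mul_nonneg (by linarith) (pow_nonneg (by linarith) N)
  have h4 : 1 - 8 * (1 - q) / √(u / N) ≤ 1 - 2 * ∫ x, P (q : ℂ) x *
      ((1 - (z x).re) / (u / N + (1 - (z x).re))) ∂sigma := by
    have e : 8 * (1 - q) / √(u / N) = 2 * (4 * (1 - q) / √(u / N)) := by ring
    rw [e]
    linarith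
  calc (1 - u) * (1 - 8 * (1 - q) / √(u / N)) * c ^ N =
      (1 - u) * c ^ N * (1 - 8 * (1 - q) / √(u / N)) := by ring
    _ ≤ _ := mul_le_mul_of_nonneg_left h4 hpos

private theorem uno_sum (N : ℕ) :
    N.centralBinom + 2 * ∑ k ∈ Finset.range N, (2 * N).choose (N + (k + 1)) = 4 ^ N := by
  have h : ∑ m ∈ Finset.range ((N + 1) + N), (2 * N).choose m = 2 ^ (2 * N) := by
    have e : (N + 1) + N = 2 * N + 1 := by omega
    rw [e]
    exact Nat.sum_range_choose (2 * N)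
  rw [Finset.sum_range_add, Finset.sum_range_succ] at h
  have hs : ∑ x ∈ Finset.range N, (2 * N).choose x =
      ∑ k ∈ Finset.range N, (2 * N).choose (N + (k + 1)) := by
    rw [← Finset.sum_range_reflect]
    refine Finset.sum_congr rfl fun x hx => ?_
    have hx' := Finset.mem_range.1 hx
    exact Nat.choose_symm_of_eq_add (by omega)
  have hs2 : ∑ x ∈ Finset.range N, (2 * N).choose (N + 1 + x) =
      ∑ k ∈ Finset.range N, (2 * N).choose (N + (k + 1)) :=
    Finset.sum_congr rfl fun x _ => by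
      have e : N + 1 + x = N + (x + 1) := by omega
      rw [e]
  rw [hs, hs2] at h
  have h4 : (2 : ℕ) ^ (2 * N) = 4 ^ N := by
    rw [pow_mul]
    norm_num
  rw [h4] at h
  rw [Nat.centralBinom_eq_two_mul_choose]
  omega

/-- the sum of the moduli of the coefficients is `∑_(k=-N)^N C(2N, N+k) = 4^N` (symmetry of the
binomial coefficients, `Nat.sum_range_choose`); each power is at most `(max 1 ‖w‖)^N` -/
theorem UN_norm_le (N : ℕ) (w : ℂ) : ‖UN N w‖ ≤ 4 ^ N * (max 1 ‖w‖) ^ N := by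
  have hm : (1 : ℝ) ≤ max 1 ‖w‖ := le_max_left _ _
  have hmN : (1 : ℝ) ≤ (max 1 ‖w‖) ^ N := one_le_pow₀ hm
  have h1 : ‖(N.centralBinom : ℂ)‖ ≤ (N.centralBinom : ℝ) * (max 1 ‖w‖) ^ N := by
    rw [Complex.norm_natCast]
    exact le_mul_of_one_le_right (Nat.cast_nonneg _) hmN
  have h2 : ‖(2 : ℂ) * ∑ k ∈ Finset.range N, ((2 * N).choose (N + (k + 1)) : ℂ) * (-w) ^ (k + 1)‖ ≤
      2 * ∑ k ∈ Finset.range N, ((2 * N).choose (N + (k + 1)) : ℝ) * (max 1 ‖w‖) ^ N := by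
    rw [norm_mul, Complex.norm_ofNat]
    refine mul_le_mul_of_nonneg_left ((norm_sum_le _ _).trans
      (Finset.sum_le_sum fun k hk => ?_)) (by norm_num)
    have hk' := Finset.mem_range.1 hk
    rw [norm_mul, Complex.norm_natCast, norm_pow, norm_neg]
    refine mul_le_mul_of_nonneg_left ?_ (Nat.cast_nonneg _)
    exact (pow_le_pow_left₀ (norm_nonneg _) (le_max_right _ _) _).trans
      (pow_le_pow_right₀ hm (by omega))
  have h3 := congrArg (fun n : ℕ => (n : ℝ)) (uno_sum N)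
  simp only [Nat.cast_add, Nat.cast_mul, Nat.cast_sum, Nat.cast_pow, Nat.cast_ofNat] at h3
  unfold UN
  calc _ ≤ (N.centralBinom : ℝ) * (max 1 ‖w‖) ^ N +
        2 * ∑ k ∈ Finset.range N, ((2 * N).choose (N + (k + 1)) : ℝ) * (max 1 ‖w‖) ^ N :=
        (norm_add_le _ _).trans (add_le_add h1 h2)
    _ = (N.centralBinom + 2 * ∑ k ∈ Finset.range N, ((2 * N).choose (N + (k + 1)) : ℝ)) *
        (max 1 ‖w‖) ^ N := by
        rw [← Finset.sum_mul]
        ring
    _ = 4 ^ N * (max 1 ‖w‖) ^ N := by rw [h3]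

end Pool.Agent.MP_984ac2_an
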