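import Pool.Agent.MP_984ac2_an.TwHarm

/-!
Problem MP_984ac2_an: parameters of the sharp upper bound and the pointwise inequality.
-/

set_option autoImplicit false

open MeasureTheory AddCircle Filter Topology Metric Set
open scoped ENNReal ComplexConjugate

noncomputable section

namespace Pool.Agent.MP_984ac2_an

/-- the sharp order `2^r r^(-3/4) / sqrt(8 e sqrt π)` -/
def G0 (r : ℝ) : ℝ := 2 ^ r * r ^ (-(3 / 4) : ℝ) / √(8 * Real.exp 1 * √Real.pi)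

/-- the degree -/
def Nr (r : ℝ) : ℕ := ⌊r⌋₊

/-- the distance of the poles -/
def dl (r : ℝ) : ℝ := r ^ (-(2 / 3) : ℝ)

/-- `log r / r` -/
def el (r : ℝ) : ℝ := Real.log r / r

/-- the coefficient -/
def ar (r : ℝ) : ℝ := 4 ^ (r - Nr r) / (4 * G0 r)

/-- the mass -/
def Ar (r : ℝ) : ℝ := ar r * (Nr r).centralBinom

theorem G0_pos {r : ℝ} (hr : 0 < r) : 0 < G0 r := by
  unfold G0
  positivity

theorem ar_pos {r : ℝ} (hr : 0 < r) : 0 < ar r := by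
  have := G0_pos hr
  unfold ar
  positivity

theorem G0_sq {r : ℝ} (hr : 0 < r) :
    G0 r ^ 2 = 4 ^ r / (r ^ (3 / 2 : ℝ) * (8 * Real.exp 1 * √Real.pi)) := by
  unfold G0
  rw [div_pow, mul_pow, Real.sq_sqrt (by positivity), ← Real.rpow_natCast (2 ^ r) 2,
    ← Real.rpow_natCast (r ^ (-(3 / 4) : ℝ)) 2, ← Real.rpow_mul (by norm_num), ← Real.rpow_mul hr.le,
    mul_comm r ((2 : ℕ) : ℝ), Real.rpow_mul (by norm_num)]
  have e1 : (2 : ℝ) ^ ((2 : ℕ) : ℝ) = 4 := by norm_num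
  have e2 : -(3 / 4) * ((2 : ℕ) : ℝ) = -(3 / 2 : ℝ) := by norm_num
  rw [e1, e2, Real.rpow_neg hr.le]
  field_simp

private theorem gcb_W (N : ℕ) : ((N.centralBinom : ℝ) * √N / 4 ^ N) ^ 2 =
    (1 / 2 - 1 / 2 * (1 / (2 * (N : ℝ) + 1))) * (Real.Wallis.W N)⁻¹ := by
  have h1 : (N.centralBinom : ℝ) * (N.factorial : ℝ) * (N.factorial : ℝ) =
      ((2 * N).factorial : ℝ) := by
    have h := Nat.choose_mul_factorial_mul_factorial (n := 2 * N) (k := N) (by omega)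
    rw [show 2 * N - N = N from by omega, ← Nat.centralBinom_eq_two_mul_choose] at h
    exact_mod_cast h
  have hM : (0 : ℝ) < N.centralBinom := by exact_mod_cast Nat.centralBinom_pos N
  have hf : (0 : ℝ) < N.factorial := by exact_mod_cast Nat.factorial_pos N
  have h2 : (0 : ℝ) < 2 * (N : ℝ) + 1 := by positivity
  have h4 : (2 : ℝ) ^ (4 * N) = (4 ^ N) ^ 2 := by
    rw [← pow_mul (4 : ℝ) N 2, mul_comm N 2, pow_mul, pow_mul]
    norm_num
  rw [Real.Wallis.W_eq_factorial_ratio, ← h1, div_pow, mul_pow, Real.sq_sqrt (Nat.cast_nonneg N), h4]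
  have h5 : (0 : ℝ) < 4 ^ N := by positivity
  field_simp
  ring

/-- Wallis: `Real.Wallis.W_eq_factorial_ratio` (or `Stirling`), `Real.Wallis.tendsto_W_nhds_pi_div_two`:
`W k = 16^k / (M_k^2 (2k+1)) → π/2` -/
theorem tendsto_centralBinom :
    Tendsto (fun N : ℕ => (N.centralBinom : ℝ) * √N / 4 ^ N) atTop (𝓝 (1 / √Real.pi)) := by
  have h1 : Tendsto (fun N : ℕ => (1 / (2 * (N : ℝ) + 1))) atTop (𝓝 0) := by
    have h := (tendsto_natCast_atTop_atTop (R := ℝ)).const_mul_atTop (by norm_num : (0 : ℝ) < 2)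
    exact (tendsto_const_nhds (x := (1 : ℝ))).div_atTop (tendsto_atTop_add_const_right _ 1 h)
  have h2 := Real.Wallis.tendsto_W_nhds_pi_div_two.inv₀ (by positivity)
  have h3 := (((h1.const_mul (1 / 2 : ℝ)).const_sub (1 / 2 : ℝ))).mul h2
  have h4 : (1 / 2 - 1 / 2 * (0 : ℝ)) * (Real.pi / 2)⁻¹ = 1 / Real.pi := by
    have := Real.pi_pos
    field_simp
    ring
  rw [h4] at h3
  have h5 := (Real.continuous_sqrt.tendsto _).comp h3
  rw [Real.sqrt_div zero_le_one, Real.sqrt_one] at h5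
  refine h5.congr fun N => ?_
  show √((1 / 2 - 1 / 2 * (1 / (2 * (N : ℝ) + 1))) * (Real.Wallis.W N)⁻¹) = _
  rw [← gcb_W, Real.sqrt_sq (by positivity)]

private theorem gar_eq {r : ℝ} (hr : 1 ≤ r) :
    Ar r / (2 * Real.exp 1 * r * G0 r) =
      ((Nr r).centralBinom : ℝ) * √(Nr r) / 4 ^ (Nr r) * (√(r / Nr r) * √Real.pi) := by
  have hr0 : 0 < r := by linarith
  have hN : (0 : ℝ) < Nr r := by
    have h1 : 1 ≤ Nr r := by
      unfold Nr
      exact (Nat.one_le_floor_iff r).2 hr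
    exact_mod_cast h1
  have hG := G0_pos hr0
  have hG2 := G0_sq hr0
  have h4 : (4 : ℝ) ^ (r - Nr r) = 4 ^ r / 4 ^ (Nr r) := by
    rw [Real.rpow_sub (by norm_num), Real.rpow_natCast]
  have hs : √(Nr r : ℝ) * √(r / Nr r) = √r := by
    rw [← Real.sqrt_mul hN.le]
    congr 1
    field_simp
  have h32 : r ^ (3 / 2 : ℝ) = r * √r := by
    rw [Real.sqrt_eq_rpow, ← Real.rpow_one_add' hr0.le (by norm_num)]
    norm_num
  have hpi : 0 < √Real.pi := Real.sqrt_pos.2 Real.pi_pos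
  have hsr : 0 < √r := Real.sqrt_pos.2 hr0
  have h4r : (0 : ℝ) < 4 ^ r := Real.rpow_pos_of_pos (by norm_num) r
  have h4N : (0 : ℝ) < 4 ^ (Nr r) := by positivity
  have e1 : Ar r / (2 * Real.exp 1 * r * G0 r) =
      4 ^ (r - Nr r) * ((Nr r).centralBinom : ℝ) / (8 * Real.exp 1 * r * G0 r ^ 2) := by
    unfold Ar ar
    field_simp
    ring
  rw [e1, h4, hG2, h32]
  have e2 : ((Nr r).centralBinom : ℝ) * √(Nr r) / 4 ^ (Nr r) * (√(r / Nr r) * √Real.pi) =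
      ((Nr r).centralBinom : ℝ) * √r / 4 ^ (Nr r) * √Real.pi := by
    rw [← hs]
    ring
  rw [e2]
  have he : (0 : ℝ) < Real.exp 1 := Real.exp_pos 1
  field_simp

/-- `Ar r / (2 e r G0 r) = 4^r M_N 4^(-N) / (8 e r (G0 r)^2) = (M_N √N / 4^N) √(r/N) √π → 1`
(`G0_sq`, `tendsto_centralBinom` along `Nr r → ∞`, `Nr r / r → 1`) -/
theorem tendsto_Ar : Tendsto (fun r => Ar r / (2 * Real.exp 1 * r * G0 r)) atTop (𝓝 1) := by
  have h1 : Tendsto (fun r : ℝ => ((Nr r).centralBinom : ℝ) * √(Nr r) / 4 ^ (Nr r)) atTop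
      (𝓝 (1 / √Real.pi)) := tendsto_centralBinom.comp tendsto_nat_floor_atTop
  have h2 : Tendsto (fun r : ℝ => r / (Nr r : ℝ)) atTop (𝓝 1) := by
    have h3 := (tendsto_nat_floor_div_atTop (R := ℝ)).inv₀ one_ne_zero
    rw [inv_one] at h3
    refine h3.congr fun r => ?_
    rw [inv_div]
    rfl
  have h3 : Tendsto (fun r : ℝ => √(r / (Nr r : ℝ)) * √Real.pi) atTop (𝓝 (√1 * √Real.pi)) :=
    ((Real.continuous_sqrt.tendsto 1).comp h2).mul_const _
  have h4 := h1.mul h3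
  have h5 : 1 / √Real.pi * (√1 * √Real.pi) = 1 := by
    have hpi : √Real.pi ≠ 0 := (Real.sqrt_pos.2 Real.pi_pos).ne'
    rw [Real.sqrt_one]
    field_simp
  rw [h5] at h4
  refine h4.congr' ?_
  filter_upwards [eventually_ge_atTop 1] with r hr
  exact (gar_eq hr).symm

private theorem pex_B {N : ℕ} (hN : 1 ≤ N) {R : ℝ} (hR1 : 1 < R) :
    (R ^ 2 - 1) / (4 * R) * (2 * N / (2 * N - 1)) ≤
      (R - 1) / (R + 1) + (R - 1) / 2 * ((R - 1) ^ 2 / 2 + 1 / N) := by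
  have hn : (1 : ℝ) ≤ N := by exact_mod_cast hN
  set n : ℝ := (N : ℝ) with hn'
  have h2 : 0 < 2 * n - 1 := by linarith
  have hR0 : 0 < R := by linarith
  have e0 : 2 * n / (2 * n - 1) = 1 + 1 / (2 * n - 1) := by
    field_simp
    ring
  have e1 : (R ^ 2 - 1) / (4 * R) = (R - 1) / (R + 1) * (1 + (R - 1) ^ 2 / (4 * R)) := by
    field_simp
    ring
  have a1 : 1 / (2 * n - 1) ≤ 1 / n := one_div_le_one_div_of_le (by linarith) (by linarith)
  have a2 : 1 / (2 * n - 1) ≤ 1 := by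
    rw [div_le_one h2]
    linarith
  have a3 : 0 ≤ 1 / (2 * n - 1) := by positivity
  have b1 : (R - 1) ^ 2 / (4 * R) ≤ (R - 1) ^ 2 / 4 :=
    div_le_div_of_nonneg_left (sq_nonneg _) (by norm_num) (by linarith)
  have b2 : 0 ≤ (R - 1) ^ 2 / (4 * R) := by positivity
  have c1 : (R - 1) / (R + 1) ≤ (R - 1) / 2 :=
    div_le_div_of_nonneg_left (by linarith) (by norm_num) (by linarith)
  have c2 : 0 ≤ (R - 1) / (R + 1) := div_nonneg (by linarith) (by linarith)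
  rw [e0, e1]
  set q := (R - 1) / (R + 1)
  set x := (R - 1) ^ 2 / (4 * R)
  set y := 1 / (2 * n - 1)
  have d1 : x * y ≤ (R - 1) ^ 2 / 4 := by
    calc x * y ≤ x * 1 := mul_le_mul_of_nonneg_left a2 b2
      _ ≤ (R - 1) ^ 2 / 4 := by linarith
  have d2 : x + y + x * y ≤ (R - 1) ^ 2 / 2 + 1 / n := by linarith
  have d3 : 0 ≤ x + y + x * y := by positivity
  have d4 : q * (x + y + x * y) ≤ (R - 1) / 2 * ((R - 1) ^ 2 / 2 + 1 / n) :=
    mul_le_mul c1 d2 d3 (by linarith)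
  calc q * (1 + x) * (1 + y) = q + q * (x + y + x * y) := by ring
    _ ≤ _ := by linarith

/-- `(R-x)/(R+x) = (R-1)/(R+1) + 2R(1-x)/((R+x)(R+1))` and
`(R^2-1)/(4R) = (R-1)/(R+1) (1 + (R-1)^2/(4R))`, `2N/(2N-1) ≤ 1 + 1/N` -/
theorem E_in {N : ℕ} (hN : 1 ≤ N) {R x : ℝ} (hR1 : 1 < R) (hR2 : R ≤ 2) (hx0 : 0 ≤ x) (hx1 : x ≤ 1) :
    (1 - x) / 4 - (R - 1) / 2 * ((R - 1) ^ 2 / 2 + 1 / N)
      ≤ (R - x) / (R + x) - (R ^ 2 - 1) / (4 * R) * (2 * N / (2 * N - 1)) := by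
  have h1 := pex_B hN hR1
  have hR0 : 0 < R := by linarith
  have h2 : (R - 1) / (R + 1) + (1 - x) / 4 ≤ (R - x) / (R + x) := by
    have e1 : (R - x) / (R + x) = (R - 1) / (R + 1) + (1 - x) * (2 * R / ((R + x) * (R + 1))) := by
      field_simp
      ring
    rw [e1]
    have e2 : 1 / 4 ≤ 2 * R / ((R + x) * (R + 1)) := by
      rw [div_le_div_iff₀ (by norm_num) (by positivity)]
      nlinarith [mul_nonneg (sub_nonneg.2 hx1) hR0.le]
    have e3 := mul_le_mul_of_nonneg_left e2 (sub_nonneg.2 hx1)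
    linarith
  linarith

theorem E_out {N : ℕ} (hN : 1 ≤ N) {R x : ℝ} (hR1 : 1 < R) (hR2 : R ≤ 2) (hx0 : 1 ≤ x) (hx1 : x ≤ R) :
    -((x - 1) / 2) - (R - 1) / 2 * ((R - 1) ^ 2 / 2 + 1 / N)
      ≤ (R - x) / (R + x) - (R ^ 2 - 1) / (4 * R) * (2 * N / (2 * N - 1)) := by
  have h1 := pex_B hN hR1
  have hR0 : 0 < R := by linarith
  have hx : 0 < x := by linarith
  have h2 : (R - 1) / (R + 1) - (x - 1) / 2 ≤ (R - x) / (R + x) := by
    have e1 : (R - x) / (R + x) = (R - 1) / (R + 1) - (x - 1) * (2 * R / ((R + x) * (R + 1))) := by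
      field_simp
      ring
    rw [e1]
    have e2 : 2 * R / ((R + x) * (R + 1)) ≤ 1 / 2 := by
      rw [div_le_div_iff₀ (by positivity) (by norm_num)]
      nlinarith [mul_nonneg (sub_nonneg.2 hx0) hR0.le, sq_nonneg (R - 1)]
    have e3 := mul_le_mul_of_nonneg_left e2 (sub_nonneg.2 hx0)
    linarith
  linarith

/-- `r δ (δ^2/2 + 1/N) → 0` for `δ = r^(-2/3)`, `N = ⌊r⌋` -/
theorem tendsto_err :
    Tendsto (fun r => r * (dl r / 2 * (dl r ^ 2 / 2 + 1 / (Nr r : ℝ)))) atTop (𝓝 0) := by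
  have h2 : Tendsto (fun r : ℝ => r / (Nr r : ℝ)) atTop (𝓝 1) := by
    have h3 := (tendsto_nat_floor_div_atTop (R := ℝ)).inv₀ one_ne_zero
    rw [inv_one] at h3
    refine h3.congr fun r => ?_
    rw [inv_div]
    rfl
  have h3 : Tendsto dl atTop (𝓝 0) := tendsto_rpow_neg_atTop (by norm_num : (0 : ℝ) < 2 / 3)
  have h4 : Tendsto (fun r : ℝ => r⁻¹ / 4) atTop (𝓝 (0 / 4)) := tendsto_inv_atTop_zero.div_const 4
  have h5 := h4.add ((h2.mul h3).div_const 2)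
  have h6 : (0 : ℝ) / 4 + 1 * 0 / 2 = 0 := by norm_num
  rw [h6] at h5
  refine h5.congr' ?_
  filter_upwards [eventually_gt_atTop 0] with r hr
  have h7 : dl r ^ 3 = (r ^ 2)⁻¹ := by
    unfold dl
    rw [← Real.rpow_natCast, ← Real.rpow_mul hr.le]
    have : -(2 / 3 : ℝ) * ((3 : ℕ) : ℝ) = -(2 : ℕ) := by norm_num
    rw [this, Real.rpow_neg hr.le, Real.rpow_natCast]
  have h8 : r⁻¹ = r * dl r ^ 3 := by
    rw [h7]
    field_simp
  rw [h8]
  ring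

private theorem pps_exp {x r R : ℝ} (hx : 1 ≤ x) (hxR : x ≤ R) (hr : 0 ≤ r) :
    Real.exp 1 * r * (x - 1) ≤ R * x ^ r := by
  have hx0 : 0 < x := by linarith
  have hl0 : 0 ≤ Real.log x := Real.log_nonneg hx
  have h1 : x - 1 ≤ R * Real.log x := by
    have h2 := Real.one_sub_inv_le_log_of_pos hx0
    have h3 := mul_le_mul_of_nonneg_left h2 hx0.le
    have h4 : x * (1 - x⁻¹) = x - 1 := by
      rw [mul_sub, mul_one, mul_inv_cancel₀ hx0.ne']
    rw [h4] at h3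
    have h5 := mul_le_mul_of_nonneg_right hxR hl0
    linarith
  have h6 : Real.exp 1 * (r * Real.log x) ≤ x ^ r := by
    have h7 := Real.add_one_le_exp (r * Real.log x - 1)
    have h8 : x ^ r = Real.exp 1 * Real.exp (r * Real.log x - 1) := by
      rw [← Real.exp_add, Real.rpow_def_of_pos hx0]
      congr 1
      ring
    rw [h8]
    exact mul_le_mul_of_nonneg_left (by linarith) (Real.exp_pos 1).le
  have h9 : Real.exp 1 * r * (x - 1) ≤ Real.exp 1 * r * (R * Real.log x) :=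
    mul_le_mul_of_nonneg_left h1 (mul_nonneg (Real.exp_pos 1).le hr)
  have h10 := mul_le_mul_of_nonneg_left h6 (show 0 ≤ R by linarith)
  nlinarith [h9, h10]

/-- positivity. Write `A = Ar r ∈ [(1-ε), (1+ε)] 2 e r G0` (`tendsto_Ar`), `err` as in `tendsto_err`.
`x ≤ 1`: `E_in`, `x^r ≥ 1 - r(1-x)` and `A (1-x)/4 ≥ G0 r (1-x)`, so the sum is at least
`G0 (1 - A err/G0) ≥ G0/2`. `x ≥ 1`: `E_out`, `e r (x-1) ≤ R e r log x ≤ R x^r` (as `log x ≥ (x-1)/x`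
and `e t ≤ exp t`), so the sum is at least `G0 x^r (1 + η - (1+ε) R - small)`, and `R → 1`. -/
theorem pos_sum {η : ℝ} (hη : 0 < η) : ∃ c : ℝ, 0 < c ∧ ∀ᶠ r : ℝ in atTop, ∀ x : ℝ, 0 ≤ x →
    x ≤ 1 + dl r → c * (G0 r * (max 1 x) ^ r) ≤ (1 + η) * G0 r * x ^ r
      + Ar r * ((1 + dl r - x) / (1 + dl r + x)
        - ((1 + dl r) ^ 2 - 1) / (4 * (1 + dl r)) * (2 * Nr r / (2 * Nr r - 1))) := by
  have hdl : Tendsto dl atTop (𝓝 0) := tendsto_rpow_neg_atTop (show (0 : ℝ) < 2 / 3 by norm_num)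
  have hR : Tendsto (fun r => Ar r / (2 * Real.exp 1 * r * G0 r) * (1 + dl r)) atTop (𝓝 1) := by
    have h := tendsto_Ar.mul (hdl.const_add 1)
    have e : (1 : ℝ) * (1 + 0) = 1 := by norm_num
    rw [e] at h
    exact h
  have hE : Tendsto (fun r => 2 * Real.exp 1 * (Ar r / (2 * Real.exp 1 * r * G0 r) *
      (r * (dl r / 2 * (dl r ^ 2 / 2 + 1 / (Nr r : ℝ)))))) atTop (𝓝 0) := by
    have h := (tendsto_Ar.mul tendsto_err).const_mul (2 * Real.exp 1)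
    have e : 2 * Real.exp 1 * ((1 : ℝ) * 0) = 0 := by ring
    rw [e] at h
    exact h
  have hκ : 0 < min (1 / 2) (η / 4) := lt_min (by norm_num) (by linarith)
  refine ⟨min (1 / 2) (η / 2), lt_min (by norm_num) (by linarith), ?_⟩
  filter_upwards [eventually_ge_atTop (1 : ℝ), (tendsto_order.1 tendsto_Ar).1 (3 / 4) (by norm_num),
    (tendsto_order.1 hR).2 (1 + η / 4) (by linarith), (tendsto_order.1 hE).2 _ hκ]
    with r hr1 h34 hRr hEr x hx0 hxR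
  have hr0 : 0 < r := by linarith
  have hG : 0 < G0 r := G0_pos hr0
  have he : (2.7 : ℝ) < Real.exp 1 := by
    have := Real.exp_one_gt_d9
    linarith
  have hrG : 0 < r * G0 r := mul_pos hr0 hG
  have hpos : 0 < 2 * Real.exp 1 * r * G0 r := by positivity
  obtain ⟨ρ, hρ⟩ : ∃ ρ : ℝ, ρ = Ar r / (2 * Real.exp 1 * r * G0 r) := ⟨_, rfl⟩
  rw [← hρ] at h34 hRr hEr
  have hA : Ar r = ρ * (2 * Real.exp 1 * r * G0 r) := by
    rw [hρ, div_mul_cancel₀ _ hpos.ne']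
  have hA4 : 4 * (r * G0 r) ≤ Ar r := by
    rw [hA]
    have h1 : 3 / 4 * (2 * Real.exp 1 * r * G0 r) ≤ ρ * (2 * Real.exp 1 * r * G0 r) :=
      mul_le_mul_of_nonneg_right h34.le hpos.le
    have h2 : (2.7 : ℝ) * (r * G0 r) ≤ Real.exp 1 * (r * G0 r) :=
      mul_le_mul_of_nonneg_right he.le hrG.le
    nlinarith
  have hA0 : 0 ≤ Ar r := by linarith
  have hd0 : 0 < dl r := by unfold dl; positivity
  have hd1 : dl r ≤ 1 := by
    unfold dl
    exact Real.rpow_le_one_of_one_le_of_nonpos hr1 (by norm_num)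
  have hN : 1 ≤ Nr r := Nat.le_floor (by simpa using hr1)
  have hErr : Ar r * (dl r / 2 * (dl r ^ 2 / 2 + 1 / (Nr r : ℝ))) ≤
      G0 r * min (1 / 2) (η / 4) := by
    have e : Ar r * (dl r / 2 * (dl r ^ 2 / 2 + 1 / (Nr r : ℝ))) = G0 r * (2 * Real.exp 1 *
        (ρ * (r * (dl r / 2 * (dl r ^ 2 / 2 + 1 / (Nr r : ℝ)))))) := by
      rw [hA]
      ring
    rw [e]
    exact mul_le_mul_of_nonneg_left hEr.le hG.le
  rcases le_total x 1 with hx1 | hx1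
  · have h1 := mul_le_mul_of_nonneg_left (E_in hN (show 1 < 1 + dl r by linarith)
      (show 1 + dl r ≤ 2 by linarith) hx0 hx1) hA0
    rw [add_sub_cancel_left] at h1
    have h2 := one_add_mul_self_le_rpow_one_add (s := x - 1) (by linarith) hr1
    rw [add_sub_cancel] at h2
    have h3 := mul_le_mul_of_nonneg_left h2 hG.le
    have h4 : 4 * (r * G0 r) * ((1 - x) / 4) ≤ Ar r * ((1 - x) / 4) :=
      mul_le_mul_of_nonneg_right hA4 (by linarith)
    have h5 : G0 r * min (1 / 2) (η / 4) ≤ G0 r * (1 / 2) :=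
      mul_le_mul_of_nonneg_left (min_le_left _ _) hG.le
    have h6 : min (1 / 2) (η / 2) * G0 r ≤ 1 / 2 * G0 r :=
      mul_le_mul_of_nonneg_right (min_le_left _ _) hG.le
    have h7 : 0 ≤ η * (G0 r * x ^ r) :=
      mul_nonneg hη.le (mul_nonneg hG.le (Real.rpow_nonneg hx0 r))
    rw [max_eq_left hx1, Real.one_rpow, mul_one]
    rw [mul_sub] at h1
    nlinarith [h1, h3, h4, h5, h6, h7, hErr]
  · have h1 := mul_le_mul_of_nonneg_left (E_out hN (show 1 < 1 + dl r by linarith)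
      (show 1 + dl r ≤ 2 by linarith) hx1 hxR) hA0
    rw [add_sub_cancel_left] at h1
    have hxr : 1 ≤ x ^ r := Real.one_le_rpow hx1 hr0.le
    have h2 := pps_exp hx1 hxR hr0.le
    have hρ0 : 0 ≤ ρ := by linarith
    have h3 := mul_le_mul_of_nonneg_left h2 (mul_nonneg hρ0 hG.le)
    have hGx : 0 ≤ G0 r * x ^ r := mul_nonneg hG.le (by linarith)
    have h4 := mul_le_mul_of_nonneg_right hRr.le hGx
    have h5 : G0 r * min (1 / 2) (η / 4) ≤ η / 4 * (G0 r * x ^ r) := by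
      have h6 : G0 r * min (1 / 2) (η / 4) ≤ G0 r * (η / 4) :=
        mul_le_mul_of_nonneg_left (min_le_right _ _) hG.le
      have h7 : G0 r * (η / 4) * 1 ≤ G0 r * (η / 4) * x ^ r :=
        mul_le_mul_of_nonneg_left hxr (by positivity)
      linarith
    have h8 : min (1 / 2) (η / 2) * (G0 r * x ^ r) ≤ η / 2 * (G0 r * x ^ r) :=
      mul_le_mul_of_nonneg_right (min_le_right _ _) hGx
    have h9 : Ar r * ((x - 1) / 2) ≤ (1 + η / 4) * (G0 r * x ^ r) := by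
      have e : Ar r * ((x - 1) / 2) = ρ * G0 r * (Real.exp 1 * r * (x - 1)) := by
        rw [hA]
        ring
      rw [e]
      refine h3.trans (le_trans (le_of_eq ?_) h4)
      ring
    rw [max_eq_right hx1]
    rw [mul_sub] at h1
    have h10 : Ar r * (-((x - 1) / 2)) = -(Ar r * ((x - 1) / 2)) := by ring
    rw [h10] at h1
    have h11 : (1 + η) * G0 r * x ^ r = (1 + η) * (G0 r * x ^ r) := by ring
    rw [h11]
    linarith

/-- the harmonic function, divided by `ar r` -/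
def Vr (r : ℝ) (w : ℂ) : ℝ := (UN (Nr r) (w / ((1 + dl r : ℝ) : ℂ))).re

/-- `UN_ge` at `w/R` and `UN_real_le` at `b = 1/R` -/
theorem Vr_sub_ge {r : ℝ} (hr : 1 ≤ r) {w : ℂ} (hw : ‖w‖ ≤ 1 + dl r) :
    (Nr r).centralBinom * ((1 + dl r - ‖w‖) / (1 + dl r + ‖w‖)
        - ((1 + dl r) ^ 2 - 1) / (4 * (1 + dl r)) * (2 * Nr r / (2 * Nr r - 1)))
      ≤ Vr r w - Vr r 1 := by
  have hd : 0 < dl r := Real.rpow_pos_of_pos (by linarith) _
  have hN : 1 ≤ Nr r := Nat.le_floor (by exact_mod_cast hr)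
  unfold Vr
  generalize Nr r = N at hN ⊢
  have hR1 : 1 < 1 + dl r := by linarith
  generalize 1 + dl r = R at hw hR1 ⊢
  have hR0 : 0 < R := by linarith
  have hnw : 0 ≤ ‖w‖ := norm_nonneg w
  have hna : ‖w / (R : ℂ)‖ = ‖w‖ / R := by
    rw [norm_div, Complex.norm_real, Real.norm_eq_abs, abs_of_pos hR0]
  have h1 := UN_ge N (a := w / (R : ℂ)) (by rw [hna, div_le_one hR0]; exact hw)
  rw [hna] at h1
  have e1 : (1 - ‖w‖ / R) / (1 + ‖w‖ / R) = (R - ‖w‖) / (R + ‖w‖) := by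
    have : R + ‖w‖ ≠ 0 := by positivity
    have : 1 + ‖w‖ / R ≠ 0 := by positivity
    field_simp
  rw [e1] at h1
  have h2 := UN_real_le hN (b := 1 / R) (by positivity) (by rw [div_lt_one hR0]; exact hR1)
  have e2 : (1 - (1 / R) ^ 2) / (4 * (1 / R)) = (R ^ 2 - 1) / (4 * R) := by
    field_simp
  rw [e2] at h2
  have e3 : (1 : ℂ) / (R : ℂ) = ((1 / R : ℝ) : ℂ) := by push_cast; rfl
  rw [e3, mul_sub, ← mul_assoc]
  linarith

private theorem pfa_pow {c : ℝ} (hc : 0 < c) : ∀ᶠ r : ℝ in atTop, 2 ^ r * r⁻¹ ≤ c * G0 r := by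
  have hK : ∀ᶠ r : ℝ in atTop, √(8 * Real.exp 1 * √Real.pi) / c ≤ r ^ (1 / 4 : ℝ) :=
    (tendsto_rpow_atTop (by norm_num)).eventually_ge_atTop _
  filter_upwards [hK, eventually_gt_atTop 0] with r h1 hr
  have hK0 : 0 < √(8 * Real.exp 1 * √Real.pi) := by positivity
  have e1 : r ^ (-(3 / 4) : ℝ) = r ^ (1 / 4 : ℝ) * r⁻¹ := by
    rw [← Real.rpow_neg_one r, ← Real.rpow_add hr]
    norm_num
  rw [div_le_iff₀ hc] at h1
  unfold G0
  rw [e1]
  have e2 : c * (2 ^ r * (r ^ (1 / 4 : ℝ) * r⁻¹) / √(8 * Real.exp 1 * √Real.pi)) =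
      2 ^ r * r⁻¹ * (r ^ (1 / 4 : ℝ) * c / √(8 * Real.exp 1 * √Real.pi)) := by ring
  rw [e2]
  have h2 : 1 ≤ r ^ (1 / 4 : ℝ) * c / √(8 * Real.exp 1 * √Real.pi) := by
    rwa [one_le_div hK0]
  have h3 : 0 ≤ (2 : ℝ) ^ r * r⁻¹ := by positivity
  exact le_mul_of_one_le_right h3 h2

/-- `‖w-1‖^r ≤ 2^r (max 1 ‖w‖)^r (1-ℓ)^r`, `(1-ℓ)^r ≤ exp(-r ℓ) = 1/r`, and
`2^r / r ≤ c G0 r` eventually; then `pos_sum` and `Vr_sub_ge` -/
theorem far_case {η : ℝ} (hη : 0 < η) : ∀ᶠ r : ℝ in atTop, ∀ w : ℂ, ‖w‖ ≤ 1 + dl r →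
    ‖w - 1‖ ≤ 2 * max 1 ‖w‖ * (1 - el r) →
    ‖w - 1‖ ^ r ≤ (1 + η) * G0 r * ‖w‖ ^ r + ar r * (Vr r w - Vr r 1) := by
  obtain ⟨c, hc, hps⟩ := pos_sum hη
  filter_upwards [hps, pfa_pow hc, eventually_ge_atTop 1] with r h1 h2 hr w hw hw2
  have hr0 : 0 < r := by linarith
  have h3 := h1 ‖w‖ (norm_nonneg w) hw
  have h4 := mul_le_mul_of_nonneg_left (Vr_sub_ge hr hw) (ar_pos hr0).le
  rw [← mul_assoc] at h4
  have h5 : Ar r = ar r * (Nr r).centralBinom := rfl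
  rw [← h5] at h4
  have hm : 0 < max 1 ‖w‖ := lt_of_lt_of_le one_pos (le_max_left _ _)
  have h7 : ‖w - 1‖ ≤ 2 * max 1 ‖w‖ * Real.exp (-el r) := by
    refine hw2.trans (mul_le_mul_of_nonneg_left ?_ (by positivity))
    have := Real.add_one_le_exp (-el r)
    linarith
  have h8 : ‖w - 1‖ ^ r ≤ (2 * max 1 ‖w‖ * Real.exp (-el r)) ^ r :=
    Real.rpow_le_rpow (norm_nonneg _) h7 hr0.le
  have h9 : (2 * max 1 ‖w‖ * Real.exp (-el r)) ^ r = 2 ^ r * r⁻¹ * (max 1 ‖w‖) ^ r := by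
    rw [Real.mul_rpow (by positivity) (Real.exp_pos _).le, Real.mul_rpow (by norm_num) hm.le,
      ← Real.exp_mul]
    have e1 : -el r * r = -Real.log r := by
      unfold el
      field_simp
    rw [e1, Real.exp_neg, Real.exp_log hr0]
    ring
  have h10 : 2 ^ r * r⁻¹ * (max 1 ‖w‖) ^ r ≤ c * G0 r * (max 1 ‖w‖) ^ r :=
    mul_le_mul_of_nonneg_right h2 (by positivity)
  rw [h9] at h8
  linarith

private theorem pou_lim : Tendsto (fun r : ℝ => √(8 * Real.exp 1 * √Real.pi) * r ^ (3 / 4 : ℝ) *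
    Real.exp (-(1 / 4) * r ^ (1 / 3 : ℝ))) atTop (𝓝 0) := by
  have h1 := (tendsto_rpow_mul_exp_neg_mul_atTop_nhds_zero (9 / 4) (1 / 4) (by norm_num)).comp
    (tendsto_rpow_atTop (show (0 : ℝ) < 1 / 3 by norm_num))
  have h2 := h1.const_mul (√(8 * Real.exp 1 * √Real.pi))
  rw [mul_zero] at h2
  refine h2.congr' ?_
  filter_upwards [eventually_gt_atTop 0] with r hr
  simp only [Function.comp]
  rw [← Real.rpow_mul hr.le, show (1 / 3 : ℝ) * (9 / 4) = 3 / 4 by norm_num]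
  ring

/-- for `x = ‖w‖ ≥ R = 1 + δ`: `‖w-1‖^r ≤ (1+x)^r ≤ x^r (2 - δ/R)^r ≤ x^r 2^r exp(-r δ/4)`,
`ar |Vr w| ≤ ar 4^N (x/R)^N ≤ (4^r/(4 G0)) x^r R^(-N)`, `ar |Vr 1| ≤ 4^r/(4 G0)` (`UN_norm_le`),
`4^r/G0^2 = 8 e √π r^(3/2)` (`G0_sq`), `R^(-N) ≤ exp(-r δ/4)`, `x^r ≥ R^r ≥ exp(r δ/2)`; all
exponentials beat the powers since `r δ = r^(1/3)` -/
theorem out_case {η : ℝ} (hη : 0 < η) : ∀ᶠ r : ℝ in atTop, ∀ w : ℂ, 1 + dl r ≤ ‖w‖ →
    ‖w - 1‖ ^ r ≤ (1 + η) * G0 r * ‖w‖ ^ r + ar r * (Vr r w - Vr r 1) := by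
  have hev : ∀ᶠ r : ℝ in atTop, √(8 * Real.exp 1 * √Real.pi) * r ^ (3 / 4 : ℝ) *
      Real.exp (-(1 / 4) * r ^ (1 / 3 : ℝ)) < 1 / 2 :=
    pou_lim.eventually (gt_mem_nhds (by norm_num))
  filter_upwards [hev, eventually_ge_atTop 1] with r ht hr w hw
  have hr0 : 0 < r := by linarith
  have hG : 0 < G0 r := G0_pos hr0
  have hd : 0 < dl r := Real.rpow_pos_of_pos hr0 _
  have hd1 : dl r ≤ 1 := Real.rpow_le_one_of_one_le_of_nonpos hr (by norm_num)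
  have hrd : r * dl r = r ^ (1 / 3 : ℝ) := by
    have h : r * dl r = r ^ (1 : ℝ) * r ^ (-(2 / 3) : ℝ) := by
      rw [Real.rpow_one]; rfl
    rw [h, ← Real.rpow_add hr0]
    norm_num
  have hGK : G0 r * (√(8 * Real.exp 1 * √Real.pi) * r ^ (3 / 4 : ℝ)) = 2 ^ r := by
    unfold G0
    rw [Real.rpow_neg hr0.le]
    have : √(8 * Real.exp 1 * √Real.pi) ≠ 0 := by positivity
    have : r ^ (3 / 4 : ℝ) ≠ 0 := by positivity
    field_simp
  have hN : (Nr r : ℝ) ≤ r := Nat.floor_le hr0.le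
  have har : ar r * 4 ^ (Nr r) = 4 ^ r / (4 * G0 r) := by
    unfold ar
    rw [Real.rpow_sub (by norm_num), Real.rpow_natCast]
    field_simp
  have harp := ar_pos hr0
  set t := √(8 * Real.exp 1 * √Real.pi) * r ^ (3 / 4 : ℝ) *
      Real.exp (-(1 / 4) * r ^ (1 / 3 : ℝ)) with htd
  set E := Real.exp (-(1 / 4) * r ^ (1 / 3 : ℝ)) with hE
  have hE0 : 0 < E := Real.exp_pos _
  have ht0 : 0 < t := by positivity
  have h2E : (2 : ℝ) ^ r * E = G0 r * t := by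
    rw [← hGK, htd]; ring
  have h4 : (4 : ℝ) ^ r = (2 ^ r) ^ 2 := by
    rw [← Real.rpow_natCast, ← Real.rpow_mul (by norm_num), mul_comm r, Real.rpow_mul (by norm_num)]
    norm_num
  have h4E : (4 : ℝ) ^ r / (4 * G0 r) * E ^ 2 = G0 r * (t ^ 2 / 4) := by
    have : (4 : ℝ) ^ r * E ^ 2 = (G0 r * t) ^ 2 := by rw [h4, ← h2E]; ring
    field_simp
    linarith
  have hR1 : 1 < 1 + dl r := by linarith
  have hx0 : 0 < ‖w‖ := by linarith
  have hx1 : 1 ≤ ‖w‖ := by linarith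
  have hxr : 0 < ‖w‖ ^ r := by positivity
  -- first term
  have hA : ‖w - 1‖ ^ r ≤ ‖w‖ ^ r * (2 ^ r * E) := by
    have h1 : ‖w - 1‖ ≤ ‖w‖ * (2 * Real.exp (-(dl r / 4))) := by
      have h2 : ‖w - 1‖ ≤ ‖w‖ + 1 := by
        have := norm_sub_le w 1
        rwa [norm_one] at this
      have h3 : 1 - dl r / 4 ≤ Real.exp (-(dl r / 4)) := by
        have := Real.add_one_le_exp (-(dl r / 4))
        linarith
      have h4 : ‖w‖ + 1 ≤ ‖w‖ * (2 * (1 - dl r / 4)) := by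
        nlinarith
      refine h2.trans (h4.trans ?_)
      gcongr
    have h5 : ‖w - 1‖ ^ r ≤ (‖w‖ * (2 * Real.exp (-(dl r / 4)))) ^ r :=
      Real.rpow_le_rpow (norm_nonneg _) h1 hr0.le
    rw [Real.mul_rpow hx0.le (by positivity), Real.mul_rpow (by norm_num) (Real.exp_pos _).le,
      ← Real.exp_mul] at h5
    have h6 : -(dl r / 4) * r = -(1 / 4) * r ^ (1 / 3 : ℝ) := by
      rw [← hrd]; ring
    rw [h6] at h5
    exact h5
  -- `R^r ≥ exp (r δ/2)`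
  have hRr : 1 ≤ (1 + dl r) ^ r * E ^ 2 := by
    have h1 : Real.exp (dl r / 2) ≤ 1 + dl r := by
      have h2 := Real.one_sub_inv_le_log_of_pos (by linarith : 0 < 1 + dl r)
      have h3 : dl r / 2 ≤ Real.log (1 + dl r) := by
        refine le_trans ?_ h2
        have h4 : 1 - (1 + dl r)⁻¹ = dl r / (1 + dl r) := by
          have : 1 + dl r ≠ 0 := by linarith
          field_simp
          ring
        rw [h4]
        exact div_le_div_of_nonneg_left hd.le (by linarith) (by linarith)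
      calc Real.exp (dl r / 2) ≤ Real.exp (Real.log (1 + dl r)) := Real.exp_le_exp.mpr h3
        _ = _ := Real.exp_log (by linarith)
    have h5 : Real.exp (dl r / 2) ^ r ≤ (1 + dl r) ^ r :=
      Real.rpow_le_rpow (Real.exp_pos _).le h1 hr0.le
    rw [← Real.exp_mul] at h5
    have h6 : E ^ 2 = Real.exp (-(dl r / 2 * r)) := by
      rw [hE, ← Real.exp_nat_mul]
      congr 1
      rw [← hrd]
      push_cast
      ring
    rw [h6]
    calc (1 : ℝ) = Real.exp (dl r / 2 * r) * Real.exp (-(dl r / 2 * r)) := by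
          rw [← Real.exp_add]; simp
      _ ≤ _ := by gcongr
  have hquo : (1 : ℝ) ≤ ‖w‖ / (1 + dl r) := by
    rw [le_div_iff₀ (by linarith)]; linarith
  have hqr : (‖w‖ / (1 + dl r)) ^ r ≤ ‖w‖ ^ r * E ^ 2 := by
    rw [Real.div_rpow hx0.le (by linarith), div_le_iff₀ (by positivity)]
    nlinarith
  have hone : (1 : ℝ) ≤ ‖w‖ ^ r * E ^ 2 :=
    (Real.one_le_rpow hquo hr0.le).trans hqr
  -- `Vr w`
  have hnR : ‖((1 + dl r : ℝ) : ℂ)‖ = 1 + dl r := by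
    rw [Complex.norm_real, Real.norm_eq_abs, abs_of_pos (by linarith)]
  have hB : ar r * |Vr r w| ≤ G0 r * (t ^ 2 / 4) * ‖w‖ ^ r := by
    have h1 : |Vr r w| ≤ 4 ^ (Nr r) * (‖w‖ / (1 + dl r)) ^ r := by
      unfold Vr
      refine (Complex.abs_re_le_norm _).trans ((UN_norm_le _ _).trans ?_)
      rw [norm_div, hnR, max_eq_right hquo]
      gcongr
      rw [← Real.rpow_natCast]
      exact Real.rpow_le_rpow_of_exponent_le hquo hN
    calc ar r * |Vr r w| ≤ ar r * (4 ^ (Nr r) * (‖w‖ ^ r * E ^ 2)) := by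
          gcongr
          exact h1.trans (by gcongr)
      _ = (ar r * 4 ^ (Nr r)) * E ^ 2 * ‖w‖ ^ r := by ring
      _ = _ := by rw [har, h4E]
  have hC : ar r * |Vr r 1| ≤ G0 r * (t ^ 2 / 4) * ‖w‖ ^ r := by
    have h1 : |Vr r 1| ≤ 4 ^ (Nr r) * 1 := by
      unfold Vr
      refine (Complex.abs_re_le_norm _).trans ((UN_norm_le _ _).trans ?_)
      have h2 : ‖(1 : ℂ) / ((1 + dl r : ℝ) : ℂ)‖ ≤ 1 := by
        rw [norm_div, hnR, norm_one, div_le_one (by linarith)]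
        linarith
      rw [max_eq_left h2, one_pow]
    calc ar r * |Vr r 1| ≤ ar r * (4 ^ (Nr r) * (‖w‖ ^ r * E ^ 2)) := by
          gcongr
          exact h1.trans (by gcongr)
      _ = (ar r * 4 ^ (Nr r)) * E ^ 2 * ‖w‖ ^ r := by ring
      _ = _ := by rw [har, h4E]
  have hA' : ‖w - 1‖ ^ r ≤ G0 r * t * ‖w‖ ^ r := by
    rw [← h2E]; linarith
  have hV : -(ar r * |Vr r w|) - ar r * |Vr r 1| ≤ ar r * (Vr r w - Vr r 1) := by
    have h1 := mul_le_mul_of_nonneg_left (neg_abs_le (Vr r w)) harp.le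
    have h2 := mul_le_mul_of_nonneg_left (le_abs_self (Vr r 1)) harp.le
    linarith
  have hGx : 0 < G0 r * ‖w‖ ^ r := by positivity
  have htt : t + t ^ 2 / 2 ≤ 1 := by nlinarith
  have hfin : (t + t ^ 2 / 2) * (G0 r * ‖w‖ ^ r) ≤ 1 * (G0 r * ‖w‖ ^ r) :=
    mul_le_mul_of_nonneg_right htt hGx.le
  have hη2 : 0 ≤ η * (G0 r * ‖w‖ ^ r) := by positivity
  linarith

/-- location: with `x = ‖w‖`, `‖w-1‖^2 = (1+x)^2 - 2(x + Re w)`. `x ≤ 1`: `2(1-ℓ) < 1+x`;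
`x ≥ 1`: `2x(1-ℓ) < 1+x`. Then `2 (x + Re w) ≤ (1+x)^2 - 4 (max 1 x)^2 (1-ℓ)^2 ≤ 8 ℓ (max 1 x)^2` -/
theorem near_loc {l : ℝ} (hl0 : 0 < l) (hl1 : l ≤ 1 / 8) {w : ℂ}
    (hw : 2 * max 1 ‖w‖ * (1 - l) < ‖w - 1‖) :
    1 - 2 * l ≤ ‖w‖ ∧ ‖w‖ ≤ 1 + 4 * l ∧ ‖w‖ + w.re ≤ 12 * l := by
  have h1 : ‖w - 1‖ ≤ ‖w‖ + 1 := by
    have h := norm_sub_le w 1
    rwa [norm_one] at h
  have h2 : ‖w - 1‖ ^ 2 = ‖w‖ ^ 2 - 2 * w.re + 1 := by
    rw [Complex.sq_norm, Complex.sq_norm, Complex.normSq_apply, Complex.normSq_apply,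
      Complex.sub_re, Complex.sub_im, Complex.one_re, Complex.one_im]
    ring
  have hx : 0 ≤ ‖w‖ := norm_nonneg w
  have hm1 : 1 ≤ max 1 ‖w‖ := le_max_left _ _
  have hm2 : ‖w‖ ≤ max 1 ‖w‖ := le_max_right _ _
  have hb : max 1 ‖w‖ ≤ 1 + 4 * l := by
    rcases le_total ‖w‖ 1 with h | h
    · rw [max_eq_left h]
      linarith
    · rw [max_eq_right h] at hw ⊢
      have h3 : ‖w‖ * (1 - 2 * l) < 1 := by nlinarith
      by_contra hcon
      push Not at hcon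
      have h4 : (1 + 4 * l) * (1 - 2 * l) ≤ ‖w‖ * (1 - 2 * l) :=
        mul_le_mul_of_nonneg_right hcon.le (by linarith)
      nlinarith
  generalize max 1 ‖w‖ = m at hw hm1 hm2 hb
  have hl : 0 ≤ 1 - l := by linarith
  have h3 : (2 * m * (1 - l)) ^ 2 ≤ ‖w - 1‖ ^ 2 :=
    pow_le_pow_left₀ (by positivity) hw.le 2
  have h4 : (1 + ‖w‖) ^ 2 ≤ (2 * m) ^ 2 := pow_le_pow_left₀ (by positivity) (by linarith) 2
  have h5 : m ^ 2 ≤ 9 / 4 := by nlinarith
  have h6 : m ^ 2 * l ≤ 9 / 4 * l := mul_le_mul_of_nonneg_right h5 hl0.le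
  refine ⟨?_, hm2.trans hb, ?_⟩
  · have h7 : 1 * (1 - l) ≤ m * (1 - l) := mul_le_mul_of_nonneg_right hm1 hl
    linarith
  · rw [h2] at h3
    have h8 : 0 ≤ m ^ 2 * l ^ 2 := by positivity
    nlinarith

/-- the main term: `‖w-1‖^2 / x = x + 1/x - 2 Re w/x = 2 (1 - Re w/x) + (x-1)^2/x`, and
`(c + ε)^r ≤ c^r (1 + ε/c)^r ≤ c^r exp(r ε)` for `c = 2 (1 - Re w/x) ≥ 2`, `ε = (x-1)^2/x ≤ 32 ℓ^2`,
`r ℓ^2 → 0`; `c^r = c^(r-N) c^N ≤ 4^(r-N) c^N` -/
theorem near_main {ε : ℝ} (hε : 0 < ε) : ∀ᶠ r : ℝ in atTop, ∀ w : ℂ, 1 - 2 * el r ≤ ‖w‖ →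
    ‖w‖ ≤ 1 + 4 * el r → ‖w‖ + w.re ≤ 12 * el r →
    (‖w - 1‖ ^ r) ^ 2 ≤ ‖w‖ ^ r * ((1 + ε) * 4 ^ (r - Nr r) * (2 * (1 - w.re / ‖w‖)) ^ Nr r) := by
  have t1 : Tendsto (fun r : ℝ => el r) atTop (𝓝 0) := by
    have h := Real.tendsto_pow_log_div_mul_add_atTop 1 0 1 one_ne_zero
    simpa [el] using h
  have t2 : Tendsto (fun r : ℝ => Real.exp (16 * (r * el r ^ 2))) atTop (𝓝 1) := by
    have h := Real.tendsto_pow_log_div_mul_add_atTop 1 0 2 one_ne_zero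
    have h' : Tendsto (fun r : ℝ => 16 * (r * el r ^ 2)) atTop (𝓝 0) := by
      have h2 := h.const_mul 16
      rw [mul_zero] at h2
      refine h2.congr' ?_
      filter_upwards [eventually_gt_atTop 0] with r hr
      unfold el
      rw [one_mul, add_zero, div_pow]
      field_simp
    have h3 := (Real.continuous_exp.tendsto 0).comp h'
    rw [Real.exp_zero] at h3
    exact h3
  filter_upwards [t1.eventually (gt_mem_nhds (show (0 : ℝ) < 1 / 14 by norm_num)),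
    t2.eventually (gt_mem_nhds (show (1 : ℝ) < 1 + ε by linarith)), eventually_ge_atTop 1]
    with r h1 h2 h3 w hx1 hx2 hx3
  have hl0 : 0 ≤ el r := div_nonneg (Real.log_nonneg h3) (by linarith)
  have hr0 : 0 ≤ r := by linarith
  have hx0 : 0 < ‖w‖ := by linarith
  have hre : w.re ≤ 0 := by linarith
  have hre2 : -‖w‖ ≤ w.re := (abs_le.1 (Complex.abs_re_le_norm w)).1
  set x : ℝ := ‖w‖ with hx
  set c : ℝ := 2 * (1 - w.re / x) with hc
  have hc2 : 2 ≤ c := by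
    have : w.re / x ≤ 0 := div_nonpos_of_nonpos_of_nonneg hre hx0.le
    linarith
  have hc4 : c ≤ 4 := by
    have : -1 ≤ w.re / x := by
      rw [le_div_iff₀ hx0]
      linarith
    linarith
  have hc0 : 0 < c := by linarith
  set e : ℝ := (x - 1) ^ 2 / x with he
  have he0 : 0 ≤ e := div_nonneg (sq_nonneg _) hx0.le
  have he1 : e ≤ 32 * el r ^ 2 := by
    rw [he, div_le_iff₀ hx0]
    have h5 : (x - 1) ^ 2 ≤ 16 * el r ^ 2 := by nlinarith
    have h6 : (1 : ℝ) / 2 ≤ x := by linarith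
    nlinarith [sq_nonneg (el r)]
  have hsq : ‖w - 1‖ ^ 2 = x * (c + e) := by
    have hz : ‖w‖ ^ 2 = w.re * w.re + w.im * w.im := by
      rw [← Complex.normSq_eq_norm_sq, Complex.normSq_apply]
    have hz1 : ‖w - 1‖ ^ 2 = (w.re - 1) * (w.re - 1) + w.im * w.im := by
      rw [← Complex.normSq_eq_norm_sq, Complex.normSq_apply]
      simp only [Complex.sub_re, Complex.sub_im, Complex.one_re, Complex.one_im, sub_zero]
    rw [hz1, hc, he]
    rw [← hx] at hz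
    field_simp
    linarith
  have hce : c + e ≤ c * Real.exp (e / 2) := by
    have h5 : e / 2 + 1 ≤ Real.exp (e / 2) := Real.add_one_le_exp _
    have h6 : c + e ≤ c * (e / 2 + 1) := by nlinarith
    exact h6.trans (mul_le_mul_of_nonneg_left h5 hc0.le)
  have hpow : (c + e) ^ r ≤ c ^ r * (1 + ε) := by
    have h5 : (c + e) ^ r ≤ (c * Real.exp (e / 2)) ^ r :=
      Real.rpow_le_rpow (by linarith) hce hr0
    rw [Real.mul_rpow hc0.le (Real.exp_pos _).le, ← Real.exp_mul] at h5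
    have h6 : Real.exp (e / 2 * r) ≤ 1 + ε := by
      refine le_trans (Real.exp_le_exp.2 ?_) h2.le
      nlinarith
    exact h5.trans (mul_le_mul_of_nonneg_left h6 (Real.rpow_nonneg hc0.le _))
  have hfl : (Nr r : ℝ) ≤ r := Nat.floor_le hr0
  have hcr : c ^ r ≤ 4 ^ (r - Nr r) * c ^ Nr r := by
    have h5 : c ^ r = c ^ (r - Nr r) * c ^ (Nr r) := by
      rw [← Real.rpow_natCast c (Nr r), ← Real.rpow_add hc0]
      congr 1
      ring
    rw [h5]
    exact mul_le_mul_of_nonneg_right (Real.rpow_le_rpow hc0.le hc4 (by linarith))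
      (pow_nonneg hc0.le _)
  have hlhs : (‖w - 1‖ ^ r) ^ 2 = x ^ r * (c + e) ^ r := by
    rw [← Real.mul_rpow hx0.le (by linarith), ← hsq, ← Real.rpow_natCast, ← Real.rpow_natCast,
      ← Real.rpow_mul (norm_nonneg _), ← Real.rpow_mul (norm_nonneg _), mul_comm]
  rw [hlhs]
  refine mul_le_mul_of_nonneg_left ?_ (Real.rpow_nonneg hx0.le _)
  calc (c + e) ^ r ≤ c ^ r * (1 + ε) := hpow
    _ ≤ (4 ^ (r - Nr r) * c ^ Nr r) * (1 + ε) := mul_le_mul_of_nonneg_right hcr (by linarith)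
    _ = (1 + ε) * 4 ^ (r - Nr r) * c ^ Nr r := by ring

/-- `UN_near` with `q = ‖w‖/R`, `ζ = w/‖w‖`, a fixed small `u`: `1 - q ≤ 2 δ`, and
`δ √(N/u) → 0` -/
theorem near_V {ε : ℝ} (hε : 0 < ε) : ∀ᶠ r : ℝ in atTop, ∀ w : ℂ, 1 - 2 * el r ≤ ‖w‖ →
    ‖w‖ ≤ 1 + 4 * el r → ‖w‖ + w.re ≤ 12 * el r →
    (1 - ε) * (2 * (1 - w.re / ‖w‖)) ^ Nr r ≤ Vr r w := by
  obtain ⟨u, hu0, hu1, hu2⟩ : ∃ u : ℝ, 0 < u ∧ u ≤ 1 ∧ u ≤ ε / 2 :=
    ⟨min 1 (ε / 2), lt_min one_pos (by linarith), min_le_left _ _, min_le_right _ _⟩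
  have t1 : Tendsto (fun r : ℝ => el r) atTop (𝓝 0) := by
    have h := Real.tendsto_pow_log_div_mul_add_atTop 1 0 1 one_ne_zero
    simpa [el] using h
  -- `δ √r → 0`
  have t2 : Tendsto (fun r : ℝ => 16 * (dl r * √r) / √u) atTop (𝓝 0) := by
    have h := tendsto_rpow_neg_atTop (show (0 : ℝ) < 1 / 6 by norm_num)
    have h2 := (h.const_mul 16).div_const (√u)
    rw [mul_zero, zero_div] at h2
    refine h2.congr' ?_
    filter_upwards [eventually_gt_atTop 0] with r hr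
    unfold dl
    rw [Real.sqrt_eq_rpow r, ← Real.rpow_add hr]
    norm_num
  have t3 : Tendsto (fun r : ℝ => Real.log r / r ^ (1 / 3 : ℝ)) atTop (𝓝 0) :=
    (isLittleO_log_rpow_atTop (show (0 : ℝ) < 1 / 3 by norm_num)).tendsto_div_nhds_zero
  have t4 : Tendsto (fun r : ℝ => dl r) atTop (𝓝 0) :=
    tendsto_rpow_neg_atTop (show (0 : ℝ) < 2 / 3 by norm_num)
  filter_upwards [t1.eventually (gt_mem_nhds (show (0 : ℝ) < 1 / 14 by norm_num)),
    t2.eventually (gt_mem_nhds hu0), t3.eventually (gt_mem_nhds (show (0 : ℝ) < 1 / 4 by norm_num)),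
    eventually_ge_atTop 1, t4.eventually (gt_mem_nhds (show (0 : ℝ) < 1 / 2 by norm_num))]
    with r h1 h2 h3 h4 hd1 w hx1 hx2 hx3
  have hr0 : 0 < r := by linarith
  have hl0 : 0 ≤ el r := div_nonneg (Real.log_nonneg h4) (by linarith)
  have hx0 : 0 < ‖w‖ := by linarith
  have hre : w.re ≤ 0 := by linarith
  have hd0 : 0 < dl r := Real.rpow_pos_of_pos hr0 _
  have hld : 4 * el r < dl r := by
    have h5 : dl r = r ^ (1 / 3 : ℝ) / r := by
      unfold dl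
      rw [eq_div_iff hr0.ne']
      nth_rewrite 2 [← Real.rpow_one r]
      rw [← Real.rpow_add hr0]
      norm_num
    have h6 : 0 < r ^ (1 / 3 : ℝ) := Real.rpow_pos_of_pos hr0 _
    rw [div_lt_iff₀ h6] at h3
    rw [h5]
    unfold el
    rw [← mul_div_assoc, div_lt_div_iff_of_pos_right hr0]
    linarith
  have hN : 1 ≤ Nr r := Nat.one_le_floor_iff r |>.2 h4
  have hNr : (Nr r : ℝ) ≤ r := Nat.floor_le hr0.le
  have hN0 : (0 : ℝ) < (Nr r : ℝ) := by exact_mod_cast hN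
  set x : ℝ := ‖w‖ with hx
  have hR : 0 < 1 + dl r := by linarith
  have hq1 : x / (1 + dl r) < 1 := by
    rw [div_lt_one hR]
    linarith
  have hq2 : 1 - x / (1 + dl r) ≤ 2 * dl r := by
    have h5 : (1 - 2 * dl r) ≤ x / (1 + dl r) := by
      rw [le_div_iff₀ hR]
      nlinarith
    linarith
  have hq0 : 1 / 2 ≤ x / (1 + dl r) := by
    rw [le_div_iff₀ hR]
    linarith
  have hzn : ‖w / (x : ℂ)‖ = 1 := by
    rw [norm_div, Complex.norm_real, Real.norm_of_nonneg hx0.le, ← hx]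
    exact div_self hx0.ne'
  have hzr : (w / (x : ℂ)).re = w.re / x := Complex.div_ofReal_re w x
  have hzr0 : (w / (x : ℂ)).re ≤ 0 := by
    rw [hzr]
    exact div_nonpos_of_nonpos_of_nonneg hre hx0.le
  have h := UN_near hN hq0 hq1 hzn hzr0 hu0 hu1
  have harg : ((x / (1 + dl r) : ℝ) : ℂ) * (w / (x : ℂ)) = w / ((1 + dl r : ℝ) : ℂ) := by
    have h5 : (x : ℂ) ≠ 0 := by exact_mod_cast hx0.ne'
    have h6 : ((1 + dl r : ℝ) : ℂ) ≠ 0 := by exact_mod_cast hR.ne'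
    rw [Complex.ofReal_div]
    field_simp
  rw [harg, hzr] at h
  refine le_trans ?_ h
  have hk : 8 * (1 - x / (1 + dl r)) / √(u / (Nr r : ℝ)) ≤ u := by
    have hsu : 0 < √u := Real.sqrt_pos.2 hu0
    have hsN : 0 < √(Nr r : ℝ) := Real.sqrt_pos.2 hN0
    have h5 : √(u / (Nr r : ℝ)) = √u / √(Nr r : ℝ) := Real.sqrt_div hu0.le _
    rw [h5, div_div_eq_mul_div]
    refine le_trans ?_ h2.le
    have h6 : 8 * (1 - x / (1 + dl r)) * √(Nr r : ℝ) ≤ 16 * (dl r * √r) := by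
      have h7 : √(Nr r : ℝ) ≤ √r := Real.sqrt_le_sqrt hNr
      calc 8 * (1 - x / (1 + dl r)) * √(Nr r : ℝ) ≤ (16 * dl r) * √(Nr r : ℝ) :=
            mul_le_mul_of_nonneg_right (by linarith) hsN.le
        _ ≤ (16 * dl r) * √r := mul_le_mul_of_nonneg_left h7 (by linarith)
        _ = 16 * (dl r * √r) := by ring
    exact div_le_div_of_nonneg_right h6 hsu.le
  have hc0 : 0 ≤ 2 * (1 - w.re / x) := by
    have : w.re / x ≤ 0 := div_nonpos_of_nonpos_of_nonneg hre hx0.le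
    linarith
  refine mul_le_mul_of_nonneg_right ?_ (pow_nonneg hc0 _)
  have h8 : (1 - u) * (1 - u) ≤ (1 - u) * (1 - 8 * (1 - x / (1 + dl r)) / √(u / (Nr r : ℝ))) :=
    mul_le_mul_of_nonneg_left (by linarith) (by linarith)
  nlinarith [sq_nonneg u]

private theorem pno_ev {ε : ℝ} (hε : 0 < ε) : ∀ᶠ r : ℝ in atTop, 1 ≤ r ∧ 0 ≤ el r ∧
    8 * el r ≤ dl r ∧ 0 < dl r ∧ dl r ≤ 1 ∧ 7 * dl r ≤ ε / 8 ∧ 2 / r ≤ ε / 8 := by
  have h1 : Tendsto dl atTop (𝓝 0) := tendsto_rpow_neg_atTop (by norm_num)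
  have h2 := (isLittleO_log_rpow_atTop (show (0 : ℝ) < 1 / 3 by norm_num)).def
    (show (0 : ℝ) < 1 / 8 by norm_num)
  have h3 : ∀ᶠ r in atTop, dl r < min 1 (ε / 56) :=
    h1.eventually (gt_mem_nhds (by positivity))
  filter_upwards [h2, h3, eventually_ge_atTop (1 : ℝ), eventually_ge_atTop (16 / ε)]
    with r ha hb hc hd
  have hr : 0 < r := by linarith
  have hd0 : 0 < dl r := by
    unfold dl
    exact Real.rpow_pos_of_pos hr _
  have hl0 : 0 ≤ Real.log r := Real.log_nonneg hc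
  have hb1 := lt_of_lt_of_le hb (min_le_left _ _)
  have hb2 := lt_of_lt_of_le hb (min_le_right _ _)
  have hel : 8 * el r ≤ dl r := by
    rw [Real.norm_of_nonneg hl0, Real.norm_of_nonneg (Real.rpow_nonneg hr.le _)] at ha
    have e1 : dl r = r ^ (1 / 3 : ℝ) / r := by
      unfold dl
      rw [← Real.rpow_sub_one hr.ne']
      norm_num
    unfold el
    rw [e1, ← mul_div_assoc]
    gcongr
    linarith
  refine ⟨hc, div_nonneg hl0 hr.le, hel, hd0, hb1.le, by linarith, ?_⟩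
  rw [div_le_div_iff₀ hr (by norm_num)]
  rw [div_le_iff₀ hε] at hd
  linarith

/-- `UN_cs` at `a = w/R`: `1 - ‖a‖^2 ≥ δ/2` and `1 + ‖a‖^2 + 2 Re a N/(N+1) ≤ (1-‖a‖)^2 +
2 (‖a‖ + Re a) + 2/(N+1) → 0` uniformly; `UN_real_le` at `b = 1/R`: `Vr r 1 ≤ 2 δ M` -/
theorem near_one {ε : ℝ} (hε : 0 < ε) : ∀ᶠ r : ℝ in atTop, ∀ w : ℂ, 1 - 2 * el r ≤ ‖w‖ →
    ‖w‖ ≤ 1 + 4 * el r → ‖w‖ + w.re ≤ 12 * el r → Vr r 1 ≤ ε * Vr r w := by
  filter_upwards [pno_ev hε] with r hr w hw1 hw2 hw3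
  obtain ⟨hr1, hel0, hel, hdl0, hdl1, hs1, hs2⟩ := hr
  obtain ⟨δ, hδ⟩ : ∃ δ : ℝ, δ = dl r := ⟨_, rfl⟩
  obtain ⟨l, hl⟩ : ∃ l : ℝ, l = el r := ⟨_, rfl⟩
  obtain ⟨N, hN⟩ : ∃ N : ℕ, N = Nr r := ⟨_, rfl⟩
  unfold Vr
  rw [← hδ] at hel hdl0 hdl1 hs1 ⊢
  rw [← hl] at hel0 hel hw1 hw2 hw3
  rw [← hN]
  have hN1 : 1 ≤ N := by
    rw [hN]
    unfold Nr
    exact Nat.le_floor (by exact_mod_cast hr1)
  have hNr : r < (N : ℝ) + 1 := by
    rw [hN]
    unfold Nr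
    exact Nat.lt_floor_add_one r
  have hN0 : (1 : ℝ) ≤ N := by exact_mod_cast hN1
  have hM0 : (0 : ℝ) < N.centralBinom := by exact_mod_cast Nat.centralBinom_pos N
  obtain ⟨R, hR⟩ : ∃ R : ℝ, R = 1 + δ := ⟨_, rfl⟩
  rw [← hR]
  have hR1 : 1 < R := by linarith
  have hR0 : 0 < R := by linarith
  have hR2 : R ≤ 2 := by linarith
  -- the point `a = w / R`
  obtain ⟨a, ha⟩ : ∃ a : ℂ, a = w / (R : ℂ) := ⟨_, rfl⟩
  rw [← ha]
  have hna : ‖a‖ = ‖w‖ / R := by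
    rw [ha, norm_div, Complex.norm_real, Real.norm_of_nonneg hR0.le]
  have hra : a.re = w.re / R := by
    rw [ha, Complex.div_ofReal_re]
  have hna0 : 0 ≤ ‖a‖ := norm_nonneg a
  have hup : ‖a‖ ≤ 1 - δ / 4 := by
    rw [hna, div_le_iff₀ hR0, hR]
    have := mul_nonneg hdl0.le (sub_nonneg.2 hdl1)
    have e : (1 - δ / 4) * (1 + δ) = 1 + δ / 2 + δ * (1 - δ) / 4 := by ring
    rw [e]
    linarith
  have hlo : 1 - 2 * δ ≤ ‖a‖ := by
    rw [hna, le_div_iff₀ hR0, hR]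
    have e : (1 - 2 * δ) * (1 + δ) = 1 - δ - 2 * δ ^ 2 := by ring
    have := sq_nonneg δ
    rw [e]
    linarith
  have ha1 : ‖a‖ < 1 := by linarith
  have hsum : ‖a‖ + a.re ≤ 12 * l := by
    rw [hna, hra, ← add_div, div_le_iff₀ hR0]
    have e : 12 * l ≤ 12 * l * R := le_mul_of_one_le_right (by positivity) hR1.le
    linarith
  have hre : -‖a‖ ≤ a.re := (abs_le.1 (Complex.abs_re_le_norm a)).1
  have hD : 1 + ‖a‖ ^ 2 + 2 * a.re * (N / (N + 1)) ≤ ε / 4 := by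
    have e1 : (N : ℝ) / (N + 1) = 1 - 1 / (N + 1) := by
      field_simp
      ring
    have e2 : 1 / ((N : ℝ) + 1) ≤ 1 / r := one_div_le_one_div_of_le (by linarith) hNr.le
    have e3 : 0 < 1 / ((N : ℝ) + 1) := by positivity
    have e4 : 2 / r = 2 * (1 / r) := by ring
    rw [e4] at hs2
    rw [e1]
    have e5 : -(2 * a.re * (1 / ((N : ℝ) + 1))) ≤ 2 * (1 / ((N : ℝ) + 1)) := by
      have e : -(2 * a.re) ≤ 2 := by linarith
      rw [← neg_mul]
      exact mul_le_mul_of_nonneg_right e e3.le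
    have e6 : (1 - ‖a‖) ^ 2 ≤ (2 * δ) ^ 2 := by
      apply pow_le_pow_left₀ (by linarith)
      linarith
    have e7 : (2 * δ) ^ 2 ≤ 4 * δ := by
      have := mul_nonneg hdl0.le (sub_nonneg.2 hdl1)
      have e : (2 * δ) ^ 2 = 4 * δ - 4 * (δ * (1 - δ)) := by ring
      rw [e]
      linarith
    have e13 : 1 + ‖a‖ ^ 2 + 2 * a.re * (1 - 1 / ((N : ℝ) + 1)) =
        (1 - ‖a‖) ^ 2 + 2 * (‖a‖ + a.re) + -(2 * a.re * (1 / ((N : ℝ) + 1))) := by ring
    rw [e13]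
    linarith
  have hcs := UN_cs N ha1
  have hge := UN_ge N ha1.le
  have hV0 : 0 ≤ (UN N a).re := by
    refine le_trans ?_ hge
    have : 0 ≤ 1 - ‖a‖ := by linarith
    positivity
  have hVD : (UN N a).re * (1 + ‖a‖ ^ 2 + 2 * a.re * (N / (N + 1))) ≤ (UN N a).re * (ε / 4) :=
    mul_le_mul_of_nonneg_left hD hV0
  have h1a : δ / 4 ≤ 1 - ‖a‖ ^ 2 := by
    have e : 1 - ‖a‖ ^ 2 = (1 - ‖a‖) + (1 - ‖a‖) * ‖a‖ := by ring
    have := mul_nonneg (show 0 ≤ 1 - ‖a‖ by linarith) hna0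
    rw [e]
    linarith
  have hMa : N.centralBinom * (δ / 4) ≤ N.centralBinom * (1 - ‖a‖ ^ 2) :=
    mul_le_mul_of_nonneg_left h1a hM0.le
  -- the value at one
  have hb : ((1 : ℂ) / (R : ℂ)) = ((1 / R : ℝ) : ℂ) := by push_cast; ring
  have hone := UN_real_le hN1 (b := 1 / R) (by positivity) (by rw [div_lt_one hR0]; exact hR1)
  rw [hb]
  have e8 : (1 - (1 / R) ^ 2) / (4 * (1 / R)) = (R - 1) * ((R + 1) / (4 * R)) := by
    field_simp
    ring
  have e9 : (R + 1) / (4 * R) ≤ 1 / 2 := by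
    rw [div_le_iff₀ (by positivity)]
    linarith
  have e10 : (1 - (1 / R) ^ 2) / (4 * (1 / R)) ≤ δ / 2 := by
    rw [e8]
    have : R - 1 = δ := by linarith
    rw [this]
    have := mul_le_mul_of_nonneg_left e9 hdl0.le
    linarith
  have e10' : 0 ≤ (1 - (1 / R) ^ 2) / (4 * (1 / R)) := by
    rw [e8]
    have : 0 ≤ R - 1 := by linarith
    positivity
  have e11 : (2 : ℝ) * N / (2 * N - 1) ≤ 2 := by
    rw [div_le_iff₀ (by linarith)]
    linarith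
  have e11' : 0 ≤ (2 : ℝ) * N / (2 * N - 1) := div_nonneg (by positivity) (by linarith)
  have e12 : (N.centralBinom : ℝ) * ((1 - (1 / R) ^ 2) / (4 * (1 / R))) * (2 * N / (2 * N - 1)) ≤
      (N.centralBinom : ℝ) * (δ / 2) * 2 :=
    mul_le_mul (mul_le_mul_of_nonneg_left e10 hM0.le) e11 e11' (by positivity)
  linarith

private theorem pne_el : ∀ᶠ r : ℝ in atTop, 1 < r ∧ 0 < el r ∧ el r ≤ 1 / 8 := by
  have h2 := Real.isLittleO_log_id_atTop.def (show (0 : ℝ) < 1 / 8 by norm_num)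
  filter_upwards [h2, eventually_gt_atTop (1 : ℝ)] with r ha hr
  have hr0 : 0 < r := by linarith
  have hl : 0 < Real.log r := Real.log_pos hr
  rw [Real.norm_of_nonneg hl.le, id, Real.norm_of_nonneg hr0.le] at ha
  refine ⟨hr, div_pos hl hr0, ?_⟩
  unfold el
  rw [div_le_iff₀ hr0]
  exact ha

private theorem pne_amgm {Q G y : ℝ} (hG : 0 < G) (hy : 0 < y) :
    Q ≤ G * y + Q ^ 2 / (4 * G * y) := by
  rw [← sub_le_iff_le_add', le_div_iff₀ (by positivity)]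
  nlinarith [sq_nonneg (Q - 2 * G * y)]

/-- AM-GM: `‖w-1‖^r ≤ G x^r + (‖w-1‖^r)^2/(4 G x^r)` with `G = (1+η) G0 r`, `x = ‖w‖`; `near_loc`
with `l = el r`, `near_main`, `near_V`, `near_one` for a small `ε` with
`(1+ε)/((1-ε)(1-ε)) ≤ 1+η`, and `ar r = 4^(r-N)/(4 G0 r)` -/
theorem near_case {η : ℝ} (hη : 0 < η) : ∀ᶠ r : ℝ in atTop, ∀ w : ℂ,
    2 * max 1 ‖w‖ * (1 - el r) < ‖w - 1‖ → ‖w‖ ≤ 1 + dl r →
    ‖w - 1‖ ^ r ≤ (1 + η) * G0 r * ‖w‖ ^ r + ar r * (Vr r w - Vr r 1) := by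
  obtain ⟨ε, hε⟩ : ∃ ε : ℝ, ε = η / (3 + 2 * η) := ⟨_, rfl⟩
  have hε0 : 0 < ε := by rw [hε]; positivity
  have hεη : ε * (3 + 2 * η) = η := by rw [hε]; field_simp
  have hε1 : ε < 1 := by
    rw [hε, div_lt_one (by positivity)]
    linarith
  have hkey : 1 + ε ≤ (1 + η) * (1 - ε) ^ 2 := by
    have e : (1 + η) * (1 - ε) ^ 2 = 1 + η - 2 * ε - 2 * (ε * η) + (1 + η) * ε ^ 2 := by ring
    have e2 : 0 ≤ (1 + η) * ε ^ 2 := by positivity
    have e3 : ε * (3 + 2 * η) = 3 * ε + 2 * (ε * η) := by ring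
    rw [e]
    linarith
  filter_upwards [near_main hε0, near_V hε0, near_one hε0, pne_el] with r h1 h2 h3 h4 w hw1 hw2
  obtain ⟨hr1, hl0, hl8⟩ := h4
  have hr0 : 0 < r := by linarith
  obtain ⟨ha, hb, hc⟩ := near_loc hl0 hl8 hw1
  have A := h1 w ha hb hc
  have B := h2 w ha hb hc
  have C := h3 w ha hb hc
  have hw0 : 0 < ‖w‖ := by linarith
  have hy : 0 < ‖w‖ ^ r := Real.rpow_pos_of_pos hw0 _
  have hG0 := G0_pos hr0
  have hG : 0 < (1 + η) * G0 r := by positivity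
  have hF : (0 : ℝ) < 4 ^ (r - Nr r) := Real.rpow_pos_of_pos (by norm_num) _
  have hc0 : 0 ≤ 2 * (1 - w.re / ‖w‖) := by
    have : w.re / ‖w‖ ≤ 1 := by
      rw [div_le_one hw0]
      exact Complex.re_le_norm w
    linarith
  have hcN : 0 ≤ (2 * (1 - w.re / ‖w‖)) ^ Nr r := pow_nonneg hc0 _
  have har : ar r * (4 * G0 r) = 4 ^ (r - Nr r) := by
    unfold ar
    field_simp
  obtain ⟨Q, hQ⟩ : ∃ Q : ℝ, Q = ‖w - 1‖ ^ r := ⟨_, rfl⟩
  obtain ⟨y, hyd⟩ : ∃ y : ℝ, y = ‖w‖ ^ r := ⟨_, rfl⟩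
  obtain ⟨F, hFd⟩ : ∃ F : ℝ, F = 4 ^ (r - Nr r) := ⟨_, rfl⟩
  obtain ⟨q, hq⟩ : ∃ q : ℝ, q = (2 * (1 - w.re / ‖w‖)) ^ Nr r := ⟨_, rfl⟩
  rw [← hQ, ← hyd, ← hFd, ← hq] at A
  rw [← hq] at B hcN
  rw [← hFd] at har hF
  rw [← hyd] at hy
  rw [← hQ, ← hyd]
  refine (pne_amgm (Q := Q) hG hy).trans ?_
  refine add_le_add le_rfl ?_
  rw [div_le_iff₀ (by positivity)]
  have hV : (1 - ε) ^ 2 * q ≤ Vr r w - Vr r 1 := by
    have e1 : (1 - ε) * ((1 - ε) * q) ≤ (1 - ε) * Vr r w :=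
      mul_le_mul_of_nonneg_left B (by linarith)
    have e2 : (1 - ε) ^ 2 * q = (1 - ε) * ((1 - ε) * q) := by ring
    rw [e2]
    linarith
  have h5 : ar r * (Vr r w - Vr r 1) * (4 * ((1 + η) * G0 r) * y) =
      F * y * ((1 + η) * (Vr r w - Vr r 1)) := by
    rw [← har]
    ring
  rw [h5]
  refine A.trans ?_
  have h6 : y * ((1 + ε) * F * q) = F * y * ((1 + ε) * q) := by ring
  rw [h6]
  refine mul_le_mul_of_nonneg_left ?_ (by positivity)
  calc (1 + ε) * q ≤ (1 + η) * (1 - ε) ^ 2 * q := mul_le_mul_of_nonneg_right hkey hcN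
    _ = (1 + η) * ((1 - ε) ^ 2 * q) := by ring
    _ ≤ (1 + η) * (Vr r w - Vr r 1) := mul_le_mul_of_nonneg_left hV (by linarith)

/-- the pointwise inequality -/
theorem point_all {η : ℝ} (hη : 0 < η) : ∀ᶠ r : ℝ in atTop, ∀ w : ℂ,
    ‖w - 1‖ ^ r ≤ (1 + η) * G0 r * ‖w‖ ^ r + ar r * (Vr r w - Vr r 1) := by
  filter_upwards [far_case hη, out_case hη, near_case hη] with r h1 h2 h3 w
  rcases le_total (1 + dl r) ‖w‖ with h | h
  · exact h2 w h
  · rcases le_or_gt ‖w - 1‖ (2 * max 1 ‖w‖ * (1 - el r)) with h4 | h4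
    · exact h1 w h h4
    · exact h3 w h4 h

variable {p : ℝ≥0∞} [Fact (1 ≤ p)]

/-- as `upper_par` (TsLarge.lean), with an arbitrary entire `φ` -/
theorem upper_of_point (hp : p ≠ ∞) {Γ : ℝ} (hΓ : 1 ≤ Γ) {φ : ℂ → ℂ} (hφ : Differentiable ℂ φ)
    (h : ∀ w : ℂ, ‖w - 1‖ ^ p.toReal ≤ Γ * ‖w‖ ^ p.toReal + ((φ w).re - (φ 1).re)) :
    ‖ContinuousLinearMap.id ℂ (Hp p) - K0H p‖ ^ p.toReal ≤ Γ := by
  have hr1 := one_le_toReal hp
  have hr0 : 0 < p.toReal := by linarith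
  have hΓ0 : 0 < Γ := by linarith
  have e : (Γ ^ (1 / p.toReal)) ^ p.toReal = Γ := by
    rw [← Real.rpow_mul hΓ0.le, one_div_mul_cancel hr0.ne', Real.rpow_one]
  have hmain : ‖ContinuousLinearMap.id ℂ (Hp p) - K0H p‖ ≤ Γ ^ (1 / p.toReal) := by
    refine norm_sub_K0H_le hp (Real.rpow_nonneg hΓ0.le _) fun Q => ?_
    rw [e]
    obtain ⟨r, hr⟩ : ∃ r, r = p.toReal := ⟨_, rfl⟩
    rw [← hr] at h hr1 hr0 ⊢
    have cQ := continuous_poly Q
    have c3 : Continuous fun x => ‖Q.eval (z x)‖ ^ r := continuous_norm_rpow cQ hr0.le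
    have c1 : Continuous fun x => ‖Q.eval (z x) - Q.eval 0‖ ^ r :=
      continuous_norm_rpow (cQ.sub continuous_const) hr0.le
    have hJ0 : 0 ≤ ∫ x, ‖Q.eval (z x)‖ ^ r ∂sigma :=
      integral_nonneg fun x => Real.rpow_nonneg (norm_nonneg _) _
    obtain ⟨c, hc⟩ : ∃ c, c = Q.eval 0 := ⟨_, rfl⟩
    rw [← hc] at c1 ⊢
    by_cases hc0 : c = 0
    · rw [hc0]
      simp only [sub_zero]
      nlinarith
    · have hcn : 0 < ‖c‖ := norm_pos_iff.2 hc0
      obtain ⟨F, hF⟩ : ∃ F : ℂ → ℂ, F = fun w => φ (Q.eval w / c) := ⟨_, rfl⟩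
      have hFd : Differentiable ℂ F := by
        rw [hF]
        exact hφ.comp (Q.differentiable.div_const c)
      have hFc : Continuous fun x => F (z x) := hFd.continuous.comp continuous_z
      have hint := integral_re_eq hFd.diffContOnCl hFc
      have hF0 : F 0 = φ 1 := by
        rw [hF]
        simp only
        rw [← hc, div_self hc0]
      rw [hF0] at hint
      have hpt : ∀ x, ‖Q.eval (z x) - c‖ ^ r ≤ Γ * ‖Q.eval (z x)‖ ^ r
          + ‖c‖ ^ r * ((F (z x)).re - (φ 1).re) := by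
        intro x
        have h1 := h (Q.eval (z x) / c)
        have h2 : ‖Q.eval (z x) / c - 1‖ ^ r = ‖Q.eval (z x) - c‖ ^ r / ‖c‖ ^ r := by
          have : Q.eval (z x) / c - 1 = (Q.eval (z x) - c) / c := by field_simp
          rw [this, norm_div, Real.div_rpow (norm_nonneg _) (norm_nonneg _)]
        have h3 : ‖Q.eval (z x) / c‖ ^ r = ‖Q.eval (z x)‖ ^ r / ‖c‖ ^ r := by
          rw [norm_div, Real.div_rpow (norm_nonneg _) (norm_nonneg _)]
        rw [h2, h3] at h1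
        have hcr : 0 < ‖c‖ ^ r := Real.rpow_pos_of_pos hcn _
        have h4 := mul_le_mul_of_nonneg_left h1 hcr.le
        have e1 : ‖c‖ ^ r * (‖Q.eval (z x) - c‖ ^ r / ‖c‖ ^ r) = ‖Q.eval (z x) - c‖ ^ r := by
          field_simp
        have e2 : ‖c‖ ^ r * (Γ * (‖Q.eval (z x)‖ ^ r / ‖c‖ ^ r)
            + ((φ (Q.eval (z x) / c)).re - (φ 1).re))
            = Γ * ‖Q.eval (z x)‖ ^ r + ‖c‖ ^ r * ((F (z x)).re - (φ 1).re) := by
          rw [hF]
          field_simp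
        rw [e1, e2] at h4
        exact h4
      have i1 : Integrable (fun x => Γ * ‖Q.eval (z x)‖ ^ r) sigma :=
        integrable_of_continuous (continuous_const.mul c3)
      have i2 : Integrable (fun x => (F (z x)).re) sigma :=
        integrable_of_continuous (Complex.continuous_re.comp hFc)
      have i3 : Integrable (fun x => (F (z x)).re - (φ 1).re) sigma :=
        i2.sub (integrable_const _)
      have i4 : Integrable (fun x => ‖c‖ ^ r * ((F (z x)).re - (φ 1).re)) sigma :=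
        i3.const_mul _
      have h5 := integral_mono (integrable_of_continuous c1) (i1.add i4) hpt
      simp only [Pi.add_apply] at h5
      rw [integral_add i1 i4, integral_const_mul, integral_const_mul,
        integral_sub i2 (integrable_const _), hint] at h5
      simpa using h5
  have h2 := Real.rpow_le_rpow (ContinuousLinearMap.opNorm_nonneg _) hmain hr0.le
  rwa [e] at h2

private theorem puu_one : ∀ᶠ r : ℝ in atTop, 1 ≤ G0 r := by
  have h1 := (tendsto_exp_mul_div_rpow_atTop (3 / 4) (Real.log 2)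
    (Real.log_pos (by norm_num))).eventually_ge_atTop (√(8 * Real.exp 1 * √Real.pi))
  filter_upwards [h1, eventually_gt_atTop 0] with r h2 hr
  have hK0 : 0 < √(8 * Real.exp 1 * √Real.pi) := by positivity
  unfold G0
  rw [one_le_div hK0]
  refine h2.trans_eq ?_
  rw [Real.rpow_neg hr.le, Real.rpow_def_of_pos (by norm_num : (0 : ℝ) < 2), div_eq_mul_inv]

/-- `point_all` and `upper_of_point` with `φ w = ar r * UN (Nr r) (w/R)`; `G0 r ≥ 1` eventually -/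
theorem upper_sharp {η : ℝ} (hη : 0 < η) : ∃ r0 : ℝ, ∀ (p : ℝ≥0∞) [Fact (1 ≤ p)], p ≠ ∞ →
    r0 ≤ p.toReal → ‖ContinuousLinearMap.id ℂ (Hp p) - K0H p‖ ^ p.toReal ≤ (1 + η) * G0 p.toReal := by
  obtain ⟨r0, hr0⟩ := eventually_atTop.1 ((point_all hη).and puu_one)
  refine ⟨r0, fun p _ hp hpr => ?_⟩
  obtain ⟨h3, h4⟩ := hr0 p.toReal hpr
  refine upper_of_point hp (by nlinarith) (φ := fun w => (ar p.toReal : ℂ) *
    UN (Nr p.toReal) (w / ((1 + dl p.toReal : ℝ) : ℂ))) ?_ ?_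
  · exact (differentiable_const _).mul ((differentiable_UN _).comp (differentiable_id.div_const _))
  · intro w
    have h5 := h3 w
    unfold Vr at h5
    simp only [Complex.re_ofReal_mul]
    linarith

end Pool.Agent.MP_984ac2_an
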