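import Pool.Agent.MP_984ac2_an.Density

set_option autoImplicit false

open MeasureTheory AddCircle Filter Topology Metric Set
open scoped ENNReal ComplexConjugate

noncomputable section

namespace Pool.Agent.MP_984ac2_an

variable {p : ℝ≥0∞} [Fact (1 ≤ p)]

/-! ### Dilations on `H^p` -/

/-- The `k`-th Fourier coefficient functional on `H^p`. -/
def coefH (p : ℝ≥0∞) [Fact (1 ≤ p)] (k : ℕ) : Hp p →L[ℂ] ℂ :=
  (coefL p (k : ℤ)).comp (Hp p).subtypeL

theorem norm_coefH_le (k : ℕ) : ‖coefH p k‖ ≤ 1 := by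
  refine ContinuousLinearMap.opNorm_le_bound _ zero_le_one fun f => ?_
  rw [one_mul]
  exact norm_fourierCoeff_le (f : LpCirc p) k

theorem coefH_E (k m : ℕ) : coefH p k (E p m) = if k = m then 1 else 0 := by
  have h : coefH p k (E p m) = if (k : ℤ) = m then 1 else 0 := coefL_eL _ _
  rw [h]
  simp

/-- The dilation operator `f ↦ f(r ·)` on `H^p`. -/
def dil (p : ℝ≥0∞) [Fact (1 ≤ p)] (r : ℝ) : Hp p →L[ℂ] Hp p := aDil (coefH p) (E p) r

theorem isCompact_dil {r : ℝ} (hr0 : 0 ≤ r) (hr1 : r < 1) : IsCompactOperator (dil p r) := by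
  unfold dil
  exact isCompact_aDil (X := Hp p) (φ := coefH p) (e := E p)
    (fun k => norm_coefH_le k) (fun k => norm_E_le k) hr0 hr1

theorem dil_E {r : ℝ} (hr0 : 0 ≤ r) (hr1 : r < 1) (m : ℕ) :
    dil p r (E p m) = ((r ^ m : ℝ) : ℂ) • E p m := by
  unfold dil
  exact aDil_e (X := Hp p) (φ := coefH p) (e := E p)
    (fun k => norm_coefH_le k) (fun k => norm_E_le k) (fun k m => coefH_E k m) hr0 hr1 m

/-! ### Polynomials as elements of `H^p` -/

/-- The continuous function on the circle given by a polynomial. -/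
def polyC (Q : Polynomial ℂ) : C(Circ, ℂ) := ⟨fun x => Q.eval (z x), by
  exact Q.continuous.comp continuous_z⟩

@[simp] theorem polyC_apply (Q : Polynomial ℂ) (x : Circ) : polyC Q x = Q.eval (z x) := rfl

/-- The element of `H^p` given by a polynomial. -/
def ofPoly (p : ℝ≥0∞) [Fact (1 ≤ p)] (Q : Polynomial ℂ) : Hp p :=
  ⟨toLpC p (polyC Q), mem_Hp_of_diffContOnCl (Q.differentiable.diffContOnCl) _ fun _ => rfl⟩

theorem coe_ofPoly (Q : Polynomial ℂ) : ((ofPoly p Q : Hp p) : LpCirc p) = toLpC p (polyC Q) := rfl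

theorem ofPoly_add (Q R : Polynomial ℂ) : ofPoly p (Q + R) = ofPoly p Q + ofPoly p R := by
  apply Subtype.ext
  have h : polyC (Q + R) = polyC Q + polyC R := by ext x; simp
  rw [coe_ofPoly, h]
  exact map_add _ _ _

theorem ofPoly_smul (c : ℂ) (Q : Polynomial ℂ) : ofPoly p (c • Q) = c • ofPoly p Q := by
  apply Subtype.ext
  have h : polyC (c • Q) = c • polyC Q := by ext x; simp
  rw [coe_ofPoly, h]
  exact map_smul _ _ _

theorem ofPoly_sub (Q R : Polynomial ℂ) : ofPoly p (Q - R) = ofPoly p Q - ofPoly p R := by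
  apply Subtype.ext
  have h : polyC (Q - R) = polyC Q - polyC R := by ext x; simp
  rw [coe_ofPoly, h]
  exact map_sub _ _ _

theorem ofPoly_X_pow (k : ℕ) : ofPoly p (Polynomial.X ^ k) = E p k := by
  apply Subtype.ext
  have h : polyC (Polynomial.X ^ k) = fourier (k : ℤ) := by
    ext x
    rw [fourier_eq_zpow]
    simp
  rw [coe_ofPoly, h]
  rfl

theorem ofPoly_monomial (k : ℕ) (c : ℂ) : ofPoly p (Polynomial.monomial k c) = c • E p k := by
  rw [← Polynomial.smul_X_eq_monomial, ofPoly_smul, ofPoly_X_pow]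

theorem exists_poly_of_mem_span {f : Hp p} (hf : f ∈ Submodule.span ℂ (range (E p))) :
    ∃ Q, f = ofPoly p Q := by
  induction hf using Submodule.span_induction with
  | mem f hf =>
    obtain ⟨k, rfl⟩ := hf
    exact ⟨_, (ofPoly_X_pow k).symm⟩
  | zero => exact ⟨0, by simpa using (ofPoly_smul (p := p) 0 0).symm⟩
  | add f g _ _ hf hg =>
    obtain ⟨Q, rfl⟩ := hf
    obtain ⟨R, rfl⟩ := hg
    exact ⟨Q + R, (ofPoly_add Q R).symm⟩
  | smul c f _ hf =>
    obtain ⟨Q, rfl⟩ := hf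
    exact ⟨c • Q, (ofPoly_smul c Q).symm⟩

theorem dense_range_ofPoly (hp : p ≠ ∞) (f : Hp p) : f ∈ closure (range (ofPoly p)) := by
  have h1 : f ∈ closure ((Submodule.span ℂ (range (E p)) : Submodule ℂ (Hp p)) : Set (Hp p)) := by
    rw [← Submodule.topologicalClosure_coe, dense_E hp]
    trivial
  refine closure_mono ?_ h1
  intro g hg
  obtain ⟨Q, rfl⟩ := exists_poly_of_mem_span hg
  exact ⟨Q, rfl⟩

theorem dil_ofPoly {r : ℝ} (hr0 : 0 ≤ r) (hr1 : r < 1) (Q : Polynomial ℂ) :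
    dil p r (ofPoly p Q) = ofPoly p (Q.comp (Polynomial.C (r : ℂ) * Polynomial.X)) := by
  induction Q using Polynomial.induction_on' with
  | add Q R hQ hR => rw [ofPoly_add, map_add, hQ, hR, Polynomial.add_comp, ofPoly_add]
  | monomial k c =>
    rw [ofPoly_monomial, map_smul, dil_E hr0 hr1, Polynomial.monomial_comp, mul_pow,
      ← Polynomial.C_pow, ← mul_assoc, ← Polynomial.C_mul, Polynomial.C_mul_X_pow_eq_monomial,
      ofPoly_monomial, smul_smul]
    push_cast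
    rfl

/-- `‖f - f(r² ·)‖_p ≤ C ‖f‖_p` on all of `H^p`. -/
theorem norm_sub_dil_le (hp : p ≠ ∞) {C : ℝ} (hC0 : 0 ≤ C)
    (hC : ∀ f : Hp p, ‖f - K0H p f‖ ≤ C * ‖f‖) {r : ℝ} (hr0 : 0 ≤ r) (hr1 : r < 1) (f : Hp p) :
    ‖f - dil p (r ^ 2) f‖ ≤ C * ‖f‖ := by
  have hpr := one_le_toReal hp
  have hp0 : 0 < p.toReal := by linarith
  have h20 : 0 ≤ r ^ 2 := by positivity
  have h21 : r ^ 2 < 1 := by nlinarith
  have hclosed : IsClosed {f : Hp p | ‖f - dil p (r ^ 2) f‖ ≤ C * ‖f‖} :=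
    isClosed_le (continuous_id.sub (dil p (r ^ 2)).continuous).norm
      (continuous_const.mul continuous_norm)
  refine (closure_minimal ?_ hclosed) (dense_range_ofPoly hp f)
  rintro _ ⟨Q, rfl⟩
  change ‖ofPoly p Q - dil p (r ^ 2) (ofPoly p Q)‖ ≤ C * ‖ofPoly p Q‖
  rw [dil_ofPoly h20 h21, ← ofPoly_sub]
  change ‖toLpC p _‖ ≤ C * ‖toLpC p _‖
  have key := dilation_ineq hp hC0 hC Q.differentiable hr0 hr1
  rw [← Real.rpow_le_rpow_iff (norm_nonneg _) (mul_nonneg hC0 (norm_nonneg _)) hp0,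
    Real.mul_rpow hC0 (norm_nonneg _), norm_toLpC_rpow hp, norm_toLpC_rpow hp]
  simpa using key

/-- **Upper bound.** -/
theorem bcapConstant_le (hp : p ≠ ∞) :
    bcapConstant (Hp p) ≤ ‖ContinuousLinearMap.id ℂ (Hp p) - K0H p‖ₑ := by
  have hC : ∀ f : Hp p, ‖f - K0H p f‖ ≤ ‖ContinuousLinearMap.id ℂ (Hp p) - K0H p‖ * ‖f‖ :=
    fun f => (ContinuousLinearMap.id ℂ (Hp p) - K0H p).le_opNorm f
  set C := ‖ContinuousLinearMap.id ℂ (Hp p) - K0H p‖ with hCdef
  have hC0 : 0 ≤ C := ContinuousLinearMap.opNorm_nonneg _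
  have h20 : ∀ n, 0 ≤ rs n ^ 2 := fun n => by positivity
  have h21 : ∀ n, rs n ^ 2 < 1 := fun n => by nlinarith [rs_nonneg n, rs_lt_one n]
  have hT : ∀ n, ‖ContinuousLinearMap.id ℂ (Hp p) - dil p (rs n ^ 2)‖ ≤ C := fun n =>
    ContinuousLinearMap.opNorm_le_bound _ hC0 fun f =>
      norm_sub_dil_le hp hC0 hC (rs_nonneg n) (rs_lt_one n) f
  have hbdd : ∀ n, ‖dil p (rs n ^ 2)‖ ≤ ‖ContinuousLinearMap.id ℂ (Hp p)‖ + C := by
    intro n
    have h1 : dil p (rs n ^ 2) = ContinuousLinearMap.id ℂ (Hp p)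
        - (ContinuousLinearMap.id ℂ (Hp p) - dil p (rs n ^ 2)) := by abel
    rw [h1]
    refine ContinuousLinearMap.opNorm_le_bound _ (add_nonneg (ContinuousLinearMap.opNorm_nonneg _) hC0) fun f => ?_
    have h2 := (ContinuousLinearMap.id ℂ (Hp p)).le_opNorm f
    have h3 := (ContinuousLinearMap.id ℂ (Hp p) - dil p (rs n ^ 2)).le_of_opNorm_le (hT n) f
    calc ‖(ContinuousLinearMap.id ℂ (Hp p)
          - (ContinuousLinearMap.id ℂ (Hp p) - dil p (rs n ^ 2))) f‖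
        = ‖ContinuousLinearMap.id ℂ (Hp p) f
          - (ContinuousLinearMap.id ℂ (Hp p) - dil p (rs n ^ 2)) f‖ := rfl
      _ ≤ ‖ContinuousLinearMap.id ℂ (Hp p) f‖
          + ‖(ContinuousLinearMap.id ℂ (Hp p) - dil p (rs n ^ 2)) f‖ := norm_sub_le _ _
      _ ≤ ‖ContinuousLinearMap.id ℂ (Hp p)‖ * ‖f‖ + C * ‖f‖ := add_le_add h2 h3
      _ = (‖ContinuousLinearMap.id ℂ (Hp p)‖ + C) * ‖f‖ := by ring
  have hconv : ∀ f : Hp p, Tendsto (fun n => dil p (rs n ^ 2) f) atTop (𝓝 f) := by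
    refine tendsto_of_dense (fun n => dil p (rs n ^ 2)) _ hbdd (range (E p)) ?_ (dense_E hp)
    rintro _ ⟨m, rfl⟩
    have h1 : Tendsto (fun n => (((rs n ^ 2) ^ m : ℝ) : ℂ) • E p m) atTop
        (𝓝 ((((1 ^ 2) ^ m : ℝ) : ℂ) • E p m)) := by
      refine Tendsto.smul_const ?_ _
      exact (Complex.continuous_ofReal.tendsto _).comp ((tendsto_rs.pow 2).pow _)
    simp only [one_pow, Complex.ofReal_one, one_smul] at h1
    refine h1.congr fun n => ?_
    exact (dil_E (h20 n) (h21 n) m).symm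
  unfold bcapConstant
  refine iInf_le_of_le (fun n => dil p (rs n ^ 2)) ?_
  refine iInf_le_of_le (fun n => isCompact_dil (h20 n) (h21 n)) ?_
  refine iInf_le_of_le hconv ?_
  refine iSup_le fun n => ?_
  exact enorm_le_iff_norm_le.mpr (hT n)

end Pool.Agent.MP_984ac2_an
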