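import Pool.Agent.MP_984ac2_an.Values

set_option autoImplicit false

open MeasureTheory AddCircle Filter Topology Metric Set
open scoped ENNReal ComplexConjugate

noncomputable section

namespace Pool.Agent.MP_984ac2_an

/-! ### Square roots and inner-outer type factorisation of polynomials -/

/-- `F = B g²` on the closed disc, with `B`, `g` in the disc algebra and `|B| = 1` on the circle. -/
def Fac (F : ℂ → ℂ) : Prop :=
  ∃ B g : ℂ → ℂ, DiffContOnCl ℂ B (ball 0 1) ∧ DiffContOnCl ℂ g (ball 0 1) ∧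
    (∀ w, ‖w‖ = 1 → ‖B w‖ = 1) ∧ (∀ w, ‖w‖ ≤ 1 → F w = B w * g w ^ 2)

theorem diffContOnCl_mul {f g : ℂ → ℂ} {s : Set ℂ} (hf : DiffContOnCl ℂ f s)
    (hg : DiffContOnCl ℂ g s) : DiffContOnCl ℂ (fun x => f x * g x) s := hf.smul hg

theorem exists_sq (c : ℂ) : ∃ s : ℂ, s ^ 2 = c :=
  ⟨c ^ ((2 : ℂ)⁻¹), by exact_mod_cast Complex.cpow_nat_inv_pow c (n := 2) (by norm_num)⟩

theorem Fac.mul {F G : ℂ → ℂ} (hF : Fac F) (hG : Fac G) : Fac (fun w => F w * G w) := by
  obtain ⟨B, g, hB, hg, hB1, hFe⟩ := hF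
  obtain ⟨B', g', hB', hg', hB1', hGe⟩ := hG
  refine ⟨fun w => B w * B' w, fun w => g w * g' w, diffContOnCl_mul hB hB',
    diffContOnCl_mul hg hg', ?_, ?_⟩
  · intro w hw
    simp only
    rw [norm_mul, hB1 w hw, hB1' w hw, mul_one]
  · intro w hw
    simp only
    rw [hFe w hw, hGe w hw]
    ring

theorem Fac.const (c : ℂ) : Fac (fun _ => c) := by
  obtain ⟨s, hs⟩ := exists_sq c
  exact ⟨fun _ => 1, fun _ => s, diffContOnCl_const, diffContOnCl_const,
    fun _ _ => by simp, fun _ _ => by simp [hs]⟩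

/-- The square root of `1 - β w`. -/
def sq (β w : ℂ) : ℂ := (1 - β * w) ^ ((2 : ℂ)⁻¹)

theorem sq_sq (β w : ℂ) : sq β w ^ 2 = 1 - β * w := by
  unfold sq
  exact_mod_cast Complex.cpow_nat_inv_pow (1 - β * w) (n := 2) (by norm_num)

theorem re_nonneg_aux {β w : ℂ} (hβ : ‖β‖ ≤ 1) (hw : ‖w‖ ≤ 1) : 0 ≤ (1 - β * w).re := by
  have h1 : ‖β * w‖ ≤ 1 := by
    rw [norm_mul]
    exact mul_le_one₀ hβ (norm_nonneg _) hw
  have h2 := Complex.re_le_norm (β * w)
  rw [Complex.sub_re, Complex.one_re]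
  linarith

theorem diffContOnCl_sq {β : ℂ} (hβ : ‖β‖ ≤ 1) : DiffContOnCl ℂ (sq β) (ball 0 1) := by
  constructor
  · intro w hw
    have hw1 : ‖w‖ < 1 := by simpa using hw
    have h1 : ‖β * w‖ < 1 := by
      rw [norm_mul]
      calc ‖β‖ * ‖w‖ ≤ 1 * ‖w‖ := by gcongr
        _ < 1 := by linarith
    have h2 : 1 - β * w ∈ Complex.slitPlane := by
      left
      have h3 := Complex.re_le_norm (β * w)
      rw [Complex.sub_re, Complex.one_re]
      linarith
    unfold sq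
    have h4 : DifferentiableAt ℂ (fun w => 1 - β * w) w := by fun_prop
    exact (h4.cpow_const h2).differentiableWithinAt
  · intro w hw
    have hw1 : ‖w‖ ≤ 1 := by
      have := closure_ball_subset_closedBall hw
      simpa using this
    unfold sq
    have h1 : ContinuousAt (fun x : ℂ => x ^ ((2 : ℂ)⁻¹)) (1 - β * w) :=
      Complex.continuousAt_cpow_const_of_re_pos (Or.inl (re_nonneg_aux hβ hw1)) (by norm_num)
    have h2 : ContinuousAt (fun w => 1 - β * w) w := by fun_prop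
    exact (ContinuousAt.comp (g := fun x : ℂ => x ^ ((2 : ℂ)⁻¹)) (f := fun w => 1 - β * w)
      h1 h2).continuousWithinAt

theorem Fac.linear (α : ℂ) : Fac (fun w => w - α) := by
  by_cases hα : ‖α‖ < 1
  · have hα' : ‖-α‖ < 1 := by rwa [norm_neg]
    refine ⟨mob (-α), sq (conj α), diffContOnCl_mob hα', diffContOnCl_sq (by
      rw [RCLike.norm_conj]; exact hα.le), fun w hw => norm_mob_eq_one hα' hw, fun w hw => ?_⟩
    rw [sq_sq]
    have h1 := mob_denom_ne hα' hw
    unfold mob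
    rw [map_neg] at h1 ⊢
    have h2 : 1 - conj α * w ≠ 0 := by
      intro h
      apply h1
      rw [← h]
      ring
    have h3 : 1 + -conj α * w = 1 - conj α * w := by ring
    rw [h3, div_mul_cancel₀ _ h2]
    ring
  · push Not at hα
    have hα0 : α ≠ 0 := by
      rintro rfl
      simp at hα
      linarith
    obtain ⟨s, hs⟩ := exists_sq (-α)
    refine ⟨fun _ => 1, fun w => s * sq α⁻¹ w, diffContOnCl_const,
      diffContOnCl_mul diffContOnCl_const (diffContOnCl_sq ?_), fun _ _ => by simp,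
      fun w _ => ?_⟩
    · rw [norm_inv]
      exact inv_le_one_of_one_le₀ hα
    · rw [mul_pow, sq_sq, hs]
      field_simp
      ring

theorem Fac.multiset_prod (s : Multiset ℂ) :
    Fac (fun w => (s.map fun α => w - α).prod) := by
  induction s using Multiset.induction with
  | empty => simpa using Fac.const 1
  | cons a s ih =>
    have h := (Fac.linear a).mul ih
    simpa using h

theorem Fac.poly (Q : Polynomial ℂ) : Fac (fun w => Q.eval w) := by
  have hs : Q = Polynomial.C Q.leadingCoeff * (Q.roots.map fun α => Polynomial.X - Polynomial.C α).prod :=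
    (IsAlgClosed.splits Q).eq_prod_roots
  have h := (Fac.const Q.leadingCoeff).mul (Fac.multiset_prod Q.roots)
  have h2 : (fun w => Q.eval w)
      = fun w => Q.leadingCoeff * (Q.roots.map fun α => w - α).prod := by
    ext w
    conv_lhs => rw [hs]
    rw [Polynomial.eval_mul, Polynomial.eval_C, Polynomial.eval_multiset_prod,
      Multiset.map_map]
    congr 2
    refine Multiset.map_congr rfl fun α _ => ?_
    simp
  rw [h2]
  exact h

/-- We may take `B(0) ≥ 0`. -/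
theorem Fac.normalise {F : ℂ → ℂ} (hF : Fac F) :
    ∃ B g : ℂ → ℂ, ∃ b : ℝ, 0 ≤ b ∧ B 0 = b ∧ DiffContOnCl ℂ B (ball 0 1) ∧
      DiffContOnCl ℂ g (ball 0 1) ∧
      (∀ w, ‖w‖ = 1 → ‖B w‖ = 1) ∧ (∀ w, ‖w‖ ≤ 1 → F w = B w * g w ^ 2) := by
  obtain ⟨B, g, hB, hg, hB1, hFe⟩ := hF
  -- a unimodular `v` with `v² B(0)⁻ ...`
  obtain ⟨u, hu, hub⟩ : ∃ u : ℂ, ‖u‖ = 1 ∧ u * B 0 = (‖B 0‖ : ℂ) := by
    by_cases h0 : B 0 = 0
    · exact ⟨1, by simp, by simp [h0]⟩
    · refine ⟨‖B 0‖ / B 0, ?_, ?_⟩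
      · rw [norm_div, Complex.norm_real, norm_norm, div_self (norm_ne_zero_iff.mpr h0)]
      · rw [div_mul_cancel₀ _ h0]
  obtain ⟨v, hv⟩ := exists_sq u⁻¹
  have hu0 : u ≠ 0 := by
    rintro rfl
    simp at hu
  refine ⟨fun w => u * B w, fun w => v * g w, ‖B 0‖, norm_nonneg _, hub,
    diffContOnCl_mul diffContOnCl_const hB, diffContOnCl_mul diffContOnCl_const hg, ?_, ?_⟩
  · intro w hw
    rw [norm_mul, hu, hB1 w hw, mul_one]
  · intro w hw
    rw [hFe w hw, mul_pow, hv]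
    field_simp

/-! ### The pointwise inequality -/

/-- `2/√3`. -/
def lam : ℝ := 2 / Real.sqrt 3

theorem lam_pos : 0 < lam := by unfold lam; positivity

theorem lam_sq : lam ^ 2 = 4 / 3 := by
  unfold lam
  rw [div_pow, Real.sq_sqrt (by norm_num)]
  norm_num

theorem norm_sq_sub_sq (ζ η : ℂ) :
    ‖ζ ^ 2 - η ^ 2‖ ^ 2 = (‖ζ‖ ^ 2 + ‖η‖ ^ 2) ^ 2 - 4 * (ζ * conj η).re ^ 2 := by
  have h1 : ζ ^ 2 - η ^ 2 = (ζ - η) * (ζ + η) := by ring
  rw [h1, norm_mul, mul_pow]
  simp only [← Complex.normSq_eq_norm_sq, Complex.normSq_apply, Complex.add_re, Complex.add_im,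
    Complex.mul_re, Complex.conj_re, Complex.conj_im, Complex.sub_re, Complex.sub_im]
  ring

theorem re_mul_conj_le (ζ η : ℂ) : (ζ * conj η).re ≤ (‖ζ‖ ^ 2 + ‖η‖ ^ 2) / 2 := by
  have h1 := Complex.re_le_norm (ζ * conj η)
  rw [norm_mul, RCLike.norm_conj] at h1
  nlinarith [sq_nonneg (‖ζ‖ - ‖η‖)]

theorem core_ineq (ζ η : ℂ) :
    ‖ζ ^ 2 - η ^ 2‖ ≤ lam * (‖ζ‖ ^ 2 + ‖η‖ ^ 2 - (ζ * conj η).re) := by
  have h1 := norm_sq_sub_sq ζ η
  have h2 := re_mul_conj_le ζ η
  set a := (ζ * conj η).re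
  have h3 : 0 ≤ lam * (‖ζ‖ ^ 2 + ‖η‖ ^ 2 - a) := by
    refine mul_nonneg lam_pos.le ?_
    nlinarith [sq_nonneg ‖ζ‖, sq_nonneg ‖η‖]
  refine le_of_sq_le_sq ?_ h3
  rw [h1, mul_pow, lam_sq]
  nlinarith [sq_nonneg (‖ζ‖ ^ 2 + ‖η‖ ^ 2 - 4 * a)]

/-- The same inequality for `z = B g²` with `|B| = 1`. -/
theorem core_ineq_inner {B : ℂ} (hB : ‖B‖ = 1) (g η : ℂ) :
    ‖B * g ^ 2 - η ^ 2‖ ≤ lam * (‖B * g ^ 2‖ + ‖η‖ ^ 2 - ((1 + B) / 2 * g * conj η).re) := by
  obtain ⟨β, hβ⟩ := exists_sq B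
  have hβ1 : ‖β‖ = 1 := by
    have h1 : ‖β‖ ^ 2 = 1 := by rw [← norm_pow, hβ, hB]
    nlinarith [norm_nonneg β]
  set ζ := β * g with hζ
  have hζ2 : B * g ^ 2 = ζ ^ 2 := by rw [hζ, mul_pow, hβ]
  have hββ : β * conj β = 1 := by
    rw [Complex.mul_conj, Complex.normSq_eq_norm_sq, hβ1]; simp
  have hk : (1 + B) / 2 * g = (β.re : ℂ) * ζ := by
    rw [hζ, Complex.re_eq_add_conj, ← hβ]
    linear_combination (-g / 2) * hββ
  have hre : ((1 + B) / 2 * g * conj η).re = β.re * (ζ * conj η).re := by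
    rw [hk, mul_assoc, Complex.re_ofReal_mul]
  have hβre : |β.re| ≤ 1 := by
    rw [← hβ1]; exact Complex.abs_re_le_norm β
  have h1 : ((1 + B) / 2 * g * conj η).re ≤ |(ζ * conj η).re| := by
    rw [hre]
    calc β.re * (ζ * conj η).re ≤ |β.re * (ζ * conj η).re| := le_abs_self _
      _ = |β.re| * |(ζ * conj η).re| := abs_mul _ _
      _ ≤ 1 * |(ζ * conj η).re| := by gcongr
      _ = |(ζ * conj η).re| := one_mul _
  rw [hζ2, norm_pow]
  have h2 : ‖ζ ^ 2 - η ^ 2‖ ≤ lam * (‖ζ‖ ^ 2 + ‖η‖ ^ 2 - |(ζ * conj η).re|) := by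
    rcases abs_cases (ζ * conj η).re with ⟨h, _⟩ | ⟨h, _⟩
    · rw [h]; exact core_ineq ζ η
    · rw [h]
      have h3 := core_ineq (-ζ) η
      rw [neg_sq, norm_neg, neg_mul, Complex.neg_re] at h3
      exact h3
  refine h2.trans ?_
  refine mul_le_mul_of_nonneg_left ?_ lam_pos.le
  linarith

/-- `‖F - F(0)‖₁ ≤ (2/√3) ‖F‖₁` for polynomials (Brevig and Seip). -/
theorem one_ineq (Q : Polynomial ℂ) :
    ∫ x, ‖Q.eval (z x) - Q.eval 0‖ ∂sigma ≤ lam * ∫ x, ‖Q.eval (z x)‖ ∂sigma := by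
  obtain ⟨B, g, b, hb0, hb, hB, hg, hB1, hF⟩ := (Fac.poly Q).normalise
  set s := Real.sqrt b with hs
  have hs0 : 0 ≤ s := Real.sqrt_nonneg b
  have hs2 : s ^ 2 = b := Real.sq_sqrt hb0
  set η : ℂ := s * g 0 with hη
  have hη2 : η ^ 2 = Q.eval 0 := by
    have h1 := hF 0 (by simp)
    rw [h1, hb, hη, mul_pow, ← hs2]
    push_cast
    ring
  have hcont : ∀ {f : ℂ → ℂ}, DiffContOnCl ℂ f (ball 0 1) → Continuous (fun x => f (z x)) := by
    intro f hf
    have h1 : ContinuousOn f (closedBall 0 1) := by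
      rw [← closure_ball (0 : ℂ) one_ne_zero]
      exact hf.continuousOn
    exact h1.comp_continuous continuous_z fun x => by simp
  have hcQ : Continuous fun x => Q.eval (z x) := Q.continuous.comp continuous_z
  -- the analytic function `k g conj η`
  have hk : DiffContOnCl ℂ (fun w => (1 + B w) / 2 * g w * conj η) (ball 0 1) := by
    have h1 : DiffContOnCl ℂ (fun w => (1 + B w) / 2) (ball 0 1) := by
      have hH : Differentiable ℂ (fun v : ℂ => (1 + v) / 2) := by fun_prop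
      exact hH.comp_diffContOnCl hB
    exact diffContOnCl_mul (diffContOnCl_mul h1 hg) diffContOnCl_const
  have hint := integral_re_eq hk (hcont hk)
  have hpt : ∀ x, ‖Q.eval (z x) - Q.eval 0‖ ≤ lam * (‖Q.eval (z x)‖ + ‖η‖ ^ 2
      - ((1 + B (z x)) / 2 * g (z x) * conj η).re) := by
    intro x
    have h1 := hF (z x) (norm_z x).le
    rw [h1, ← hη2]
    exact core_ineq_inner (hB1 _ (norm_z x)) _ _
  have h2 : ∫ x, ‖Q.eval (z x) - Q.eval 0‖ ∂sigma ≤ ∫ x, lam * (‖Q.eval (z x)‖ + ‖η‖ ^ 2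
      - ((1 + B (z x)) / 2 * g (z x) * conj η).re) ∂sigma := by
    refine integral_mono ?_ ?_ hpt
    · exact integrable_of_continuous (hcQ.sub continuous_const).norm
    · refine integrable_of_continuous ?_
      exact continuous_const.mul ((hcQ.norm.add continuous_const).sub
        (Complex.continuous_re.comp (hcont hk)))
  refine h2.trans ?_
  rw [integral_const_mul, integral_sub, integral_add, integral_const, hint]
  · refine mul_le_mul_of_nonneg_left ?_ lam_pos.le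
    have h3 : ‖η‖ ^ 2 = s ^ 2 * ‖g 0‖ ^ 2 := by
      rw [hη, norm_mul, Complex.norm_real, Real.norm_of_nonneg hs0, mul_pow]
    have h4 : ((1 + B 0) / 2 * g 0 * conj η).re = (1 + s ^ 2) / 2 * s * ‖g 0‖ ^ 2 := by
      rw [hb, hη, ← hs2, map_mul, Complex.conj_ofReal]
      have h5 : (1 + ((s ^ 2 : ℝ) : ℂ)) / 2 * g 0 * (s * conj (g 0))
          = (((1 + s ^ 2) / 2 * s * ‖g 0‖ ^ 2 : ℝ) : ℂ) := by
        have h6 : g 0 * conj (g 0) = ((‖g 0‖ ^ 2 : ℝ) : ℂ) := by
          rw [Complex.mul_conj, Complex.normSq_eq_norm_sq]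
        calc _ = (1 + ((s ^ 2 : ℝ) : ℂ)) / 2 * s * (g 0 * conj (g 0)) := by ring
          _ = _ := by rw [h6]; push_cast; ring
      rw [h5, Complex.ofReal_re]
    rw [h3, h4]
    have h7 : 0 ≤ s * ‖g 0‖ ^ 2 * (1 - s) ^ 2 := by positivity
    simp
    nlinarith
  · exact integrable_of_continuous hcQ.norm
  · exact integrable_const _
  · exact (integrable_of_continuous hcQ.norm).add (integrable_const _)
  · exact integrable_of_continuous (Complex.continuous_re.comp (hcont hk))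

/-- `‖I - K₀‖ ≤ 2/√3` on `H^1`. -/
theorem one_upper : ‖ContinuousLinearMap.id ℂ (Hp 1) - K0H 1‖ ≤ lam := by
  refine norm_sub_K0H_le (by norm_num) lam_pos.le fun Q => ?_
  simpa using one_ineq Q

/-- The extremal function on `H^1`. -/
theorem one_lower : lam ≤ ‖ContinuousLinearMap.id ℂ (Hp 1) - K0H 1‖ := by
  set ρ : ℝ := (Real.sqrt 3)⁻¹ with hρ
  have h3 : Real.sqrt 3 ^ 2 = 3 := Real.sq_sqrt (by norm_num)
  have h30 : 0 < Real.sqrt 3 := by positivity
  have hρ0 : 0 < ρ := by rw [hρ]; positivity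
  have hρ2 : ρ ^ 2 = 1 / 3 := by rw [hρ, inv_pow, h3]; norm_num
  have hρ1 : ρ < 1 := by nlinarith
  let Z : ℂ → ℂ := fun w => (1 + ρ * w) / (1 - ρ * w)
  have hden : ∀ w : ℂ, ‖w‖ ≤ 1 → 1 - ρ * w ≠ 0 := by
    intro w hw h
    have h1 : (ρ : ℂ) * w = 1 := by linear_combination -h
    have h2 : ‖(ρ : ℂ) * w‖ = 1 := by rw [h1]; simp
    rw [norm_mul, Complex.norm_real, Real.norm_of_nonneg hρ0.le] at h2
    nlinarith [norm_nonneg w]
  have hZ : DiffContOnCl ℂ Z (ball 0 1) := by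
    refine DifferentiableOn.diffContOnCl fun w hw => ?_
    have hw' : ‖w‖ ≤ 1 := by simpa using closure_ball_subset_closedBall hw
    have : DifferentiableAt ℂ Z w := DifferentiableAt.div (by fun_prop) (by fun_prop) (hden w hw')
    exact this.differentiableWithinAt
  have hZc : Continuous fun x => Z (z x) :=
    (continuous_const.add (continuous_const.mul continuous_z)).div
      (continuous_const.sub (continuous_const.mul continuous_z)) fun x => hden _ (norm_z x).le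
  let F : ℂ → ℂ := fun w => Z w ^ 2
  have hF : DiffContOnCl ℂ F (ball 0 1) := by
    have hH : Differentiable ℂ (fun v : ℂ => v ^ 2) := by fun_prop
    exact hH.comp_diffContOnCl hZ
  have hFc : Continuous fun x => F (z x) := hZc.pow 2
  let G : C(Circ, ℂ) := ⟨fun x => F (z x), hFc⟩
  have hF0 : F 0 = 1 := by simp [F, Z]
  have hZ0 : Z 0 = 1 := by simp [Z]
  -- on the circle `|Z|² + 1 = 4 Re Z`
  have hcirc : ∀ x, ‖Z (z x)‖ ^ 2 + 1 = 4 * (Z (z x)).re := by
    intro x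
    have hd := hden (z x) (norm_z x).le
    have hn : Complex.normSq (1 - ρ * z x) ≠ 0 := by
      rwa [Ne, Complex.normSq_eq_zero]
    have hz1 : (z x).re ^ 2 + (z x).im ^ 2 = 1 := by
      have := norm_z x
      have h1 : ‖z x‖ ^ 2 = 1 := by rw [this]; norm_num
      rw [← Complex.normSq_eq_norm_sq, Complex.normSq_apply] at h1
      nlinarith
    have e1 : ‖Z (z x)‖ ^ 2 = Complex.normSq (1 + ρ * z x) / Complex.normSq (1 - ρ * z x) := by
      rw [← Complex.normSq_eq_norm_sq]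
      simp only [Z, map_div₀]
    have e2 : (Z (z x)).re = ((1 + ρ * z x) * conj (1 - ρ * z x)).re
        / Complex.normSq (1 - ρ * z x) := by
      simp only [Z]
      rw [Complex.div_re]
      simp only [Complex.mul_re, Complex.conj_re, Complex.conj_im]
      ring
    rw [e1, e2]
    field_simp
    simp only [Complex.normSq_apply, Complex.add_re, Complex.add_im, Complex.sub_re,
      Complex.sub_im, Complex.mul_re, Complex.mul_im, Complex.one_re, Complex.one_im,
      Complex.ofReal_re, Complex.ofReal_im, Complex.conj_re, Complex.conj_im]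
    have h5 : ρ ^ 2 * ((z x).re ^ 2 + (z x).im ^ 2) = 1 / 3 := by rw [hz1, hρ2]; norm_num
    nlinarith
  -- pointwise equality
  have hpt : ∀ x, ‖F (z x) - F 0‖ = lam * (‖F (z x)‖ + 1 - (Z (z x)).re) := by
    intro x
    have h1 := norm_sq_sub_sq (Z (z x)) 1
    have h2 := hcirc x
    simp only [map_one, mul_one, norm_one, one_pow] at h1
    have h4 : 0 ≤ lam * (‖Z (z x)‖ ^ 2 + 1 - (Z (z x)).re) := by
      refine mul_nonneg lam_pos.le ?_
      rw [h2]
      nlinarith [sq_nonneg ‖Z (z x)‖]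
    rw [hF0]
    change ‖Z (z x) ^ 2 - 1‖ = lam * (‖Z (z x) ^ 2‖ + 1 - (Z (z x)).re)
    rw [norm_pow]
    have h5 : ‖Z (z x) ^ 2 - 1‖ ^ 2 = (lam * (‖Z (z x)‖ ^ 2 + 1 - (Z (z x)).re)) ^ 2 := by
      rw [h1, mul_pow, lam_sq, h2]
      ring
    exact (sq_eq_sq₀ (norm_nonneg _) h4).mp h5
  have hintZ := integral_re_eq hZ hZc
  have hI : ∫ x, ‖F (z x) - F 0‖ ∂sigma = lam * ∫ x, ‖F (z x)‖ ∂sigma := by
    have h1 : ∫ x, ‖F (z x) - F 0‖ ∂sigma
        = ∫ x, lam * (‖F (z x)‖ + 1 - (Z (z x)).re) ∂sigma :=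
      integral_congr_ae (Eventually.of_forall hpt)
    rw [h1, integral_const_mul, integral_sub, integral_add, integral_const, hintZ, hZ0]
    · simp
    · exact integrable_of_continuous hFc.norm
    · exact integrable_const _
    · exact (integrable_of_continuous hFc.norm).add (integrable_const _)
    · exact integrable_of_continuous (Complex.continuous_re.comp hZc)
  have hpos : 0 < ∫ x, ‖F (z x)‖ ∂sigma := by
    have hlow : 1 ≤ ∫ x, ‖F (z x)‖ ∂sigma := by
      have h1 : ∫ x, (F (z x)).re ∂sigma ≤ ∫ x, ‖F (z x)‖ ∂sigma :=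
        integral_mono (integrable_of_continuous (Complex.continuous_re.comp hFc))
          (integrable_of_continuous hFc.norm) fun x => Complex.re_le_norm _
      rw [integral_re_eq hF hFc, hF0] at h1
      simpa using h1
    linarith
  refine le_norm_sub_K0H (p := 1) (by norm_num) lam_pos.le hF G (fun x => rfl) ?_ ?_
  · simp only [ENNReal.toReal_one, Real.rpow_one]
    exact hpos
  · simp only [ENNReal.toReal_one, Real.rpow_one]
    exact hI.ge

/-- The exact constant of `H^1`. -/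
theorem bcapConstant_one : bcapConstant (Hp 1) = ENNReal.ofReal (2 / Real.sqrt 3) :=
  enorm_sub_K0H_eq (by norm_num) (le_antisymm one_upper one_lower)

end Pool.Agent.MP_984ac2_an
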