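import Pool.Agent.MP_984ac2_an.Lower

set_option autoImplicit false

open MeasureTheory AddCircle Filter Topology Metric Set
open scoped ENNReal ComplexConjugate

noncomputable section

namespace Pool.Agent.MP_984ac2_an

variable {p : ℝ≥0∞} [Fact (1 ≤ p)]

/-- Upper bound for `‖I - K₀‖` from polynomials. -/
theorem norm_sub_K0H_le (hp : p ≠ ∞) {C : ℝ} (hC : 0 ≤ C)
    (h : ∀ Q : Polynomial ℂ, ∫ x, ‖Q.eval (z x) - Q.eval 0‖ ^ p.toReal ∂sigma
      ≤ C ^ p.toReal * ∫ x, ‖Q.eval (z x)‖ ^ p.toReal ∂sigma) :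
    ‖ContinuousLinearMap.id ℂ (Hp p) - K0H p‖ ≤ C := by
  have hpr := one_le_toReal hp
  have hp0 : 0 < p.toReal := by linarith
  refine ContinuousLinearMap.opNorm_le_bound _ hC fun f => ?_
  have hclosed : IsClosed {f : Hp p | ‖f - K0H p f‖ ≤ C * ‖f‖} :=
    isClosed_le (continuous_id.sub (K0H p).continuous).norm
      (continuous_const.mul continuous_norm)
  refine (closure_minimal ?_ hclosed) (dense_range_ofPoly hp f)
  rintro _ ⟨Q, rfl⟩
  change ‖ofPoly p Q - K0H p (ofPoly p Q)‖ ≤ C * ‖ofPoly p Q‖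
  have hQ0 : K0H p (ofPoly p Q) = ofPoly p (Polynomial.C (Q.eval 0)) := by
    rw [K0H_ofPoly, ← Polynomial.monomial_zero_left, ofPoly_monomial,
      Polynomial.coeff_zero_eq_eval_zero]
  rw [hQ0, ← ofPoly_sub]
  change ‖toLpC p _‖ ≤ C * ‖toLpC p _‖
  rw [← Real.rpow_le_rpow_iff (norm_nonneg _) (mul_nonneg hC (norm_nonneg _)) hp0,
    Real.mul_rpow hC (norm_nonneg _), norm_toLpC_rpow hp, norm_toLpC_rpow hp]
  simpa using h Q

/-- Lower bound for `‖I - K₀‖` from one function of the disc algebra. -/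
theorem le_norm_sub_K0H (hp : p ≠ ∞) {C : ℝ} (hC : 0 ≤ C) {F : ℂ → ℂ}
    (hF : DiffContOnCl ℂ F (ball 0 1)) (G : C(Circ, ℂ)) (hG : ∀ x, G x = F (z x))
    (hpos : 0 < ∫ x, ‖G x‖ ^ p.toReal ∂sigma)
    (h : C ^ p.toReal * ∫ x, ‖G x‖ ^ p.toReal ∂sigma ≤ ∫ x, ‖G x - F 0‖ ^ p.toReal ∂sigma) :
    C ≤ ‖ContinuousLinearMap.id ℂ (Hp p) - K0H p‖ := by
  have hpr := one_le_toReal hp
  have hp0 : 0 < p.toReal := by linarith
  set D := ‖ContinuousLinearMap.id ℂ (Hp p) - K0H p‖ with hD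
  have hD0 : 0 ≤ D := ContinuousLinearMap.opNorm_nonneg _
  have h1 := discAlgebra_ineq (p := p) hp hD0
    (fun f => (ContinuousLinearMap.id ℂ (Hp p) - K0H p).le_opNorm f) hF G hG
  have h2 := h.trans h1
  have h3 : C ^ p.toReal ≤ D ^ p.toReal := le_of_mul_le_mul_right h2 hpos
  exact (Real.rpow_le_rpow_iff hC hD0 hp0).mp h3

theorem enorm_sub_K0H_eq (hp : p ≠ ∞) {C : ℝ}
    (h : ‖ContinuousLinearMap.id ℂ (Hp p) - K0H p‖ = C) :
    bcapConstant (Hp p) = ENNReal.ofReal C := by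
  rw [bcapConstant_Hp hp, ← ofReal_norm, h]

/-! ### The case `p = 4` -/

/-- The pointwise identity behind the exact constant on `H^4`. -/
theorem four_identity (φ : ℝ) (hφ : φ ^ 2 = φ + 1) (u w : ℂ) :
    φ * ‖u‖ ^ 4 - ‖u - w‖ ^ 4
      = (-4 * φ ^ 2 * ((u ^ 2 * conj w ^ 2).re / 2 - φ ^ 2 * ‖w‖ ^ 2 * (u * conj w).re)
          - 2 * φ ^ 5 * ‖w‖ ^ 4)
        + (φ - 1) * (‖u + φ * w‖ ^ 2 - 2 * φ ^ 3 * ‖w‖ ^ 2) ^ 2 := by
  have e4 : ∀ v : ℂ, ‖v‖ ^ 4 = (v.re ^ 2 + v.im ^ 2) ^ 2 := by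
    intro v
    have : ‖v‖ ^ 2 = v.re ^ 2 + v.im ^ 2 := by
      rw [← Complex.normSq_eq_norm_sq, Complex.normSq_apply]; ring
    rw [show ‖v‖ ^ 4 = (‖v‖ ^ 2) ^ 2 by ring, this]
  have e2 : ∀ v : ℂ, ‖v‖ ^ 2 = v.re ^ 2 + v.im ^ 2 := by
    intro v
    rw [← Complex.normSq_eq_norm_sq, Complex.normSq_apply]; ring
  rw [e4, e4, e4, e2, e2]
  obtain ⟨a, b⟩ := u
  obtain ⟨c, d⟩ := w
  have h3 : φ ^ 3 = 2 * φ + 1 := by
    calc φ ^ 3 = φ * φ ^ 2 := by ring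
      _ = φ * (φ + 1) := by rw [hφ]
      _ = φ ^ 2 + φ := by ring
      _ = 2 * φ + 1 := by rw [hφ]; ring
  have h4 : φ ^ 4 = 3 * φ + 2 := by
    calc φ ^ 4 = φ * φ ^ 3 := by ring
      _ = φ * (2 * φ + 1) := by rw [h3]
      _ = 2 * φ ^ 2 + φ := by ring
      _ = 3 * φ + 2 := by rw [hφ]; ring
  have h5 : φ ^ 5 = 5 * φ + 3 := by
    calc φ ^ 5 = φ * φ ^ 4 := by ring
      _ = φ * (3 * φ + 2) := by rw [h4]
      _ = 3 * φ ^ 2 + 2 * φ := by ring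
      _ = 5 * φ + 3 := by rw [hφ]; ring
  have h6 : φ ^ 6 = 8 * φ + 5 := by
    calc φ ^ 6 = φ * φ ^ 5 := by ring
      _ = φ * (5 * φ + 3) := by rw [h5]
      _ = 5 * φ ^ 2 + 3 * φ := by ring
      _ = 8 * φ + 5 := by rw [hφ]; ring
  have h7 : φ ^ 7 = 13 * φ + 8 := by
    calc φ ^ 7 = φ * φ ^ 6 := by ring
      _ = φ * (8 * φ + 5) := by rw [h6]
      _ = 8 * φ ^ 2 + 5 * φ := by ring
      _ = 13 * φ + 8 := by rw [hφ]; ring
  simp only [Complex.sub_re, Complex.sub_im, Complex.add_re, Complex.add_im, Complex.mul_re,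
    Complex.mul_im, Complex.conj_re, Complex.conj_im, Complex.ofReal_re, Complex.ofReal_im,
    pow_two]
  ring_nf
  simp only [hφ, h3, h4, h5, h6, h7]
  ring_nf

/-- Mean value property for the real part of a function in the disc algebra. -/
theorem integral_re_eq {F : ℂ → ℂ} (hF : DiffContOnCl ℂ F (ball 0 1))
    (hc : Continuous fun x => F (z x)) : ∫ x, (F (z x)).re ∂sigma = (F 0).re := by
  have h2 := poisson_formula (a := 0) hF (by simp)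
  have h3 : ∫ x, (P 0 x : ℂ) * F (z x) ∂sigma = ∫ x, F (z x) ∂sigma := by
    refine integral_congr_ae (Eventually.of_forall fun x => ?_)
    simp [P]
  rw [h3] at h2
  rw [← h2]
  exact integral_re (integrable_of_continuous hc)

/-- The harmonic minorant of `four_identity` has integral zero. -/
theorem four_integral {φ : ℝ} (hφ : φ ^ 2 = φ + 1) {F : ℂ → ℂ}
    (hF : DiffContOnCl ℂ F (ball 0 1)) (hc : Continuous fun x => F (z x)) :
    ∫ x, (-4 * φ ^ 2 * ((F (z x) ^ 2 * conj (F 0) ^ 2).re / 2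
        - φ ^ 2 * ‖F 0‖ ^ 2 * (F (z x) * conj (F 0)).re) - 2 * φ ^ 5 * ‖F 0‖ ^ 4) ∂sigma = 0 := by
  set w := F 0 with hw
  -- the analytic function whose real part is integrated
  let c1 : ℂ := ((-2 * φ ^ 2 : ℝ) : ℂ) * conj w ^ 2
  let c2 : ℂ := ((4 * φ ^ 4 * ‖w‖ ^ 2 : ℝ) : ℂ) * conj w
  let c3 : ℂ := ((-2 * φ ^ 5 * ‖w‖ ^ 4 : ℝ) : ℂ)
  have hH : Differentiable ℂ (fun v : ℂ => c1 * v ^ 2 + c2 * v + c3) := by fun_prop
  have hH2 := hH.comp_diffContOnCl hF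
  have h1 := integral_re_eq hH2 (hH.continuous.comp hc)
  have h2 : ∀ v : ℂ, (c1 * v ^ 2 + c2 * v + c3).re
      = -4 * φ ^ 2 * ((v ^ 2 * conj w ^ 2).re / 2
        - φ ^ 2 * ‖w‖ ^ 2 * (v * conj w).re) - 2 * φ ^ 5 * ‖w‖ ^ 4 := by
    intro v
    have e1 : c1 * v ^ 2 = ((-2 * φ ^ 2 : ℝ) : ℂ) * (v ^ 2 * conj w ^ 2) := by ring
    have e2 : c2 * v = ((4 * φ ^ 4 * ‖w‖ ^ 2 : ℝ) : ℂ) * (v * conj w) := by ring
    rw [Complex.add_re, Complex.add_re, e1, e2, Complex.re_ofReal_mul, Complex.re_ofReal_mul,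
      Complex.ofReal_re]
    ring
  have h3 : ∫ x, (((fun v : ℂ => c1 * v ^ 2 + c2 * v + c3) ∘ F) (z x)).re ∂sigma
      = ∫ x, (-4 * φ ^ 2 * ((F (z x) ^ 2 * conj w ^ 2).re / 2
        - φ ^ 2 * ‖w‖ ^ 2 * (F (z x) * conj w).re) - 2 * φ ^ 5 * ‖w‖ ^ 4) ∂sigma :=
    integral_congr_ae (Eventually.of_forall fun x => h2 (F (z x)))
  rw [← h3]
  refine h1.trans ?_
  change (c1 * (F 0) ^ 2 + c2 * (F 0) + c3).re = 0
  rw [← hw, h2 w]
  have h4 : (w * conj w) = ((‖w‖ ^ 2 : ℝ) : ℂ) := by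
    rw [Complex.mul_conj, Complex.normSq_eq_norm_sq]
  have h5 : (w ^ 2 * conj w ^ 2) = ((‖w‖ ^ 4 : ℝ) : ℂ) := by
    rw [← mul_pow, h4]
    push_cast
    ring
  rw [h4, h5, Complex.ofReal_re, Complex.ofReal_re]
  have h3' : φ ^ 3 = 2 * φ + 1 := by
    calc φ ^ 3 = φ * φ ^ 2 := by ring
      _ = φ * (φ + 1) := by rw [hφ]
      _ = φ ^ 2 + φ := by ring
      _ = 2 * φ + 1 := by rw [hφ]; ring
  have h6 : -4 * φ ^ 2 * (‖w‖ ^ 4 / 2 - φ ^ 2 * ‖w‖ ^ 2 * ‖w‖ ^ 2) - 2 * φ ^ 5 * ‖w‖ ^ 4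
      = -2 * φ ^ 2 * ‖w‖ ^ 4 * (1 - 2 * φ ^ 2 + φ ^ 3) := by ring
  rw [h6, h3', hφ]
  ring

theorem goldenRatio_sq : Real.goldenRatio ^ 2 = Real.goldenRatio + 1 := Real.goldenRatio_sq

theorem toReal_four : (4 : ℝ≥0∞).toReal = 4 := by norm_num

theorem rpow_quarter (φ : ℝ) (hφ : 0 ≤ φ) : (φ ^ (1 / 4 : ℝ)) ^ (4 : ℝ) = φ := by
  rw [← Real.rpow_mul hφ]
  norm_num

/-- `‖I - K₀‖ ≤ φ^{1/4}` on `H^4`. -/
theorem four_upper : ‖ContinuousLinearMap.id ℂ (Hp 4) - K0H 4‖ ≤ Real.goldenRatio ^ (1 / 4 : ℝ) := by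
  have hφ := goldenRatio_sq
  set φ := Real.goldenRatio with hφdef
  have hφ1 : 1 < φ := Real.one_lt_goldenRatio
  have hφ0 : 0 ≤ φ := by linarith
  refine norm_sub_K0H_le (by norm_num) (Real.rpow_nonneg hφ0 _) fun Q => ?_
  rw [toReal_four, rpow_quarter φ hφ0]
  have hcQ : Continuous fun x => Q.eval (z x) := Q.continuous.comp continuous_z
  have hint := four_integral hφ (F := fun w => Q.eval w) Q.differentiable.diffContOnCl hcQ
  rw [← integral_const_mul]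
  have e : ∀ v : ℂ, ‖v‖ ^ (4 : ℝ) = ‖v‖ ^ 4 := fun v => by
    rw [← Real.rpow_natCast]; norm_num
  simp only [e]
  have h1 : ∫ x, (φ * ‖Q.eval (z x)‖ ^ 4 - ‖Q.eval (z x) - Q.eval 0‖ ^ 4) ∂sigma
      = φ * ∫ x, ‖Q.eval (z x)‖ ^ 4 ∂sigma - ∫ x, ‖Q.eval (z x) - Q.eval 0‖ ^ 4 ∂sigma := by
    rw [integral_sub, integral_const_mul]
    · exact integrable_of_continuous (continuous_const.mul (hcQ.norm.pow 4))
    · exact integrable_of_continuous ((hcQ.sub continuous_const).norm.pow 4)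
  have h2 : 0 ≤ ∫ x, (φ * ‖Q.eval (z x)‖ ^ 4 - ‖Q.eval (z x) - Q.eval 0‖ ^ 4) ∂sigma := by
    rw [← hint]
    refine integral_mono ?_ ?_ fun x => ?_
    · refine integrable_of_continuous ?_
      fun_prop
    · exact integrable_of_continuous
        ((continuous_const.mul (hcQ.norm.pow 4)).sub ((hcQ.sub continuous_const).norm.pow 4))
    · have h3 := four_identity φ hφ (Q.eval (z x)) (Q.eval 0)
      have h4 : 0 ≤ (φ - 1) * (‖Q.eval (z x) + φ * Q.eval 0‖ ^ 2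
          - 2 * φ ^ 3 * ‖Q.eval 0‖ ^ 2) ^ 2 :=
        mul_nonneg (by linarith) (sq_nonneg _)
      simp only
      linarith
  rw [integral_const_mul]
  linarith

/-- `φ^{1/4} ≤ ‖I - K₀‖` on `H^4`. -/
theorem four_lower : Real.goldenRatio ^ (1 / 4 : ℝ) ≤ ‖ContinuousLinearMap.id ℂ (Hp 4) - K0H 4‖ := by
  have hφ := goldenRatio_sq
  set φ := Real.goldenRatio with hφdef
  have hφ1 : 1 < φ := Real.one_lt_goldenRatio
  have hφ0 : 0 ≤ φ := by linarith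
  -- `R = sqrt(2 φ³)`, `a = φ²/R`
  set R := Real.sqrt (2 * φ ^ 3) with hR
  have hR2 : R ^ 2 = 2 * φ ^ 3 := Real.sq_sqrt (by positivity)
  have hRpos : 0 < R := Real.sqrt_pos.mpr (by positivity)
  set a : ℝ := φ ^ 2 / R with ha
  have haR : a * R = φ ^ 2 := by rw [ha]; field_simp
  have ha0 : 0 < a := by rw [ha]; positivity
  have ha1 : a < 1 := by
    have h1 : a ^ 2 * R ^ 2 = φ ^ 4 := by
      calc a ^ 2 * R ^ 2 = (a * R) ^ 2 := by ring
        _ = φ ^ 4 := by rw [haR]; ring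
    rw [hR2] at h1
    have h2 : a ^ 2 * 2 = φ := by
      have h3 : φ ^ 3 ≠ 0 := by positivity
      have h4 : (a ^ 2 * 2) * φ ^ 3 = φ * φ ^ 3 := by linarith [h1]
      exact mul_right_cancel₀ h3 h4
    have h5 : φ < 2 := Real.goldenRatio_lt_two
    nlinarith
  have haC : ‖(a : ℂ)‖ < 1 := by
    rw [Complex.norm_real, Real.norm_of_nonneg ha0.le]; exact ha1
  let F : ℂ → ℂ := fun w => -(φ : ℂ) + R * mob (a : ℂ) w
  have hFd : DiffContOnCl ℂ F (ball 0 1) := by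
    have hH : Differentiable ℂ (fun v : ℂ => -(φ : ℂ) + R * v) := by fun_prop
    exact hH.comp_diffContOnCl (diffContOnCl_mob haC)
  have hFc : Continuous fun x => F (z x) := by
    have h1 : Continuous fun x => mob (a : ℂ) (z x) :=
      continuous_subtype_val.comp (continuous_mobC haC)
    exact continuous_const.add (continuous_const.mul h1)
  have hF0 : F 0 = 1 := by
    change -(φ : ℂ) + R * mob (a : ℂ) 0 = 1
    rw [mob_zero]
    have : (R : ℂ) * a = ((φ ^ 2 : ℝ) : ℂ) := by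
      rw [← haR]; push_cast; ring
    rw [this, hφ]
    push_cast
    ring
  let G : C(Circ, ℂ) := ⟨fun x => F (z x), hFc⟩
  have hcirc : ∀ x, ‖F (z x) + φ * F 0‖ ^ 2 = 2 * φ ^ 3 * ‖F 0‖ ^ 2 := by
    intro x
    rw [hF0]
    have h1 : F (z x) + φ * 1 = R * mob (a : ℂ) (z x) := by
      change -(φ : ℂ) + R * mob (a : ℂ) (z x) + φ * 1 = _
      ring
    rw [h1, norm_mul, norm_mob_eq_one haC (norm_z x), Complex.norm_real,
      Real.norm_of_nonneg hRpos.le, mul_one, hR2]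
    simp
  have e : ∀ v : ℂ, ‖v‖ ^ (4 : ℝ) = ‖v‖ ^ 4 := fun v => by
    rw [← Real.rpow_natCast]; norm_num
  have hpt : ∀ x, φ * ‖F (z x)‖ ^ 4 - ‖F (z x) - F 0‖ ^ 4
      = -4 * φ ^ 2 * ((F (z x) ^ 2 * conj (F 0) ^ 2).re / 2
        - φ ^ 2 * ‖F 0‖ ^ 2 * (F (z x) * conj (F 0)).re) - 2 * φ ^ 5 * ‖F 0‖ ^ 4 := by
    intro x
    rw [four_identity φ hφ, hcirc x, sub_self]
    ring
  have hint := four_integral hφ hFd hFc
  have h1 : ∫ x, (φ * ‖F (z x)‖ ^ 4 - ‖F (z x) - F 0‖ ^ 4) ∂sigma = 0 := by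
    rw [← hint]
    exact integral_congr_ae (Eventually.of_forall hpt)
  have h2 : ∫ x, (φ * ‖F (z x)‖ ^ 4 - ‖F (z x) - F 0‖ ^ 4) ∂sigma
      = φ * ∫ x, ‖F (z x)‖ ^ 4 ∂sigma - ∫ x, ‖F (z x) - F 0‖ ^ 4 ∂sigma := by
    rw [integral_sub, integral_const_mul]
    · exact integrable_of_continuous (continuous_const.mul (hFc.norm.pow 4))
    · exact integrable_of_continuous ((hFc.sub continuous_const).norm.pow 4)
  have hpos : 0 < ∫ x, ‖F (z x)‖ ^ 4 ∂sigma := by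
    -- `|F| ≥ R - φ > 0` on the circle
    have hRφ : φ < R := by
      have : φ ^ 2 < R ^ 2 := by rw [hR2]; nlinarith [pow_pos (by linarith : (0 : ℝ) < φ) 2]
      exact lt_of_pow_lt_pow_left₀ 2 hRpos.le this
    have hlow : ∀ x, (R - φ) ^ 4 ≤ ‖F (z x)‖ ^ 4 := by
      intro x
      have h3 : R - φ ≤ ‖F (z x)‖ := by
        have h4 : ‖(R : ℂ) * mob (a : ℂ) (z x)‖ = R := by
          rw [norm_mul, norm_mob_eq_one haC (norm_z x), Complex.norm_real,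
            Real.norm_of_nonneg hRpos.le, mul_one]
        have h5 : (R : ℂ) * mob (a : ℂ) (z x) = F (z x) + φ := by
          change _ = -(φ : ℂ) + R * mob (a : ℂ) (z x) + φ
          ring
        have h6 : ‖F (z x) + φ‖ ≤ ‖F (z x)‖ + φ := by
          refine (norm_add_le _ _).trans ?_
          rw [Complex.norm_real, Real.norm_of_nonneg hφ0]
        rw [← h5, h4] at h6
        linarith
      exact pow_le_pow_left₀ (by linarith) h3 4
    have h7 : ∫ x : Circ, (R - φ) ^ 4 ∂sigma ≤ ∫ x, ‖F (z x)‖ ^ 4 ∂sigma :=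
      integral_mono (integrable_const _) (integrable_of_continuous (hFc.norm.pow 4)) hlow
    have h8 : ∫ x : Circ, (R - φ) ^ 4 ∂sigma = (R - φ) ^ 4 := by simp
    rw [h8] at h7
    have : 0 < (R - φ) ^ 4 := by
      have : 0 < R - φ := by linarith
      positivity
    linarith
  refine le_norm_sub_K0H (p := 4) (by norm_num) (Real.rpow_nonneg hφ0 _) hFd G (fun x => rfl)
    ?_ ?_
  · rw [toReal_four]
    simp only [e]
    exact hpos
  · rw [toReal_four, rpow_quarter φ hφ0]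
    simp only [e]
    change φ * ∫ x, ‖F (z x)‖ ^ 4 ∂sigma ≤ ∫ x, ‖F (z x) - F 0‖ ^ 4 ∂sigma
    linarith

/-- The exact constant of `H^4`. -/
theorem bcapConstant_four : bcapConstant (Hp 4) = ENNReal.ofReal (Real.goldenRatio ^ (1 / 4 : ℝ)) :=
  enorm_sub_K0H_eq (by norm_num) (le_antisymm four_upper four_lower)

end Pool.Agent.MP_984ac2_an
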